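import Pool.Agent.Helper96.K4.Chk

/-!
# Certificate trees for `k = 4` (written by helper26's program)
-/

set_option autoImplicit false

namespace Pool.Agent.Helper96.K4

def A0 : Tr := .n 459 [] (.n 71 [] .w (.n 109 [] .w (.n 67 [] .w (.n 43 [] .w (.n 396 [] .w (.n 232 [] .w (.n 533 [] .w (.n 264 [] .w (.n 64 [] .w (.n 113 [] .w (.f [(396, 2), (71, 3), (232, 2), (67, 3), (533, 2), (113, 1), (43, 2), (109, 1), (264, 2), (64, 2)] []))))))))))) (.n 334 [] (.n 342 [] .w (.n 483 [] .w (.n 495 [] .w (.n 442 [] .w (.n 238 [] .w (.n 197 [] .w (.n 297 [] .w (.n 466 [] .w (.n 321 [] .w (.n 438 [] .w (.n 534 [] (.n 565 [] .w (.n 164 [] .w (.n 514 [] .w (.n 288 [] .w (.n 68 [] .w (.n 96 [] .w (.n 541 [] .w (.n 545 [] .w (.n 357 [] .w (.f [(565, 4), (545, 4), (541, 2), (96, 27), (357, 29), (288, 5), (68, 25), (459, 2), (514, 8), (164, 18)] [])))))))))) (.f [(495, 4), (466, 12), (321, 11), (612, 2), (442, 1), (342, 11),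 (297, 2), (197, 7), (483, 1), (438, 5), (238, 17), (534, 22), (459, 1)] [])))))))))))) (.n 471 [] (.n 616 [] .w (.n 197 [] .w (.n 393 [] .w (.n 408 [] .w (.n 371 [] .w (.n 542 [] .w (.n 308 [] .w (.n 89 [] .w (.n 69 [] .w (.n 242 [] .w (.n 389 [] .w (.f [(616, 23), (371, 22), (542, 17), (242, 8), (197, 32), (408, 36), (308, 18), (393, 3), (389, 1), (89, 53), (69, 3)] [])))))))))))) (.n 158 [] (.n 167 [] (.n 583 [] (.n 342 [] .w (.n 495 [] .w (.n 442 [] .w (.n 434 [] .w (.n 238 [] .w (.n 197 [] .w (.n 463 [] .w (.n 422 [] .w (.n 321 [] .w (.n 466 [] .w (.n 534 [] (.n 109 [] .w (.n 171 [] .w (.n 288 [] .w (.n 68 [] .w (.n 420 [] .w (.n 96 [] .w (.n 233 [] .w (.n 517 [] .w (.n 465 [] .w (.n 209 [] .w (.n 357 [] .w (.n 64 [] .w (.f [(465, 9), (420, 3), (171, 34), (96, 68), (357, 46), (517, 56), (233, 8), (288, 54), (68, 40), (209, 14), (109, 37), (64, 51)] []))))))))))))) (.f [(495, 4), (466, 13), (321, 18),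 (612, 2), (442, 5), (342, 14), (422, 3), (197, 7), (608, 1), (463, 5), (238, 25), (534, 29), (434, 2)] [])))))))))))) (.n 463 [] (.n 97 [] .w (.n 238 [] .w (.n 164 [] .w (.n 362 [] .w (.n 196 [] .w (.n 341 [] .w (.n 482 [] .w (.n 441 [] .w (.n 514 [] .w (.n 284 [] .w (.n 296 [] .w (.n 518 [] .w (.f [(441, 41), (341, 3), (296, 9), (196, 18), (482, 19), (362, 8), (97, 44), (583, 12), (238, 32), (518, 27), (284, 40), (514, 21), (164, 10)] []))))))))))))) (.n 346 [] (.n 309 [] .w (.n 467 [] .w (.n 189 [] .w (.n 367 [] .w (.n 313 [] .w (.n 458 [] .w (.n 571 [] .w (.n 616 [] .w (.n 289 [] .w (.n 479 [] .w (.n 422 [] .w (.n 208 [] (.n 114 [] .w (.n 442 [] .w (.n 222 [] .w (.n 546 [] .w (.n 491 [] .w (.n 413 [] .w (.n 242 [] .w (.n 591 [] .w (.f [(591, 3), (491, 1), (546, 7), (442, 1), (242, 6), (222, 4), (458, 4), (413, 4), (313, 3), (309, 7), (114, 4)] []))))))))) (.f [(616, 18), (571, 8), (471, 2), (612, 2), (467,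 5), (367, 4), (422, 17), (208, 21), (313, 7), (479, 4), (309, 6), (289, 11), (189, 7)] []))))))))))))) (.n 467 [] (.n 213 [] .w (.n 309 [] .w (.n 114 [] .w (.n 189 [] .w (.n 367 [] .w (.n 546 [] .w (.n 209 [] .w (.n 413 [] .w (.n 446 [] .w (.n 433 [] .w (.f [(546, 13), (446, 5), (592, 4), (367, 14), (433, 7), (413, 5), (213, 6), (309, 3), (209, 8), (189, 3), (114, 4)] []))))))))))) (.n 171 [] (.n 159 [] (.n 183 [] (.n 571 [] .w (.n 283 [] (.n 466 [] (.n 358 [] .w (.n 538 [] .w (.n 458 [] .w (.n 189 [] .w (.n 534 [] .w (.n 94 [] .w (.n 289 [] .w (.n 567 [] .w (.n 242 [] .w (.n 446 [] .w (.f [(446, 26), (346, 23), (612, 4), (567, 10), (242, 35), (458, 22), (358, 10), (538, 17), (534, 17), (289, 15), (189, 13), (94, 4)] []))))))))))) (.n 237 [] (.n 322 [] .w (.n 533 [] (.n 342 [] .w (.n 414 [] .w (.n 446 [] .w (.n 338 [] .w (.n 164 [] (.n 358 [] .w (.n 197 [] .w (.n 546 [] .w (.n 566 [] .w (.n 579 [] .w (.n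 242 [] .w (.f [(566, 13), (466, 12), (546, 12), (612, 2), (342, 6), (242, 5), (197, 24), (583, 6), (358, 30), (338, 1), (579, 4), (414, 25), (214, 8)] []))))))) (.f [(446, 1), (612, 1), (342, 1), (583, 1), (164, 1)] [(587, 1)])))))) (.f [(466, 1), (612, 1), (322, 1), (533, 1), (214, 1)] [(587, 1)]))) (.f [(466, 1), (571, 1), (237, 2), (583, 1), (539, 1)] [(611, 1), (587, 1)]))) (.f [(571, 1), (612, 1), (467, 1), (283, 1), (214, 1)] [(587, 1)]))) (.f [(346, 1), (612, 1), (467, 1), (183, 1), (539, 1)] [(587, 1)])) (.f [(346, 1), (612, 1), (467, 1), (563, 1), (159, 1)] [(587, 1)])) (.f [(171, 1), (612, 1), (467, 1), (563, 1), (334, 1)] [(587, 1)])))))) (.f [(471, 1), (612, 1), (167, 1), (563, 1), (334, 1)] [(587, 1)])) (.f [(471, 1), (612, 1), (592, 1), (158, 2)] [(587, 1)]))))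

def A1 : Tr := .n 542 [] (.n 607 [] (.n 538 [] .w (.n 409 [] .w (.n 338 [] .w (.n 238 [] .w (.n 94 [] .w (.n 583 [] .w (.n 321 [] .w (.n 438 [] .w (.n 491 [] .w (.n 398 [] .w (.n 242 [] .w (.n 591 [] .w (.f [(591, 2), (491, 2), (321, 40), (587, 16), (242, 28), (583, 12), (538, 11), (438, 3), (338, 1), (238, 13), (398, 4), (409, 32), (94, 12)] []))))))))))))) (.n 293 [] (.n 438 [] .w (.n 342 [] .w (.n 534 [] .w (.n 242 [] .w (.n 546 [] (.n 39 [] .w (.n 179 [] .w (.n 212 [] .w (.n 72 [] .w (.n 279 [] .w (.n 92 [] .w (.n 116 [] .w (.n 96 [] .w (.n 159 [] .w (.n 508 [] .w (.n 259 [] .w (.n 388 [] .w (.f [(116, 7), (96, 3), (212, 2), (92, 2), (72, 6), (508, 5), (388, 5), (279, 3), (179, 1), (259, 2), (159, 2), (39, 2)] []))))))))))))) (.f [(546, 1), (342, 1), (242, 1), (438, 1), (534, 1)] [(542, 1)])))))) (.f [(607, 1), (293, 1)] [(542, 1), (358, 1)]))) (.n 322 [] (.n 562 [] .w (.n 371 [] .w (.f [(371, 1), (562,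 1)] [(611, 1), (322, 1)]))) (.n 247 [] (.n 603 [] .w (.n 582 [] .w (.n 114 [] .w (.n 458 [] .w (.n 417 [] .w (.n 441 [] .w (.n 164 [] .w (.n 321 [] .w (.n 209 [] .w (.n 193 [] .w (.f [(441, 1), (321, 9), (582, 5), (417, 5), (603, 4), (458, 3), (193, 3), (209, 1), (164, 5), (114, 4)] []))))))))))) (.n 139 [] (.n 271 [] (.n 371 [] (.n 334 [] .w (.n 123 [] .w (.n 409 [] .w (.n 313 [] .w (.n 238 [] .w (.n 571 [] .w (.n 197 [] .w (.n 297 [] .w (.n 582 [] .w (.n 471 [] .w (.n 317 [] .w (.n 479 [] .w (.n 591 [] .w (.f [(591, 57), (571, 26), (471, 13), (582, 12), (317, 35), (297, 30), (197, 19), (313, 16), (238, 76), (123, 4), (479, 16), (409, 66), (334, 14)] [])))))))))))))) (.n 407 [] (.n 59 [] (.n 116 [] (.n 607 [] (.n 222 [] .w (.n 196 [] (.n 214 [] .w (.n 184 [] (.n 538 [] .w (.n 193 [] .w (.n 346 [] .w (.n 192 [] (.n 562 [] .w (.n 409 [] .w (.n 313 [] .w (.n 246 [] .w (.n 441 [] .w (.n 558 [] .w (.n 522 []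 .w (.n 366 [] .w (.n 413 [] .w (.f [(441, 2), (366, 13), (246, 1), (562, 1), (522, 8), (222, 7), (558, 7), (413, 5), (313, 3), (193, 1), (409, 9), (214, 7)] [])))))))))) (.f [(346, 1), (192, 1), (483, 1), (538, 1), (359, 1)] [(358, 1)]))))) (.f [(371, 1), (587, 1), (542, 1), (483, 1), (184, 1)] [(607, 1)]))) (.f [(196, 1), (587, 1), (542, 1), (483, 1), (359, 1)] [(607, 1)]))) (.n 174 [] (.n 595 [] .w (.n 538 [] .w (.n 317 [] .w (.n 346 [] .w (.n 214 [] .w (.n 246 [] .w (.n 534 [] .w (.n 546 [] .w (.n 479 [] .w (.n 414 [] .w (.n 446 [] .w (.f [(595, 4), (546, 1), (446, 1), (346, 1), (246, 25), (317, 12), (538, 12), (479, 4), (534, 12), (414, 8), (214, 8)] [(611, 16), (174, 20)])))))))))))) (.n 583 [] (.n 459 [] .w (.n 338 [] .w (.n 193 [] .w (.n 546 [] .w (.f [(546, 1), (607, 1), (338, 1), (193, 1), (459, 1)] [(583, 1)]))))) (.n 198 [] (.n 341 [] .w (.n 189 [] .w (.n 541 [] .w (.n 533 [] .w (.n 234 [] .w (.n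 470 [] .w (.n 370 [] .w (.n 437 [] .w (.n 242 [] .w (.f [(470, 2), (370, 2), (541, 1), (341, 2), (437, 2), (242, 1), (533, 3), (234, 1), (189, 2)] [])))))))))) (.n 291 [] (.n 463 [] .w (.n 279 [] (.n 367 [] .w (.n 162 [] (.n 39 [] (.n 471 [] .w (.n 163 [] (.n 559 [] .w (.n 88 [] (.n 571 [] .w (.n 383 [] (.n 42 [] (.n 459 [] .w (.n 46 [] (.n 391 [] (.n 259 [] (.n 616 [] .w (.n 179 [] (.n 318 [] .w (.n 171 [] (.n 524 [] .w (.n 442 [] .w (.n 239 [] .w (.n 159 [] (.n 342 [] .w (.n 222 [] .w (.n 418 [] .w (.n 408 [] (.n 194 [] .w (.n 124 [] .w (.n 294 [] .w (.n 487 [] .w (.n 187 [] (.n 287 [] (.n 604 [] .w (.n 591 [] .w (.n 388 [] (.n 314 [] .w (.n 346 [] .w (.n 446 [] .w (.n 168 [] (.n 466 [] .w (.n 538 [] .w (.n 246 [] .w (.n 562 [] .w (.f [(466, 1), (246, 1), (562, 1), (538, 1), (359, 1)] [(611, 1)]))))) (.f [(591, 1), (446, 20), (346, 20), (607, 28), (587, 6), (487, 7), (463, 2), (168, 39), (604, 4), (459,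 12), (539, 2), (314, 21), (239, 2)] []))))) (.f [(371, 1), (607, 1), (542, 1), (222, 1), (388, 4), (359, 2), (194, 1)] [(611, 2), (358, 1)])))) (.f [(616, 10), (571, 7), (471, 21), (371, 2), (607, 3), (287, 37), (583, 19), (483, 18), (198, 3), (239, 3), (194, 30), (174, 3), (124, 4)] [])) (.f [(616, 7), (471, 18), (371, 12), (607, 3), (187, 34), (583, 18), (418, 19), (559, 2), (359, 14), (539, 3), (294, 11), (524, 4), (174, 3)] [])))))) (.f [(371, 1), (342, 1), (408, 2), (239, 1)] [(358, 1)]))))) (.f [(616, 8), (571, 1), (371, 33), (587, 17), (542, 3), (442, 22), (583, 4), (563, 5), (463, 20), (318, 9), (198, 4), (159, 38), (524, 4)] []))))) (.f [(171, 1), (587, 1), (483, 1), (318, 1), (359, 1)] [(358, 1)]))) (.f [(471, 1), (607, 1), (542, 3), (483, 1), (463, 1), (363, 2), (179, 4)] [(611, 1)]))) (.f [(471, 8), (587, 2), (542, 33), (247, 9), (463, 11), (363, 7), (243, 5), (198, 21), (259, 56)] [(279, 12)]))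 (.f [(391, 12), (607, 4), (587, 4), (322, 2), (363, 5), (198, 5), (539, 2), (339, 3), (174, 5)] [(611, 2)])) (.f [(46, 12), (607, 3), (587, 5), (467, 2), (583, 1), (363, 2), (243, 7), (439, 5), (339, 2), (319, 3)] [(611, 2)]))) (.f [(42, 4), (359, 1), (339, 1)] [(291, 2)])) (.f [(371, 7), (367, 23), (322, 8), (383, 60), (339, 10), (319, 2), (174, 10)] [(358, 20)]))) (.f [(371, 1), (607, 1), (542, 1), (88, 4), (559, 1), (359, 1)] [(611, 3), (358, 2)]))) (.f [(471, 1), (607, 1), (163, 2), (359, 1)] [(358, 1)]))) (.f [(371, 10), (607, 25), (467, 18), (322, 1), (583, 4), (483, 5), (343, 12), (198, 23), (39, 44)] [(611, 6)])) (.f [(371, 1), (162, 2), (583, 1), (483, 1), (359, 1)] [(358, 2)]))) (.f [(607, 3), (467, 1), (463, 2), (243, 1), (198, 2), (279, 4)] [(358, 1)]))) (.f [(291, 1), (587, 1), (483, 1), (198, 1), (359, 1)] [(358, 1)])))))) (.f [(116, 4), (587, 1), (563, 1), (363, 2), (539, 1)] [(611, 3), (358,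 2)])) (.f [(542, 2), (467, 1), (247, 1), (363, 3), (423, 1), (223, 1), (59, 4)] [(358, 1)])) (.f [(371, 1), (407, 2), (243, 1), (339, 1)] [(358, 1)]))) (.f [(271, 4), (587, 2), (542, 1), (483, 1), (243, 3), (539, 1), (439, 2)] [(611, 1), (358, 1)])) (.f [(596, 12), (542, 20), (322, 13), (483, 25), (563, 1), (343, 5), (139, 32)] [(611, 8)]))))

def A2 : Tr := .n 542 [] (.n 367 [] .w (.n 239 [] .w (.n 216 [] (.n 414 [] (.n 582 [] .w (.n 114 [] .w (.n 482 [] .w (.n 546 [] .w (.n 294 [] .w (.n 233 [] .w (.n 118 [] .w (.n 321 [] .w (.n 462 [] .w (.n 209 [] .w (.n 193 [] .w (.n 433 [] .w (.f [(546, 4), (321, 3), (582, 2), (482, 1), (462, 4), (433, 1), (233, 2), (193, 3), (118, 1), (209, 1), (114, 3), (294, 3)] []))))))))))))) (.n 196 [] (.n 434 [] .w (.n 296 [] (.n 214 [] .w (.n 318 [] .w (.n 303 [] (.n 487 [] .w (.n 316 [] (.n 294 [] .w (.n 159 [] (.n 183 [] (.n 567 [] .w (.n 283 [] (.n 342 [] .w (.n 222 [] .w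 (.n 322 [] .w (.n 44 [] (.n 571 [] .w (.n 534 [] .w (.n 242 [] .w (.n 413 [] (.n 562 [] .w (.n 337 [] .w (.n 246 [] .w (.n 173 [] .w (.n 233 [] .w (.n 394 [] .w (.n 118 [] .w (.n 193 [] .w (.n 357 [] .w (.n 446 [] .w (.n 591 [] .w (.f [(591, 9), (446, 33), (246, 15), (357, 7), (562, 5), (337, 45), (233, 12), (193, 16), (118, 20), (173, 9), (534, 38), (414, 7), (394, 12)] [])))))))))))) (.f [(571, 1), (342, 1), (242, 1), (413, 1), (534, 1)] [(542, 1)]))))) (.f [(471, 4), (607, 16), (587, 6), (322, 6), (222, 21), (358, 15), (438, 25), (44, 40)] [(542, 9)]))))) (.f [(616, 1), (471, 1), (567, 2), (247, 1), (283, 3), (214, 1)] [(542, 1)]))) (.f [(616, 1), (471, 1), (587, 1), (487, 1), (547, 1), (183, 2), (294, 2)] [(542, 1)])) (.f [(616, 1), (471, 1), (587, 1), (367, 1), (547, 1), (438, 1), (318, 1), (159, 2)] [(542, 1)]))) (.f [(316, 1), (607, 1), (547, 1), (218, 1), (414, 1)] [(542, 1)]))) (.f [(616, 2), (607,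 2), (547, 1), (247, 1), (303, 4), (414, 2), (214, 2)] [(611, 2)])))) (.f [(616, 1), (296, 2), (607, 1), (587, 1), (438, 1), (218, 1), (434, 1), (239, 1)] [(611, 1)]))) (.f [(616, 1), (196, 1), (587, 1), (358, 1), (414, 1)] [(611, 1)]))) (.f [(216, 2), (607, 1), (547, 1), (438, 1), (539, 1)] [(611, 1), (542, 1)])))) (.n 64 [] (.n 239 [] (.n 334 [] .w (.n 538 [] .w (.n 317 [] .w (.n 458 [] .w (.n 534 [] .w (.n 558 [] .w (.n 462 [] .w (.n 414 [] .w (.n 604 [] .w (.n 591 [] .w (.n 246 [] (.n 532 [] .w (.n 288 [] .w (.n 416 [] .w (.n 509 [] .w (.n 453 [] .w (.n 192 [] .w (.n 553 [] .w (.n 332 [] .w (.n 149 [] .w (.f [(416, 52), (532, 7), (332, 90), (192, 27), (553, 54), (453, 54), (288, 16), (509, 45), (149, 79)] [])))))))))) (.f [(591, 1), (246, 21), (462, 6), (317, 16), (558, 6), (458, 5), (538, 7), (218, 4), (604, 4), (534, 4), (334, 6), (414, 11)] [(239, 3)])))))))))))) (.n 416 [] (.n 167 [] (.n 459 [] .w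 (.n 216 [] (.n 419 [] .w (.n 198 [] (.n 571 [] .w (.n 238 [] (.n 421 [] .w (.n 432 [] .w (.n 329 [] .w (.n 246 [] .w (.n 169 [] .w (.n 312 [] .w (.n 509 [] .w (.n 412 [] .w (.n 408 [] .w (.n 566 [] .w (.n 518 [] .w (.n 389 [] .w (.f [(566, 8), (421, 5), (246, 44), (432, 11), (412, 21), (312, 25), (408, 17), (518, 28), (218, 12), (329, 32), (509, 21), (389, 3), (169, 1)] []))))))))))))) (.f [(571, 1), (238, 1)] [(611, 1), (198, 1)]))) (.n 287 [] (.n 264 [] (.n 571 [] (.n 538 [] .w (.n 313 [] .w (.n 562 [] .w (.n 371 [] .w (.n 519 [] .w (.n 174 [] .w (.n 414 [] .w (.n 242 [] .w (.n 433 [] .w (.n 209 [] (.n 212 [] .w (.n 278 [] .w (.n 164 [] .w (.n 503 [] .w (.n 67 [] .w (.n 96 [] .w (.n 379 [] .w (.n 227 [] .w (.n 19 [] .w (.n 307 [] .w (.f [(96, 11), (227, 16), (307, 13), (212, 5), (67, 3), (503, 25), (278, 12), (379, 25), (164, 4), (19, 8)] []))))))))))) (.f [(616, 2), (471, 14), (371, 22), (562, 6), (542,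 19), (242, 13), (433, 15), (538, 7), (313, 16), (209, 23), (414, 9), (519, 4), (174, 2)] []))))))))))) (.n 303 [] (.n 467 [] .w (.n 96 [] (.n 367 [] .w (.n 396 [] (.n 108 [] (.n 159 [] (.n 407 [] (.n 214 [] (.n 538 [] .w (.n 346 [] .w (.n 194 [] .w (.n 534 [] .w (.n 562 [] .w (.n 119 [] .w (.n 579 [] .w (.n 433 [] .w (.n 414 [] .w (.n 242 [] .w (.n 446 [] .w (.n 591 [] .w (.f [(591, 1), (446, 4), (346, 153), (562, 37), (242, 121), (433, 102), (538, 56), (579, 4), (534, 55), (414, 47), (239, 17), (194, 15), (119, 20)] []))))))))))))) (.n 296 [] (.n 541 [] (.n 487 [] .w (.n 204 [] (.n 524 [] .w (.n 338 [] .w (.n 196 [] (.n 124 [] .w (.n 434 [] .w (.n 458 [] .w (.n 221 [] (.n 442 [] .w (.n 418 [] .w (.n 294 [] .w (.n 414 [] .w (.n 604 [] .w (.n 232 [] (.n 538 [] .w (.n 371 [] .w (.n 441 [] (.n 562 [] .w (.n 313 [] .w (.n 238 [] .w (.n 479 [] .w (.n 433 [] .w (.n 209 [] (.n 309 [] .w (.n 557 [] .w (.n 337 []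 .w (.n 246 [] .w (.n 169 [] .w (.n 514 [] .w (.n 546 [] .w (.n 393 [] .w (.n 217 [] .w (.n 533 [] .w (.n 437 [] .w (.n 457 [] .w (.f [(546, 4), (246, 11), (557, 2), (457, 2), (437, 2), (337, 8), (217, 1), (533, 4), (393, 11), (309, 7), (514, 5), (169, 3)] []))))))))))))) (.f [(616, 1), (571, 4), (471, 11), (371, 21), (562, 2), (542, 30), (442, 5), (433, 10), (313, 16), (238, 11), (479, 4), (209, 26), (414, 7)] []))))))) (.f [(441, 1), (371, 1), (607, 1), (538, 1), (214, 1)] [(611, 1)])))) (.f [(616, 1), (571, 22), (471, 6), (232, 24), (542, 2), (442, 3), (338, 18), (418, 11), (604, 4), (434, 4), (414, 5), (214, 5), (294, 11)] []))))))) (.f [(616, 4), (221, 44), (487, 9), (542, 39), (458, 1), (358, 31), (438, 16), (434, 16), (539, 4), (314, 16), (214, 3), (419, 5), (124, 4)] []))))) (.f [(616, 8), (196, 63), (487, 22), (542, 49), (358, 39), (438, 3), (338, 29), (459, 32), (539, 6), (314, 3), (214, 8), (419,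 14), (524, 8)] [])))) (.f [(571, 2), (487, 2), (542, 4), (358, 3), (438, 2), (204, 5)] [(611, 1), (577, 1)]))) (.f [(541, 2), (471, 1), (607, 1), (247, 1), (358, 1), (438, 1), (314, 1), (214, 1)] [(611, 1)])) (.f [(616, 1), (296, 1), (607, 1), (438, 1), (214, 1)] [(611, 1)]))) (.f [(616, 1), (571, 2), (407, 2), (358, 1), (218, 1), (314, 1), (239, 1)] [(611, 1)])) (.f [(616, 1), (571, 1), (471, 1), (587, 1), (367, 1), (358, 1), (438, 1), (159, 2)] [(611, 1)])) (.f [(571, 1), (587, 1), (542, 1), (108, 4)] [(611, 3)])) (.f [(396, 48), (607, 2), (587, 10), (542, 29), (358, 18), (438, 4), (218, 19), (314, 25), (239, 16)] [(611, 7)]))) (.f [(96, 20), (542, 15), (467, 1), (358, 4), (438, 9), (218, 3), (314, 7), (239, 8), (419, 1)] [(611, 4)]))) (.f [(471, 2), (607, 2), (542, 2), (303, 4), (539, 1), (239, 3)] [(611, 2)]))) (.f [(471, 1), (607, 2), (542, 2), (358, 1), (218, 1), (198, 2), (264, 4)] [(611, 1)])) (.f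 [(616, 2), (471, 2), (287, 3), (358, 1), (218, 1), (198, 1), (559, 2), (239, 1)] [(611, 1)])))) (.f [(216, 2), (607, 1), (438, 1), (539, 1)] [(611, 1)]))) (.f [(616, 1), (471, 3), (167, 3), (358, 2), (438, 1), (559, 1), (539, 1), (314, 1)] [(416, 1)])) (.f [(416, 2), (587, 1), (358, 1), (239, 1)] [(611, 1)]))) (.f [(471, 1), (542, 3), (247, 1), (358, 3), (218, 1), (64, 4)] [(611, 1)]))

def A3 : Tr := .n 547 [] (.n 342 [] .w (.n 558 [] .w (.n 371 [] .w (.n 471 [] .w (.n 487 [] .w (.n 414 [] .w (.n 164 [] (.n 213 [] .w (.n 346 [] .w (.n 491 [] .w (.n 362 [] .w (.n 442 [] .w (.n 482 [] .w (.n 571 [] .w (.n 534 [] .w (.n 418 [] .w (.n 579 [] .w (.n 193 [] .w (.n 242 [] .w (.f [(491, 1), (571, 10), (346, 18), (482, 13), (362, 11), (442, 1), (242, 4), (213, 7), (418, 4), (193, 18), (579, 4), (534, 15), (414, 10)] []))))))))))))) (.f [(616, 1), (471, 1), (371, 1), (487, 1), (342, 1), (558, 2), (164, 2)] [(611,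 1)])))))))) (.n 596 [] (.n 333 [] .w (.n 169 [] .w (.n 534 [] .w (.n 99 [] .w (.n 289 [] .w (.n 462 [] .w (.n 422 [] .w (.n 234 [] .w (.n 413 [] .w (.n 433 [] .w (.n 197 [] (.n 532 [] .w (.n 246 [] .w (.n 304 [] .w (.n 412 [] .w (.n 453 [] .w (.n 366 [] .w (.n 93 [] .w (.n 64 [] .w (.f [(366, 1), (246, 3), (532, 3), (412, 1), (453, 2), (93, 2), (304, 2), (64, 2)] []))))))))) (.f [(616, 158), (462, 52), (422, 15), (197, 123), (433, 59), (333, 86), (413, 45), (534, 13), (234, 24), (289, 85), (169, 24), (99, 44)] [])))))))))))) (.n 162 [] (.n 607 [] (.n 496 [] .w (.n 447 [] .w (.n 239 [] .w (.n 416 [] (.n 159 [] (.n 567 [] .w (.n 367 [] .w (.n 167 [] (.n 471 [] .w (.n 108 [] (.n 322 [] .w (.n 198 [] .w (.n 283 [] (.n 214 [] .w (.n 218 [] .w (.n 571 [] .w (.n 412 [] (.n 39 [] (.n 434 [] .w (.n 241 [] (.n 422 [] .w (.n 184 [] (.n 534 [] .w (.n 491 [] .w (.n 197 [] (.n 267 [] .w (.n 139 [] .w (.n 395 [] .w (.n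 503 [] .w (.f [(395, 1), (267, 1), (503, 1), (139, 1)] []))))) (.f [(491, 1), (587, 1), (197, 1), (358, 1), (534, 1)] [(607, 1)])))) (.f [(616, 1), (587, 1), (422, 1), (358, 1), (184, 1)] [(607, 1)]))) (.f [(241, 1), (587, 1), (547, 1), (358, 1), (434, 1)] [(607, 1)]))) (.f [(471, 21), (567, 24), (322, 2), (247, 10), (358, 23), (218, 11), (198, 2), (39, 36)] [(611, 1)])) (.f [(616, 1), (571, 1), (412, 1), (358, 1), (214, 1)] [(611, 1)]))))) (.f [(616, 1), (587, 1), (247, 1), (283, 2)] [(607, 1)])))) (.f [(587, 47), (567, 31), (367, 8), (547, 15), (447, 12), (247, 12), (108, 108), (314, 4)] [(611, 12), (607, 69)]))) (.f [(496, 1), (587, 1), (167, 1), (358, 1), (559, 1)] [(607, 1)])))) (.f [(616, 1), (587, 1), (447, 1), (358, 1), (159, 1)] [(607, 1)])) (.f [(416, 2), (587, 1), (358, 1), (239, 1)] [(611, 1)]))))) (.n 471 [] (.n 334 [] .w (.n 214 [] .w (.n 434 [] .w (.n 458 [] .w (.n 198 [] .w (.n 294 [] .w (.n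 487 [] .w (.n 414 [] .w (.n 167 [] (.n 238 [] .w (.n 307 [] (.n 234 [] .w (.n 538 [] .w (.n 63 [] (.n 72 [] (.n 462 [] .w (.n 44 [] (.n 342 [] .w (.n 409 [] .w (.n 362 [] .w (.n 313 [] .w (.n 189 [] .w (.n 399 [] .w (.n 322 [] .w (.n 289 [] .w (.n 209 [] .w (.n 408 [] (.n 317 [] .w (.n 333 [] .w (.n 293 [] .w (.n 337 [] .w (.n 169 [] .w (.n 571 [] .w (.n 233 [] .w (.n 478 [] .w (.n 542 [] .w (.n 394 [] .w (.n 193 [] .w (.f [(571, 48), (337, 48), (542, 6), (317, 2), (478, 24), (333, 3), (233, 27), (293, 1), (193, 1), (409, 18), (394, 12), (169, 26)] [])))))))))))) (.f [(616, 17), (596, 12), (362, 4), (342, 12), (322, 6), (247, 7), (408, 25), (313, 4), (209, 4), (289, 3), (189, 18), (399, 4)] []))))))))))) (.f [(596, 1), (607, 1), (462, 3), (358, 2), (198, 2), (44, 4)] [(471, 1)]))) (.f [(616, 9), (72, 24), (458, 13), (538, 4), (238, 7), (334, 3), (234, 3), (414, 5), (214, 3), (294, 10)] [(471, 5)])) (.f [(616,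 1), (607, 1), (547, 1), (63, 4)] [(611, 3)])))) (.f [(616, 1), (596, 1), (307, 1), (238, 1), (414, 1)] [(611, 1)]))) (.f [(616, 1), (596, 5), (487, 1), (167, 6), (358, 4), (438, 2), (434, 2), (414, 1), (314, 2), (214, 1)] [(162, 1)])))))))))) (.n 218 [] (.n 571 [] .w (.n 414 [] .w (.n 196 [] (.n 442 [] .w (.n 239 [] .w (.n 164 [] (.n 458 [] .w (.n 558 [] .w (.n 296 [] (.n 591 [] .w (.n 238 [] (.n 317 [] .w (.n 333 [] .w (.n 246 [] .w (.n 222 [] .w (.n 514 [] .w (.n 408 [] .w (.n 466 [] .w (.f [(466, 1), (246, 3), (317, 3), (222, 1), (408, 3), (333, 1), (514, 4)] [])))))))) (.f [(591, 1), (238, 1)] [(611, 1), (218, 1)]))) (.f [(616, 1), (296, 2), (587, 1), (442, 1), (558, 1), (458, 1), (239, 2)] [(611, 1)])))) (.f [(616, 1), (571, 1), (471, 1), (587, 1), (442, 1), (358, 2), (164, 2)] [(611, 1)])))) (.f [(616, 1), (196, 1), (587, 1), (358, 1), (414, 1)] [(611, 1)])))) (.n 163 [] (.n 187 [] (.n 543 [] (.n 333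 [] .w (.n 362 [] .w (.n 246 [] .w (.n 189 [] .w (.n 558 [] .w (.n 94 [] .w (.n 294 [] .w (.n 233 [] .w (.n 422 [] .w (.n 414 [] .w (.n 446 [] .w (.n 591 [] .w (.f [(591, 13), (446, 5), (246, 5), (362, 10), (422, 13), (558, 9), (333, 6), (233, 8), (414, 4), (189, 9), (294, 6), (94, 4)] []))))))))))))) A2) (.f [(616, 1), (471, 1), (187, 1), (358, 1), (539, 1)] [(611, 1)])) (.f [(616, 1), (471, 1), (607, 1), (163, 2)] [(611, 1)]))))) (.f [(616, 1), (596, 1), (162, 2), (358, 1)] [(611, 1)])))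

def A4 : Tr := .n 616 [] (.n 419 [] .w (.n 423 [] .w (.n 459 [] .w (.n 239 [] .w (.n 543 [] .w (.n 43 [] (.n 534 [] (.n 213 [] .w (.n 333 [] .w (.n 346 [] .w (.n 362 [] .w (.n 313 [] .w (.n 119 [] .w (.n 234 [] .w (.n 414 [] .w (.n 446 [] .w (.n 542 [] (.n 477 [] .w (.n 187 [] .w (.n 271 [] .w (.n 83 [] .w (.n 117 [] .w (.n 104 [] .w (.n 307 [] .w (.n 388 [] .w (.n 44 [] .w (.f [(271, 5), (477, 1), (307, 1), (187, 3), (117, 1), (83, 4), (388, 2), (104, 2), (44, 4)] [])))))))))) (.f [(446, 15), (346, 2), (362, 4), (542, 13), (333, 8), (313, 2), (213, 7), (234, 9), (414, 4), (119, 4)] []))))))))))) (.n 263 [] (.n 342 [] (.n 538 [] .w (.n 346 [] .w (.n 313 [] .w (.n 169 [] .w (.n 238 [] .w (.n 607 [] .w (.n 487 [] .w (.n 519 [] .w (.n 446 [] .w (.n 433 [] .w (.f [(446, 6), (346, 19), (607, 13), (587, 5), (487, 7), (433, 12), (538, 3), (313, 6), (238, 4), (519, 4), (169, 21)] []))))))))))) (.n 558 [] (.n 317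 [] .w (.n 169 [] .w (.n 189 [] .w (.n 546 [] .w (.n 119 [] .w (.n 462 [] .w (.n 209 [] .w (.n 193 [] .w (.n 446 [] .w (.f [(546, 10), (446, 2), (462, 9), (317, 3), (358, 8), (193, 4), (534, 1), (209, 3), (189, 3), (169, 1), (119, 4)] [])))))))))) (.n 396 [] (.n 604 [] (.n 213 [] .w (.n 582 [] .w (.n 313 [] .w (.n 417 [] .w (.n 209 [] .w (.n 413 [] .w (.n 519 [] .w (.n 346 [] .w (.n 446 [] .w (.f [(446, 6), (346, 7), (582, 4), (417, 9), (413, 3), (313, 6), (213, 4), (209, 9), (519, 4)] [])))))))))) (.n 538 [] (.n 333 [] .w (.n 362 [] .w (.n 246 [] .w (.n 418 [] .w (.n 217 [] .w (.n 233 [] .w (.n 289 [] .w (.n 462 [] .w (.n 519 [] .w (.n 446 [] .w (.f [(446, 11), (246, 1), (462, 3), (362, 4), (217, 5), (333, 3), (233, 6), (418, 3), (534, 3), (289, 5), (519, 4)] []))))))))))) (.n 596 [] (.n 237 [] .w (.n 554 [] .w (.n 337 [] .w (.n 274 [] .w (.n 417 [] .w (.n 288 [] .w (.n 197 [] .w (.n 394 [] .w (.n 208 []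 .w (.n 437 [] .w (.n 357 [] .w (.f [(621, 64), (357, 26), (437, 15), (337, 20), (237, 13), (417, 42), (197, 28), (208, 83), (288, 61), (554, 60), (394, 67), (274, 17)] [])))))))))))) (.n 487 [] (.n 562 [] .w (.n 292 [] .w (.n 397 [] .w (.n 84 [] .w (.n 509 [] .w (.n 393 [] .w (.n 192 [] .w (.n 296 [] .w (.n 64 [] .w (.n 113 [] .w (.f [(296, 13), (562, 2), (292, 2), (192, 11), (397, 6), (113, 15), (393, 6), (509, 4), (84, 15), (64, 2)] []))))))))))) (.n 196 [] (.n 334 [] .w (.n 194 [] .w (.n 434 [] .w (.n 547 [] .w (.n 167 [] (.n 458 [] .w (.n 179 [] (.n 238 [] .w (.n 322 [] .w (.n 404 [] (.n 234 [] .w (.n 442 [] .w (.n 462 [] .w (.n 118 [] (.n 213 [] .w (.n 409 [] .w (.n 293 [] .w (.n 189 [] .w (.n 371 [] .w (.n 542 [] .w (.n 471 [] .w (.n 209 [] .w (.n 437 [] .w (.n 519 [] .w (.n 433 [] .w (.f [(471, 1), (371, 13), (437, 5), (542, 9), (433, 6), (213, 7), (293, 1), (409, 3), (209, 5), (189, 2), (519, 4)]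 [])))))))))))) (.n 546 [] (.n 562 [] .w (.n 309 [] .w (.n 289 [] .w (.n 422 [] .w (.n 209 [] .w (.f [(596, 1), (562, 2), (422, 2), (118, 4), (309, 1), (209, 2), (289, 1)] [(616, 1)])))))) (.f [(546, 28), (462, 17), (442, 5), (342, 11), (558, 9), (118, 24), (234, 19), (314, 11), (194, 3)] [(616, 15)])))))) (.f [(596, 9), (587, 2), (342, 38), (322, 6), (247, 18), (558, 28), (358, 5), (238, 31), (404, 64)] [(616, 5)])))) (.f [(596, 8), (487, 33), (342, 17), (547, 22), (458, 15), (358, 23), (538, 26), (423, 8), (179, 72)] []))) (.f [(596, 4), (487, 1), (167, 4), (358, 2), (438, 2), (604, 1), (434, 1), (334, 1), (314, 1)] [(577, 1)])))))) (.f [(196, 51), (487, 19), (342, 36), (358, 20), (538, 29), (438, 3), (243, 3), (604, 12), (534, 13), (459, 18), (419, 12)] [])))))) (.f [(396, 64), (587, 7), (342, 67), (558, 43), (438, 4), (543, 27), (534, 21), (314, 1), (239, 52)] [(616, 30)])))) (.f [(587, 1), (247, 2), (263,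 4), (534, 2)] [(616, 1)]))) (.f [(621, 1), (587, 2), (247, 1), (358, 2), (43, 4)] [(616, 2)]))))))) (.n 171 [] (.n 343 [] .w (.n 492 [] .w (.n 34 [] (.n 116 [] (.n 154 [] (.n 516 [] (.n 263 [] A3 (.n 534 [] (.n 607 [] (.n 194 [] .w (.n 174 [] .w (.n 222 [] .w (.n 422 [] .w (.f [(616, 19), (422, 16), (222, 19), (263, 48), (559, 10), (194, 9), (174, 3)] []))))) (.f [(616, 1), (607, 1), (247, 1), (263, 4)] [(611, 3)])) (.f [(616, 2), (587, 1), (247, 2), (263, 4), (534, 2)] [(611, 3)]))) (.n 414 [] (.n 239 [] .w (.n 487 [] (.n 213 [] .w (.n 421 [] .w (.n 309 [] .w (.n 292 [] .w (.n 114 [] .w (.n 397 [] .w (.n 313 [] .w (.n 534 [] .w (.n 233 [] .w (.n 333 [] .w (.f [(516, 80), (421, 21), (292, 29), (397, 72), (333, 1), (233, 31), (313, 7), (213, 62), (534, 13), (309, 56), (114, 32)] []))))))))))) (.f [(516, 70), (587, 6), (487, 25), (358, 19), (438, 12), (314, 18), (239, 13)] [(611, 39)]))) (.f [(516, 36), (587,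 8), (247, 18), (358, 15), (438, 11), (414, 15), (314, 11)] [(611, 18)]))) (.f [(616, 4), (587, 9), (572, 3), (472, 7), (247, 1), (358, 11), (438, 9), (154, 20)] [])) (.f [(116, 40), (587, 17), (358, 4), (438, 13), (539, 13), (314, 4)] [(611, 27)])) (.f [(616, 8), (587, 6), (492, 1), (572, 6), (472, 3), (247, 20), (438, 16), (343, 20), (34, 36)] [])))) (.f [(616, 1), (171, 1), (587, 1), (358, 1), (438, 1)] [(611, 1)]))

def A5 : Tr := .n 314 [] (.n 567 [] .w (.n 571 [] .w (.n 471 [] .w (.n 247 [] .w (.n 171 [] (.n 291 [] (.n 167 [] (.n 562 [] (.n 214 [] .w (.n 362 [] .w (.n 458 [] .w (.n 482 [] .w (.n 246 [] .w (.n 238 [] .w (.n 534 [] .w (.n 546 [] .w (.n 566 [] .w (.n 98 [] .w (.n 466 [] .w (.n 446 [] .w (.f [(566, 9), (466, 5), (546, 3), (446, 5), (246, 2), (482, 1), (362, 13), (458, 2), (238, 8), (98, 4), (534, 11), (214, 3)] [(611, 10)]))))))))))))) (.n 241 [] (.n 446 [] .w (.n 169 [] (.n 362 [] .w (.n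 238 [] .w (.n 534 [] .w (.n 591 [] .w (.f [(591, 1), (446, 1), (362, 1), (238, 1), (534, 1)] [(611, 1)]))))) (.f [(446, 1), (562, 1), (358, 1), (339, 1), (169, 1)] [(314, 1)]))) (.f [(241, 1), (471, 1), (562, 1), (358, 1), (539, 1)] [(611, 1)]))) (.f [(571, 1), (167, 1), (358, 1), (438, 1), (339, 1)] [(314, 1)])) (.f [(291, 1), (247, 1), (438, 1), (559, 1), (339, 1)] [(314, 1)])) (.f [(171, 1), (567, 1), (358, 1), (438, 1), (339, 1)] [(314, 1)])))))) (.n 247 [] (.n 447 [] .w (.n 318 [] .w (.n 467 [] .w (.n 239 [] .w (.n 418 [] .w (.n 567 [] .w (.n 596 [] .w (.n 414 [] .w (.n 547 [] .w (.n 416 [] (.n 194 [] .w (.n 214 [] .w (.n 558 [] .w (.n 139 [] (.n 298 [] .w (.n 496 [] .w (.n 477 [] (.n 179 [] (.n 442 [] .w (.n 571 [] .w (.n 616 [] .w (.n 471 [] .w (.n 289 [] .w (.n 233 [] (.n 603 [] .w (.n 317 [] .w (.n 333 [] .w (.n 582 [] .w (.n 491 [] .w (.n 169 [] .w (.n 482 [] .w (.n 189 [] .w (.n 546 [] .w (.n 437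 [] .w (.n 346 [] .w (.n 446 [] .w (.f [(491, 3), (546, 8), (446, 1), (346, 10), (582, 2), (482, 7), (437, 11), (317, 2), (603, 12), (333, 10), (189, 8), (169, 14)] []))))))))))))) (.f [(616, 1), (571, 1), (471, 1), (587, 1), (442, 1), (233, 2), (289, 2)] [(611, 1)]))))))) (.f [(496, 6), (587, 17), (467, 7), (547, 10), (358, 19), (418, 12), (298, 3), (179, 32), (414, 2)] [])) (.f [(477, 4), (558, 1), (298, 2), (214, 2), (194, 1)] [(611, 1), (247, 1)])))) (.f [(596, 12), (567, 5), (467, 17), (547, 22), (447, 18), (558, 3), (358, 39), (418, 7), (318, 3), (139, 52)] [(247, 10)]))))) (.f [(416, 2), (587, 1), (358, 1), (239, 1)] [(611, 1)]))))))))))) (.n 621 [] (.n 603 [] .w (.n 554 [] .w (.n 523 [] .w (.n 188 [] .w (.n 417 [] .w (.n 288 [] .w (.n 354 [] .w (.n 217 [] .w (.n 173 [] .w (.n 437 [] .w (.n 457 [] .w (.f [(457, 24), (437, 4), (417, 11), (217, 13), (603, 8), (288, 10), (188, 10), (523, 8), (173, 16),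 (554, 23), (354, 29)] [])))))))))))) (.n 577 [] A4 (.n 44 [] (.n 492 [] .w (.n 404 [] (.n 241 [] (.n 416 [] (.n 239 [] (.n 334 [] .w (.n 313 [] .w (.n 482 [] .w (.n 534 [] .w (.n 321 [] .w (.n 219 [] .w (.n 413 [] .w (.n 433 [] .w (.f [(321, 13), (577, 12), (482, 5), (433, 1), (413, 11), (313, 2), (243, 11), (534, 5), (334, 2), (219, 2)] []))))))))) (.n 419 [] (.n 213 [] .w (.n 337 [] .w (.n 442 [] .w (.n 189 [] .w (.n 546 [] .w (.n 233 [] .w (.n 119 [] .w (.n 422 [] .w (.n 209 [] .w (.n 433 [] .w (.f [(546, 30), (337, 25), (442, 7), (422, 1), (433, 17), (233, 12), (213, 4), (209, 2), (189, 7), (119, 24)] [(611, 5)]))))))))))) (.n 196 [] (.n 228 [] (.n 296 [] (.n 199 [] .w (.n 496 [] (.n 213 [] .w (.n 293 [] .w (.n 337 [] .w (.n 189 [] .w (.n 399 [] .w (.n 173 [] .w (.n 209 [] .w (.n 193 [] .w (.n 242 [] .w (.n 433 [] .w (.f [(577, 204), (337, 63), (242, 5), (433, 84), (213, 7), (293, 141), (193, 7), (173,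 33), (209, 69), (189, 83), (399, 120)] []))))))))))) (.n 169 [] (.n 284 [] (.n 541 [] (.n 299 [] .w (.n 188 [] (.n 538 [] .w (.n 362 [] .w (.n 434 [] .w (.n 418 [] .w (.n 616 [] .w (.n 371 [] .w (.n 422 [] .w (.n 246 [] (.n 317 [] .w (.n 491 [] .w (.n 238 [] .w (.n 198 [] .w (.n 294 [] .w (.n 234 [] .w (.n 414 [] .w (.n 433 [] .w (.f [(491, 3), (371, 15), (577, 48), (317, 7), (422, 3), (433, 23), (238, 17), (198, 18), (234, 13), (414, 19), (294, 26)] []))))))))) (.f [(616, 1), (246, 3), (577, 4), (362, 1), (358, 1), (538, 2), (418, 2), (434, 2), (314, 2), (239, 1)] [(611, 3)]))))))))) (.f [(496, 1), (577, 4), (358, 2), (188, 3), (419, 2), (299, 1)] [(611, 1)]))) (.f [(541, 1), (239, 1)] [(611, 1), (169, 1)])) (.f [(496, 1), (577, 4), (438, 2), (243, 2), (284, 3), (199, 1)] [(611, 1)])) (.f [(496, 1), (577, 4), (358, 2), (438, 2), (314, 1), (169, 3)] [(611, 1)])))) (.f [(296, 2), (577, 4), (358, 1), (438,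 2), (243, 1), (559, 1), (239, 2), (419, 1)] [(611, 2)])) (.f [(577, 2), (228, 2), (314, 1), (419, 1)] [(611, 1), (241, 1)])) (.f [(196, 14), (577, 20), (492, 1), (358, 16), (438, 5), (314, 3), (239, 5), (419, 13)] [(611, 1)])))) (.f [(416, 13), (577, 12), (247, 5), (358, 7), (438, 2), (559, 3), (314, 8), (224, 2)] [])) (.f [(241, 4), (577, 4), (358, 2), (438, 3), (539, 3)] [(611, 4)])) (.f [(577, 2), (247, 1), (358, 1), (438, 1), (243, 1), (404, 2), (314, 1)] [(611, 1)]))) (.f [(577, 64), (247, 26), (358, 49), (438, 41), (314, 18), (44, 72)] [(611, 10)])))))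

def A6 : Tr := .n 483 [] (.n 247 [] .w (.n 471 [] .w (.n 322 [] .w (.n 547 [] .w (.n 491 [] (.n 334 [] .w (.n 293 [] .w (.n 313 [] .w (.n 434 [] .w (.n 238 [] .w (.n 546 [] .w (.n 394 [] .w (.n 462 [] .w (.n 242 [] .w (.n 193 [] .w (.n 446 [] .w (.f [(546, 25), (446, 4), (462, 12), (242, 17), (608, 4), (313, 10), (238, 7), (293, 3), (193, 5), (434, 9), (334, 16), (394, 4)] [])))))))))))) (.n 171 [] (.n 318 [] .w (.n 239 [] .w (.n 159 [] (.n 342 [] .w (.n 218 [] .w (.n 442 [] .w (.n 571 [] .w (.n 124 [] .w (.n 163 [] (.n 524 [] .w (.n 422 [] .w (.n 113 [] (.n 346 [] .w (.n 542 [] .w (.n 463 [] .w (.n 559 [] .w (.n 446 [] .w (.n 167 [] (.n 363 [] .w (.n 396 [] (.n 366 [] .w (.n 246 [] .w (.n 414 [] .w (.n 558 [] (.n 122 [] .w (.n 538 [] .w (.n 309 [] .w (.n 417 [] .w (.n 534 [] .w (.n 562 [] .w (.n 241 [] .w (.n 590 [] .w (.n 462 [] .w (.n 421 [] .w (.n 398 [] .w (.n 221 [] .w (.f [(590, 32), (241, 88), (421,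 5), (221, 58), (562, 2), (462, 58), (417, 39), (122, 52), (608, 8), (538, 99), (398, 44), (534, 5), (309, 146)] []))))))))))))) (.f [(366, 1), (246, 1), (587, 1), (558, 1), (414, 1)] [(611, 1)]))))) (.f [(396, 8), (587, 1), (542, 4), (442, 1), (563, 3), (363, 3), (218, 3), (359, 3), (239, 3)] [(611, 2), (483, 3)]))) (.f [(491, 4), (446, 21), (346, 20), (587, 4), (167, 41), (608, 11), (563, 14), (463, 20), (559, 9), (359, 25), (539, 3), (239, 4), (524, 4)] []))))))) (.f [(491, 2), (571, 1), (422, 1), (113, 4), (584, 1)] [(611, 2), (483, 3)])))) (.f [(491, 11), (571, 32), (471, 20), (587, 4), (442, 31), (342, 21), (547, 4), (247, 3), (608, 4), (163, 59), (584, 18), (359, 41), (124, 4)] []))))))) (.f [(491, 1), (471, 1), (587, 1), (322, 1), (608, 1), (488, 1), (318, 1), (159, 2)] [(483, 1)])))) (.f [(491, 1), (171, 1), (587, 1), (563, 1), (359, 1)] [(611, 1)]))))))) (.n 191 [] (.n 363 [] (.n 346 [] .w (.n 289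 [] (.n 366 [] .w (.n 538 [] .w (.n 246 [] .w (.n 562 [] .w (.f [(366, 1), (246, 1), (562, 1), (483, 1), (538, 1), (339, 1)] [(611, 1), (363, 1)]))))) (.n 321 [] (.n 122 [] .w (.n 317 [] .w (.n 189 [] .w (.n 514 [] .w (.n 217 [] .w (.n 533 [] .w (.n 366 [] .w (.n 209 [] .w (.n 413 [] .w (.n 433 [] .w (.f [(366, 76), (346, 54), (317, 17), (217, 37), (122, 76), (533, 55), (433, 50), (413, 61), (209, 25), (514, 56), (189, 49)] [(363, 36)]))))))))))) (.f [(321, 1), (587, 1), (483, 1), (243, 1), (289, 1)] [(363, 1)])))) (.n 112 [] (.n 358 [] (.n 423 [] .w (.n 319 [] .w (.n 343 [] .w (.n 467 [] .w (.n 439 [] .w (.n 223 [] .w (.n 596 [] .w (.n 543 [] (.n 14 [] .w (.n 46 [] .w (.n 34 [] .w (.n 22 [] .w (.n 91 [] .w (.n 115 [] .w (.n 63 [] .w (.f [(115, 7), (91, 6), (46, 3), (22, 10), (63, 8), (34, 4), (14, 5)] [])))))))) (.n 547 [] (.n 39 [] .w (.n 384 [] .w (.n 268 [] .w (.n 557 [] .w (.n 139 [] .w (.n 312 [] .w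 (.n 68 [] .w (.n 408 [] .w (.n 96 [] .w (.n 117 [] .w (.n 388 [] .w (.f [(96, 17), (557, 9), (312, 1), (117, 7), (408, 6), (388, 1), (268, 8), (68, 2), (384, 2), (139, 9), (39, 6)] [])))))))))))) A1))))))))) (.n 439 [] (.n 603 [] .w (.n 421 [] .w (.n 317 [] .w (.n 582 [] .w (.n 293 [] .w (.n 338 [] .w (.n 214 [] .w (.n 238 [] .w (.n 458 [] .w (.n 417 [] .w (.n 566 [] .w (.n 234 [] .w (.n 559 [] .w (.f [(566, 2), (421, 17), (582, 5), (417, 1), (317, 13), (603, 8), (458, 1), (338, 5), (238, 4), (293, 1), (559, 4), (234, 7), (214, 8)] [])))))))))))))) (.n 438 [] (.n 247 [] .w (.n 223 [] .w (.n 471 [] .w (.n 467 [] .w (.n 171 [] (.n 567 [] .w (.n 239 [] .w (.n 416 [] (.n 487 [] (.n 409 [] .w (.n 189 [] .w (.n 238 [] .w (.n 197 [] .w (.n 546 [] .w (.n 217 [] .w (.n 583 [] .w (.n 321 [] .w (.n 118 [] .w (.n 366 [] .w (.f [(366, 1), (546, 1), (321, 5), (587, 4), (217, 2), (197, 1), (583, 1), (238, 2), (118, 4),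 (409, 6), (189, 1)] []))))))))))) (.n 167 [] (.n 371 [] .w (.n 39 [] (.n 571 [] .w (.n 543 [] .w (.n 616 [] .w (.n 216 [] (.n 214 [] .w (.n 443 [] .w (.n 604 [] .w (.n 541 [] (.n 342 [] .w (.n 294 [] .w (.n 463 [] .w (.n 159 [] (.n 238 [] .w (.n 446 [] .w (.n 457 [] (.n 442 [] .w (.n 534 [] .w (.n 338 [] .w (.f [(446, 1), (442, 1), (338, 1), (238, 1), (534, 1)] [(438, 1)])))) (.f [(446, 1), (457, 1), (563, 1), (238, 1), (294, 1)] [(438, 1)])))) (.f [(616, 1), (571, 30), (371, 16), (487, 19), (342, 28), (358, 3), (563, 8), (463, 19), (543, 4), (443, 9), (243, 4), (604, 4), (159, 43)] []))))) (.f [(541, 2), (487, 1), (358, 1), (214, 1)] [(611, 1)]))))) (.f [(216, 1), (571, 1), (487, 1), (358, 1), (539, 1)] [(611, 1)]))))) (.f [(471, 14), (587, 3), (567, 36), (467, 7), (247, 10), (358, 43), (223, 19), (39, 56)] [(611, 10), (438, 6)]))) (.f [(471, 1), (167, 1), (358, 1), (563, 1), (439, 1)] [(438, 1)]))) (.f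 [(416, 2), (587, 1), (358, 1), (563, 1), (239, 1)] [(611, 1), (438, 1)])))) (.f [(171, 1), (467, 1), (358, 1), (563, 1), (439, 1)] [(438, 1)])))))) (.n 559 [] (.n 442 [] .w (.n 571 [] .w (.n 209 [] (.n 542 [] .w (.n 314 [] .w (.n 446 [] .w (.n 189 [] (.n 538 [] .w (.n 459 [] .w (.n 341 [] .w (.n 482 [] .w (.n 441 [] .w (.n 172 [] .w (.n 518 [] .w (.n 221 [] .w (.f [(441, 2), (341, 1), (221, 4), (482, 4), (172, 3), (358, 2), (538, 3), (518, 4), (459, 1), (314, 4)] []))))))))) (.f [(446, 1), (542, 1), (358, 1), (584, 1), (189, 1)] [(559, 1)]))))) (.f [(571, 1), (442, 1), (358, 1), (209, 1), (539, 1)] [(559, 1)])))) A5)))) (.n 571 [] (.n 559 [] .w (.n 548 [] .w (.n 94 [] (.n 294 [] .w (.n 554 [] (.n 218 [] .w (.n 333 [] .w (.n 293 [] .w (.n 194 [] .w (.n 442 [] .w (.n 534 [] .w (.n 558 [] .w (.n 524 [] .w (.n 413 [] .w (.f [(112, 168), (442, 5), (558, 28), (333, 63), (413, 61), (293, 3), (218, 18), (534, 17),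 (194, 48), (524, 108)] [(611, 87)])))))))))) (.f [(112, 6), (554, 4), (294, 1)] [(611, 5), (94, 2)]))) (.f [(112, 3), (548, 1), (559, 1), (94, 1)] [(611, 2)])))) (.f [(571, 1), (112, 4), (584, 1), (539, 1)] [(611, 3)])))) (.f [(191, 2), (587, 1), (483, 1), (539, 1)] [(611, 1)]))

def A7 : Tr := .n 339 [] (.n 366 [] .w (.n 607 [] .w (.n 246 [] .w (.n 463 [] .w (.n 196 [] (.n 554 [] .w (.n 409 [] .w (.n 557 [] .w (.n 341 [] .w (.n 169 [] .w (.n 393 [] .w (.n 273 [] .w (.n 578 [] .w (.n 537 [] .w (.n 234 [] .w (.n 413 [] .w (.n 437 [] .w (.f [(341, 29), (246, 23), (557, 11), (537, 17), (437, 24), (578, 15), (413, 5), (393, 9), (273, 23), (554, 9), (409, 14), (234, 21), (169, 8)] []))))))))))))) (.f [(366, 1), (196, 1), (607, 1), (463, 1), (539, 1)] [(611, 1)])))))) (.n 587 [] (.n 166 [] (.n 239 [] (.n 216 [] .w (.n 513 [] .w (.n 509 [] .w (.n 408 [] .w (.n 396 [] .w (.n 192 [] .w (.n 308 [] .w (.n 284 [] .w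 (.n 272 [] .w (.n 389 [] .w (.f [(216, 10), (396, 3), (192, 3), (272, 10), (408, 4), (308, 2), (513, 7), (509, 6), (284, 1), (389, 6)] []))))))))))) (.n 214 [] (.n 583 [] .w (.n 414 [] .w (.n 321 [] .w (.n 217 [] (.n 172 [] .w (.n 333 [] .w (.n 269 [] .w (.n 362 [] .w (.n 196 [] .w (.n 341 [] .w (.n 482 [] .w (.n 514 [] .w (.n 393 [] .w (.n 533 [] .w (.n 413 [] .w (.f [(341, 5), (196, 9), (482, 7), (362, 2), (172, 5), (533, 3), (333, 4), (413, 1), (393, 6), (514, 11), (269, 3)] [])))))))))))) (.f [(321, 1), (612, 1), (217, 1), (583, 1), (414, 1)] [(587, 1)]))))) (.n 291 [] (.n 592 [] (.n 237 [] .w (.n 97 [] .w (.n 397 [] .w (.n 384 [] .w (.n 68 [] .w (.n 88 [] .w (.n 366 [] .w (.n 296 [] .w (.n 357 [] .w (.n 44 [] .w (.f [(366, 2), (296, 15), (357, 2), (237, 17), (397, 5), (97, 9), (88, 12), (68, 21), (384, 27), (44, 6)] []))))))))))) A0) (.f [(291, 2), (612, 1), (608, 1), (214, 1)] [(611, 1)])))) (.f [(166,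 2), (612, 1), (608, 1), (339, 1)] [(611, 1)])) (.n 243 [] (.n 483 [] .w (.n 442 [] .w (.n 418 [] .w (.n 343 [] .w (.n 371 [] .w (.n 471 [] .w (.n 438 [] .w (.n 359 [] .w (.n 171 [] (.n 616 [] .w (.n 318 [] .w (.n 558 [] .w (.n 604 [] .w (.n 159 [] (.n 542 [] .w (.n 338 [] .w (.n 246 [] (.n 317 [] .w (.n 582 [] .w (.n 482 [] .w (.n 239 [] .w (.n 566 [] .w (.n 533 [] .w (.n 466 [] .w (.n 398 [] .w (.n 437 [] .w (.n 174 [] .w (.n 346 [] .w (.n 433 [] .w (.f [(566, 8), (466, 14), (346, 22), (582, 5), (482, 7), (437, 10), (317, 22), (533, 31), (433, 1), (398, 12), (239, 34), (174, 10)] []))))))))))))) (.n 433 [] (.n 521 [] .w (.n 292 [] .w (.n 337 [] .w (.n 189 [] .w (.n 478 [] .w (.n 533 [] .w (.n 209 [] .w (.n 437 [] .w (.n 316 [] .w (.f [(316, 1), (521, 4), (437, 1), (337, 1), (292, 3), (478, 4), (533, 1), (209, 3), (189, 2)] [])))))))))) (.f [(246, 1), (542, 1), (433, 1), (338, 1), (244, 1)] [(243, 1)])))))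 (.f [(616, 5), (471, 10), (371, 20), (587, 25), (442, 10), (558, 1), (483, 2), (438, 9), (418, 4), (318, 15), (248, 4), (604, 4), (159, 31)] [])))))) (.f [(171, 2), (587, 1), (442, 1), (483, 1), (438, 1), (343, 1), (359, 1), (244, 1)] [(243, 1)])))))))))) (.n 484 [] (.n 168 [] .w (.n 122 [] .w (.n 292 [] .w (.n 196 [] .w (.n 189 [] .w (.n 94 [] .w (.n 394 [] .w (.n 462 [] .w (.n 118 [] .w (.n 559 [] .w (.n 296 [] .w (.f [(296, 13), (196, 9), (462, 15), (292, 6), (122, 1), (608, 15), (168, 2), (118, 5), (559, 4), (189, 8), (394, 4), (94, 6)] [])))))))))))) (.n 359 [] (.n 442 [] .w (.n 222 [] .w (.n 616 [] .w (.n 371 [] .w (.n 439 [] .w (.n 271 [] (.n 218 [] .w (.n 116 [] (.n 194 [] .w (.n 264 [] (.n 438 [] .w (.n 532 [] (.n 242 [] .w (.n 363 [] .w (.n 346 [] .w (.n 409 [] (.n 314 [] .w (.n 583 [] .w (.n 246 [] .w (.n 417 [] .w (.n 292 [] (.n 582 [] .w (.n 114 [] .w (.n 196 [] .w (.n 458 [] .w (.n 345 [] .w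 (.n 558 [] .w (.n 490 [] .w (.n 289 [] .w (.n 93 [] .w (.n 413 [] .w (.f [(490, 3), (345, 1), (196, 6), (582, 5), (417, 1), (558, 1), (458, 1), (413, 1), (93, 3), (289, 5), (114, 1)] []))))))))))) (.f [(246, 1), (292, 1), (583, 1), (484, 1), (314, 1)] [(359, 1)])))))) (.f [(346, 1), (242, 1), (363, 1), (409, 2)] [(359, 1)]))))) (.f [(371, 2), (532, 2), (438, 1), (218, 1), (484, 1), (339, 1), (194, 1)] [(359, 1)]))) (.f [(616, 2), (371, 1), (222, 1), (608, 1), (484, 1), (264, 4)] [(611, 2), (359, 4)]))) (.f [(116, 4), (587, 1), (563, 1), (539, 1), (339, 2)] [(611, 3), (359, 2)]))) (.f [(271, 4), (587, 2), (442, 1), (243, 3), (484, 1), (539, 2), (439, 1)] [(611, 1), (359, 1)]))))))) A6))))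

def A8 : Tr := .n 539 [] (.n 318 [] .w (.n 239 [] .w (.n 471 [] .w (.n 584 [] .w (.n 567 [] .w (.n 359 [] .w (.n 604 [] (.n 334 [] .w (.n 421 [] .w (.n 362 [] .w (.n 458 [] .w (.n 238 [] .w (.n 197 [] .w (.n 542 [] .w (.n 566 [] .w (.n 119 [] .w (.n 438 [] .w (.f [(566, 7), (421, 11), (362, 4), (542, 7), (197, 7), (458, 5), (438, 4), (238, 10), (334, 13), (119, 4)] []))))))))))) (.n 563 [] (.n 238 [] .w (.n 362 [] .w (.n 196 [] .w (.n 458 [] .w (.n 482 [] .w (.n 417 [] .w (.n 94 [] .w (.n 118 [] .w (.n 234 [] .w (.n 296 [] .w (.f [(296, 8), (196, 9), (482, 1), (362, 7), (417, 9), (458, 12), (238, 2), (118, 3), (234, 4), (564, 8), (94, 5)] []))))))))))) (.n 291 [] (.n 483 [] .w (.n 462 [] (.n 122 [] .w (.n 317 [] .w (.n 214 [] .w (.n 434 [] .w (.n 458 [] .w (.n 238 [] .w (.n 546 [] .w (.n 297 [] .w (.n 314 [] .w (.n 542 [] .w (.n 466 [] .w (.n 234 [] .w (.f [(466, 5), (546, 13), (542, 4), (317, 9), (297,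 1), (122, 4), (458, 10), (238, 8), (434, 2), (234, 6), (314, 7), (214, 3)] []))))))))))))) (.n 541 [] (.n 194 [] .w (.n 439 [] .w (.n 583 [] .w (.n 171 [] (.n 544 [] .w (.n 559 [] .w (.n 607 [] .w (.n 114 [] (.n 562 [] .w (.n 333 [] .w (.n 582 [] .w (.n 434 [] .w (.n 337 [] .w (.n 246 [] .w (.n 418 [] .w (.n 466 [] .w (.n 366 [] .w (.n 234 [] .w (.n 579 [] .w (.n 174 [] .w (.f [(466, 1), (366, 14), (246, 29), (582, 3), (562, 29), (337, 12), (333, 18), (418, 26), (579, 12), (434, 17), (234, 3), (174, 12)] []))))))))))))) (.n 112 [] (.n 571 [] .w (.n 346 [] .w (.n 168 [] (.n 213 [] .w (.n 317 [] .w (.n 333 [] .w (.n 491 [] .w (.n 246 [] .w (.n 558 [] .w (.n 422 [] .w (.n 446 [] .w (.n 591 [] .w (.n 209 [] (.n 88 [] .w (.n 66 [] .w (.n 47 [] .w (.n 108 [] .w (.f [(66, 1), (47, 1), (108, 1), (88, 1)] []))))) (.f [(591, 49), (491, 16), (446, 28), (246, 41), (317, 69), (422, 65), (558, 60), (333, 40), (213, 34),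 (209, 34), (114, 100)] []))))))))))) (.f [(571, 2), (346, 1), (607, 2), (462, 3), (168, 5), (559, 2), (114, 4)] [(611, 2), (539, 1)])))) (.f [(471, 1), (112, 4), (559, 1), (544, 1)] [(611, 3)])))))) (.f [(171, 27), (462, 23), (567, 8), (583, 8), (483, 5), (563, 2), (318, 16), (604, 12), (359, 14), (439, 2), (194, 3)] []))))) (.f [(541, 2), (462, 1), (563, 1), (359, 1), (239, 1)] [(611, 1), (539, 1)])))) (.f [(291, 2), (612, 1), (563, 1), (584, 1), (239, 1)] [(611, 1), (539, 1)])))))))))) (.n 588 [] (.n 291 [] .w (.n 72 [] .w (.n 48 [] .w (.n 68 [] .w (.n 392 [] .w (.n 233 [] .w (.n 396 [] .w (.n 237 [] .w (.n 89 [] .w (.n 357 [] .w (.n 389 [] .w (.f [(291, 16), (396, 18), (357, 4), (237, 5), (392, 12), (72, 13), (233, 15), (68, 11), (48, 8), (389, 10), (89, 24)] [])))))))))))) (.n 488 [] (.n 267 [] .w (.n 557 [] .w (.n 116 [] .w (.n 271 [] .w (.n 147 [] .w (.n 537 [] .w (.n 533 [] .w (.n 264 [] .w (.n 64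 [] .w (.f [(116, 3), (271, 3), (557, 1), (537, 1), (267, 4), (147, 4), (533, 2), (264, 1), (64, 5)] [])))))))))) (.n 608 [] (.n 317 [] .w (.n 484 [] .w (.n 297 [] .w (.n 363 [] .w (.n 542 [] .w (.n 463 [] .w (.n 584 [] .w (.n 563 [] .w (.n 591 [] .w (.n 171 [] (.n 459 [] .w (.n 620 [] .w (.n 217 [] .w (.n 289 [] .w (.n 466 [] .w (.n 359 [] .w (.n 188 [] (.n 122 [] .w (.n 538 [] .w (.n 309 [] .w (.n 409 [] .w (.n 341 [] .w (.n 441 [] .w (.n 462 [] .w (.n 118 [] .w (.n 209 [] .w (.n 221 [] .w (.f [(441, 2), (341, 1), (221, 2), (462, 1), (217, 1), (122, 3), (538, 4), (118, 1), (409, 1), (309, 3), (209, 1)] []))))))))))) (.f [(620, 4), (466, 4), (542, 2), (297, 2), (188, 5), (459, 1), (359, 2), (289, 1)] [(608, 1)])))))))) (.f [(591, 1), (171, 3), (612, 1), (317, 2), (563, 1), (463, 1), (363, 1), (584, 1), (484, 2)] [(611, 1)]))))))))))) (.n 563 [] (.n 342 [] .w (.n 459 [] .w (.n 443 [] .w (.n 222 [] .w (.n 571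 [] .w (.n 567 [] .w (.n 124 [] .w (.n 359 [] .w (.n 166 [] (.n 238 [] (.n 421 [] .w (.n 483 [] .w (.n 341 [] .w (.n 189 [] .w (.n 522 [] .w (.n 607 [] .w (.n 217 [] .w (.n 583 [] .w (.n 289 [] .w (.n 193 [] .w (.f [(341, 4), (421, 3), (607, 2), (217, 1), (522, 4), (583, 1), (483, 4), (193, 2), (289, 3), (189, 4)] []))))))))))) (.n 332 [] (.n 524 [] .w (.n 422 [] .w (.n 446 [] .w (.n 591 [] .w (.n 284 [] (.n 442 [] .w (.n 321 [] .w (.n 583 [] (.n 358 [] .w (.n 521 [] .w (.n 338 [] .w (.n 482 [] .w (.n 189 [] .w (.n 334 [] .w (.n 541 [] .w (.n 545 [] .w (.n 237 [] .w (.n 296 [] .w (.n 93 [] .w (.n 316 [] .w (.f [(545, 8), (541, 3), (316, 3), (521, 4), (296, 6), (482, 15), (237, 1), (358, 1), (338, 3), (93, 12), (334, 2), (189, 14)] []))))))))))))) (.f [(321, 1), (442, 1), (583, 1), (238, 1), (539, 1)] [(563, 1)])))) (.f [(591, 16), (446, 32), (612, 4), (567, 15), (342, 17), (422, 3), (222, 9), (608, 4), (588,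 5), (238, 39), (284, 44), (524, 4)] [])))))) (.f [(571, 1), (332, 1), (238, 1), (443, 1), (539, 1)] [(563, 1)]))) (.f [(166, 50), (612, 4), (608, 8), (588, 10), (488, 9), (459, 17), (359, 2), (539, 4), (124, 4)] [])))))))))) (.n 584 [] (.n 421 [] .w (.n 538 [] .w (.n 292 [] .w (.n 441 [] .w (.n 192 [] .w (.n 321 [] .w (.n 462 [] .w (.n 470 [] .w (.n 359 [] .w (.n 221 [] .w (.f [(470, 8), (441, 6), (421, 3), (321, 1), (221, 7), (462, 4), (292, 1), (192, 12), (608, 2), (538, 15), (359, 17)] []))))))))))) A7)))))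

def A9 : Tr := .n 534 [] (.n 471 [] .w (.n 239 [] .w (.n 415 [] (.n 535 [] (.n 359 [] .w (.n 234 [] (.n 419 [] .w (.n 218 [] .w (.n 459 [] .w (.n 559 [] .w (.n 366 [] .w (.n 124 [] .w (.n 483 [] .w (.n 242 [] .w (.n 546 [] (.n 237 [] .w (.n 333 [] .w (.n 293 [] .w (.n 246 [] .w (.n 197 [] .w (.n 590 [] .w (.n 321 [] .w (.n 413 [] .w (.n 370 [] .w (.n 433 [] .w (.n 457 [] .w (.f [(590, 14), (370, 2), (321, 9), (246, 12), (457, 8), (237, 11), (197, 2), (433, 14), (333, 3), (413, 14), (293, 11)] [])))))))))))) (.n 312 [] (.n 582 [] .w (.n 246 [] .w (.n 434 [] .w (.n 238 [] .w (.n 294 [] .w (.f [(546, 1), (246, 1), (582, 1), (238, 1), (434, 1), (294, 1)] [(606, 1), (174, 1)])))))) (.f [(366, 8), (546, 55), (312, 52), (242, 11), (483, 27), (218, 36), (559, 7), (459, 27), (359, 2), (239, 11), (419, 8), (199, 4), (124, 4)] []))))))))))) (.n 546 [] (.n 462 [] .w (.n 442 [] .w (.n 543 [] .w (.n 423 [] .w (.n 287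 [] (.n 571 [] .w (.n 238 [] .w (.n 336 [] (.n 214 [] .w (.n 539 [] .w (.n 222 [] .w (.n 458 [] .w (.n 524 [] .w (.n 547 [] .w (.n 316 [] (.n 246 [] .w (.n 418 [] .w (.n 309 [] (.n 590 [] .w (.n 189 [] .w (.n 417 [] .w (.n 558 [] .w (.n 197 [] .w (.n 354 [] .w (.n 566 [] .w (.n 413 [] .w (.n 357 [] .w (.n 457 [] .w (.n 221 [] .w (.f [(590, 4), (566, 11), (221, 24), (457, 8), (357, 8), (417, 14), (197, 5), (558, 13), (413, 22), (354, 28), (189, 7)] [])))))))))))) (.f [(246, 1), (222, 1), (418, 1), (309, 1), (539, 1)] [(174, 1)])))) (.f [(316, 18), (462, 7), (547, 11), (458, 8), (238, 7), (423, 3), (234, 10), (539, 3), (214, 1), (524, 4)] [])))))))) (.f [(336, 2), (571, 1), (607, 1), (442, 1), (543, 1), (423, 1), (234, 2)] [(606, 1)])))) (.f [(471, 1), (287, 2), (234, 1), (199, 1)] [(174, 1)])))))) (.f [(546, 1), (234, 1)] [(606, 1), (174, 1)])))) (.f [(535, 4), (484, 1), (299, 1), (199, 2)] [(534, 3), (174,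 1)])) (.f [(415, 4), (339, 1), (239, 1), (199, 1)] [(534, 2), (174, 1)])))) (.n 246 [] (.n 459 [] .w (.n 223 [] (.n 578 [] .w (.n 570 [] .w (.n 409 [] .w (.n 293 [] .w (.n 238 [] .w (.n 341 [] .w (.n 417 [] .w (.n 441 [] .w (.n 312 [] .w (.n 546 [] .w (.n 234 [] .w (.n 470 [] .w (.f [(570, 4), (470, 12), (441, 9), (341, 7), (546, 15), (312, 22), (417, 9), (578, 16), (238, 9), (293, 6), (409, 5), (234, 26)] []))))))))))))) (.n 311 [] (.n 547 [] .w (.n 247 [] (.n 298 [] .w (.n 595 [] .w (.n 523 [] .w (.n 313 [] .w (.n 458 [] .w (.n 238 [] .w (.n 342 [] .w (.n 546 [] .w (.n 542 [] .w (.n 466 [] .w (.n 234 [] .w (.n 437 [] .w (.f [(595, 8), (466, 22), (546, 20), (437, 20), (542, 12), (342, 10), (458, 2), (313, 23), (238, 1), (523, 4), (298, 11), (223, 1), (234, 42)] []))))))))))))) (.n 187 [] (.n 358 [] (.n 334 [] .w (.n 218 [] .w (.n 123 [] .w (.n 194 [] .w (.n 434 [] .w (.n 238 [] .w (.n 417 [] .w (.n 558 []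 .w (.n 546 [] .w (.n 537 [] .w (.n 366 [] .w (.n 242 [] .w (.n 446 [] .w (.f [(366, 4), (546, 3), (446, 10), (537, 11), (417, 3), (242, 3), (558, 2), (238, 6), (218, 5), (123, 4), (434, 3), (334, 12), (194, 2)] [])))))))))))))) (.n 536 [] (.n 442 [] .w (.n 471 [] .w (.n 338 [] .w (.n 416 [] (.n 462 [] .w (.n 342 [] .w (.n 192 [] (.n 314 [] .w (.n 571 [] .w (.n 228 [] (.n 362 [] .w (.n 524 [] .w (.n 491 [] .w (.n 307 [] (.n 188 [] (.n 546 [] (.n 595 [] .w (.n 346 [] .w (.n 337 [] .w (.n 454 [] .w (.n 558 [] .w (.n 566 [] .w (.n 322 [] .w (.n 234 [] .w (.n 413 [] .w (.n 242 [] .w (.f [(595, 4), (566, 17), (346, 18), (337, 6), (242, 17), (322, 12), (558, 7), (413, 28), (454, 8), (534, 8), (234, 19)] []))))))))))) (.n 234 [] (.n 461 [] .w (.n 309 [] .w (.n 409 [] .w (.n 557 [] .w (.n 341 [] .w (.n 222 [] .w (.n 238 [] .w (.n 297 [] .w (.n 553 [] .w (.n 370 [] .w (.n 242 [] .w (.n 389 [] .w (.f [(370, 52), (461,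 70), (341, 131), (546, 75), (557, 42), (242, 115), (297, 49), (222, 70), (553, 172), (238, 104), (409, 147), (309, 57), (389, 72)] []))))))))))))) (.f [(546, 1), (234, 1)] [(606, 1), (174, 1)]))) (.f [(491, 29), (571, 6), (471, 34), (362, 13), (442, 6), (342, 34), (547, 3), (247, 13), (358, 13), (188, 56), (534, 56), (524, 4), (299, 9)] [])) (.f [(611, 1), (491, 1), (307, 1), (223, 1), (534, 1)] [(606, 1)]))))) (.f [(571, 5), (471, 4), (462, 7), (442, 8), (342, 8), (547, 1), (228, 24), (534, 18), (314, 6)] [(606, 5)])))) (.f [(611, 1), (471, 1), (192, 1), (358, 1), (534, 1)] [(606, 1)])))) (.f [(416, 1), (247, 1), (338, 1), (534, 1), (199, 1)] [(174, 1)]))))) (.f [(536, 2), (247, 1), (358, 1), (459, 1), (199, 1)] [(606, 1), (174, 1)]))) (.f [(496, 1), (187, 2), (534, 1), (299, 1)] [(174, 1)])))) (.f [(311, 2), (607, 1), (223, 1), (534, 1)] [(606, 1)])))) (.f [(246, 1), (534, 1)] [(606, 1), (174, 1)]))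

def A10 : Tr := .n 467 [] .w (.n 423 [] .w (.n 583 [] (.n 212 [] .w (.n 97 [] .w (.n 73 [] .w (.n 610 [] .w (.n 412 [] .w (.n 586 [] .w (.n 233 [] .w (.n 241 [] .w (.n 566 [] .w (.n 117 [] .w (.n 284 [] .w (.n 93 [] .w (.n 429 [] .w (.f [(610, 4), (586, 31), (566, 6), (241, 24), (412, 21), (212, 1), (117, 18), (97, 21), (233, 16), (93, 9), (73, 36), (429, 20), (284, 41)] [])))))))))))))) (.n 483 [] (.n 97 [] .w (.n 397 [] .w (.n 241 [] .w (.n 541 [] .w (.n 284 [] .w (.n 561 [] .w (.n 93 [] .w (.n 184 [] .w (.n 113 [] .w (.f [(561, 3), (541, 1), (241, 2), (397, 4), (97, 2), (113, 3), (93, 3), (284, 4), (184, 2)] [])))))))))) (.n 347 [] (.n 303 [] .w (.n 521 [] .w (.n 535 [] .w (.n 203 [] .w (.n 427 [] .w (.n 527 [] .w (.n 116 [] .w (.n 120 [] .w (.n 387 [] .w (.n 379 [] .w (.n 19 [] .w (.n 154 [] .w (.n 259 [] .w (.f [(535, 6), (120, 4), (116, 17), (521, 14), (527, 8), (427, 11), (387, 12), (303, 10), (203,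 21), (379, 5), (154, 7), (259, 18), (19, 1)] [])))))))))))))) (.n 447 [] (.n 303 [] .w (.n 521 [] .w (.n 535 [] .w (.n 203 [] .w (.n 527 [] .w (.n 116 [] .w (.n 379 [] .w (.n 227 [] .w (.n 87 [] .w (.n 259 [] .w (.f [(535, 1), (116, 3), (521, 3), (527, 7), (227, 5), (87, 2), (303, 8), (203, 6), (379, 11), (259, 3)] []))))))))))) (.n 596 [] (.n 538 [] .w (.n 189 [] .w (.n 222 [] .w (.n 458 [] .w (.n 558 [] .w (.n 534 [] .w (.n 562 [] .w (.n 289 [] .w (.n 422 [] .w (.n 579 [] .w (.n 366 [] (.n 578 [] .w (.n 329 [] .w (.n 292 [] .w (.n 409 [] .w (.n 164 [] .w (.n 312 [] .w (.n 233 [] .w (.n 98 [] .w (.n 192 [] .w (.n 429 [] .w (.f [(611, 69), (312, 11), (292, 55), (192, 51), (578, 21), (233, 36), (98, 60), (429, 43), (329, 24), (409, 47), (164, 3)] []))))))))))) (.f [(611, 1), (366, 22), (562, 1), (422, 13), (222, 9), (558, 8), (458, 10), (538, 5), (579, 4), (534, 4), (289, 1), (189, 14)] [])))))))))))) (.n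 159 [] (.n 247 [] .w (.n 547 [] .w (.n 496 [] (.n 213 [] .w (.n 334 [] .w (.n 317 [] .w (.n 169 [] .w (.n 458 [] .w (.n 571 [] .w (.n 358 [] .w (.n 289 [] .w (.n 479 [] .w (.n 422 [] .w (.n 234 [] .w (.f [(611, 17), (571, 16), (317, 17), (422, 16), (458, 13), (358, 7), (213, 13), (479, 4), (334, 7), (234, 5), (289, 2), (169, 15)] [])))))))))))) (.n 452 [] (.n 314 [] .w (.n 162 [] (.n 67 [] (.n 267 [] (.n 458 [] (.n 434 [] .w (.n 173 [] .w (.n 371 [] .w (.n 462 [] .w (.n 591 [] .w (.f [(591, 1), (371, 1), (462, 1), (173, 1), (434, 1)] [(471, 1)])))))) (.n 236 [] (.n 438 [] .w (.n 124 [] .w (.n 294 [] .w (.n 536 [] (.n 524 [] .w (.n 194 [] .w (.n 167 [] (.n 187 [] (.n 418 [] .w (.n 287 [] (.n 334 [] .w (.n 218 [] .w (.n 434 [] .w (.n 198 [] .w (.n 172 [] (.n 238 [] .w (.n 97 [] (.n 234 [] .w (.n 442 [] .w (.n 542 [] .w (.n 264 [] (.n 462 [] .w (.n 371 [] .w (.n 571 [] .w (.n 169 [] (.n 212 [] .w (.n 228 []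 .w (.n 292 [] .w (.n 532 [] .w (.n 304 [] .w (.n 328 [] .w (.n 404 [] .w (.n 428 [] .w (.n 241 [] .w (.n 204 [] .w (.n 117 [] .w (.n 561 [] .w (.n 121 [] .w (.f [(561, 9), (241, 5), (121, 14), (532, 14), (212, 5), (292, 3), (117, 6), (428, 12), (328, 13), (228, 3), (404, 11), (304, 7), (204, 10)] [])))))))))))))) (.f [(571, 1), (371, 1), (462, 1), (458, 1), (169, 1)] [(471, 1)]))))) (.f [(611, 4), (596, 5), (496, 9), (607, 6), (542, 45), (442, 11), (247, 12), (458, 40), (198, 34), (234, 14), (264, 60)] []))))) (.f [(611, 1), (97, 4), (238, 1), (418, 1), (434, 2), (294, 1)] [(471, 2)]))) (.f [(611, 45), (596, 1), (496, 4), (467, 9), (172, 41), (458, 12), (438, 5), (318, 24), (218, 9), (434, 20), (334, 18), (294, 8), (524, 4)] [])))))) (.f [(596, 1), (496, 1), (287, 1), (458, 1), (194, 1)] [(471, 1)]))) (.f [(596, 1), (496, 1), (187, 1), (458, 1), (294, 1)] [(471, 1)])) (.f [(611, 10), (596, 6), (496, 5), (167,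 27), (458, 15), (559, 4), (359, 2), (314, 11), (124, 4)] [])))) (.f [(536, 2), (247, 1), (458, 1), (359, 1)] [(606, 1)]))))) (.f [(236, 2), (547, 1), (458, 1), (559, 1)] [(606, 1)]))) (.f [(611, 1), (267, 4), (583, 1), (463, 1), (459, 1), (174, 2)] [(471, 2)])) (.f [(611, 1), (67, 4), (363, 1), (423, 1), (459, 2), (174, 1)] [(471, 2)])) (.f [(596, 1), (496, 1), (162, 2), (459, 1)] [(471, 1)]))) (.f [(611, 6), (452, 28), (318, 10), (559, 3), (359, 3), (174, 13)] [(471, 11)]))))) (.f [(611, 3), (596, 1), (467, 1), (447, 1), (347, 1), (483, 1), (318, 2), (159, 3)] [(606, 1)]))))))))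

def A11 : Tr := .n 198 [] (.n 242 [] .w (.n 558 [] .w (.n 446 [] .w (.n 338 [] .w (.f [(446, 1), (242, 1), (558, 1), (338, 1), (174, 1)] [(198, 1)]))))) (.n 121 [] (.n 487 [] .w (.n 287 [] (.n 336 [] (.n 571 [] .w (.n 399 [] (.n 123 [] .w (.n 434 [] .w (.n 99 [] .w (.n 119 [] .w (.n 422 [] .w (.n 414 [] .w (.n 446 [] .w (.f [(446, 1), (422, 1), (123, 1), (434, 1), (414, 1), (119, 1), (99, 2)] [(399, 4)])))))))) (.n 119 [] (.n 342 [] .w (.n 218 [] .w (.n 194 [] .w (.n 534 [] .w (.n 542 [] .w (.n 389 [] (.n 334 [] .w (.n 554 [] .w (.n 582 [] .w (.n 214 [] .w (.n 454 [] .w (.n 458 [] .w (.n 486 [] .w (.n 173 [] .w (.n 317 [] .w (.n 366 [] .w (.f [(486, 5), (366, 2), (582, 3), (317, 4), (458, 1), (173, 6), (554, 3), (454, 1), (534, 1), (334, 1), (214, 1)] []))))))))))) (.f [(371, 31), (607, 19), (542, 9), (342, 3), (318, 6), (218, 25), (534, 12), (389, 40), (194, 15)] [(119, 36)]))))))) (.n 438 [] (.n 309 []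 .w (.n 582 [] .w (.n 114 [] .w (.n 417 [] .w (.n 486 [] .w (.n 586 [] .w (.n 173 [] .w (.n 217 [] .w (.n 570 [] .w (.n 118 [] .w (.n 346 [] .w (.f [(570, 4), (586, 5), (486, 7), (346, 2), (582, 4), (417, 6), (217, 4), (118, 5), (173, 9), (309, 11), (114, 3)] [])))))))))))) (.n 363 [] (.n 269 [] .w (.n 246 [] .w (.n 482 [] .w (.n 486 [] .w (.n 354 [] .w (.n 297 [] .w (.n 217 [] .w (.n 98 [] .w (.n 533 [] .w (.n 561 [] .w (.n 209 [] .w (.n 389 [] .w (.n 433 [] .w (.f [(561, 163), (486, 43), (246, 128), (482, 51), (217, 168), (297, 115), (533, 151), (433, 103), (98, 80), (354, 44), (209, 18), (389, 117), (269, 155)] [])))))))))))))) (.n 298 [] (.n 334 [] .w (.n 362 [] .w (.n 238 [] .w (.n 558 [] .w (.n 546 [] .w (.n 242 [] .w (.n 446 [] .w (.f [(546, 2), (446, 1), (362, 1), (242, 1), (558, 1), (238, 1), (418, 1), (334, 2)] [(606, 1), (298, 1)])))))))) (.n 523 [] (.n 434 [] .w (.n 542 [] .w (.n 566 [] .w (.n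 322 [] .w (.n 98 [] (.n 578 [] .w (.n 309 [] .w (.n 409 [] .w (.n 293 [] .w (.n 362 [] .w (.n 246 [] .w (.n 441 [] .w (.n 197 [] .w (.n 217 [] .w (.n 289 [] .w (.n 537 [] .w (.n 234 [] .w (.f [(441, 7), (246, 7), (537, 2), (362, 6), (217, 2), (197, 4), (578, 12), (293, 2), (409, 7), (309, 3), (234, 1), (289, 3)] []))))))))))))) (.f [(611, 5), (566, 15), (607, 11), (542, 3), (322, 6), (538, 15), (298, 3), (98, 42), (434, 9), (119, 2), (174, 9)] [(523, 40)])))))) (.n 242 [] (.n 562 [] .w (.n 534 [] .w (.n 542 [] .w (.n 322 [] .w (.n 462 [] .w (.n 422 [] .w (.n 466 [] .w (.n 446 [] .w (.n 264 [] (.n 334 [] .w (.n 586 [] .w (.n 582 [] .w (.n 479 [] .w (.n 168 [] (.n 578 [] .w (.n 346 [] .w (.n 189 [] .w (.n 417 [] .w (.n 441 [] .w (.n 537 [] .w (.n 234 [] .w (.n 398 [] .w (.n 413 [] .w (.n 437 [] .w (.f [(441, 10), (346, 17), (537, 19), (437, 3), (417, 5), (578, 8), (413, 1), (318, 10), (398, 8), (234, 25), (189,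 2)] []))))))))))) (.f [(586, 6), (446, 5), (582, 3), (562, 2), (462, 2), (322, 4), (168, 11), (479, 4), (334, 7)] [])))))) (.f [(466, 46), (607, 51), (542, 6), (422, 16), (243, 12), (298, 15), (198, 46), (534, 5), (264, 64), (174, 4)] [(370, 17)])))))))))) (.n 264 [] (.n 284 [] (.n 408 [] (.n 436 [] (.n 218 [] .w (.n 432 [] (.n 342 [] .w (.n 214 [] .w (.n 314 [] .w (.n 422 [] .w (.n 48 [] (.n 184 [] (.n 462 [] .w (.n 414 [] .w (.n 446 [] .w (.n 338 [] .w (.n 533 [] (.n 123 [] .w (.n 362 [] .w (.n 434 [] .w (.n 238 [] .w (.n 417 [] .w (.n 546 [] .w (.n 94 [] .w (.n 217 [] .w (.n 317 [] .w (.n 366 [] .w (.f [(366, 7), (546, 33), (362, 12), (417, 3), (317, 5), (217, 20), (583, 5), (338, 10), (238, 18), (298, 4), (123, 3), (434, 35), (94, 5)] []))))))))))) (.f [(446, 16), (371, 6), (462, 4), (342, 7), (242, 11), (533, 21), (338, 1), (359, 1), (414, 1), (314, 6), (214, 10), (119, 4)] [])))))) (.f [(611, 15), (471,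 4), (487, 3), (342, 12), (422, 4), (438, 1), (418, 7), (523, 4), (298, 7), (184, 19)] [])) (.f [(491, 1), (471, 1), (371, 2), (607, 2), (342, 1), (242, 1), (48, 4), (359, 1), (314, 2), (214, 1)] [(370, 4)])))))) (.f [(611, 5), (591, 8), (491, 1), (371, 15), (432, 27), (242, 2), (538, 15), (318, 2), (218, 12), (359, 2), (339, 9), (119, 4), (174, 14)] []))) (.f [(436, 1), (242, 1), (583, 1), (298, 1), (359, 1)] [(358, 1)])) (.f [(371, 1), (242, 1), (408, 2), (339, 1)] [(358, 1)])) (.f [(611, 4), (591, 5), (571, 2), (471, 9), (587, 5), (242, 15), (438, 11), (523, 4), (198, 5), (284, 20)] [])) (.f [(471, 2), (371, 2), (607, 3), (242, 1), (418, 1), (298, 1), (198, 2), (264, 4)] [(370, 4)])))))))))) (.f [(336, 1), (607, 1), (418, 1), (198, 1), (359, 1)] [(358, 1)])) (.f [(491, 1), (287, 1), (583, 1), (198, 1), (359, 1)] [(358, 1)]))) (.f [(121, 4), (607, 1), (347, 1), (538, 1), (318, 1), (359, 2)] [(370, 4), (606,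 2)]))

def A12 : Tr := .n 218 [] (.n 241 [] (.n 538 [] .w (.n 434 [] .w (.n 221 [] (.n 466 [] .w (.n 558 [] .w (.n 337 [] (.n 269 [] .w (.n 557 [] .w (.n 189 [] .w (.n 222 [] .w (.n 441 [] .w (.n 586 [] .w (.n 293 [] .w (.n 533 [] .w (.n 366 [] .w (.n 389 [] .w (.n 433 [] .w (.f [(370, 8), (586, 3), (441, 8), (366, 17), (557, 6), (222, 22), (533, 21), (433, 3), (293, 4), (389, 19), (189, 8), (269, 1)] [])))))))))))) (.f [(466, 1), (337, 1), (558, 1), (243, 1), (174, 1)] [(218, 1)])))) (.f [(221, 1), (342, 1), (538, 1), (243, 1), (434, 1)] [(218, 1)])))) (.f [(241, 1), (583, 1)] [(606, 1), (218, 1)])) (.n 408 [] (.n 339 [] .w (.n 118 [] (.n 539 [] .w (.n 463 [] .w (.n 547 [] .w (.n 587 [] .w (.n 268 [] (.n 487 [] .w (.n 184 [] (.n 432 [] (.n 532 [] (.n 236 [] (.n 442 [] .w (.n 294 [] .w (.n 168 [] (.n 414 [] .w (.n 220 [] (.n 536 [] (.n 466 [] .w (.n 198 [] .w (.n 365 [] (.n 538 [] .w (.n 434 [] .w (.n 534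 [] .w (.n 566 [] .w (.n 289 [] .w (.n 197 [] (.n 213 [] .w (.n 309 [] .w (.n 565 [] .w (.n 293 [] .w (.n 341 [] .w (.n 412 [] .w (.n 602 [] .w (.n 478 [] .w (.n 541 [] .w (.n 545 [] .w (.n 234 [] .w (.n 221 [] .w (.f [(565, 18), (545, 11), (370, 3), (541, 4), (341, 10), (221, 23), (602, 12), (412, 25), (478, 20), (213, 12), (293, 5), (309, 27), (234, 10)] []))))))))))))) (.f [(370, 36), (611, 15), (566, 4), (466, 42), (607, 19), (197, 42), (538, 29), (418, 4), (218, 28), (534, 3), (434, 24), (289, 34)] []))))))) (.f [(365, 4), (611, 1), (607, 1), (583, 1), (418, 1), (218, 1), (198, 2), (414, 1)] [(118, 4)])))) (.f [(370, 52), (536, 65), (607, 5), (442, 40), (218, 45), (559, 8), (459, 18), (359, 6), (174, 13)] [(516, 20)])) (.f [(220, 52), (611, 24), (491, 9), (607, 28), (442, 2), (342, 3), (418, 13), (318, 44), (414, 28), (294, 5)] [(118, 24)]))) (.f [(370, 44), (611, 33), (487, 3), (442, 24), (342, 6), (583,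 11), (463, 8), (168, 54), (559, 10), (459, 19), (359, 4)] [(118, 40)])))) (.f [(370, 12), (236, 20), (342, 11), (547, 1), (447, 5), (583, 9), (418, 17), (559, 15), (174, 2)] [(606, 3), (358, 1), (118, 8)])) (.f [(370, 4), (611, 1), (491, 2), (532, 4), (318, 1), (218, 5), (439, 3)] [(118, 4)])) (.f [(370, 32), (611, 33), (591, 6), (432, 37), (342, 2), (418, 18), (318, 10), (218, 39), (359, 10), (539, 14), (174, 15)] [(118, 28)])) (.f [(370, 40), (611, 33), (471, 5), (607, 10), (587, 14), (487, 1), (342, 10), (447, 3), (418, 48), (318, 7), (218, 19), (184, 38)] [(118, 36)]))) (.f [(370, 8), (611, 14), (607, 12), (268, 44), (459, 3), (174, 8)] [(296, 2), (358, 1), (118, 30)])))))) (.n 287 [] (.n 39 [] (.n 139 [] (.n 47 [] (.n 563 [] .w (.n 63 [] (.n 263 [] (.n 147 [] (.n 587 [] .w (.n 267 [] (.n 463 [] .w (.n 87 [] (.n 387 [] (.n 247 [] .w (.n 259 [] (.n 427 [] (.n 547 [] .w (.n 195 [] (.n 315 [] (.n 539 []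 .w (.n 235 [] (.n 535 [] (.n 298 [] (.n 534 [] .w (.n 246 [] .w (.n 322 [] .w (.n 338 [] .w (.f [(246, 1), (322, 1), (338, 1), (418, 1), (534, 1)] [(298, 1)]))))) (.n 184 [] (.n 487 [] .w (.n 432 [] (.n 571 [] .w (.n 236 [] (.n 360 [] (.n 143 [] (.n 338 [] (.n 334 [] .w (.n 538 [] .w (.n 246 [] .w (.n 558 [] .w (.n 562 [] .w (.n 422 [] .w (.n 466 [] .w (.n 366 [] .w (.n 414 [] .w (.n 242 [] .w (.f [(466, 1), (366, 1), (246, 2), (562, 1), (242, 1), (422, 1), (558, 2), (538, 1), (334, 2), (414, 1)] [(606, 1)]))))))))))) (.n 196 [] (.n 167 [] (.n 238 [] (.n 438 [] .w (.n 246 [] .w (.n 534 [] .w (.n 242 [] .w (.f [(246, 1), (242, 1), (438, 1), (338, 1), (534, 1)] [(238, 1)]))))) (.n 284 [] (.n 532 [] (.n 222 [] .w (.n 322 [] .w (.n 416 [] (.n 462 [] .w (.n 438 [] .w (.n 346 [] .w (.n 409 [] (.n 562 [] .w (.n 538 [] .w (.n 362 [] .w (.n 246 [] .w (.n 566 [] .w (.n 422 [] .w (.n 366 [] .w (.n 446 [] .w (.n 209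 [] (.n 317 [] .w (.n 558 [] .w (.n 546 [] .w (.n 217 [] .w (.n 414 [] .w (.f [(370, 4), (366, 4), (546, 1), (346, 4), (246, 5), (462, 1), (362, 1), (317, 1), (217, 10), (422, 1), (558, 14), (359, 1), (414, 13)] [])))))) (.f [(370, 4), (566, 5), (366, 13), (446, 2), (346, 1), (607, 1), (562, 5), (422, 12), (322, 3), (538, 10), (438, 7), (118, 4), (209, 21)] [])))))))))) (.f [(346, 1), (607, 1), (238, 1), (318, 1), (409, 1)] [(358, 1)]))))) (.f [(370, 4), (416, 12), (607, 1), (587, 1), (322, 2), (222, 6), (338, 5), (238, 6), (559, 10), (359, 1)] [])))) (.f [(471, 1), (532, 1), (238, 1), (318, 1), (359, 1)] [(358, 1)])) (.f [(471, 1), (607, 1), (238, 1), (318, 1), (284, 1)] [(358, 1)]))) (.f [(370, 20), (611, 7), (491, 4), (571, 14), (471, 1), (167, 31), (583, 10), (338, 11), (459, 9), (439, 17)] [])) (.f [(196, 31), (607, 15), (487, 5), (342, 11), (338, 11), (418, 16), (118, 4), (459, 9), (359, 7), (539, 15)]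 []))) (.f [(611, 1), (487, 1), (143, 4), (359, 1)] [(358, 3)])) (.f [(360, 4), (571, 1), (447, 1), (583, 1), (418, 1), (218, 1), (174, 1)] [(358, 2)])) (.f [(370, 4), (236, 24), (342, 13), (547, 3), (447, 7), (583, 5), (418, 11), (298, 10), (559, 17), (459, 6)] [(606, 1), (358, 3)]))) (.f [(611, 30), (591, 12), (432, 42), (342, 4), (318, 3), (218, 14), (118, 12), (298, 17), (359, 3), (339, 15), (174, 28)] []))) (.f [(370, 12), (611, 32), (471, 13), (607, 3), (587, 13), (342, 21), (447, 5), (247, 3), (463, 3), (418, 27), (298, 15), (184, 45)] []))) (.f [(535, 32), (370, 16), (491, 15), (471, 4), (342, 7), (447, 3), (218, 10), (459, 1), (174, 9)] [(606, 9)])) (.f [(235, 36), (591, 2), (471, 18), (342, 8), (547, 12), (583, 1), (418, 11), (318, 15), (559, 14), (174, 6)] [(358, 7)]))) (.f [(315, 4), (611, 2), (607, 1), (247, 1), (463, 2), (418, 1), (174, 2)] [(358, 1)])) (.f [(195, 20), (611, 13), (587, 5), (342,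 8), (463, 1), (418, 12), (459, 5), (359, 7), (339, 1)] []))) (.f [(370, 5), (611, 8), (427, 30), (218, 12), (359, 10), (339, 4), (174, 7)] [])) (.f [(611, 3), (471, 1), (587, 4), (447, 3), (247, 9), (563, 6), (418, 9), (218, 4), (259, 16)] [(358, 3)]))) (.f [(370, 11), (591, 6), (387, 28), (318, 7), (218, 7), (559, 6), (359, 2), (174, 13)] [])) (.f [(370, 11), (491, 1), (87, 48), (447, 5), (418, 12), (318, 7), (559, 18), (174, 18)] []))) (.f [(611, 5), (267, 12), (563, 1), (459, 2), (439, 1), (174, 2)] [(358, 3)]))) (.f [(611, 12), (147, 20), (418, 13), (318, 7), (559, 6), (459, 5), (359, 1), (339, 8)] [])) (.f [(491, 11), (471, 8), (607, 19), (263, 40), (218, 1), (174, 18)] [(358, 21)])) (.f [(591, 4), (491, 5), (471, 10), (607, 26), (342, 21), (63, 40), (418, 10), (459, 5), (359, 9), (174, 30)] []))) (.f [(611, 12), (47, 20), (318, 7), (218, 13), (559, 1), (459, 5), (359, 6), (439, 8)] [])) (.f [(370, 2),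 (471, 2), (607, 6), (342, 2), (583, 1), (418, 5), (318, 5), (139, 8)] [(358, 3)])) (.f [(370, 2), (471, 2), (607, 5), (447, 3), (318, 3), (218, 5), (39, 8)] [])) (.f [(611, 10), (491, 4), (471, 41), (607, 6), (287, 61), (218, 23), (118, 44), (559, 37), (174, 30)] [])))) (.n 239 [] (.n 562 [] .w (.n 222 [] .w (.n 314 [] .w (.n 566 [] .w (.n 366 [] .w (.f [(370, 4), (611, 3), (566, 3), (366, 2), (562, 3), (222, 5), (408, 9), (218, 4), (314, 3)] [])))))) (.f [(370, 1), (342, 1), (408, 2), (239, 1)] [(358, 1)])))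

def A13 : Tr := .n 423 [] (.n 237 [] .w (.n 309 [] .w (.n 114 [] .w (.n 458 [] .w (.n 482 [] .w (.n 441 [] .w (.n 289 [] .w (.n 537 [] .w (.n 118 [] .w (.n 470 [] .w (.n 370 [] .w (.n 221 [] .w (.f [(470, 4), (370, 4), (441, 11), (221, 19), (482, 2), (537, 26), (237, 2), (458, 9), (118, 21), (309, 21), (289, 1), (114, 3), (174, 5)] []))))))))))))) (.n 371 [] (.n 298 [] .w (.n 222 [] .w (.n 441 [] (.n 334 [] .w (.n 313 [] .w (.n 458 [] .w (.n 189 [] .w (.n 546 [] .w (.n 394 [] .w (.n 398 [] .w (.n 437 [] .w (.n 242 [] .w (.f [(611, 1), (546, 12), (437, 3), (242, 10), (458, 6), (313, 6), (398, 1), (334, 7), (189, 3), (394, 3)] [])))))))))) (.f [(611, 1), (441, 1), (222, 1), (298, 1), (359, 1)] [(371, 1)])))) (.n 491 [] (.n 218 [] .w (.n 434 [] .w (.n 417 [] (.n 122 [] .w (.n 409 [] .w (.n 337 [] .w (.n 246 [] .w (.n 586 [] .w (.n 217 [] .w (.n 533 [] .w (.n 118 [] .w (.n 413 [] .w (.n 69 [] .w (.n 446 [] .w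 (.n 433 [] .w (.f [(586, 3), (446, 4), (246, 12), (337, 14), (217, 2), (122, 3), (533, 11), (433, 2), (413, 2), (118, 4), (409, 6), (69, 13)] []))))))))))))) (.f [(611, 1), (371, 1), (417, 1), (218, 1), (434, 1)] [(491, 1)])))) (.n 418 [] (.n 620 [] .w (.n 533 [] (.n 462 [] .w (.n 322 [] .w (.n 242 [] .w (.n 198 [] .w (.n 284 [] (.n 346 [] .w (.n 362 [] .w (.n 495 [] .w (.n 442 [] .w (.n 583 [] .w (.n 366 [] .w (.n 433 [] (.n 123 [] .w (.n 238 [] .w (.n 486 [] .w (.n 446 [] .w (.n 164 [] (.n 298 [] .w (.n 334 [] .w (.n 317 [] .w (.n 590 [] .w (.n 337 [] .w (.n 434 [] .w (.n 546 [] .w (.n 217 [] .w (.n 490 [] .w (.f [(590, 1), (490, 3), (366, 1), (546, 10), (337, 4), (317, 3), (217, 4), (583, 1), (238, 8), (298, 2), (434, 9), (334, 2)] [])))))))))) (.f [(495, 12), (486, 4), (366, 41), (446, 18), (346, 18), (607, 15), (442, 44), (322, 22), (583, 66), (423, 3), (123, 12), (164, 81)] [])))))) (.f [(366, 1), (362,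 1), (433, 2), (543, 1), (174, 1)] [(358, 1), (418, 1)])))))))) (.f [(620, 4), (611, 8), (591, 8), (491, 7), (607, 1), (462, 16), (567, 2), (242, 4), (543, 1), (318, 2), (198, 20), (284, 23)] [])))))) (.f [(491, 1), (533, 1)] [(606, 1), (418, 1)]))) (.n 583 [] (.n 338 [] (.n 421 [] .w (.n 309 [] .w (.n 293 [] .w (.n 610 [] .w (.n 297 [] .w (.n 173 [] .w (.n 241 [] .w (.n 98 [] .w (.n 465 [] .w (.n 561 [] .w (.n 209 [] .w (.n 437 [] .w (.f [(610, 16), (465, 16), (561, 9), (241, 11), (421, 7), (607, 8), (437, 10), (297, 9), (293, 8), (173, 11), (98, 8), (309, 16), (209, 11)] []))))))))))))) (.n 221 [] (.n 198 [] .w (.n 422 [] .w (.n 541 [] (.n 334 [] .w (.n 538 [] .w (.n 293 [] .w (.n 222 [] .w (.n 486 [] .w (.n 595 [] .w (.n 289 [] .w (.n 466 [] .w (.n 193 [] .w (.n 446 [] .w (.f [(595, 4), (486, 8), (466, 5), (446, 9), (607, 15), (422, 1), (222, 6), (538, 4), (293, 4), (193, 14), (334, 8), (289, 11), (174,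 3)] []))))))))))) (.f [(541, 1), (607, 1), (338, 1), (198, 1), (459, 1)] [(583, 1)])))) (.f [(221, 1), (607, 1), (338, 1), (418, 1), (559, 1)] [(583, 1)]))) (.n 187 [] (.n 370 [] (.n 339 [] .w (.n 587 [] .w (.n 272 [] (.n 538 [] (.n 298 [] .w (.n 434 [] .w (.n 566 [] .w (.n 294 [] .w (.n 422 [] .w (.n 213 [] (.n 603 [] .w (.n 554 [] .w (.n 582 [] .w (.n 441 [] .w (.n 486 [] .w (.n 94 [] .w (.n 173 [] .w (.n 98 [] .w (.n 289 [] .w (.n 317 [] .w (.n 234 [] .w (.n 366 [] .w (.f [(486, 21), (441, 16), (366, 4), (582, 25), (317, 16), (603, 3), (173, 24), (98, 14), (554, 9), (234, 13), (289, 17), (94, 2)] []))))))))))))) (.f [(611, 1), (566, 1), (607, 1), (422, 1), (213, 2), (298, 1), (434, 1), (294, 1)] [(538, 1)]))))))) A11) (.f [(611, 10), (491, 6), (272, 28), (243, 4), (459, 3), (359, 7), (174, 6)] [(370, 24)])))) (.n 342 [] (.n 582 [] (.n 466 [] .w (.n 218 [] .w (.n 289 [] .w (.n 322 [] .w (.f [(466, 1), (607,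 1), (322, 1), (218, 1), (289, 1)] [(342, 1)]))))) (.n 366 [] (.n 218 [] .w (.n 322 [] .w (.n 289 [] (.n 144 [] .w (.n 237 [] .w (.n 532 [] .w (.n 148 [] .w (.n 384 [] .w (.n 268 [] .w (.n 84 [] .w (.n 536 [] .w (.n 396 [] .w (.n 512 [] .w (.n 272 [] .w (.n 184 [] .w (.f [(536, 9), (396, 38), (532, 7), (512, 26), (237, 12), (272, 2), (268, 40), (148, 7), (384, 4), (184, 16), (84, 20), (144, 7)] []))))))))))))) (.f [(491, 1), (582, 1), (322, 1), (218, 1), (289, 1)] [(342, 1)])))) (.f [(366, 1), (582, 1)] [(606, 1), (342, 1)]))) (.n 436 [] A12 (.f [(370, 12), (436, 48), (607, 16), (342, 26), (583, 23), (418, 9), (318, 1), (243, 12), (359, 9), (174, 36)] [])))) (.f [(371, 1), (187, 1), (583, 1), (418, 1), (359, 1)] [(358, 1)]))))))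

def A14 : Tr := .n 294 [] (.n 366 [] (.n 234 [] .w (.n 334 [] .w (.n 566 [] .w (.n 362 [] .w (.f [(566, 1), (546, 1), (362, 1), (418, 1), (334, 1), (234, 1)] [(606, 1), (294, 1)]))))) (.n 534 [] (.n 234 [] .w (.n 334 [] .w (.n 314 [] .w (.n 542 [] .w (.f [(366, 1), (546, 1), (542, 1), (418, 1), (334, 1), (234, 1), (314, 1)] [(606, 1), (294, 2)]))))) (.f [(366, 1), (534, 1)] [(606, 1), (294, 1)]))) (.n 334 [] (.n 467 [] .w (.n 312 [] (.n 346 [] (.n 362 [] .w (.n 214 [] .w (.n 169 [] .w (.n 222 [] .w (.n 238 [] .w (.n 534 [] .w (.n 74 [] .w (.n 566 [] .w (.n 462 [] .w (.n 413 [] .w (.n 446 [] .w (.f [(566, 9), (546, 4), (446, 4), (462, 10), (362, 2), (222, 5), (358, 14), (413, 2), (238, 1), (534, 3), (214, 2), (169, 8), (74, 4)] [])))))))))))) (.n 164 [] (.n 214 [] (.n 466 [] .w (.n 562 [] .w (.n 246 [] .w (.n 534 [] .w (.f [(466, 1), (246, 1), (562, 1), (358, 1), (534, 1)] [(606, 1)]))))) (.n 417 [] (.n 342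 [] .w (.n 434 [] (.n 213 [] .w (.n 169 [] .w (.n 114 [] .w (.n 73 [] .w (.n 313 [] .w (.n 341 [] .w (.n 482 [] .w (.n 514 [] .w (.n 534 [] .w (.n 241 [] .w (.n 394 [] .w (.n 537 [] .w (.n 221 [] .w (.f [(341, 15), (241, 4), (221, 12), (482, 20), (537, 11), (313, 10), (213, 2), (73, 19), (534, 11), (514, 3), (114, 5), (394, 5), (169, 7)] [])))))))))))))) (.f [(546, 1), (342, 1), (358, 1), (434, 1), (214, 1)] [(334, 1)]))) (.f [(346, 1), (417, 1), (358, 1), (559, 1), (214, 1)] [(334, 1)]))) (.f [(346, 1), (467, 1), (358, 1), (559, 1), (164, 1)] [(334, 1)]))) (.f [(591, 1), (312, 1), (358, 1), (459, 1), (174, 1)] [(334, 1)]))) (.n 196 [] (.n 439 [] .w (.n 216 [] (.n 491 [] (.n 194 [] .w (.n 487 [] .w (.n 417 [] (.n 562 [] .w (.n 434 [] .w (.n 458 [] .w (.n 222 [] .w (.n 371 [] .w (.n 322 [] .w (.n 479 [] .w (.n 168 [] (.n 333 [] .w (.n 409 [] .w (.n 189 [] .w (.n 354 [] .w (.n 478 [] .w (.n 566 [] .w (.n 394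 [] .w (.n 289 [] .w (.n 462 [] .w (.n 242 [] .w (.f [(566, 27), (546, 64), (462, 30), (242, 45), (322, 16), (478, 32), (333, 59), (354, 12), (409, 21), (289, 4), (189, 46), (394, 8)] []))))))))))) (.f [(611, 2), (546, 1), (471, 7), (371, 9), (607, 2), (562, 14), (487, 2), (222, 1), (458, 1), (168, 18), (479, 4), (434, 5), (334, 10)] []))))))))) (.f [(611, 1), (471, 1), (417, 1), (358, 1), (194, 1)] [(491, 1)])))) (.n 188 [] (.n 212 [] (.n 542 [] (.n 314 [] .w (.n 467 [] .w (.n 168 [] (.n 438 [] .w (.n 241 [] (.n 234 [] .w (.n 342 [] .w (.n 442 [] (.n 229 [] .w (.n 409 [] .w (.n 337 [] .w (.n 353 [] .w (.n 486 [] .w (.n 197 [] .w (.n 233 [] .w (.n 566 [] .w (.n 49 [] .w (.n 533 [] .w (.n 466 [] .w (.n 429 [] .w (.f [(486, 2), (566, 4), (466, 4), (337, 6), (197, 4), (353, 3), (533, 5), (233, 2), (429, 2), (229, 3), (409, 1), (49, 4)] []))))))))))))) (.f [(546, 1), (442, 1), (342, 1), (538, 1), (234, 1)] [(542,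 1)])))) (.f [(241, 1), (546, 1), (607, 1), (438, 1), (334, 1)] [(606, 1)]))) (.f [(546, 1), (607, 1), (467, 1), (168, 1), (314, 1)] [(542, 1)])))) (.n 184 [] (.n 442 [] (.n 557 [] (.n 338 [] .w (.n 434 [] .w (.n 198 [] .w (.n 197 [] (.n 462 [] .w (.n 366 [] .w (.f [(366, 1), (462, 1), (542, 1), (198, 1), (434, 1)] [(442, 1)]))) (.f [(491, 1), (542, 1), (197, 1), (338, 1), (434, 1)] [(442, 1)]))))) (.f [(491, 1), (557, 1)] [(606, 1), (442, 1)])) (.n 209 [] (.n 587 [] .w (.n 233 [] (.n 487 [] .w (.n 164 [] (.n 223 [] .w (.n 536 [] (.n 148 [] (.n 247 [] .w (.n 336 [] (.n 440 [] (.n 604 [] .w (.n 116 [] (.n 314 [] .w (.n 414 [] .w (.n 221 [] (.n 342 [] .w (.n 434 [] .w (.n 428 [] (.n 462 [] .w (.n 562 [] .w (.n 534 [] .w (.n 268 [] (.n 362 [] .w (.n 579 [] .w (.n 558 [] .w (.n 193 [] (.n 603 [] .w (.n 222 [] .w (.n 566 [] .w (.n 413 [] .w (.n 242 [] .w (.n 446 [] .w (.f [(611, 2), (566, 5), (546, 9), (446, 9),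 (242, 19), (222, 6), (603, 4), (558, 5), (413, 16), (334, 19), (314, 6)] []))))))) (.f [(611, 2), (491, 8), (546, 26), (607, 3), (462, 19), (362, 14), (358, 9), (193, 27), (579, 4), (534, 1), (434, 9), (334, 13), (174, 9)] []))))) (.f [(611, 9), (546, 15), (607, 3), (562, 2), (462, 13), (247, 6), (268, 24), (434, 16), (334, 5), (174, 3)] []))))) (.f [(611, 39), (546, 13), (487, 12), (542, 28), (342, 25), (247, 11), (428, 68), (358, 8), (334, 45), (314, 2), (174, 29)] [])))) (.f [(611, 1), (221, 26), (607, 1), (542, 10), (442, 15), (358, 20), (538, 6), (604, 4), (559, 4), (414, 11), (314, 7)] [(296, 1)])))) (.f [(116, 4), (587, 1), (538, 1), (559, 1)] [(606, 3)]))) (.f [(440, 4), (611, 1), (546, 3), (587, 1), (487, 1), (247, 1), (358, 2), (538, 1), (334, 3)] [(606, 1)])) (.f [(336, 1), (546, 1), (442, 1), (358, 1), (174, 1)] [(296, 1)]))) (.f [(611, 4), (487, 2), (542, 2), (442, 4), (538, 1), (148, 8), (334,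 5), (439, 1), (294, 2)] [(233, 1)])) (.f [(536, 2), (491, 1), (607, 1), (442, 1), (358, 1), (223, 1), (334, 1), (174, 1)] [(606, 1)]))) (.f [(591, 1), (546, 1), (471, 1), (607, 1), (442, 1), (358, 2), (164, 2)] [(606, 1)]))) (.f [(611, 1), (546, 1), (442, 1), (233, 1), (334, 1)] [(606, 1)]))) (.f [(611, 1), (546, 1), (442, 1), (358, 1), (209, 1)] [(606, 1)]))) (.f [(611, 1), (471, 1), (542, 1), (358, 1), (184, 1)] [(606, 1)]))) (.f [(491, 1), (546, 1), (212, 1), (358, 1), (559, 1)] [(606, 1)])) (.f [(491, 1), (546, 1), (607, 1), (188, 1), (334, 1)] [(606, 1)]))) (.f [(216, 1), (546, 1), (607, 1), (358, 1), (439, 1)] [(606, 1)]))) (.f [(611, 1), (196, 1), (607, 1), (418, 1), (334, 1)] [(606, 1)])))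

def A15 : Tr := .n 538 [] (.n 447 [] .w (.n 467 [] .w (.n 339 [] .w (.n 347 [] .w (.n 223 [] .w (.n 561 [] (.n 439 [] .w (.n 463 [] .w (.n 239 [] .w (.n 212 [] (.n 312 [] (.n 39 [] (.n 139 [] (.n 487 [] .w (.n 491 [] .w (.n 179 [] (.n 63 [] (.n 47 [] (.n 147 [] (.n 567 [] .w (.n 195 [] (.n 67 [] (.n 267 [] (.n 227 [] (.n 327 [] (.n 552 [] (.n 235 [] (.n 547 [] .w (.n 236 [] (.n 215 [] (.n 335 [] (.n 246 [] (.n 309 [] .w (.n 338 [] .w (.n 454 [] .w (.n 458 [] .w (.n 222 [] .w (.n 482 [] .w (.n 238 [] .w (.n 546 [] .w (.n 542 [] .w (.n 466 [] .w (.n 438 [] .w (.n 366 [] .w (.f [(466, 6), (366, 7), (546, 15), (482, 4), (542, 13), (222, 11), (458, 2), (438, 8), (338, 1), (238, 17), (454, 8), (309, 20)] []))))))))))))) (.n 336 [] (.n 534 [] (.n 362 [] .w (.n 458 [] .w (.n 546 [] .w (.n 566 [] .w (.n 234 [] .w (.f [(566, 1), (546, 1), (362, 1), (458, 1), (234, 1)] [(606, 1)])))))) (.n 457 [] (.n 442 [] .w (.n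 333 [] (.n 362 [] .w (.n 222 [] .w (.n 238 [] .w (.n 566 [] .w (.n 466 [] .w (.n 446 [] .w (.f [(566, 1), (466, 1), (446, 1), (362, 1), (222, 1), (358, 1), (238, 1), (534, 2)] [(606, 1)]))))))) (.f [(611, 1), (246, 1), (442, 1), (333, 1), (534, 1)] [(606, 1)]))) (.f [(611, 1), (246, 1), (457, 1), (318, 1), (534, 1)] [(606, 1)]))) (.f [(336, 1), (246, 1), (607, 1), (418, 1), (559, 1)] [(606, 1)]))) (.f [(335, 96), (571, 45), (607, 42), (567, 1), (447, 2), (418, 70), (559, 21), (174, 24)] [(538, 25)])) (.f [(215, 16), (611, 2), (571, 7), (487, 4), (547, 5), (358, 10), (439, 9)] [(538, 1)])) (.f [(236, 2), (547, 1), (583, 1), (418, 1), (559, 1)] [(606, 1), (538, 1)]))) (.f [(235, 108), (591, 26), (571, 33), (471, 13), (567, 3), (347, 48), (418, 65), (559, 51)] [(606, 21), (538, 14)])) (.f [(552, 4), (358, 2), (463, 1), (418, 2), (339, 1), (239, 1), (174, 2)] [(538, 1)])) (.f [(611, 8), (571, 5), (327, 30), (418,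 12), (559, 10), (439, 4), (174, 7)] [])) (.f [(571, 3), (471, 2), (227, 12), (583, 2), (463, 1), (418, 5), (559, 6), (339, 4)] [(606, 3)])) (.f [(611, 7), (571, 4), (267, 16), (463, 7), (559, 2), (439, 1), (174, 8)] [(538, 1)])) (.f [(611, 51), (471, 17), (67, 108), (583, 20), (358, 56), (463, 32), (459, 22), (339, 15), (174, 71)] [])) (.f [(195, 8), (611, 2), (591, 3), (607, 3), (487, 2), (358, 1), (418, 5), (339, 5)] [(538, 1)]))) (.f [(611, 11), (491, 1), (147, 20), (358, 1), (418, 13), (318, 6), (559, 7), (459, 4), (339, 9)] [])) (.f [(591, 4), (47, 8), (583, 1), (358, 2), (463, 1), (318, 3), (439, 3), (239, 4)] [(296, 1), (538, 1)])) (.f [(591, 11), (491, 7), (471, 1), (607, 19), (63, 40), (418, 1), (174, 18)] [(538, 21)])) (.f [(611, 41), (471, 3), (607, 22), (487, 24), (347, 62), (583, 29), (358, 14), (418, 65), (179, 108)] [])))) (.f [(571, 12), (607, 17), (447, 4), (347, 15), (583, 6), (358, 4),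 (418, 26), (318, 5), (139, 36)] [(538, 5)])) (.f [(591, 4), (607, 20), (467, 4), (447, 8), (358, 5), (318, 17), (223, 17), (39, 32)] [(538, 7)])) (.f [(611, 1), (312, 1), (583, 1), (418, 1), (174, 1)] [(538, 1)])) (.f [(611, 1), (571, 1), (212, 2), (358, 1), (418, 2), (559, 1), (174, 1)] [(538, 1)]))))) (.f [(561, 2), (607, 1), (358, 1), (418, 1), (174, 1)] [(606, 1), (538, 1)]))))))) (.n 546 [] (.n 347 [] .w (.n 412 [] (.n 332 [] (.n 532 [] (.n 196 [] (.n 467 [] .w (.n 316 [] (.n 336 [] (.n 247 [] .w (.n 163 [] (.n 39 [] (.n 259 [] (.n 447 [] .w (.n 487 [] .w (.n 139 [] (.n 179 [] (.n 334 [] (.n 346 [] .w (.n 534 [] (.n 461 [] .w (.n 216 [] .w (.n 557 [] .w (.n 109 [] .w (.n 48 [] .w (.n 392 [] .w (.n 340 [] .w (.n 236 [] .w (.n 561 [] .w (.n 272 [] .w (.n 64 [] .w (.f [(340, 4), (561, 1), (461, 2), (236, 3), (216, 2), (557, 4), (392, 3), (272, 1), (48, 8), (109, 5), (64, 3)] [])))))))))))) (.f [(346, 1),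 (534, 1)] [(546, 1), (334, 1)]))) (.n 172 [] (.n 567 [] .w (.n 124 [] .w (.n 232 [] (.n 491 [] .w (.n 236 [] (.n 218 [] .w (.n 314 [] .w (.n 112 [] (.n 72 [] (.n 294 [] .w (.n 422 [] (.n 362 [] .w (.n 246 [] .w (.n 534 [] .w (.n 558 [] .w (.n 466 [] .w (.f [(466, 1), (246, 1), (362, 1), (558, 1), (534, 1)] [(606, 1)])))))) (.n 241 [] (.n 342 [] .w (.n 214 [] .w (.n 458 [] .w (.n 238 [] .w (.n 438 [] .w (.n 414 [] .w (.n 304 [] (.n 442 [] .w (.n 558 [] .w (.n 534 [] .w (.n 322 [] .w (.n 119 [] .w (.n 221 [] (.n 495 [] .w (.n 562 [] .w (.n 293 [] .w (.n 209 [] (.n 361 [] .w (.n 268 [] .w (.n 408 [] .w (.n 517 [] .w (.n 561 [] .w (.n 149 [] .w (.n 457 [] .w (.f [(561, 1), (361, 1), (457, 1), (517, 1), (408, 1), (268, 1), (149, 2)] [])))))))) (.f [(495, 4), (611, 15), (571, 3), (471, 1), (562, 1), (442, 6), (422, 6), (322, 6), (558, 1), (438, 3), (238, 1), (293, 14), (209, 19)] []))))) (.f [(611, 1), (221, 19),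 (607, 4), (442, 14), (342, 1), (422, 1), (358, 11), (538, 9), (534, 5), (414, 4), (314, 6), (294, 1), (119, 4)] []))))))) (.f [(611, 9), (491, 5), (607, 24), (422, 30), (458, 9), (538, 11), (238, 6), (218, 28), (304, 44), (214, 7), (174, 3)] [])))))))) (.f [(241, 1), (571, 1), (422, 1), (538, 1), (334, 1)] [(546, 1)])))) (.f [(491, 3), (607, 1), (72, 4), (538, 4), (218, 1), (334, 3), (174, 2)] [(546, 2)])) (.f [(571, 21), (471, 3), (112, 36), (418, 20), (318, 5), (218, 11), (559, 6), (334, 18), (174, 12)] [(606, 4)])))) (.f [(236, 53), (571, 14), (607, 4), (567, 27), (447, 26), (347, 10), (583, 7), (358, 6), (538, 14), (418, 40), (334, 50), (174, 13), (124, 4)] []))) (.f [(611, 1), (571, 1), (232, 1), (418, 1), (334, 1)] [(606, 1)])))) (.f [(611, 1), (571, 1), (172, 1), (418, 1), (334, 1)] [(546, 1)]))) (.f [(611, 1), (591, 1), (471, 2), (607, 6), (487, 3), (347, 7), (358, 3), (538, 5), (418, 8), (179, 16)]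 [])) (.f [(571, 30), (471, 22), (607, 55), (447, 2), (347, 39), (358, 6), (418, 61), (318, 29), (139, 96)] [])))) (.f [(591, 1), (571, 2), (467, 1), (247, 3), (538, 3), (418, 1), (259, 4)] [(606, 1), (546, 2)])) (.f [(571, 6), (471, 1), (467, 5), (247, 7), (583, 4), (358, 3), (418, 1), (318, 4), (39, 12)] [(546, 3)])) (.f [(571, 1), (471, 1), (607, 1), (163, 2)] [(546, 1)]))) (.f [(336, 1), (571, 1), (607, 1), (418, 1), (174, 1)] [(546, 1)])) (.f [(316, 2), (607, 1), (538, 1), (174, 1)] [(546, 1)]))) (.f [(196, 2), (607, 1), (538, 1), (418, 1)] [(546, 1)])) (.f [(611, 1), (471, 1), (532, 1), (318, 1), (174, 1)] [(546, 1)])) (.f [(611, 1), (571, 1), (332, 1), (418, 1), (174, 1)] [(546, 1)])) (.f [(591, 1), (571, 1), (412, 1), (358, 1), (174, 1)] [(546, 1)]))) (.n 192 [] (.n 232 [] (.n 236 [] (.n 139 [] (.n 147 [] (.n 87 [] (.n 327 [] (.n 315 [] (.n 335 [] (.n 254 [] A14 (.f [(471, 1), (607, 2), (538, 1), (418,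 1), (254, 2)] [(606, 1)])) (.f [(335, 8), (546, 4), (607, 2), (418, 2), (559, 1), (174, 1)] [(606, 2)])) (.f [(315, 6), (611, 2), (546, 1), (607, 1), (538, 1), (174, 1)] [(516, 2)])) (.f [(611, 2), (327, 12), (538, 2), (418, 1), (318, 3), (559, 4), (174, 4)] [])) (.f [(546, 1), (471, 2), (87, 12), (358, 4), (418, 4), (318, 2), (559, 5), (174, 6)] [])) (.f [(611, 18), (147, 34), (358, 3), (538, 12), (418, 9), (318, 23), (459, 21)] [(71, 2)])) (.f [(591, 1), (546, 21), (471, 36), (607, 30), (358, 7), (418, 16), (318, 37), (139, 60)] [])) (.f [(236, 1), (546, 1), (607, 1), (318, 1), (459, 1)] [(606, 1)])) (.f [(611, 1), (546, 1), (232, 1), (318, 1), (459, 1)] [(606, 1)])) (.f [(611, 1), (546, 1), (192, 1), (358, 1), (459, 1)] [(606, 1)])))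

def A16 : Tr := .n 358 [] (.n 439 [] .w (.n 163 [] (.n 447 [] .w (.n 311 [] (.n 159 [] (.n 567 [] .w (.n 347 [] .w (.n 243 [] (.n 483 [] .w (.n 214 [] .w (.n 542 [] .w (.n 198 [] .w (.n 366 [] (.n 287 [] .w (.n 432 [] .w (.n 532 [] .w (.n 148 [] .w (.n 384 [] .w (.n 268 [] .w (.n 196 [] .w (.n 416 [] .w (.n 536 [] .w (.n 204 [] .w (.n 512 [] .w (.n 121 [] .w (.f [(536, 6), (416, 2), (196, 5), (121, 12), (532, 2), (432, 7), (512, 14), (287, 2), (268, 20), (148, 5), (204, 12), (384, 13)] []))))))))))))) (.f [(366, 1), (542, 1), (483, 1), (198, 1), (214, 1)] [(243, 1)])))))) A13))) (.f [(611, 1), (471, 1), (607, 1), (318, 1), (159, 1)] [(606, 1)])) (.f [(311, 2), (607, 2), (174, 1)] [(606, 1)]))) (.f [(471, 1), (607, 1), (163, 2), (359, 1)] [(358, 1)]))) (.n 436 [] (.n 167 [] (.n 159 [] (.n 432 [] (.n 583 [] (.n 223 [] .w (.n 463 [] .w (.n 547 [] .w (.n 188 [] (.n 571 [] .w (.n 587 [] .w (.n 267 [] (.n 412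 [] (.n 172 [] (.n 221 [] (.n 218 [] .w (.n 434 [] .w (.n 546 [] .w (.f [(546, 1), (587, 1), (358, 1), (218, 1), (434, 1)] [(583, 1)])))) (.n 418 [] (.n 461 [] .w (.n 97 [] .w (.n 565 [] .w (.n 164 [] .w (.n 73 [] .w (.n 441 [] .w (.n 233 [] .w (.n 537 [] .w (.n 284 [] .w (.n 561 [] .w (.n 93 [] .w (.n 437 [] .w (.n 121 [] .w (.f [(565, 20), (561, 2), (461, 7), (441, 2), (121, 27), (537, 5), (437, 18), (97, 15), (233, 16), (93, 21), (73, 1), (284, 27), (164, 11)] [])))))))))))))) (.f [(221, 1), (587, 1), (358, 1), (418, 1), (559, 1)] [(583, 1)]))) (.f [(591, 1), (172, 1), (358, 1), (463, 1), (559, 1)] [(583, 1)])) (.f [(591, 1), (412, 1), (358, 1), (223, 1), (559, 1)] [(583, 1)])) (.f [(611, 2), (571, 1), (267, 4), (463, 2), (223, 1), (559, 1), (174, 2)] [(583, 1)])))) (.f [(591, 1), (547, 1), (358, 1), (188, 1), (459, 1)] [(583, 1)]))))) (.n 418 [] (.n 467 [] .w (.n 247 [] .w (.n 239 [] .w (.n 339 [] .w (.n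 463 [] .w (.n 491 [] (.n 213 [] .w (.n 309 [] .w (.n 337 [] .w (.n 442 [] .w (.n 482 [] .w (.n 189 [] .w (.n 546 [] .w (.n 94 [] .w (.n 294 [] .w (.n 118 [] .w (.n 242 [] .w (.n 446 [] .w (.f [(546, 23), (446, 4), (482, 14), (337, 6), (442, 5), (242, 2), (213, 16), (118, 11), (309, 13), (189, 5), (294, 4), (94, 5)] []))))))))))))) (.n 533 [] (.n 447 [] .w (.n 541 [] (.n 187 [] (.n 124 [] .w (.n 434 [] (.n 562 [] .w (.n 458 [] .w (.n 294 [] .w (.n 234 [] .w (.n 446 [] .w (.f [(446, 1), (562, 1), (458, 1), (234, 1), (294, 1)] [(434, 1)])))))) (.n 172 [] (.n 458 [] (.n 562 [] .w (.n 222 [] .w (.n 238 [] .w (.n 534 [] .w (.n 466 [] .w (.n 446 [] .w (.f [(466, 2), (446, 1), (562, 1), (222, 1), (358, 2), (238, 1), (534, 2)] [(606, 1), (458, 1)]))))))) (.n 537 [] (.n 342 [] .w (.n 620 [] .w (.n 571 [] .w (.n 164 [] (.n 362 [] .w (.n 441 [] (.n 419 [] .w (.n 198 [] .w (.n 462 [] .w (.n 366 [] .w (.n 547 [] .w (.n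 409 [] (.n 237 [] .w (.n 333 [] .w (.n 337 [] .w (.n 558 [] .w (.n 586 [] .w (.n 217 [] .w (.n 478 [] .w (.n 446 [] .w (.f [(586, 5), (366, 8), (446, 5), (337, 6), (237, 6), (217, 3), (547, 3), (478, 4), (558, 10), (333, 4), (434, 3), (419, 6), (174, 9)] []))))))))) (.f [(366, 1), (462, 1), (543, 1), (198, 1), (409, 1)] [(418, 1)]))))))) (.f [(441, 1), (362, 1), (458, 1), (543, 1), (174, 1)] [(418, 1)]))) (.f [(620, 4), (611, 1), (491, 11), (571, 23), (607, 7), (342, 19), (447, 8), (247, 1), (458, 17), (358, 12), (543, 1), (318, 5), (164, 35)] []))))) (.f [(491, 1), (537, 1), (458, 1), (318, 1), (174, 1)] [(418, 1)]))) (.f [(611, 34), (591, 33), (491, 5), (467, 4), (172, 68), (358, 26), (463, 16), (543, 4), (318, 26), (434, 46), (339, 19), (239, 3), (124, 4)] [])))) (.f [(491, 1), (471, 1), (187, 2), (358, 1), (543, 2), (459, 1), (174, 1)] [(418, 1)])) (.f [(541, 1), (358, 1)] [(606, 1), (418, 1)]))) (.f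 [(491, 1), (533, 1)] [(606, 1), (418, 1)])))))))) (.n 187 [] (.n 387 [] (.n 571 [] (.n 563 [] .w (.n 557 [] (.n 452 [] (.n 172 [] (.n 558 [] (.n 434 [] .w (.n 538 [] .w (.n 246 [] .w (.n 322 [] .w (.f [(591, 1), (246, 1), (322, 1), (538, 1), (434, 1)] [(571, 1)]))))) (.n 317 [] (.n 462 [] .w (.n 366 [] .w (.n 246 [] .w (.n 534 [] .w (.f [(366, 1), (246, 1), (462, 1), (558, 1), (534, 1)] [(606, 1)]))))) (.f [(611, 1), (471, 1), (317, 1), (558, 1), (174, 1)] [(571, 1)]))) (.f [(611, 1), (471, 1), (172, 1), (318, 1), (559, 1)] [(571, 1)])) (.f [(611, 1), (452, 4), (358, 1), (563, 1), (318, 2), (559, 1), (174, 3)] [(571, 1)])) (.f [(611, 1), (471, 1), (557, 1), (318, 1), (174, 1)] [(571, 1)]))) A15) (.f [(591, 4), (387, 8), (583, 1), (358, 5), (318, 2), (559, 1), (174, 7)] [])) (.f [(591, 1), (471, 1), (187, 2), (358, 2), (418, 1), (559, 1), (174, 1)] [(183, 1)])))) (.f [(611, 1), (591, 1), (432, 1), (358, 1),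 (174, 1)] [(606, 1)])) (.f [(611, 1), (471, 1), (607, 1), (318, 1), (159, 1)] [(606, 1)])) (.f [(611, 1), (471, 1), (167, 1), (358, 1), (559, 1)] [(606, 1)])) (.f [(436, 2), (607, 1), (358, 1), (174, 1)] [(606, 1)]))

def A17 : Tr := .n 559 [] (.n 561 [] (.n 571 [] (.n 513 [] .w (.n 361 [] .w (.n 73 [] .w (.n 312 [] .w (.n 412 [] .w (.n 233 [] .w (.n 49 [] .w (.n 517 [] .w (.n 69 [] .w (.n 333 [] .w (.n 457 [] .w (.n 221 [] .w (.f [(361, 15), (221, 9), (457, 13), (412, 11), (312, 1), (517, 15), (333, 8), (233, 15), (513, 9), (73, 8), (69, 21), (49, 19)] []))))))))))))) (.n 164 [] (.n 563 [] .w (.n 566 [] (.n 234 [] .w (.n 583 [] .w (.n 317 [] .w (.n 414 [] .w (.f [(571, 1), (317, 1), (583, 1), (234, 1), (414, 1)] [(559, 1)]))))) (.n 313 [] (.n 234 [] .w (.n 334 [] .w (.n 422 [] .w (.f [(566, 1), (422, 1), (563, 1), (334, 1), (234, 1)] [(559, 1)])))) (.f [(566, 1), (607, 1), (313, 1), (459, 1), (174, 1)] [(559,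 1)])))) (.f [(571, 1), (607, 1), (318, 1), (459, 1), (164, 1)] [(559, 1)]))) (.f [(561, 1), (607, 1), (318, 1), (459, 1), (174, 1)] [(559, 1)])) (.n 543 [] (.n 447 [] .w (.n 491 [] .w (.n 483 [] .w (.n 371 [] .w (.n 471 [] .w (.n 567 [] .w (.n 243 [] .w (.n 587 [] .w (.n 87 [] (.n 591 [] .w (.n 311 [] (.n 583 [] .w (.n 159 [] (.n 620 [] .w (.n 571 [] .w (.n 342 [] .w (.n 548 [] .w (.n 68 [] (.n 462 [] .w (.n 308 [] (.n 222 [] .w (.n 238 [] .w (.n 242 [] .w (.n 284 [] (.n 466 [] .w (.n 442 [] .w (.n 198 [] .w (.n 360 [] (.n 234 [] .w (.n 539 [] .w (.n 547 [] .w (.n 233 [] (.n 298 [] .w (.n 122 [] .w (.n 341 [] .w (.n 189 [] .w (.n 558 [] .w (.n 486 [] .w (.n 217 [] .w (.n 566 [] .w (.n 422 [] .w (.n 414 [] .w (.n 221 [] .w (.f [(486, 5), (566, 1), (341, 11), (221, 1), (217, 6), (422, 4), (122, 8), (558, 13), (298, 5), (234, 5), (414, 9), (189, 4)] [])))))))))))) (.f [(466, 1), (547, 1), (233, 1), (318, 1),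 (539, 1)] [(543, 1)]))))) (.f [(360, 4), (466, 3), (607, 1), (442, 2), (583, 2), (198, 2), (559, 1), (174, 2)] [(543, 1)]))))) (.f [(620, 4), (591, 8), (491, 5), (571, 21), (462, 17), (242, 8), (222, 9), (583, 1), (238, 18), (318, 14), (548, 1), (284, 34)] []))))) (.f [(620, 4), (611, 22), (591, 15), (491, 22), (607, 7), (462, 38), (567, 7), (342, 7), (308, 53), (243, 5), (548, 1), (544, 4), (174, 55)] []))) (.f [(611, 27), (591, 1), (471, 7), (607, 27), (587, 8), (583, 1), (68, 84), (459, 7), (174, 28)] [(543, 50)])))))) (.f [(611, 1), (471, 1), (607, 1), (318, 1), (159, 1)] [(606, 1)]))) (.f [(311, 2), (607, 1), (483, 1), (174, 1)] [(606, 1)]))) (.f [(491, 5), (371, 15), (87, 96), (447, 9), (483, 24), (318, 23), (559, 38), (174, 38)] [])))))))))) (.n 471 [] (.n 363 [] .w (.n 463 [] .w A10)) (.n 591 [] (.n 247 [] .w (.n 219 [] .w (.n 423 [] .w (.n 563 [] .w (.n 583 [] (.n 213 [] .w (.n 358 [] .w (.n 309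 [] .w (.n 346 [] .w (.n 246 [] .w (.n 534 [] .w (.n 522 [] .w (.n 94 [] .w (.n 217 [] .w (.n 366 [] .w (.n 413 [] .w (.n 437 [] .w (.n 518 [] .w (.f [(366, 5), (346, 13), (246, 24), (437, 23), (217, 14), (522, 5), (358, 8), (413, 17), (213, 2), (518, 15), (534, 20), (309, 14), (94, 8)] [])))))))))))))) (.n 167 [] (.n 92 [] (.n 159 [] (.n 532 [] (.n 314 [] .w (.n 467 [] .w (.n 267 [] (.n 39 [] (.n 294 [] (.n 237 [] .w (.n 329 [] .w (.n 409 [] .w (.n 486 [] .w (.n 546 [] .w (.n 297 [] .w (.n 241 [] .w (.n 553 [] .w (.n 413 [] .w (.n 437 [] .w (.n 221 [] .w (.n 457 [] .w (.f [(486, 1), (241, 5), (546, 1), (221, 1), (457, 2), (437, 1), (237, 2), (297, 3), (553, 7), (413, 1), (329, 5), (409, 3)] []))))))))))))) (.n 192 [] (.n 196 [] (.n 567 [] .w (.n 208 [] (.n 418 [] .w (.n 582 [] (.n 334 [] .w (.n 218 [] .w (.n 313 [] .w (.n 458 [] .w (.n 442 [] .w (.n 246 [] .w (.n 534 [] .w (.n 558 [] .w (.n 542 [] .w (.n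 394 [] .w (.n 462 [] .w (.f [(471, 1), (246, 15), (462, 5), (542, 8), (442, 3), (558, 1), (458, 3), (313, 11), (218, 1), (534, 7), (334, 5), (394, 4)] [])))))))))))) (.n 169 [] (.n 214 [] .w (.n 571 [] .w (.n 366 [] (.n 421 [] .w (.n 292 [] .w (.n 109 [] .w (.n 509 [] .w (.n 412 [] .w (.n 428 [] .w (.n 233 [] .w (.n 517 [] .w (.n 264 [] .w (.n 357 [] .w (.n 113 [] .w (.n 221 [] .w (.f [(421, 9), (221, 21), (357, 3), (412, 4), (517, 22), (292, 8), (428, 21), (233, 13), (113, 3), (509, 12), (109, 2), (264, 23)] []))))))))))))) (.f [(366, 1), (571, 1), (582, 1), (418, 1), (214, 1)] [(591, 1)])))) (.f [(611, 1), (471, 1), (582, 1), (318, 1), (169, 1)] [(591, 1)])))) (.f [(611, 1), (471, 1), (567, 1), (208, 1), (294, 1)] [(591, 1)]))) (.f [(611, 1), (196, 1), (467, 1), (583, 1), (294, 1)] [(591, 1)])) (.f [(611, 1), (471, 1), (192, 1), (583, 1), (294, 1)] [(591, 1)]))) (.f [(471, 1), (607, 1), (467, 1), (247,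 2), (583, 2), (318, 2), (39, 4)] [(591, 1)])) (.f [(611, 24), (471, 15), (267, 60), (583, 30), (563, 2), (559, 9), (314, 13), (174, 24)] [(591, 21)])))) (.f [(611, 1), (471, 1), (532, 1), (318, 1), (219, 1)] [(591, 1)])) (.f [(611, 1), (471, 1), (607, 1), (318, 1), (159, 1)] [(606, 1)])) (.f [(611, 10), (92, 28), (543, 1), (423, 3), (559, 10), (174, 6)] [(591, 18)])) (.f [(611, 2), (471, 2), (167, 4), (583, 1), (559, 1), (459, 1)] [(591, 2), (407, 1)]))))))) A16)))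

def A18 : Tr := .n 318 [] (.n 463 [] .w (.n 587 [] .w (.n 359 [] (.n 485 [] .w (.n 220 [] .w (.n 409 [] .w (.n 557 [] .w (.n 337 [] .w (.n 529 [] .w (.n 533 [] .w (.n 465 [] .w (.n 321 [] .w (.n 561 [] .w (.n 437 [] .w (.n 429 [] .w (.n 240 [] .w (.f [(485, 6), (465, 4), (240, 12), (220, 6), (561, 1), (321, 10), (557, 2), (437, 1), (337, 8), (533, 11), (529, 4), (429, 4), (409, 3)] [])))))))))))))) (.n 243 [] (.n 461 [] .w (.n 590 [] .w (.n 338 [] .w (.n 169 [] .w (.n 417 [] .w (.n 197 [] .w (.n 478 [] .w (.n 533 [] .w (.n 366 [] .w (.n 561 [] .w (.n 209 [] .w (.n 370 [] .w (.n 429 [] .w (.f [(590, 7), (370, 45), (561, 42), (461, 8), (366, 12), (417, 39), (197, 23), (478, 18), (533, 26), (338, 18), (429, 10), (209, 42), (169, 10)] [])))))))))))))) (.n 371 [] (.n 298 [] .w (.n 358 [] .w (.n 570 [] .w (.n 169 [] .w (.n 342 [] .w (.n 546 [] .w (.n 586 [] .w (.n 354 [] .w (.n 478 [] .w (.n 209 [] .w (.n 437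 [] .w (.n 242 [] .w (.n 446 [] .w (.f [(570, 20), (586, 29), (546, 28), (446, 15), (437, 42), (342, 21), (242, 9), (478, 20), (358, 44), (298, 8), (354, 4), (209, 27), (169, 41)] [])))))))))))))) (.n 543 [] (.n 298 [] .w (.n 237 [] .w (.n 309 [] .w (.n 582 [] .w (.n 458 [] .w (.n 169 [] .w (.n 342 [] .w (.n 586 [] .w (.n 566 [] .w (.n 478 [] .w (.n 409 [] .w (.n 470 [] .w (.n 346 [] .w (.f [(470, 24), (586, 15), (566, 41), (346, 6), (582, 12), (237, 48), (342, 2), (478, 20), (458, 9), (298, 33), (409, 15), (309, 27), (169, 20)] [])))))))))))))) (.n 154 [] (.n 347 [] .w (.n 427 [] (.n 367 [] .w (.n 435 [] (.n 558 [] (.n 566 [] (.n 237 [] .w (.n 538 [] .w (.n 309 [] .w (.n 409 [] .w (.n 246 [] .w (.n 514 [] .w (.n 478 [] .w (.n 542 [] .w (.n 490 [] .w (.n 98 [] .w (.n 466 [] .w (.n 366 [] .w (.n 446 [] .w (.f [(490, 1), (466, 32), (366, 2), (446, 10), (246, 21), (237, 36), (542, 29), (478, 5), (538, 27), (98,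 33), (409, 9), (309, 55), (514, 1)] [])))))))))))))) (.n 358 [] (.n 309 [] .w (.n 361 [] .w (.n 341 [] .w (.n 197 [] .w (.n 583 [] .w (.n 241 [] .w (.n 490 [] .w (.n 590 [] .w (.n 537 [] .w (.n 570 [] .w (.n 438 [] .w (.n 209 [] .w (.n 398 [] .w (.f [(590, 4), (490, 6), (570, 2), (361, 7), (341, 12), (241, 22), (537, 35), (197, 6), (583, 3), (438, 2), (398, 36), (309, 25), (209, 16)] [])))))))))))))) (.f [(566, 1), (358, 1)] [(606, 1), (318, 1)]))) (.n 366 [] (.n 566 [] (.n 213 [] .w (.n 309 [] .w (.n 346 [] .w (.n 246 [] .w (.n 169 [] .w (.n 394 [] .w (.n 537 [] .w (.n 118 [] .w (.n 209 [] .w (.n 333 [] .w (.n 357 [] .w (.n 446 [] .w (.f [(446, 19), (346, 7), (246, 2), (357, 5), (537, 23), (333, 3), (213, 5), (118, 20), (309, 8), (209, 12), (394, 4), (169, 4)] []))))))))))))) (.n 358 [] (.n 122 [] .w (.n 421 [] .w (.n 578 [] .w (.n 557 [] .w (.n 441 [] .w (.n 217 [] .w (.n 529 [] .w (.n 321 [] .w (.n 284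 [] .w (.n 237 [] .w (.n 89 [] .w (.n 398 [] .w (.n 149 [] .w (.f [(441, 258), (421, 33), (321, 73), (557, 6), (237, 272), (217, 21), (122, 65), (578, 309), (398, 55), (529, 31), (284, 273), (89, 7), (149, 53)] [])))))))))))))) (.f [(566, 1), (358, 1)] [(606, 1), (318, 1)]))) (.f [(366, 1), (558, 1)] [(606, 1), (318, 1)]))) (.f [(435, 12), (371, 3), (367, 1), (347, 2), (343, 5), (243, 3), (174, 3)] [(318, 5)]))) (.f [(611, 1), (427, 3), (343, 2), (359, 1), (174, 1)] [(318, 1)]))) (.f [(371, 1), (607, 3), (587, 1), (463, 1), (443, 2), (343, 1), (154, 4)] [(606, 1)])))))))) (.n 484 [] (.n 317 [] .w (.n 346 [] .w (.n 495 [] .w (.n 169 [] .w (.n 417 [] .w (.n 486 [] .w (.n 197 [] .w (.n 583 [] .w (.n 173 [] .w (.n 289 [] .w (.n 559 [] .w (.f [(495, 4), (486, 12), (346, 4), (607, 1), (417, 1), (317, 8), (197, 6), (583, 13), (173, 3), (559, 3), (289, 5), (169, 8)] [])))))))))))) (.n 307 [] (.n 544 [] .w (.n 359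 [] (.n 339 [] .w (.n 223 [] .w (.n 471 [] .w (.n 243 [] .w (.n 264 [] (.n 371 [] .w (.n 491 [] .w (.n 294 [] (.n 317 [] .w (.n 238 [] .w (.n 341 [] .w (.n 337 [] .w (.n 458 [] .w (.n 441 [] .w (.n 534 [] .w (.n 197 [] .w (.n 217 [] .w (.n 470 [] .w (.n 370 [] .w (.f [(470, 2), (370, 6), (441, 7), (341, 2), (337, 4), (317, 1), (217, 1), (197, 3), (458, 2), (238, 7), (534, 11)] [(359, 2)])))))))))))) (.n 336 [] (.n 432 [] (.n 314 [] (.n 554 [] .w (.n 293 [] .w (.n 338 [] .w (.n 274 [] .w (.n 434 [] .w (.n 458 [] .w (.n 441 [] .w (.n 241 [] .w (.n 317 [] .w (.n 537 [] .w (.n 370 [] .w (.n 193 [] .w (.n 221 [] .w (.f [(370, 84), (441, 10), (241, 115), (221, 66), (537, 172), (317, 19), (458, 103), (338, 30), (293, 27), (193, 31), (554, 40), (434, 99), (274, 52)] [])))))))))))))) (.n 366 [] (.n 213 [] .w (.n 362 [] .w (.n 317 [] .w (.n 293 [] .w (.n 483 [] .w (.n 495 [] .w (.n 534 [] .w (.n 217 [] .w (.n 446 []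 .w (.f [(495, 4), (611, 1), (491, 2), (446, 6), (371, 3), (362, 2), (317, 7), (217, 3), (483, 1), (213, 10), (293, 1), (534, 12)] [])))))))))) (.n 458 [] (.n 559 [] .w (.n 414 [] .w (.n 338 [] .w (.n 434 [] (.n 217 [] .w (.n 246 [] .w (.n 346 [] .w (.n 293 [] .w (.n 313 [] (.n 39 [] .w (.n 215 [] .w (.n 527 [] .w (.n 120 [] .w (.n 509 [] .w (.n 235 [] .w (.n 315 [] .w (.n 96 [] .w (.n 43 [] .w (.n 87 [] .w (.n 435 [] .w (.f [(435, 2), (235, 1), (315, 2), (215, 1), (120, 3), (96, 2), (527, 1), (87, 1), (43, 2), (509, 1), (39, 1)] [])))))))))))) (.f [(346, 1), (246, 1), (607, 1), (217, 1), (313, 1), (293, 1), (559, 1), (484, 1), (414, 1)] [(359, 1)])))))) (.f [(366, 1), (607, 1), (338, 1), (434, 1), (174, 1)] [(359, 1)]))))) (.f [(366, 1), (607, 1), (458, 1), (314, 1), (174, 1)] [(359, 1)])))) (.f [(611, 1), (371, 1), (432, 3), (243, 1), (339, 1), (294, 1), (174, 1)] [(359, 1)])) (.f [(336, 1), (607, 1), (318,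 1), (484, 1), (174, 1)] [(359, 1)]))))) (.f [(471, 1), (607, 1), (223, 1), (264, 4)] [(359, 3)])))))) (.n 584 [] (.n 595 [] .w (.n 346 [] .w (.n 293 [] .w (.n 483 [] .w (.n 313 [] .w (.n 169 [] .w (.n 197 [] .w (.n 586 [] .w (.n 437 [] .w (.n 446 [] .w (.f [(595, 4), (586, 4), (446, 3), (346, 9), (607, 9), (437, 6), (197, 1), (483, 8), (313, 7), (293, 1), (169, 16)] []))))))))))) (.n 459 [] (.n 423 [] .w (.n 471 [] .w (.n 463 [] .w (.n 219 [] .w (.n 591 [] .w (.n 466 [] (.n 317 [] .w (.n 483 [] .w (.n 169 [] .w (.n 313 [] .w (.n 246 [] .w (.n 189 [] .w (.n 583 [] .w (.n 399 [] .w (.n 289 [] .w (.n 537 [] .w (.n 559 [] .w (.f [(591, 4), (471, 15), (246, 18), (537, 14), (317, 23), (583, 17), (483, 18), (313, 2), (559, 2), (289, 12), (189, 9), (169, 10), (399, 4)] [])))))))))))) (.n 557 [] (.n 322 [] .w (.n 187 [] (.n 524 [] .w (.n 388 [] (.n 298 [] .w (.n 198 [] .w (.n 412 [] (.n 218 [] .w (.n 222 [] .w (.n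 346 [] .w (.n 446 [] .w (.n 164 [] (.n 462 [] .w (.n 542 [] .w (.n 534 [] (.n 562 [] .w (.n 590 [] .w (.n 214 [] .w (.n 341 [] .w (.n 441 [] .w (.n 586 [] .w (.n 173 [] .w (.n 470 [] .w (.f [(590, 3), (470, 1), (586, 3), (441, 9), (341, 2), (607, 2), (562, 6), (462, 5), (542, 1), (173, 14), (359, 13), (214, 1)] []))))))))) (.f [(446, 1), (462, 1), (218, 1), (534, 1), (359, 1)] [(459, 1)])))) (.f [(466, 17), (446, 20), (346, 9), (607, 41), (222, 5), (463, 9), (318, 25), (218, 4), (298, 8), (584, 1), (359, 4), (164, 37), (524, 4)] [])))))) (.f [(466, 1), (412, 1), (198, 1), (584, 1), (359, 1)] [(459, 1)])))) (.f [(466, 3), (607, 1), (322, 2), (388, 4), (584, 2), (359, 1), (219, 1), (174, 2)] [(459, 4)]))) (.f [(466, 1), (187, 1), (423, 1), (584, 1), (359, 1)] [(459, 1)]))) (.f [(466, 1), (557, 1), (463, 1), (359, 1), (174, 1)] [(459, 1)])))))))) A17)))) (.f [(611, 2), (307, 2), (174, 1)] [(606, 1)])))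

def A19 : Tr := .n 71 [] (.n 54 [] (.n 59 [] (.n 174 [] (.n 484 [] .w (.n 544 [] .w (.n 248 [] .w (.n 367 [] .w (.n 548 [] .w (.n 339 [] .w (.n 363 [] .w (.n 567 [] .w (.n 496 [] .w (.n 596 [] .w (.n 279 [] (.n 179 [] (.n 195 [] A9 (.f [(195, 4), (363, 1), (484, 1), (544, 1)] [(174, 3)])) (.f [(496, 1), (367, 1), (548, 1), (179, 4)] [(174, 3)])) (.f [(596, 1), (567, 1), (248, 1), (279, 4)] [(174, 3)])))))))))))) (.n 343 [] (.n 334 [] .w (.n 538 [] .w (.n 362 [] .w (.n 595 [] .w (.n 222 [] .w (.n 246 [] .w (.n 238 [] .w (.n 558 [] .w (.n 418 [] .w (.n 198 [] .w (.n 566 [] .w (.n 462 [] .w (.f [(595, 4), (566, 18), (246, 8), (462, 4), (362, 15), (222, 7), (558, 1), (538, 4), (238, 4), (418, 23), (198, 8), (334, 26)] [(343, 14)]))))))))))))) (.n 443 [] (.n 434 [] .w (.n 198 [] .w (.n 462 [] .w (.n 366 [] .w (.n 543 [] .w (.f [(366, 1), (462, 1), (543, 1), (198, 1), (434, 1)] [(443, 1)])))))) (.n 319 [] (.n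 334 [] .w (.n 538 [] .w (.n 434 [] .w (.n 558 [] .w (.n 562 [] .w (.n 566 [] .w (.n 322 [] .w (.n 119 [] .w (.n 366 [] .w (.f [(566, 4), (366, 12), (562, 5), (322, 1), (558, 5), (538, 1), (434, 5), (334, 6), (119, 4), (174, 5)] [(606, 10), (319, 14)])))))))))) A18)))) (.n 168 [] (.n 292 [] (.n 248 [] .w (.n 172 [] (.n 596 [] (.n 298 [] .w (.n 329 [] .w (.n 73 [] .w (.n 312 [] .w (.n 241 [] .w (.n 453 [] .w (.n 537 [] .w (.n 422 [] .w (.f [(241, 17), (537, 12), (312, 2), (422, 3), (453, 9), (298, 2), (73, 6), (329, 3), (59, 14)] []))))))))) (.n 92 [] (.n 452 [] (.n 496 [] .w (.n 228 [] (.n 548 [] .w (.n 336 [] (.n 212 [] (.n 412 [] (.n 216 [] (.n 443 [] .w (.n 416 [] (.n 236 [] (.n 343 [] .w (.n 537 [] (.n 347 [] .w (.n 363 [] .w (.n 367 [] .w (.n 467 [] .w (.n 221 [] (.n 487 [] .w (.n 173 [] (.n 587 [] .w (.n 243 [] .w (.n 422 [] (.n 342 [] .w (.n 338 [] .w (.n 247 [] .w (.n 371 [] .w (.n 462 [] .w (.n 223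 [] .w (.n 543 [] .w (.f [(371, 52), (462, 73), (342, 8), (247, 39), (338, 13), (543, 73), (243, 22), (223, 12), (59, 120)] [])))))))) (.f [(611, 1), (587, 1), (422, 3), (363, 1), (343, 1), (243, 2), (59, 4)] [(606, 1)])))) (.f [(611, 32), (487, 8), (467, 24), (367, 7), (347, 9), (343, 13), (173, 35), (59, 48)] []))) (.f [(611, 2), (221, 3), (607, 1), (467, 2), (367, 1), (363, 2), (443, 1), (548, 1), (59, 4)] [(606, 1)])))))) (.f [(496, 1), (537, 3), (492, 1), (343, 2), (248, 2), (59, 4)] [(606, 1)]))) (.f [(236, 39), (592, 13), (472, 12), (443, 12), (548, 11), (348, 9), (59, 32)] [])) (.f [(611, 1), (416, 1), (607, 1), (348, 1), (59, 1)] [(606, 1)]))) (.f [(611, 1), (216, 5), (607, 3), (488, 2), (548, 1), (59, 4)] [(606, 3), (134, 1)])) (.f [(596, 1), (412, 4), (368, 2), (248, 2), (59, 5)] [(606, 1), (34, 1)])) (.f [(611, 1), (496, 2), (212, 5), (548, 1), (59, 4)] [(134, 1)])) (.f [(336, 2), (607, 1), (548,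 1), (59, 1)] [(606, 1)]))) (.f [(611, 1), (592, 1), (472, 1), (228, 2), (59, 2)] [(606, 1)]))) (.f [(611, 1), (452, 2), (368, 1), (248, 1), (59, 2)] [(606, 1)])) (.f [(611, 1), (92, 2), (59, 2)] [(606, 1), (54, 1)]))) (.f [(611, 7), (172, 13), (588, 2), (488, 1), (468, 8), (368, 5), (59, 16)] []))) (.f [(611, 1), (292, 2), (59, 2)] [(34, 1)])) (.f [(611, 15), (472, 13), (372, 4), (168, 22), (59, 22)] [(516, 2)]))) (.n 293 [] (.n 248 [] .w (.n 457 [] (.n 496 [] .w (.n 213 [] (.n 413 [] (.n 367 [] .w (.n 471 [] .w (.n 467 [] .w (.n 537 [] (.n 223 [] .w (.n 363 [] .w (.n 466 [] (.n 358 [] .w (.n 562 [] .w (.n 338 [] .w (.n 238 [] .w (.n 558 [] .w (.n 422 [] .w (.n 543 [] .w (.n 242 [] .w (.f [(562, 2), (242, 5), (422, 7), (558, 3), (358, 4), (338, 3), (238, 2), (543, 2), (54, 14)] []))))))))) (.f [(466, 1), (607, 2), (363, 1), (223, 1), (54, 2)] [(606, 1)])))) (.f [(471, 1), (537, 3), (467, 1), (367, 2), (248,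 2), (54, 4)] [(606, 1)]))))) (.f [(607, 7), (372, 1), (413, 5), (368, 1), (348, 2), (54, 8)] [(606, 4)])) (.f [(496, 6), (607, 17), (492, 5), (472, 4), (372, 5), (213, 29), (448, 2), (54, 31)] []))) (.f [(611, 1), (457, 2), (368, 1), (248, 1), (54, 2)] [(606, 1)]))) (.f [(607, 7), (472, 1), (588, 1), (488, 2), (293, 5), (54, 8)] [(606, 4)]))) (.n 164 [] (.n 288 [] (.n 244 [] .w (.n 168 [] (.n 484 [] .w (.n 284 [] (.n 88 [] (.n 460 [] (.n 544 [] .w (.n 332 [] (.n 443 [] .w (.n 212 [] (.n 240 [] (.n 536 [] (.n 343 [] .w (.n 463 [] .w (.n 537 [] (.n 363 [] .w (.n 367 [] .w (.n 209 [] (.n 243 [] .w (.n 559 [] .w (.n 587 [] .w (.n 414 [] (.n 338 [] .w (.n 459 [] .w (.n 239 [] .w (.n 462 [] .w (.n 543 [] .w (.n 242 [] .w (.n 359 [] .w (.f [(71, 16), (607, 1), (462, 6), (242, 7), (338, 6), (543, 9), (559, 1), (459, 5), (359, 5), (239, 4)] [])))))))) (.f [(71, 4), (607, 1), (587, 1), (367, 1), (343, 1), (243, 2),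 (414, 3)] [(606, 1)]))))) (.f [(71, 4), (607, 1), (367, 2), (463, 2), (363, 1), (209, 2), (544, 1)] [(296, 1)])))) (.f [(71, 4), (537, 3), (463, 1), (343, 2), (484, 1), (244, 2)] [(606, 1)])))) (.f [(536, 3), (71, 4), (607, 2), (368, 2), (484, 1), (244, 1)] [(606, 4), (296, 1)])) (.f [(240, 2), (71, 2), (607, 1), (588, 1), (464, 1)] [(606, 1)])) (.f [(71, 32), (607, 10), (212, 46), (443, 5), (484, 18), (544, 13)] []))) (.f [(611, 2), (71, 4), (332, 4), (544, 1), (244, 1)] [(606, 2), (296, 2)]))) (.f [(460, 2), (71, 2), (607, 1), (368, 1), (244, 1)] [(606, 1)])) (.f [(71, 5), (607, 4), (88, 8)] [(606, 2), (22, 1), (508, 2)])) (.f [(611, 1), (71, 1), (607, 1), (468, 1), (284, 1)] [(606, 1)]))) (.f [(611, 5), (71, 16), (607, 2), (492, 1), (168, 13), (464, 6), (364, 3)] [(296, 2)]))) (.f [(71, 17), (607, 5), (492, 2), (288, 16)] [(296, 8)])) (.f [(71, 16), (607, 4), (592, 5), (492, 1), (488, 3), (468, 5), (368,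 5), (164, 13)] []))

def A20 : Tr := .n 202 [] (.n 210 [] (.n 211 [] (.n 207 [] (.n 402 [] (.n 410 [] (.n 411 [] (.n 407 [] (.n 22 [] A19 (.n 294 [] (.n 484 [] .w (.n 343 [] .w (.n 363 [] .w (.n 463 [] .w (.n 563 [] .w (.n 194 [] (.n 243 [] .w (.n 339 [] .w (.n 439 [] .w (.n 591 [] .w (.n 366 [] (.n 334 [] .w (.n 238 [] .w (.n 418 [] .w (.n 566 [] .w (.n 414 [] .w (.f [(566, 2), (22, 3), (238, 2), (418, 1), (334, 2), (414, 1)] [])))))) (.f [(611, 3), (591, 27), (366, 24), (22, 72), (563, 11), (463, 4), (243, 21), (439, 37), (339, 17)] [])))))) (.f [(611, 9), (22, 17), (463, 7), (363, 1), (343, 5), (484, 2), (194, 12)] []))))))) (.f [(611, 1), (22, 2), (294, 1)] [(606, 1), (296, 1)]))) (.n 366 [] (.n 244 [] .w (.n 333 [] (.n 323 [] .w (.n 346 [] (.n 343 [] .w (.n 219 [] .w (.n 209 [] (.n 223 [] .w (.n 243 [] .w (.n 274 [] (.n 298 [] .w (.n 338 [] .w (.n 194 [] .w (.n 238 [] .w (.n 198 [] .w (.n 322 [] .w (.n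 496 [] .w (.n 124 [] .w (.n 359 [] .w (.n 591 [] .w (.f [(611, 6), (591, 7), (496, 1), (407, 12), (322, 2), (338, 7), (238, 1), (298, 2), (198, 4), (359, 2), (194, 8), (124, 4)] []))))))))))) (.f [(611, 5), (407, 8), (343, 1), (243, 2), (223, 1), (219, 2), (274, 4)] [(606, 3)])))) (.f [(611, 2), (407, 1), (323, 1), (209, 1)] [(606, 1)])))) (.f [(611, 1), (346, 1), (407, 2), (244, 1)] [(606, 1)]))) (.f [(611, 2), (407, 1), (333, 1), (199, 1)] [(606, 1)]))) (.f [(611, 1), (366, 1), (407, 2), (199, 1)] [(606, 1)]))) (.n 358 [] (.n 319 [] .w (.n 248 [] .w (.n 334 [] (.n 341 [] (.n 219 [] .w (.n 247 [] .w (.n 243 [] .w (.n 98 [] (.n 318 [] .w (.n 484 [] .w (.n 239 [] .w (.n 371 [] .w (.n 583 [] .w (.n 294 [] .w (.n 322 [] .w (.n 559 [] .w (.n 524 [] .w (.f [(411, 34), (371, 4), (607, 8), (322, 30), (583, 20), (318, 1), (243, 17), (559, 6), (484, 4), (239, 4), (294, 3), (219, 17), (524, 4)] [])))))))))) (.f [(411,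 6), (607, 3), (247, 2), (243, 1), (98, 4), (319, 4), (219, 1)] [(606, 1)]))))) (.f [(411, 1), (341, 1), (607, 2), (199, 1)] [(606, 1)])) (.f [(411, 2), (607, 1), (248, 1), (334, 1)] [(606, 1)])))) (.f [(411, 2), (607, 1), (358, 1), (199, 1)] [(606, 1)]))) (.n 247 [] (.n 323 [] .w (.n 359 [] .w (.f [(410, 15), (607, 1), (372, 2), (323, 3), (359, 3)] []))) (.f [(410, 5), (247, 2), (348, 1), (344, 1)] [(402, 1)]))) (.n 359 [] (.n 343 [] .w (.n 371 [] (.n 122 [] .w (.n 188 [] .w (.n 114 [] .w (.n 73 [] .w (.n 273 [] .w (.n 118 [] .w (.n 561 [] .w (.n 69 [] .w (.f [(561, 3), (402, 15), (122, 7), (188, 9), (118, 2), (273, 9), (73, 2), (114, 6), (69, 16)] []))))))))) (.f [(611, 1), (371, 3), (402, 15), (343, 3), (364, 2)] []))) (.f [(611, 26), (402, 108), (368, 1), (348, 15), (359, 26), (344, 25), (199, 11)] []))) (.n 566 [] (.n 544 [] .w (.n 433 [] (.n 323 [] .w (.n 446 [] (.n 419 [] .w (.n 443 [] .w (.n 409 []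 (.n 543 [] .w (.n 423 [] .w (.n 74 [] (.n 194 [] .w (.n 442 [] .w (.n 418 [] .w (.n 198 [] .w (.n 371 [] .w (.n 294 [] .w (.n 438 [] .w (.n 559 [] .w (.n 524 [] .w (.n 596 [] .w (.n 547 [] .w (.f [(611, 6), (596, 1), (371, 7), (207, 12), (442, 1), (547, 1), (438, 8), (418, 5), (198, 1), (559, 2), (294, 7), (194, 1), (524, 4)] [])))))))))))) (.f [(611, 5), (207, 8), (543, 2), (443, 1), (423, 1), (419, 2), (74, 4)] [(606, 3)])))) (.f [(611, 2), (207, 1), (323, 1), (409, 1)] [(606, 1)])))) (.f [(611, 1), (446, 1), (207, 2), (544, 1)] [(606, 1)]))) (.f [(611, 2), (207, 1), (433, 1), (299, 1)] [(606, 1)]))) (.f [(611, 1), (566, 1), (207, 2), (299, 1)] [(606, 1)]))) (.n 558 [] (.n 548 [] .w (.n 434 [] (.n 443 [] .w (.n 441 [] (.n 419 [] .w (.n 543 [] .w (.n 423 [] .w (.n 74 [] (.n 318 [] .w (.n 483 [] .w (.n 539 [] .w (.n 322 [] .w (.n 524 [] .w (.n 359 [] .w (.f [(211, 36), (607, 22), (322, 14), (483, 5), (318,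 19), (423, 12), (359, 3), (539, 2), (419, 19), (524, 12)] []))))))) (.f [(211, 8), (607, 5), (543, 2), (443, 1), (423, 2), (419, 1), (74, 4)] [(606, 3)]))))) (.f [(211, 1), (441, 1), (607, 2), (299, 1)] [(606, 1)]))) (.f [(211, 2), (607, 1), (548, 1), (434, 1)] [(606, 1)]))) (.f [(211, 2), (607, 1), (558, 1), (299, 1)] [(606, 1)]))) (.n 559 [] (.n 567 [] .w (.n 447 [] .w (.n 423 [] .w (.f [(210, 5), (607, 1), (567, 1), (447, 1), (423, 1), (299, 1)] [(202, 2)])))) (.f [(210, 15), (607, 1), (572, 2), (448, 3), (559, 3)] []))) (.n 571 [] (.n 419 [] .w (.n 439 [] .w (.n 443 [] .w (.n 548 [] .w (.n 559 [] (.n 361 [] .w (.n 417 [] .w (.n 297 [] .w (.n 74 [] .w (.n 394 [] .w (.n 413 [] .w (.n 518 [] .w (.f [(361, 21), (202, 27), (417, 4), (297, 6), (413, 14), (518, 27), (394, 9), (74, 24)] [])))))))) (.f [(611, 2), (202, 140), (443, 7), (548, 33), (559, 33), (439, 31), (419, 26)] [])))))) (.f [(611, 1), (571, 3),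 (202, 15), (564, 2), (444, 3)] []))

def A21 : Tr := .n 29 [] (.n 129 [] (.n 9 [] (.n 107 [] (.n 572 [] .w (.n 138 [] (.n 110 [] (.n 111 [] (.n 183 [] (.n 134 [] (.n 34 [] A20 (.n 217 [] (.n 441 [] (.n 248 [] .w (.n 313 [] (.n 218 [] (.n 347 [] .w (.n 367 [] .w (.n 467 [] .w (.n 563 [] .w (.f [(611, 1), (467, 2), (367, 1), (347, 1), (563, 2), (248, 2), (34, 4)] [(606, 1)]))))) (.n 447 [] (.n 122 [] .w (.n 361 [] .w (.n 337 [] .w (.n 173 [] .w (.n 241 [] .w (.n 566 [] .w (.n 453 [] .w (.n 237 [] .w (.n 193 [] .w (.f [(361, 3), (566, 8), (241, 2), (337, 5), (237, 1), (122, 7), (453, 8), (193, 1), (173, 4), (34, 13)] [])))))))))) (.f [(611, 2), (447, 1), (372, 1), (218, 2), (34, 4)] [(606, 1), (29, 1), (134, 1)]))) (.f [(611, 1), (592, 2), (492, 1), (472, 1), (313, 2), (248, 2), (34, 4)] [(606, 1)]))) (.f [(611, 1), (441, 1), (607, 1), (348, 1), (34, 1)] [(606, 1)])) (.f [(611, 5), (217, 14), (488, 2), (34,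 20)] [(606, 3), (29, 2), (134, 10)]))) (.n 413 [] (.n 341 [] (.n 297 [] (.n 321 [] (.n 363 [] .w (.n 443 [] .w (.n 463 [] .w (.n 548 [] .w (.n 362 [] (.n 447 [] .w (.n 491 [] .w (.n 347 [] .w (.n 543 [] .w (.n 563 [] .w (.n 587 [] .w (.f [(491, 4), (587, 3), (447, 8), (347, 5), (563, 1), (463, 1), (363, 5), (543, 9), (134, 16)] []))))))) (.f [(611, 1), (362, 2), (592, 1), (472, 1), (443, 2), (548, 2), (134, 4)] [(606, 1)])))))) (.f [(611, 1), (321, 1), (607, 1), (468, 1), (134, 1)] [(606, 1)])) (.f [(611, 4), (492, 3), (297, 13), (588, 4), (488, 2), (568, 5), (468, 5), (134, 16)] [])) (.f [(611, 1), (341, 1), (607, 1), (448, 1), (134, 1)] [(606, 1)])) (.f [(611, 4), (592, 12), (572, 7), (372, 13), (413, 27), (348, 5), (134, 32)] []))) (.n 422 [] (.n 466 [] (.n 457 [] (.n 496 [] .w (.n 596 [] .w (.n 542 [] (.n 447 [] .w (.n 423 [] .w (.n 362 [] .w (.n 371 [] .w (.n 294 [] .w (.n 467 [] .w (.n 524 [] .w (.n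 414 [] .w (.n 242 [] .w (.f [(611, 9), (596, 18), (371, 7), (607, 3), (362, 11), (467, 15), (242, 3), (447, 2), (183, 31), (423, 3), (414, 14), (294, 16), (524, 4)] [])))))))))) (.f [(611, 1), (496, 1), (542, 1), (183, 2)] [(606, 1)])))) (.f [(611, 2), (457, 1), (183, 1), (299, 1)] [(606, 1)])) (.f [(611, 1), (466, 1), (607, 1), (183, 1), (299, 1)] [(606, 1)])) (.f [(611, 2), (422, 1), (183, 2)] [(606, 1)]))) (.n 583 [] (.n 447 [] .w (.n 548 [] .w (.n 584 [] (.n 595 [] .w (.n 194 [] .w (.n 442 [] .w (.n 418 [] .w (.n 198 [] .w (.n 542 [] .w (.n 294 [] .w (.f [(595, 8), (111, 12), (542, 1), (442, 3), (418, 2), (198, 4), (294, 5), (194, 1)] [(606, 4)])))))))) (.f [(111, 4), (447, 1), (548, 1), (584, 1)] [(606, 3)])))) (.f [(111, 54), (572, 15), (583, 22), (444, 2), (299, 8), (199, 5)] [(606, 32)]))) (.n 596 [] (.n 342 [] .w (.n 334 [] .w (.n 218 [] .w (.n 194 [] .w (.n 434 [] .w (.n 198 [] .w (.n 583 [] .w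 (.n 547 [] .w (.f [(110, 28), (342, 8), (547, 11), (583, 7), (218, 3), (198, 9), (434, 13), (334, 5), (194, 1)] [(606, 5)]))))))))) (.f [(110, 72), (596, 27), (572, 10), (568, 11), (444, 3), (299, 3), (199, 3)] [(606, 45)]))) (.f [(607, 1), (572, 1), (472, 1), (138, 6)] []))) (.n 591 [] (.n 544 [] .w (.n 439 [] .w (.n 596 [] (.n 318 [] .w (.n 214 [] .w (.n 583 [] .w (.n 294 [] .w (.n 438 [] .w (.n 543 [] .w (.n 524 [] (.n 427 [] .w (.n 84 [] .w (.n 304 [] .w (.n 68 [] .w (.n 159 [] .w (.n 204 [] .w (.n 236 [] .w (.n 528 [] .w (.n 44 [] .w (.n 121 [] .w (.n 327 [] .w (.f [(236, 7), (121, 7), (427, 9), (327, 7), (528, 9), (68, 3), (304, 2), (204, 1), (159, 1), (84, 6), (44, 4)] [])))))))))))) (.f [(107, 8), (583, 1), (438, 2), (543, 2), (318, 1), (214, 2), (294, 1), (524, 4)] [(606, 5)])))))))) (.f [(596, 1), (107, 4), (439, 1), (544, 1)] [(606, 3)])))) (.f [(591, 22), (107, 54), (448, 2), (564, 15), (299,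 8), (199, 5)] [(606, 32)]))) (.n 238 [] (.n 443 [] .w (.n 548 [] .w (.n 447 [] .w (.n 367 [] (.n 538 [] .w (.n 318 [] .w (.n 491 [] .w (.n 247 [] .w (.n 198 [] .w (.n 546 [] .w (.n 542 [] .w (.n 462 [] .w (.f [(491, 3), (546, 5), (462, 9), (542, 2), (247, 9), (538, 5), (318, 12), (198, 3), (9, 20)] []))))))))) (.f [(611, 1), (607, 2), (367, 4), (447, 2), (588, 3), (488, 1), (443, 1), (548, 3), (9, 8)] [(606, 5)]))))) (.f [(611, 1), (607, 1), (592, 3), (372, 2), (238, 3), (568, 1), (448, 2), (9, 7)] [(606, 4), (129, 1)]))) (.n 462 [] (.n 323 [] .w (.n 443 [] (.n 213 [] .w (.n 333 [] .w (.n 361 [] .w (.n 397 [] .w (.n 341 [] .w (.n 533 [] .w (.n 537 [] .w (.n 445 [] .w (.n 117 [] .w (.n 561 [] .w (.n 113 [] .w (.f [(445, 32), (561, 9), (361, 17), (341, 22), (537, 14), (117, 22), (397, 12), (533, 27), (333, 17), (213, 2), (113, 2), (129, 48)] [])))))))))))) (.f [(607, 7), (472, 1), (588, 2), (488, 1), (443,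 3), (323, 2), (129, 8)] [(606, 4)]))) (.f [(607, 7), (462, 3), (568, 2), (368, 1), (448, 2), (348, 1), (129, 8)] [(606, 4)]))) (.n 222 [] (.n 443 [] .w (.n 463 [] .w (.f [(611, 1), (607, 8), (463, 2), (443, 2), (368, 1), (348, 3), (29, 8)] [(606, 5)]))) (.f [(607, 4), (222, 4), (588, 1), (488, 3), (568, 2), (368, 2), (29, 8)] [(606, 4)]))

def A22 : Tr := .n 439 [] (.n 483 [] .w (.n 362 [] .w (.n 239 [] .w (.f [(516, 4), (362, 1), (483, 1), (239, 1)] [(606, 3)])))) (.n 372 [] (.n 432 [] .w (.n 188 [] .w (.n 532 [] .w (.n 397 [] .w (.n 353 [] .w (.n 159 [] .w (.n 436 [] .w (.n 208 [] .w (.n 264 [] .w (.f [(436, 1), (516, 33), (532, 1), (432, 4), (397, 29), (353, 12), (208, 14), (188, 8), (159, 12), (264, 22)] [])))))))))) (.n 487 [] (.n 447 [] .w (.n 423 [] .w (.n 459 [] .w (.n 239 [] .w (.n 339 [] .w (.n 347 [] .w (.n 172 [] (.n 314 [] .w (.n 359 [] .w (.n 233 [] (.n 318 [] .w (.n 247 [] .w (.n 371 [] .w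 (.n 463 [] .w (.n 414 [] .w (.n 164 [] (.n 334 [] .w (.n 483 [] .w (.n 222 [] .w (.n 198 [] .w (.n 363 [] .w (.n 322 [] .w (.f [(516, 24), (322, 5), (222, 14), (483, 6), (363, 8), (198, 5), (334, 3), (414, 13), (314, 3)] [(606, 5)]))))))) (.f [(516, 32), (371, 2), (607, 2), (447, 13), (347, 8), (247, 11), (463, 18), (318, 13), (423, 3), (359, 11), (164, 23)] []))))))) (.f [(611, 1), (516, 2), (447, 1), (347, 1), (233, 2), (459, 1), (314, 1)] [(606, 1)])))) (.f [(516, 4), (172, 4), (488, 3), (459, 1), (339, 1), (239, 1)] [(606, 1), (487, 1)])))))))) (.n 233 [] (.n 264 [] (.n 323 [] (.n 334 [] .w (.n 423 [] .w (.n 483 [] .w (.n 434 [] .w (.n 362 [] .w (.n 534 [] .w (.n 438 [] .w (.f [(516, 36), (362, 15), (483, 12), (438, 3), (423, 1), (534, 5), (434, 4), (334, 6)] [(606, 21), (323, 1)])))))))) (.n 308 [] (.n 463 [] (.n 459 [] .w (.n 222 [] .w (.n 198 [] .w (.n 314 [] .w (.n 363 [] .w (.n 422 [] .w (.n 174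 [] .w (.f [(516, 4), (487, 1), (422, 1), (222, 1), (363, 2), (198, 1), (459, 1), (314, 1), (174, 1)] [(606, 1)])))))))) (.n 284 [] (.n 148 [] (.n 112 [] (.n 360 [] (.n 347 [] (.n 334 [] .w (.n 421 [] .w (.n 362 [] .w (.n 557 [] .w (.n 169 [] .w (.n 246 [] .w (.n 189 [] .w (.n 398 [] .w (.n 413 [] .w (.n 193 [] .w (.f [(516, 2), (421, 1), (246, 1), (557, 2), (362, 2), (413, 1), (193, 1), (398, 2), (334, 2), (189, 1), (169, 1)] []))))))))))) (.n 408 [] (.n 339 [] (.n 298 [] .w (.n 421 [] .w (.n 218 [] .w (.n 239 [] .w (.n 534 [] .w (.n 558 [] .w (.n 197 [] .w (.n 98 [] .w (.n 537 [] .w (.n 561 [] .w (.n 437 [] .w (.n 359 [] .w (.f [(561, 20), (516, 32), (421, 48), (537, 31), (437, 46), (197, 23), (558, 3), (218, 68), (298, 5), (98, 24), (534, 8), (359, 89), (239, 3)] []))))))))))))) (.n 363 [] (.n 298 [] .w (.n 459 [] .w (.n 239 [] .w (.n 198 [] .w (.n 322 [] .w (.n 462 [] .w (.f [(516, 4), (462, 2), (322,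 1), (298, 2), (198, 1), (459, 1), (239, 2)] [(606, 1)]))))))) (.n 234 [] (.n 484 [] (.n 213 [] .w (.n 495 [] .w (.n 337 [] .w (.n 313 [] .w (.n 169 [] .w (.n 197 [] .w (.n 173 [] .w (.n 399 [] .w (.n 559 [] .w (.n 413 [] .w (.f [(495, 20), (516, 21), (337, 16), (197, 5), (413, 3), (313, 10), (213, 4), (173, 4), (559, 5), (169, 13), (399, 3)] []))))))))))) (.n 237 [] (.n 423 [] .w (.n 172 [] (.n 539 [] .w (.n 357 [] (.n 199 [] .w (.n 442 [] .w (.n 223 [] .w (.n 412 [] (.n 299 [] .w (.n 318 [] .w (.n 164 [] (.n 459 [] .w (.n 322 [] .w (.n 238 [] (.n 483 [] .w (.n 538 [] .w (.n 222 [] .w (.n 422 [] .w (.n 314 [] (.n 432 [] .w (.n 333 [] .w (.n 220 [] .w (.n 532 [] .w (.n 320 [] .w (.n 509 [] .w (.n 420 [] .w (.n 512 [] .w (.n 336 [] .w (.n 520 [] .w (.n 44 [] .w (.n 240 [] .w (.n 560 [] .w (.f [(560, 18), (240, 33), (520, 1), (420, 27), (320, 6), (220, 3), (336, 15), (532, 2), (432, 9), (512, 4), (333, 15),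 (509, 11), (44, 4)] [])))))))))))))) (.f [(516, 8), (422, 3), (222, 4), (483, 5), (538, 1), (363, 1), (314, 6), (299, 1)] [(606, 1)])))))) (.f [(516, 4), (487, 1), (322, 1), (238, 2), (459, 1), (299, 1)] [(606, 2)])))) (.f [(516, 76), (487, 35), (442, 11), (347, 30), (463, 5), (318, 46), (423, 3), (223, 22), (484, 22), (164, 54)] [])))) (.f [(516, 4), (412, 2), (347, 1), (363, 2), (223, 1), (484, 1), (199, 2)] [(606, 1)]))))) (.f [(516, 48), (357, 36), (463, 4), (423, 2), (539, 7), (439, 14)] [(606, 27)]))) (.f [(516, 36), (172, 36), (463, 10), (363, 12), (484, 15), (439, 4), (339, 10)] [(606, 7)]))) (.f [(516, 4), (237, 2), (484, 1)] [(606, 3)]))) (.f [(516, 4), (487, 1), (363, 1), (234, 1)] [(606, 3)])))) (.f [(611, 1), (516, 4), (607, 1), (347, 2), (408, 4), (364, 2)] [(606, 2)]))) (.f [(360, 4), (516, 7), (248, 1)] [(606, 5)])) (.f [(516, 5), (112, 4)] [(606, 4), (508, 1)])) (.f [(516, 3), (487, 1), (148,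 1), (364, 1)] [(606, 2)])) (.f [(516, 26), (487, 11), (472, 3), (463, 10), (323, 5), (248, 4), (284, 21)] [(606, 2), (264, 2)]))) (.f [(516, 5), (487, 2), (308, 4)] [(606, 2), (191, 1)]))) (.f [(516, 3), (487, 1), (248, 1), (264, 1)] [(606, 2)])) (.f [(611, 1), (516, 4), (487, 1), (233, 2)] [(606, 4)]))))

def A23 : Tr := .n 487 [] (.n 339 [] .w (.n 496 [] .w (.n 347 [] .w (.n 419 [] .w (.n 164 [] (.n 247 [] .w (.n 471 [] .w (.n 467 [] .w (.n 359 [] .w (.n 192 [] (.n 371 [] .w (.n 239 [] .w (.n 417 [] (.n 214 [] .w (.n 194 [] .w (.n 367 [] .w (.n 314 [] .w (.n 438 [] .w (.n 422 [] (.n 342 [] .w (.n 409 [] .w (.n 313 [] .w (.n 189 [] .w (.n 394 [] .w (.n 537 [] .w (.n 466 [] .w (.n 366 [] .w (.n 370 [] .w (.n 242 [] .w (.n 446 [] .w (.n 221 [] .w (.f [(370, 4), (466, 2), (366, 1), (446, 2), (221, 4), (537, 4), (342, 2), (242, 3), (508, 6), (313, 3), (409, 4), (189, 3), (394, 2)] []))))))))))))) (.f [(371,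 17), (467, 5), (367, 25), (422, 35), (508, 56), (438, 9), (314, 10), (214, 33), (419, 3), (194, 19)] [(606, 4)]))))))) (.f [(371, 1), (417, 2), (247, 1), (508, 4), (339, 1), (239, 1)] [(606, 2)])))) (.f [(611, 1), (471, 1), (192, 1), (508, 1), (359, 1)] [(606, 1)])))))) (.f [(496, 1), (492, 3), (347, 2), (508, 4), (164, 4)] [(606, 1), (487, 1)])))))) (.n 241 [] (.n 144 [] (.n 339 [] (.n 562 [] .w (.n 367 [] .w (.n 371 [] .w (.n 322 [] .w (.n 466 [] .w (.n 414 [] .w (.f [(466, 2), (371, 2), (562, 1), (367, 1), (322, 1), (508, 4), (414, 2)] [(606, 1)]))))))) (.n 416 [] (.n 319 [] (.n 334 [] .w (.n 346 [] .w (.n 362 [] .w (.n 566 [] .w (.n 537 [] .w (.n 234 [] .w (.n 414 [] .w (.n 242 [] .w (.n 446 [] .w (.f [(566, 5), (446, 6), (346, 9), (537, 2), (362, 4), (242, 10), (508, 16), (334, 2), (234, 5), (414, 9)] [(606, 8)])))))))))) (.n 316 [] (.n 112 [] (.n 352 [] (.n 272 [] (.n 179 [] (.n 239 [] (.n 442 [] .w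 (.n 371 [] .w (.n 367 [] .w (.n 414 [] .w (.n 346 [] (.n 317 [] .w (.n 454 [] .w (.n 486 [] .w (.n 197 [] .w (.n 586 [] .w (.n 289 [] .w (.n 394 [] .w (.n 466 [] .w (.n 193 [] .w (.n 242 [] .w (.f [(586, 1), (486, 13), (466, 38), (371, 18), (317, 1), (242, 20), (197, 49), (508, 69), (193, 1), (454, 12), (289, 51), (394, 7)] []))))))))))) (.f [(611, 1), (346, 3), (442, 2), (367, 1), (508, 4), (414, 2)] [(606, 1)])))))) (.n 392 [] (.n 359 [] (.n 247 [] .w (.n 194 [] .w (.n 442 [] .w (.n 371 [] .w (.n 294 [] .w (.n 471 [] .w (.n 322 [] .w (.n 462 [] .w (.n 414 [] .w (.f [(471, 2), (371, 54), (462, 58), (442, 7), (322, 12), (247, 15), (508, 92), (414, 25), (294, 35), (194, 41)] [(359, 9)])))))))))) (.n 447 [] (.n 342 [] .w (.n 562 [] .w (.n 491 [] .w (.n 247 [] .w (.n 434 [] .w (.n 189 [] .w (.n 418 [] .w (.n 371 [] .w (.n 289 [] .w (.n 462 [] .w (.n 174 [] .w (.f [(491, 17), (371, 34), (562, 14), (462, 24),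 (342, 38), (247, 11), (508, 64), (418, 23), (434, 14), (289, 6), (189, 34), (174, 33)] [])))))))))))) (.n 219 [] (.n 247 [] .w (.n 342 [] .w (.n 491 [] .w (.f [(491, 1), (342, 1), (247, 1), (508, 4), (239, 1)] [(606, 3), (219, 1)])))) (.n 247 [] (.n 467 [] .w (.n 314 [] .w (.n 199 [] .w (.n 496 [] .w (.n 414 [] .w (.n 547 [] .w (.n 164 [] (.n 462 [] .w (.n 367 [] .w (.n 471 [] .w (.n 562 [] .w (.n 366 [] (.n 234 [] .w (.n 214 [] .w (.n 566 [] .w (.n 422 [] .w (.f [(611, 1), (566, 1), (471, 1), (367, 2), (422, 2), (508, 4), (234, 2), (314, 1), (214, 1)] [(606, 3)]))))) (.f [(366, 54), (562, 2), (462, 25), (547, 9), (447, 13), (508, 72), (414, 16), (199, 10)] [(606, 29)])))))) (.f [(496, 1), (467, 2), (372, 3), (508, 4), (164, 4)] [(606, 1), (247, 1)])))))))) (.n 366 [] (.n 269 [] (.n 343 [] .w (.n 567 [] .w (.n 117 [] (.n 436 [] (.n 39 [] (.n 516 [] (.n 367 [] (.n 218 [] .w (.n 442 [] .w (.n 222 [] .w (.n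 189 [] .w (.n 418 [] .w (.n 294 [] .w (.n 371 [] .w (.n 542 [] .w (.n 462 [] .w (.n 234 [] .w (.n 446 [] .w (.f [(446, 8), (371, 36), (462, 29), (542, 11), (442, 9), (222, 15), (508, 48), (418, 13), (218, 3), (234, 11), (189, 30), (294, 23)] [])))))))))))) (.n 246 [] (.n 486 [] (.n 314 [] .w (.n 389 [] (.n 194 [] .w (.n 214 [] .w (.n 329 [] (.n 442 [] .w (.n 238 [] .w (.n 294 [] .w (.n 322 [] .w (.n 462 [] .w (.n 496 [] .w (.n 414 [] .w (.f [(496, 17), (462, 11), (442, 19), (322, 19), (247, 16), (508, 56), (238, 9), (414, 5), (214, 27), (294, 33)] [(606, 4)])))))))) (.n 422 [] (.n 237 [] .w (.n 317 [] .w (.n 409 [] .w (.n 546 [] .w (.n 173 [] .w (.n 478 [] .w (.n 566 [] .w (.n 471 [] .w (.n 437 [] .w (.n 357 [] .w (.f [(566, 25), (546, 8), (471, 11), (357, 1), (437, 8), (237, 32), (317, 15), (478, 15), (508, 20), (173, 21), (329, 37), (409, 19)] []))))))))))) (.f [(487, 21), (367, 16), (422, 35), (247, 12),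 (508, 84), (329, 36), (314, 4), (214, 13), (194, 31)] [(606, 28)]))))) (.f [(367, 1), (247, 1), (508, 3), (389, 1)] [(606, 2)]))) (.f [(486, 1), (367, 1), (247, 1), (508, 4)] [(606, 3)])) (.f [(246, 1), (487, 1), (367, 1), (508, 4)] [(606, 3)]))) (.f [(516, 1), (359, 1)] [(606, 1), (269, 1)])) (.f [(487, 10), (567, 1), (447, 22), (247, 32), (508, 33), (343, 32), (39, 65)] [(606, 2)])) (.f [(436, 2), (247, 1), (508, 1), (359, 1)] [(606, 1)])) (.f [(487, 1), (117, 4), (508, 8), (359, 1), (239, 1)] [(606, 7)])))) (.f [(487, 1), (247, 1), (508, 2), (269, 2)] [(606, 1), (366, 1)])) (.f [(366, 1), (487, 1), (247, 1), (508, 4)] [(606, 3)])))))) (.f [(392, 1), (372, 1), (508, 3), (239, 1)] [(606, 2)]))) (.f [(487, 46), (592, 1), (472, 7), (372, 26), (508, 80), (179, 80)] [(606, 28)])) (.f [(487, 1), (272, 1), (508, 3), (244, 1)] [(606, 2)])) (.f [(352, 4), (508, 7), (244, 1)] [(606, 5)])) (.f [(112, 1), (508, 1)]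 [(606, 1)])) (.f [(316, 4), (487, 2), (508, 5)] [(606, 2), (83, 1)]))) (.f [(611, 1), (416, 4), (607, 1), (372, 2), (508, 4), (339, 2)] [(606, 2)]))) (.f [(487, 1), (372, 1), (508, 3), (144, 1)] [(606, 2)])) (.f [(241, 2), (607, 1), (487, 1), (508, 4)] [(606, 4)]))

def A24 : Tr := .n 191 [] (.n 364 [] .w (.n 508 [] (.n 516 [] (.n 299 [] (.n 371 [] (.n 421 [] .w (.n 229 [] .w (.n 329 [] .w (.n 353 [] .w (.n 441 [] .w (.n 312 [] .w (.n 412 [] .w (.n 577 [] .w (.n 208 [] .w (.n 541 [] .w (.n 553 [] .w (.n 308 [] .w (.f [(541, 1), (441, 1), (421, 2), (577, 2), (412, 1), (312, 1), (553, 1), (353, 1), (308, 1), (208, 1), (329, 1), (229, 3)] []))))))))))))) (.n 534 [] (.n 359 [] .w (.n 546 [] (.n 213 [] .w (.n 237 [] .w (.n 346 [] .w (.n 482 [] .w (.n 246 [] .w (.n 486 [] .w (.n 595 [] .w (.n 466 [] .w (.n 437 [] .w (.n 543 [] .w (.n 309 [] (.n 229 [] .w (.n 216 [] .w (.n 73 [] .w (.n 109 [] .w (.n 340 [] .w (.n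 208 [] .w (.n 245 [] .w (.n 537 [] .w (.n 445 [] .w (.n 413 [] .w (.n 121 [] .w (.n 316 [] .w (.f [(340, 10), (445, 12), (245, 1), (316, 7), (216, 5), (121, 5), (537, 17), (208, 8), (413, 5), (73, 4), (229, 3), (109, 14)] []))))))))))))) (.f [(595, 28), (486, 6), (466, 28), (346, 20), (246, 31), (482, 20), (437, 25), (237, 40), (213, 21), (543, 64), (309, 72), (424, 13)] [])))))))))))) (.f [(546, 1), (359, 1)] [(606, 1), (299, 1)]))) (.f [(371, 1), (534, 1)] [(606, 1), (299, 1)]))) (.n 224 [] (.n 237 [] .w (.n 432 [] .w (.n 341 [] .w (.n 312 [] .w (.n 522 [] .w (.n 297 [] .w (.n 241 [] .w (.n 233 [] .w (.n 529 [] .w (.n 453 [] .w (.n 465 [] .w (.n 321 [] .w (.f [(465, 11), (341, 12), (241, 11), (321, 29), (432, 13), (312, 12), (237, 22), (522, 3), (297, 2), (453, 31), (233, 21), (529, 52)] []))))))))))))) (.n 199 [] (.n 571 [] (.n 432 [] .w (.n 212 [] .w (.n 341 [] .w (.n 353 [] .w (.n 412 [] .w (.n 241 []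 .w (.n 553 [] .w (.n 529 [] .w (.n 429 [] .w (.n 221 [] .w (.f [(341, 1), (241, 1), (221, 2), (432, 2), (412, 1), (212, 1), (553, 1), (353, 3), (529, 3), (429, 1)] []))))))))))) (.n 234 [] (.n 434 [] .w (.n 246 [] (.n 421 [] .w (.n 432 [] .w (.n 333 [] .w (.n 361 [] .w (.n 214 [] .w (.n 222 [] .w (.n 412 [] .w (.n 354 [] .w (.n 541 [] .w (.n 553 [] .w (.n 242 [] .w (.f [(361, 2), (541, 6), (421, 9), (432, 6), (412, 2), (242, 6), (222, 3), (553, 11), (333, 6), (354, 9), (214, 8)] [])))))))))))) (.f [(246, 1), (434, 1)] [(606, 1), (199, 1)]))) (.f [(571, 1), (234, 1)] [(606, 1), (199, 1)]))) (.n 38 [] (.n 372 [] .w (.n 142 [] (.n 178 [] (.n 42 [] (.n 18 [] A21 (.f [(611, 1), (607, 1), (18, 2)] [(606, 2)])) (.f [(611, 4), (42, 24), (464, 3), (364, 5)] [])) (.f [(611, 23), (607, 18), (492, 13), (472, 16), (178, 92), (299, 2)] [])) (.f [(611, 4), (142, 24), (564, 5), (464, 3)] []))) (.f [(607, 1), (38, 3)] [(508,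 1)]))))) (.n 248 [] (.n 337 [] .w (.n 482 [] .w (.n 313 [] .w (.n 458 [] .w (.n 234 [] .w (.n 174 [] .w (.f [(516, 4), (482, 2), (337, 1), (458, 1), (313, 2), (234, 1), (174, 2)] [(606, 1)]))))))) A22)) (.n 484 [] (.n 491 [] .w (.n 194 [] .w (.n 239 [] .w (.n 371 [] .w (.n 294 [] .w (.n 438 [] .w (.n 422 [] .w (.n 462 [] .w (.f [(491, 4), (371, 59), (462, 64), (422, 35), (508, 96), (438, 3), (239, 27), (294, 29), (194, 61)] [(606, 8), (484, 18)]))))))))) (.n 372 [] (.n 421 [] .w (.n 329 [] .w (.n 313 [] .w (.n 441 [] .w (.n 486 [] .w (.n 173 [] .w (.n 517 [] .w (.n 184 [] .w (.n 333 [] .w (.f [(486, 36), (441, 1), (421, 15), (517, 52), (333, 18), (313, 10), (173, 24), (329, 24), (184, 28)] [])))))))))) (.n 244 [] (.n 313 [] .w (.n 222 [] .w (.n 441 [] .w (.n 486 [] .w (.n 198 [] .w (.n 294 [] .w (.n 537 [] .w (.n 413 [] .w (.f [(486, 22), (441, 14), (537, 1), (222, 35), (508, 36), (413, 1), (313, 12), (198,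 1), (294, 25)] [(244, 3)]))))))))) (.n 224 [] (.n 334 [] .w (.n 238 [] .w (.n 337 [] .w (.n 441 [] .w (.n 417 [] .w (.n 546 [] .w (.n 294 [] .w (.n 242 [] .w (.f [(441, 4), (546, 2), (337, 2), (417, 1), (242, 2), (508, 4), (238, 3), (334, 2), (294, 1)] [(606, 1)]))))))))) (.n 439 [] (.n 242 [] .w (.n 371 [] .w (.n 487 [] .w (.f [(371, 1), (487, 1), (242, 1), (508, 4)] [(606, 3)])))) A23))))))) (.n 414 [] (.n 333 [] (.n 548 [] .w (.n 534 [] (.n 487 [] .w (.n 363 [] .w (.n 484 [] .w (.n 336 [] (.n 544 [] .w (.n 547 [] .w (.n 239 [] .w (.n 538 [] (.n 423 [] .w (.n 339 [] .w (.n 463 [] .w (.n 584 [] .w (.n 124 [] .w (.n 439 [] .w (.n 334 [] (.n 298 [] .w (.n 483 [] .w (.n 119 [] .w (.n 462 [] .w (.n 174 [] .w (.f [(611, 4), (191, 19), (607, 10), (462, 13), (483, 5), (298, 18), (584, 8), (439, 4), (339, 2), (119, 4), (174, 5)] [])))))) (.f [(611, 4), (191, 45), (607, 15), (487, 9), (547, 25), (463, 15), (363,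 14), (423, 20), (334, 34), (439, 4), (239, 3), (544, 4), (124, 4)] [])))))))) (.f [(191, 2), (607, 1), (538, 1), (484, 1)] [(606, 1)]))))) (.f [(336, 1), (191, 1), (607, 1), (548, 1), (484, 1)] [(606, 1)]))))) (.f [(191, 2), (607, 1), (488, 1), (534, 1)] [(606, 1)]))) (.f [(611, 1), (191, 1), (607, 1), (333, 1), (424, 1)] [(606, 1)])) (.f [(191, 2), (607, 2), (414, 1)] [(606, 1)]))

def A25 : Tr := .n 324 [] (.n 560 [] .w (.n 328 [] .w (.n 420 [] .w (.n 96 [] .w (.n 508 [] .w (.n 407 [] .w (.n 360 [] .w (.n 240 [] .w (.f [(560, 27), (360, 19), (240, 12), (420, 14), (96, 15), (407, 21), (328, 16), (508, 8)] []))))))))) (.n 424 [] (.n 546 [225] (.n 317 [] .w (.n 333 [] .w (.n 482 [] .w (.n 341 [] .w (.n 246 [] .w (.n 217 [] .w (.n 118 [] .w (.n 193 [] .w (.n 446 [] .w (.n 539 [] (.n 215 [] .w (.n 83 [] .w (.n 67 [] .w (.n 320 [] .w (.n 87 [] .w (.n 91 [] .w (.n 440 [] .w (.n 63 [] .w (.n 547 [] .w (.f [(440,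 8), (215, 8), (320, 8), (91, 23), (87, 12), (67, 3), (547, 8), (83, 29), (63, 17)] [])))))))))) (.f [(341, 1), (446, 12), (246, 10), (482, 9), (317, 6), (217, 7), (333, 14), (193, 4), (118, 4), (539, 22)] [(606, 1)]))))))))))) (.n 366 [] .w (.f [(366, 1), (534, 1)] [(606, 1), (424, 1)]))) (.n 249 [] .w (.n 348 [] .w (.n 448 [] .w (.n 344 [] .w (.n 368 [] .w (.n 488 [] .w (.n 464 [] .w (.n 468 [] .w (.n 568 [] .w (.n 588 [] .w (.n 444 [] .w (.n 182 [] (.n 283 [] (.n 472 [] .w (.n 492 [] .w (.n 592 [] .w (.n 91 [] (.n 564 [] .w (.n 83 [] A24 (.n 542 [] (.n 197 [] (.n 319 [] .w (.n 439 [] .w (.n 572 [] (.n 122 [] .w (.n 188 [] .w (.n 582 [] .w (.n 164 [] .w (.n 341 [] .w (.n 293 [] .w (.n 69 [] .w (.n 413 [] .w (.n 429 [] .w (.n 357 [] .w (.f [(341, 14), (582, 19), (357, 7), (122, 64), (83, 38), (413, 27), (188, 9), (293, 16), (429, 28), (164, 28), (69, 34)] []))))))))))) (.n 241 [] (.n 164 [] (.n 367 [] .w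 (.n 487 [] .w (.n 441 [] (.n 419 [] .w (.n 299 [] .w (.n 237 [] (.n 567 [] .w (.n 194 [] .w (.n 371 [] .w (.n 447 [] .w (.f [(611, 2), (371, 2), (487, 1), (567, 1), (447, 1), (83, 4), (194, 2)] [(606, 1)]))))) (.f [(611, 1), (237, 2), (572, 2), (83, 4), (419, 2), (319, 1), (299, 1)] [(606, 1)])))) (.f [(611, 3), (441, 4), (607, 1), (367, 2), (83, 6)] [(606, 4)])))) (.f [(492, 1), (572, 2), (83, 4), (164, 3)] [(606, 1), (283, 1)])) (.f [(611, 1), (241, 4), (607, 1), (572, 2), (83, 4), (439, 2)] [(606, 2)]))))) (.f [(611, 9), (492, 1), (197, 6), (83, 12), (444, 2)] [(606, 6)])) (.f [(611, 1), (542, 2), (83, 4)] [(606, 3)])))) (.n 538 [] (.n 189 [] (.n 447 [] .w (.n 564 [] (.n 84 [] .w (.n 48 [] .w (.n 108 [] .w (.n 416 [] .w (.n 320 [] .w (.n 545 [] .w (.n 87 [] .w (.n 360 [] .w (.n 191 [] .w (.n 440 [] .w (.f [(360, 2), (440, 2), (545, 3), (320, 1), (416, 1), (191, 3), (87, 4), (108, 2), (48, 2), (84, 4)]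 []))))))))))) (.n 233 [] (.n 487 [] .w (.n 173 [] (.n 439 [] .w (.n 363 [] .w (.n 433 [] (.n 362 [] .w (.n 359 [] .w (.n 198 [] (.n 237 [] .w (.n 317 [] .w (.n 483 [] .w (.n 434 [] .w (.n 534 [] .w (.n 422 [] .w (.n 438 [] .w (.n 370 [] .w (.f [(370, 4), (91, 20), (237, 15), (317, 11), (422, 5), (483, 1), (438, 5), (534, 15), (434, 4)] []))))))))) (.f [(91, 4), (607, 3), (362, 1), (198, 2), (359, 1), (439, 2)] [(606, 1)])))) (.f [(611, 1), (91, 6), (607, 3), (433, 4), (363, 2)] [(606, 4)])))) (.f [(91, 4), (607, 1), (487, 1), (173, 2), (564, 2)] [(606, 2)]))) (.f [(611, 1), (91, 4), (607, 1), (447, 2), (233, 4), (564, 2)] [(606, 2)])))) (.f [(91, 12), (607, 9), (488, 1), (448, 2), (189, 6)] [(606, 6)])) (.f [(91, 4), (607, 1), (538, 2)] [(606, 3)])))))) (.n 222 [] (.n 592 [] .w (.n 246 [] (.n 472 [] .w (.n 184 [] (.n 567 [] .w (.n 436 [] (.n 372 [] .w (.n 392 [] (.n 596 [] .w (.n 224 [] .w (.n 432 [] (.n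 496 [] .w (.n 248 [] .w (.n 485 [] (.n 239 [] .w (.n 242 [] (.n 467 [] .w (.n 571 [] .w (.n 219 [] .w (.n 524 [] .w (.n 547 [] .w (.n 587 [] .w (.n 446 [] (.n 194 [] .w (.n 198 [] .w (.n 347 [] .w (.n 119 [] .w (.n 462 [] .w (.n 174 [] .w (.n 591 [] .w (.f [(611, 5), (591, 3), (571, 4), (496, 4), (607, 3), (462, 11), (347, 2), (283, 13), (198, 3), (194, 9), (119, 4), (174, 3)] [])))))))) (.f [(611, 15), (446, 38), (607, 4), (587, 13), (567, 14), (467, 15), (547, 3), (372, 4), (283, 49), (248, 4), (239, 25), (219, 24), (524, 4)] [])))))))) (.f [(611, 1), (596, 1), (242, 1), (283, 2)] [(606, 1)]))) (.f [(485, 4), (596, 3), (567, 2), (283, 4)] [(606, 1)])))) (.f [(611, 2), (432, 1), (283, 1), (224, 1)] [(606, 1)])))) (.f [(611, 2), (392, 4), (283, 3)] [(606, 1)]))) (.f [(436, 2), (607, 1), (283, 1), (249, 1)] [(606, 1)]))) (.f [(611, 2), (472, 1), (283, 1), (184, 1)] [(606, 1)]))) (.f [(611, 1), (246, 1), (592,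 1), (283, 2)] [(606, 1)]))) (.f [(611, 2), (222, 1), (283, 2)] [(606, 1)]))) (.f [(611, 2), (182, 2), (424, 1)] [(606, 1)]))))))))))))))

def A26 : Tr := .n 463 [] (.n 218 [] .w (.n 590 [] .w (.n 73 [] .w (.n 345 [] .w (.n 418 [] .w (.n 356 [] .w (.n 232 [] .w (.n 236 [] .w (.n 172 [] .w (.n 439 [] .w (.n 563 [] .w (.f [(590, 18), (345, 10), (356, 19), (236, 4), (232, 7), (172, 16), (563, 7), (418, 10), (218, 2), (73, 4), (534, 4), (439, 19)] [])))))))))))) (.n 219 [] (.n 361 [] .w (.n 198 [] .w (.n 418 [] .w (.n 586 [] .w (.n 343 [] .w (.n 322 [] .w (.n 462 [] .w (.n 466 [] .w (.n 519 [] .w (.n 357 [] .w (.n 242 [] .w (.f [(586, 1), (361, 10), (466, 8), (357, 5), (462, 8), (242, 3), (322, 3), (418, 3), (343, 1), (198, 15), (534, 14), (519, 4), (174, 1)] [])))))))))))) (.n 71 [] (.n 591 [] (.n 421 [] .w (.n 538 [] .w (.n 361 [] .w (.n 338 [] .w (.n 558 [] .w (.n 197 [] .w (.n 94 [] .w (.n 241 [] .w (.n 237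 [] .w (.n 414 [] .w (.n 357 [] .w (.f [(361, 1), (241, 1), (421, 3), (357, 2), (237, 1), (197, 2), (558, 3), (538, 1), (338, 1), (414, 1), (94, 4)] [])))))))))))) (.n 467 [] (.n 172 [] .w (.n 333 [] .w (.n 231 [] .w (.n 397 [] .w (.n 196 [] .w (.n 514 [] .w (.n 586 [] .w (.n 94 [] .w (.n 117 [] .w (.n 296 [] .w (.n 433 [] .w (.f [(231, 8), (586, 5), (296, 15), (196, 4), (117, 19), (397, 1), (172, 12), (433, 23), (333, 9), (514, 19), (94, 13)] [])))))))))))) (.n 196 [] (.n 343 [] .w (.n 339 [] (.n 237 [] .w (.n 218 [] .w (.n 361 [] .w (.n 458 [] .w (.n 322 [] .w (.n 466 [] .w (.n 579 [] .w (.n 439 [] .w (.n 398 [] .w (.n 446 [] .w (.n 563 [] .w (.f [(361, 53), (466, 36), (446, 8), (237, 37), (322, 60), (458, 6), (563, 3), (218, 60), (398, 28), (579, 4), (534, 90), (439, 19)] [(339, 16)])))))))))))) (.n 428 [] (.n 223 [] .w (.n 443 [] (.n 461 [] .w (.n 421 [] .w (.n 570 [] .w (.n 341 [] .w (.n 297 [] .w (.n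 173 [] .w (.n 232 [] .w (.n 117 [] .w (.n 567 [] .w (.n 439 [] .w (.n 113 [] .w (.n 457 [] .w (.f [(570, 44), (461, 1), (341, 91), (421, 13), (457, 24), (232, 48), (567, 11), (117, 14), (297, 8), (113, 54), (173, 51), (534, 44), (439, 61)] []))))))))))))) (.n 336 [] (.n 447 [] .w (.n 323 [] .w (.n 216 [] (.n 459 [] .w (.n 583 [] .w (.n 440 [] (.n 524 [] .w (.n 439 [] (.n 237 [] .w (.n 361 [] .w (.n 338 [] .w (.n 194 [] .w (.n 418 [] .w (.n 602 [] .w (.n 478 [] .w (.n 322 [] .w (.n 462 [] .w (.n 446 [] .w (.f [(361, 5), (446, 12), (602, 2), (462, 8), (237, 4), (322, 3), (478, 6), (338, 9), (418, 2), (534, 15), (194, 13)] [(439, 11)]))))))))))) (.n 563 [] (.n 237 [] .w (.n 361 [] .w (.n 338 [] .w (.n 194 [] .w (.n 418 [] .w (.n 586 [] .w (.n 602 [] .w (.n 233 [] .w (.n 322 [] .w (.n 446 [] .w (.n 481 [] .w (.f [(481, 1), (586, 13), (361, 1), (446, 16), (602, 12), (237, 7), (322, 12), (233, 10), (338, 18), (418,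 14), (534, 17), (194, 14)] [(563, 11)])))))))))))) (.n 319 [] (.n 334 [] .w (.n 218 [] .w (.n 361 [] .w (.n 214 [] .w (.n 434 [] .w (.n 558 [] .w (.n 542 [] .w (.n 241 [] .w (.n 566 [] .w (.n 322 [] .w (.n 398 [] .w (.f [(361, 24), (566, 4), (241, 6), (542, 23), (322, 11), (558, 7), (218, 11), (398, 16), (434, 18), (334, 9), (214, 10), (174, 7)] [(319, 10)])))))))))))) (.n 208 [] (.n 482 [] .w (.n 322 [] (.n 194 [] .w (.n 198 [] .w (.n 586 [] .w (.n 294 [] .w (.n 542 [] .w (.n 490 [] .w (.n 462 [] .w (.n 357 [] .w (.n 481 [] .w (.f [(490, 4), (481, 4), (586, 8), (546, 1), (357, 6), (462, 6), (542, 1), (198, 13), (534, 4), (294, 8), (194, 1)] [])))))))))) (.n 236 [] (.n 399 [] .w (.n 587 [] .w (.n 168 [] (.n 466 [] .w (.n 197 [] (.n 421 [] .w (.n 218 [] .w (.n 538 [] .w (.n 338 [] .w (.n 434 [] .w (.n 610 [] .w (.n 566 [] .w (.n 462 [] .w (.n 357 [] .w (.f [(610, 4), (566, 5), (421, 4), (357, 6), (462, 2),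 (322, 1), (538, 1), (338, 3), (218, 5), (434, 4), (174, 5)] [])))))))))) (.f [(466, 1), (362, 1), (197, 1), (563, 1), (534, 1)] [(562, 1)]))) (.f [(606, 16), (471, 5), (482, 4), (587, 5), (322, 12), (168, 21), (459, 1), (439, 7), (339, 9), (399, 4)] [])))) (.f [(236, 30), (471, 1), (467, 8), (322, 25), (463, 8), (443, 12), (343, 11), (534, 29), (459, 2), (524, 4), (174, 1)] [(562, 2), (314, 5)])))) (.f [(546, 1), (362, 1), (208, 1), (439, 1), (319, 1)] [(314, 1)])))))) (.f [(440, 84), (546, 51), (362, 65), (583, 20), (223, 29), (534, 21), (234, 7), (339, 23)] [(562, 8), (317, 4)])))) (.f [(216, 2), (362, 2), (447, 1), (443, 1), (323, 1), (534, 2)] [(317, 1)])))) (.f [(336, 2), (443, 1), (534, 1), (174, 1)] [(314, 1)])))) (.f [(591, 36), (362, 53), (347, 19), (428, 68), (534, 36), (234, 7), (219, 5), (174, 24)] [(562, 4), (314, 4)])))) (.f [(196, 2), (362, 2), (467, 1), (463, 1), (568, 1), (534, 2)] [(562,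 1)])))) (.f [(71, 12), (362, 10), (463, 8), (568, 3), (534, 5), (234, 3), (219, 5)] [(314, 2)])))

def A27 : Tr := .n 434 [] (.n 443 [] .w (.n 457 [] (.n 362 [] .w (.n 222 [] .w (.n 418 [] .w (.n 466 [] .w (.n 242 [] .w (.n 446 [] .w (.n 558 [] (.n 482 [] .w (.n 198 [] .w (.f [(466, 1), (482, 1), (198, 1), (534, 1), (314, 1)] [(434, 1)]))) (.f [(486, 1), (466, 1), (446, 1), (362, 1), (242, 1), (222, 2), (558, 2), (418, 1), (534, 2), (314, 2)] [(562, 1), (434, 1)])))))))) (.f [(246, 1), (457, 1), (443, 1), (534, 1), (314, 1)] [(434, 1)]))) (.n 414 [] (.n 543 [] .w (.n 457 [] (.n 362 [] .w (.n 169 [] (.n 218 [] .w (.n 422 [] .w (.f [(486, 1), (422, 1), (218, 1), (534, 1), (314, 1)] [(414, 1)]))) (.f [(546, 1), (362, 1), (463, 1), (434, 1), (169, 1)] [(414, 1)]))) (.f [(486, 1), (457, 1), (543, 1), (314, 1), (174, 1)] [(414, 1)]))) (.n 458 [] (.n 620 [] .w (.n 343 [] .w (.n 347 [] .w (.n 363 [] .w (.n 223 []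 .w (.n 323 [] .w (.n 168 [] (.n 392 [] (.n 159 [] (.n 288 [] (.n 218 [] (.n 421 [] .w (.n 538 [] .w (.n 309 [] .w (.n 361 [] .w (.n 222 [] .w (.n 442 [] .w (.n 482 [] .w (.n 238 [] .w (.n 542 [] .w (.n 590 [] .w (.f [(590, 4), (361, 1), (421, 4), (482, 1), (542, 1), (442, 1), (222, 2), (538, 1), (238, 4), (309, 5)] []))))))))))) (.n 357 [] (.n 422 [] .w (.n 338 [] (.n 237 [] .w (.n 538 [] .w (.n 409 [] .w (.n 341 [] .w (.n 345 [] .w (.n 558 [] .w (.n 289 [] .w (.n 541 [] .w (.n 445 [] .w (.n 361 [] .w (.n 118 [] .w (.n 209 [] .w (.n 518 [] .w (.f [(445, 68), (345, 52), (361, 6), (541, 45), (341, 39), (237, 90), (558, 48), (538, 6), (518, 16), (118, 20), (409, 47), (209, 25), (289, 18)] [])))))))))))))) (.f [(606, 1), (422, 1), (338, 1), (218, 1), (434, 1)] [(458, 1)]))) (.f [(546, 1), (357, 1), (463, 1), (218, 1), (434, 1)] [(458, 1)]))) (.f [(606, 1), (467, 1), (288, 1), (223, 1), (434, 1)] [(458, 1)]))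 (.f [(620, 4), (606, 1), (486, 15), (546, 3), (246, 1), (567, 13), (347, 7), (463, 6), (343, 8), (323, 6), (159, 20)] [])) (.f [(606, 68), (546, 80), (392, 156), (463, 13), (363, 41), (343, 9), (223, 85), (534, 29), (314, 119)] [(562, 8)])) (.f [(606, 1), (347, 1), (463, 1), (168, 1), (434, 1)] [(458, 1)])))))))) (.n 237 [] (.n 360 [] (.n 443 [] (.n 477 [] .w (.n 164 [] .w (.n 337 [] .w (.n 353 [] .w (.n 601 [] .w (.n 356 [] .w (.n 217 [] .w (.n 456 [] .w (.n 465 [] .w (.n 445 [] .w (.n 545 [] .w (.n 184 [] .w (.n 518 [] .w (.f [(465, 7), (545, 57), (445, 120), (601, 12), (456, 37), (356, 98), (477, 29), (337, 72), (217, 46), (353, 23), (518, 124), (184, 42), (164, 105)] [])))))))))))))) (.n 331 [] (.n 323 [] .w (.n 563 [] (.n 543 [] .w (.n 198 [] .w (.n 462 [] (.n 71 [] .w (.n 295 [] .w (.n 195 [] .w (.n 279 [] .w (.n 108 [] .w (.n 68 [] .w (.n 392 [] .w (.n 159 [] .w (.n 91 [] .w (.n 352 [] .w (.n 259 []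 .w (.n 580 [] .w (.f [(580, 9), (295, 2), (195, 3), (91, 3), (71, 8), (352, 2), (392, 9), (108, 10), (68, 1), (279, 4), (259, 1), (159, 6)] []))))))))))))) (.f [(606, 1), (462, 1), (543, 1), (198, 1), (314, 1)] [(563, 1)])))) (.n 92 [] (.n 332 [] (.n 362 [] (.n 347 [] .w (.n 243 [] .w (.n 164 [] (.n 168 [] (.n 587 [] .w (.n 296 [] (.n 438 [] .w (.n 222 [] .w (.n 542 [] (.n 313 [] .w (.n 345 [] .w (.n 601 [] .w (.n 197 [] .w (.n 509 [] .w (.n 241 [] .w (.n 245 [] .w (.n 289 [] .w (.n 465 [] .w (.n 533 [] .w (.n 433 [] .w (.n 457 [] .w (.f [(465, 34), (345, 7), (245, 11), (601, 28), (241, 14), (457, 12), (197, 30), (533, 19), (433, 9), (313, 14), (509, 8), (289, 34)] []))))))))))))) (.f [(606, 1), (542, 1), (222, 1), (438, 1), (314, 1)] [(562, 1)])))) (.f [(486, 1), (296, 2), (587, 1), (567, 1), (458, 1), (243, 1), (234, 1), (314, 1)] [(362, 1)]))) (.f [(606, 1), (486, 1), (347, 1), (168, 1), (314, 1)] [(362,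 1)])) (.f [(606, 1), (486, 1), (567, 2), (347, 1), (458, 1), (323, 1), (164, 2)] [(562, 1)])))) (.n 189 [] (.n 543 [] .w (.n 591 [] .w (.n 197 [] (.n 217 [] (.n 587 [] .w (.n 193 [] (.n 558 [] .w (.n 461 [] (.n 421 [] .w (.n 590 [] .w (.n 214 [] .w (.n 522 [] .w (.n 602 [] .w (.n 322 [] .w (.n 541 [] .w (.n 413 [] .w (.n 370 [] .w (.n 433 [] .w (.f [(590, 1), (370, 7), (541, 37), (421, 2), (246, 2), (602, 20), (362, 13), (522, 4), (322, 23), (433, 38), (413, 3), (214, 41)] [(562, 19)]))))))))))) (.f [(461, 1), (362, 1), (567, 1), (558, 1), (174, 1)] [(562, 1)]))) (.f [(546, 1), (587, 1), (362, 1), (193, 1), (434, 1)] [(562, 1)]))) (.f [(546, 1), (362, 1), (217, 1), (563, 1), (434, 1)] [(562, 1)])) (.f [(606, 1), (591, 1), (362, 1), (197, 2), (458, 1), (543, 1), (414, 1), (314, 1)] [(562, 1)])))) (.f [(546, 1), (362, 1), (567, 1), (458, 1), (189, 1)] [(562, 1)]))) (.f [(246, 1), (332, 1), (567, 1), (563, 1),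 (414, 1)] [(562, 1)])) (.f [(606, 2), (546, 5), (246, 21), (92, 28), (458, 17), (563, 9), (323, 2), (534, 5), (434, 4), (314, 19)] [])))) (.f [(331, 2), (567, 1), (443, 1), (174, 1)] [(317, 1)]))) (.f [(360, 4), (546, 2), (567, 2), (467, 1), (458, 2), (434, 1), (174, 1)] [(237, 1)])) (.f [(546, 1), (237, 1), (567, 1), (458, 1), (314, 1)] [(562, 1)]))))

def A28 : Tr := .n 567 [] (.n 363 [] .w (.n 183 [] (.n 143 [] (.n 21 [] (.n 90 [] (.n 105 [] (.n 378 [] (.n 145 [] (.n 225 [] (.n 450 [] (.n 563 [] (.n 482 [] .w (.n 467 [] .w (.n 587 [] .w (.n 232 [] (.n 218 [] .w (.n 123 [] .w (.n 194 [] .w (.n 198 [] .w (.n 322 [] .w (.n 422 [] .w (.n 446 [] .w (.n 361 [] (.n 164 [] .w (.n 196 [] .w (.n 341 [] .w (.n 602 [] .w (.n 293 [] .w (.n 284 [] .w (.n 581 [] .w (.n 296 [] .w (.n 93 [] .w (.n 429 [] .w (.n 113 [] .w (.n 457 [] .w (.f [(581, 2), (341, 1), (296, 2), (196, 6), (602, 7), (457, 4), (113, 4), (293, 3),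 (93, 4), (429, 5), (284, 3), (164, 3)] []))))))))))))) (.f [(361, 33), (446, 20), (482, 16), (587, 11), (422, 16), (322, 10), (568, 4), (218, 42), (198, 3), (123, 4), (534, 37), (314, 9), (194, 7)] []))))))))) (.f [(546, 1), (232, 1), (467, 1), (568, 1), (314, 1)] [(567, 1)]))))) (.n 443 [] (.n 322 [] .w (.n 242 [] .w (.n 466 [] (.n 213 [] .w (.n 582 [] .w (.n 196 [] .w (.n 558 [] .w (.n 356 [] .w (.n 529 [] .w (.n 117 [] .w (.n 296 [] .w (.n 429 [] .w (.f [(356, 4), (296, 11), (196, 1), (582, 4), (117, 12), (558, 4), (213, 12), (529, 5), (429, 11)] [])))))))))) (.f [(466, 1), (242, 1), (322, 1), (563, 1), (534, 1)] [(567, 1)])))) (.n 232 [] (.n 172 [] (.n 367 [] .w (.n 217 [] (.n 194 [] (.n 615 [] .w (.n 318 [] .w (.n 582 [] .w (.n 434 [] .w (.n 482 [] .w (.n 418 [] .w (.n 361 [] .w (.n 466 [] .w (.n 438 [] .w (.n 446 [] .w (.f [(615, 12), (361, 30), (466, 10), (446, 6), (582, 39), (482, 7), (438, 19), (418,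 6), (318, 21), (434, 3), (174, 43)] []))))))))))) (.n 457 [] (.n 189 [] (.n 362 [] .w (.n 558 [] .w (.n 467 [] .w (.f [(546, 1), (362, 1), (467, 1), (558, 1), (194, 1)] [(567, 1)])))) (.n 342 [] (.n 318 [] .w (.n 422 [] (.n 361 [] .w (.n 293 [] .w (.n 222 [] .w (.n 586 [] .w (.n 602 [] .w (.n 490 [] .w (.n 533 [] .w (.n 284 [] .w (.n 413 [] .w (.n 429 [] .w (.n 193 [] .w (.n 446 [] .w (.f [(490, 8), (586, 9), (361, 11), (446, 4), (602, 7), (222, 17), (533, 10), (413, 1), (293, 4), (193, 9), (429, 13), (284, 11)] []))))))))))))) (.f [(606, 1), (592, 1), (422, 1), (318, 1), (189, 1)] [(567, 1)]))) (.f [(606, 1), (546, 1), (342, 1), (443, 1), (189, 1)] [(567, 1)]))) (.f [(546, 1), (457, 1), (367, 1), (563, 1), (194, 1)] [(567, 1)]))) (.f [(606, 1), (546, 1), (217, 1), (443, 1), (314, 1)] [(567, 1)]))) (.f [(606, 1), (592, 1), (172, 1), (443, 1), (314, 1)] [(567, 1)])) (.f [(546, 1), (232, 1), (592, 1), (443,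 1), (314, 1)] [(567, 1)])))) (.f [(450, 2), (314, 1)] [(64, 1)])) (.f [(225, 42), (546, 15), (592, 10), (472, 11), (588, 5), (468, 16), (314, 21)] [])) (.f [(145, 42), (606, 15), (592, 10), (492, 11), (568, 5), (468, 16), (314, 21)] [])) (.f [(378, 2), (314, 1)] [(64, 1)])) (.f [(105, 42), (546, 15), (592, 11), (472, 10), (468, 16), (348, 5), (314, 21)] [])) (.f [(90, 4), (606, 2), (546, 1)] [(567, 3)])) (.f [(21, 36), (592, 7), (492, 11), (363, 9), (568, 5), (468, 13), (534, 12), (314, 15)] [])) (.f [(606, 2), (546, 1), (472, 2), (143, 4), (534, 1), (314, 3)] [(567, 1)])) (.f [(546, 1), (592, 1), (492, 1), (183, 2)] [(567, 1)]))) (.n 463 [] (.n 471 [] .w (.n 487 [] .w (.n 218 [] (.n 421 [] .w (.n 361 [] .w (.n 467 [] .w (.n 194 [] .w (.n 434 [] .w (.n 443 [] .w (.n 583 [] .w (.n 294 [] .w (.n 321 [] .w (.n 237 [] .w (.n 579 [] .w (.n 357 [] .w (.f [(361, 2), (421, 17), (321, 13), (357, 2), (237, 28), (567,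 1), (467, 1), (583, 23), (443, 9), (579, 8), (434, 5), (294, 15), (194, 4)] []))))))))))))) (.n 533 [] (.n 123 [] .w (.n 362 [] .w (.n 222 [] .w (.n 198 [] .w (.n 322 [] .w (.n 422 [] .w (.n 481 [] (.n 309 [] .w (.n 238 [] .w (.n 418 [] .w (.n 197 [] .w (.n 542 [] .w (.n 98 [] .w (.n 289 [] .w (.n 466 [] .w (.n 470 [] .w (.f [(470, 8), (606, 12), (466, 10), (362, 1), (542, 9), (197, 12), (588, 2), (238, 11), (418, 5), (98, 4), (309, 12), (289, 10)] [])))))))))) (.f [(481, 33), (546, 17), (362, 13), (567, 11), (422, 16), (322, 3), (222, 7), (588, 4), (218, 39), (198, 3), (123, 4), (534, 17), (314, 33)] [])))))))) (.f [(471, 1), (487, 1), (533, 1), (218, 1), (314, 1)] [(463, 1)]))))) (.n 232 [] (.n 172 [] (.n 163 [] (.n 134 [] (.n 83 [] (.n 154 [] (.n 263 [] (.n 335 [] (.n 378 [] (.n 390 [] (.n 450 [] (.n 487 [] (.n 438 [] .w (.n 367 [] .w (.n 222 [] .w (.n 414 [] .w (.f [(606, 1), (367, 1), (222, 1), (438,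 1), (414, 1)] [(487, 1)]))))) (.n 208 [] (.n 447 [] (.n 438 [] .w (.n 194 [] .w (.n 347 [] .w (.n 482 [] .w (.f [(546, 1), (482, 1), (347, 1), (438, 1), (194, 1)] [(447, 1)]))))) (.n 467 [] (.n 362 [] .w (.n 214 [] .w (.n 458 [] .w (.n 418 [] .w (.n 322 [] .w (.n 591 [] .w (.n 409 [] (.n 70 [] .w (.n 43 [] .w (.n 110 [] .w (.n 79 [] .w (.f [(110, 1), (70, 1), (43, 1), (79, 1)] []))))) (.f [(591, 1), (246, 1), (362, 1), (567, 1), (322, 1), (458, 1), (418, 1), (409, 1), (214, 1)] [(467, 1)])))))))) (.n 188 [] (.n 283 [] (.n 486 [] (.n 413 [] (.n 446 [] .w (.n 417 [] (.n 414 [] .w (.n 242 [] .w (.n 338 [] .w (.f [(606, 1), (446, 1), (242, 1), (338, 1), (414, 1)] [(486, 1)])))) (.f [(606, 1), (246, 1), (417, 1), (463, 1), (314, 1)] [(486, 1)]))) (.f [(606, 1), (246, 1), (467, 1), (413, 1), (314, 1)] [(486, 1)])) A27) (.f [(246, 1), (567, 1), (467, 1), (283, 2)] [(317, 1)])) (.f [(606, 1), (546, 1), (467, 1),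 (188, 2)] [(562, 1)])))) (.f [(546, 1), (487, 1), (567, 1), (208, 1), (314, 1)] [(562, 1)]))) (.f [(450, 2), (314, 1)] [(64, 1)])) (.f [(390, 2), (314, 1)] [(64, 1)])) (.f [(378, 2), (314, 1)] [(64, 1)])) (.f [(335, 8), (546, 2), (567, 5), (448, 2), (534, 1), (174, 1)] [(562, 3)])) (.f [(606, 1), (546, 2), (246, 1), (567, 5), (472, 2), (263, 8)] [(562, 3)])) (.f [(606, 1), (463, 1), (154, 3)] [(134, 1), (64, 1)])) (.f [(546, 11), (246, 26), (567, 17), (492, 23), (472, 1), (83, 48), (314, 32), (174, 2)] [])) (.f [(546, 1), (567, 3), (463, 2), (448, 2), (134, 8)] [(64, 4)])) (.f [(606, 1), (567, 1), (472, 1), (163, 2)] [(562, 1)])) (.f [(606, 1), (567, 1), (172, 1), (463, 1), (314, 1)] [(562, 1)])) (.f [(546, 1), (232, 1), (567, 1), (463, 1), (314, 1)] [(562, 1)])))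

def A29 : Tr := .n 64 [] (.n 588 [] (.n 565 [] .w (.n 72 [] .w (.n 48 [] .w (.n 108 [] .w (.n 416 [] .w (.n 159 [] .w (.n 96 [] .w (.n 112 [] .w (.n 264 [] .w (.n 93 [] .w (.f [(565, 27), (416, 23), (96, 35), (112, 28), (72, 30), (108, 29), (93, 22), (48, 7), (159, 27), (264, 31)] []))))))))))) (.n 568 [] (.n 218 [] .w (.n 458 [] .w (.n 610 [] .w (.n 197 [] .w (.n 586 [] .w (.n 297 [] .w (.n 233 [] .w (.n 490 [] .w (.n 321 [] .w (.n 357 [] .w (.f [(610, 1), (490, 31), (586, 24), (321, 10), (357, 2), (297, 13), (197, 19), (458, 11), (233, 12), (218, 11), (534, 17), (314, 17)] []))))))))))) (.n 592 [] (.n 429 [216] (.n 213 [] .w (.n 514 [] .w (.n 558 [] .w (.n 197 [] .w (.n 297 [] .w (.n 394 [] .w (.n 321 [] .w (.n 413 [] .w (.n 357 [] .w (.f [(546, 3), (321, 1), (357, 5), (297, 1), (197, 2), (558, 2), (413, 1), (213, 5), (514, 2), (394, 6)] [])))))))))) (.n 362 [] .w (.n 218 [] .w (.n 458 [] .w (.n 322 []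 .w (.f [(606, 1), (546, 3), (362, 4), (322, 1), (458, 1), (218, 5), (429, 4), (534, 2)] [(592, 1)])))))) (.n 472 [] .w (.n 348 [] .w (.n 492 [] .w (.n 448 [] .w (.n 368 [] .w (.n 158 [] (.n 327 [] (.n 258 [] (.n 138 [] (.n 178 [] (.n 278 [] (.n 330 [] (.n 18 [] (.n 45 [] A28 (.f [(45, 42), (606, 15), (592, 11), (492, 10), (468, 16), (368, 5), (314, 21)] [])) (.f [(18, 3), (314, 1)] [(317, 1)])) (.f [(330, 16), (546, 6), (568, 3), (314, 2), (174, 1)] [])) (.f [(606, 6), (246, 1), (592, 3), (472, 2), (278, 16)] [])) (.f [(606, 6), (546, 1), (492, 3), (472, 2), (178, 16)] [])) (.f [(606, 1), (546, 6), (492, 2), (472, 3), (138, 16)] [])) (.f [(546, 6), (246, 1), (592, 3), (492, 2), (258, 16)] [])) (.f [(606, 4), (546, 5), (327, 16), (568, 5), (534, 1), (314, 8)] [(562, 3)])) (.f [(606, 1), (546, 1), (592, 1), (492, 1), (472, 1), (158, 4)] [(562, 1)])))))))))) (.n 348 [] .w (.n 448 [] .w (.n 368 [] .w (.n 172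 [] (.n 492 [] .w (.n 588 [] .w (.n 592 [] (.n 218 [] .w (.n 447 [] .w (.n 362 [] .w (.n 313 [] .w (.n 458 [] .w (.n 169 [] .w (.n 418 [] .w (.n 347 [] .w (.f [(606, 27), (546, 12), (362, 15), (447, 15), (347, 15), (458, 15), (313, 7), (418, 7), (218, 14), (64, 20), (169, 23)] [(592, 2)]))))))))) (.n 208 [] (.n 472 [] .w (.n 232 [] (.n 568 [] .w (.n 168 [] (.n 332 [] (.n 283 [] (.n 363 [] (.n 298 [] .w (.n 421 [] .w (.n 582 [] .w (.n 458 [] .w (.n 542 [] .w (.n 366 [] .w (.n 242 [] .w (.n 221 [] .w (.f [(606, 1), (366, 1), (421, 1), (221, 1), (582, 1), (542, 1), (242, 2), (458, 2), (298, 2), (64, 4)] []))))))))) (.n 347 [] (.n 567 [] .w (.n 482 [] .w (.n 338 [] .w (.f [(546, 1), (482, 1), (567, 1), (338, 1), (64, 1)] [(562, 1)])))) (.n 408 [] (.n 343 [] (.n 298 [] .w (.n 358 [] .w (.n 582 [] .w (.n 238 [] .w (.n 198 [] .w (.n 542 [] .w (.n 466 [] .w (.n 209 [] .w (.n 242 [] .w (.f [(466, 7), (546, 2), (582,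 4), (542, 1), (242, 4), (358, 4), (238, 1), (298, 6), (198, 1), (209, 1), (64, 8)] [(343, 3)])))))))))) (.n 92 [] (.n 392 [] (.n 463 [] (.n 342 [] .w (.n 122 [] .w (.n 218 [] .w (.n 590 [] .w (.n 361 [] .w (.n 442 [] .w (.n 482 [] .w (.n 583 [] .w (.n 542 [] .w (.n 358 [] .w (.n 421 [] .w (.n 221 [] .w (.f [(590, 8), (361, 2), (421, 33), (221, 37), (482, 20), (542, 41), (442, 2), (342, 5), (122, 4), (583, 6), (358, 48), (218, 18), (64, 72)] []))))))))))))) (.n 487 [] (.n 342 [] .w (.n 421 [] .w (.n 313 [] .w (.n 458 [] .w (.n 542 [] .w (.n 98 [] .w (.n 284 [] .w (.n 242 [] .w (.n 221 [] .w (.f [(606, 3), (421, 3), (221, 1), (542, 2), (342, 1), (242, 4), (458, 2), (313, 2), (98, 3), (284, 2), (64, 5)] [])))))))))) (.n 308 [] (.n 72 [] (.n 467 [] (.n 218 [] .w (.n 318 [] .w (.n 346 [] .w (.n 338 [] .w (.n 482 [] .w (.n 222 [] .w (.n 169 [] .w (.n 422 [] .w (.f [(606, 5), (346, 1), (482, 1), (422, 4), (222,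 1), (338, 2), (318, 2), (218, 2), (64, 4), (169, 2)] []))))))))) (.n 313 [] (.n 367 [] .w (.n 297 [] (.n 483 [] .w (.n 357 [] (.n 443 [] .w (.n 543 [] .w (.n 423 [] .w (.n 582 [] (.n 309 [] .w (.n 362 [] .w (.n 222 [] .w (.n 238 [] .w (.n 466 [] .w (.n 242 [] .w (.f [(466, 13), (546, 12), (362, 9), (242, 4), (222, 12), (483, 6), (238, 6), (543, 10), (423, 3), (309, 13), (64, 12)] []))))))) (.n 362 [] (.n 218 [] .w (.n 309 [] .w (.n 346 [] .w (.n 482 [] .w (.n 418 [] .w (.n 198 [] .w (.n 289 [] .w (.f [(606, 8), (546, 25), (346, 13), (582, 10), (482, 32), (367, 12), (418, 11), (218, 29), (198, 14), (309, 2), (289, 16), (64, 36)] [])))))))) (.f [(546, 1), (582, 1), (362, 1), (443, 1), (64, 1)] [(562, 1)])))))) (.f [(546, 2), (357, 2), (467, 1), (463, 1), (568, 1), (64, 2)] [(562, 1)]))) (.f [(606, 2), (467, 1), (297, 2), (463, 1), (568, 1), (64, 2)] [(562, 1)]))) (.f [(606, 1), (546, 1), (467, 1), (313, 1),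 (64, 1)] [(562, 1)]))) (.f [(606, 3), (487, 1), (592, 1), (72, 3), (463, 1), (343, 2), (64, 3)] [(562, 2)])) (.f [(546, 1), (487, 1), (592, 1), (308, 1), (64, 1)] [(562, 1)])))) (.f [(546, 36), (246, 15), (392, 60), (363, 21), (343, 25), (64, 51)] [(562, 4)])) (.f [(546, 30), (246, 21), (92, 69), (363, 26), (448, 16), (64, 51)] [(562, 9)]))) (.f [(606, 18), (246, 41), (592, 46), (492, 2), (347, 39), (408, 62), (363, 25), (64, 87)] [])))) (.f [(546, 2), (246, 14), (592, 12), (492, 5), (472, 3), (283, 20), (64, 20)] [])) (.f [(546, 1), (332, 2), (568, 1), (64, 1)] [(562, 1)])) (.f [(606, 6), (246, 3), (472, 7), (168, 10), (64, 10)] []))) (.f [(546, 12), (232, 20), (588, 1), (468, 13), (348, 6), (64, 20)] []))) (.f [(606, 1), (546, 12), (246, 6), (492, 13), (208, 20), (64, 20)] []))))) (.f [(606, 6), (172, 10), (468, 7), (368, 3), (64, 10)] [])))))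

def A30 : Tr := .n 214 [] (.n 583 [] .w (.n 341 [] (.n 543 [] .w (.n 416 [] (.n 456 [] (.n 343 [] (.n 538 [] .w (.n 458 [] .w (.n 242 [] .w (.n 346 [] .w (.f [(346, 1), (242, 1), (458, 1), (538, 1), (319, 1)] [(343, 1)]))))) (.n 221 [] (.n 408 [] (.n 242 [] .w (.n 591 [] .w (.n 333 [] (.n 219 [] .w (.n 366 [] .w (.n 558 [] .w (.n 438 [] .w (.n 297 [] (.n 218 [] .w (.n 532 [] .w (.n 269 [] .w (.n 169 [] .w (.n 284 [] .w (.n 577 [] .w (.n 453 [] .w (.n 541 [] .w (.n 445 [] .w (.n 553 [] .w (.n 236 [] .w (.n 352 [] .w (.f [(445, 16), (236, 16), (541, 4), (577, 10), (352, 7), (532, 3), (553, 7), (453, 8), (218, 5), (284, 13), (269, 4), (169, 3)] []))))))))))))) (.f [(366, 1), (297, 1), (558, 1), (438, 1), (219, 1)] [(318, 1)])))))) (.f [(591, 1), (246, 2), (562, 2), (242, 1), (333, 3), (443, 1), (414, 2), (319, 1), (174, 1)] [(318, 1), (214, 1)])))) (.f [(246, 1), (562, 1), (408, 1), (343, 1), (319, 1)] [(318,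 1)])) (.f [(221, 1), (562, 1), (343, 1), (234, 1), (414, 1)] [(214, 1)]))) (.f [(456, 2), (246, 1), (562, 2), (363, 1), (543, 1), (319, 1), (174, 1)] [(561, 1)])) (.f [(416, 2), (246, 1), (562, 2), (583, 1), (323, 1), (234, 1), (339, 1)] [(561, 1)]))) (.f [(341, 1), (562, 1), (463, 1), (234, 1), (174, 1)] [(214, 1)]))) (.n 296 [] (.n 416 [] (.n 356 [] (.n 336 [] (.n 212 [] (.n 527 [] (.n 334 [] (.n 367 [] .w (.n 620 [] .w (.n 347 [] .w (.n 524 [] .w (.n 124 [] .w (.n 543 [] .w (.n 591 [] .w (.n 604 [] .w (.n 243 [] .w (.n 408 [] (.n 482 [] .w (.n 456 [] (.n 343 [] .w (.n 222 [] .w (.n 321 [] (.n 298 [] .w (.n 434 [] .w (.n 558 [] .w (.n 294 [] .w (.n 462 [] .w (.n 366 [] .w (.f [(366, 2), (462, 1), (222, 1), (558, 2), (298, 1), (434, 1), (214, 1), (294, 1)] [(318, 1), (334, 1)]))))))) (.f [(321, 1), (482, 1), (343, 1), (534, 1), (214, 1)] [(334, 1)])))) (.f [(620, 1), (456, 36), (562, 24), (367, 12), (363,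 12), (543, 9), (243, 9), (323, 6), (604, 1), (319, 6), (524, 1), (174, 27), (124, 1)] []))) (.f [(620, 1), (591, 9), (246, 18), (562, 15), (367, 6), (347, 6), (408, 27), (604, 1), (214, 12), (319, 12), (524, 1), (124, 1)] []))))))))))) (.n 236 [] (.n 387 [] (.n 134 [] (.n 83 [] (.n 403 [] (.n 107 [] (.n 451 [] (.n 47 [] (.n 314 [] (.n 413 [] (.n 198 [] .w (.n 366 [] (.n 203 [] .w (.n 507 [] .w (.n 112 [] .w (.n 103 [] .w (.n 455 [] .w (.n 88 [] .w (.n 19 [] .w (.n 70 [] .w (.n 327 [] .w (.f [(455, 1), (70, 5), (327, 1), (507, 1), (112, 3), (203, 1), (103, 2), (88, 2), (19, 5)] [])))))))))) (.f [(366, 1), (562, 1), (198, 1), (334, 1), (414, 1)] [(314, 1)]))) (.f [(246, 1), (562, 1), (413, 1), (334, 1), (319, 1)] [(314, 1)])) (.n 543 [] (.n 578 [] .w (.n 309 [] .w (.n 169 [] .w (.n 189 [] .w (.n 558 [] .w (.n 198 [] .w (.n 602 [] .w (.n 478 [] .w (.n 289 [] .w (.n 366 [] .w (.n 457 [] .w (.f [(366, 17), (546,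 12), (602, 4), (457, 21), (562, 4), (578, 8), (478, 8), (558, 1), (198, 12), (309, 2), (289, 10), (189, 10), (169, 7)] [])))))))))))) (.n 456 [] (.n 447 [] .w (.n 332 [] (.n 328 [] (.n 591 [] (.n 346 [] .w (.n 442 [] .w (.n 189 [] .w (.n 514 [] .w (.n 558 [] .w (.n 418 [] .w (.n 542 [] .w (.n 209 [] .w (.n 242 [] .w (.f [(606, 9), (346, 19), (562, 7), (542, 1), (442, 3), (242, 8), (558, 3), (418, 16), (209, 7), (514, 8), (189, 4)] [(591, 9)])))))))))) (.n 284 [] (.n 524 [] .w (.n 347 [] .w (.n 367 [] .w (.n 467 [] .w (.n 408 [] (.n 604 [] .w (.n 491 [] .w (.n 196 [] (.n 172 [] (.n 343 [] .w (.n 189 [] (.n 538 [] .w (.n 346 [] .w (.n 442 [] .w (.n 458 [] .w (.n 558 [] .w (.n 366 [] .w (.n 242 [] .w (.f [(366, 1), (346, 1), (442, 1), (242, 1), (558, 1), (458, 1), (538, 1), (314, 1), (174, 1)] [(318, 1)])))))))) (.n 437 [] (.n 358 [] .w (.n 542 [] .w (.n 346 [] (.n 421 [] .w (.n 229 [] .w (.n 329 [] .w (.n 441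 [] .w (.n 585 [] .w (.n 532 [] .w (.n 217 [] .w (.n 273 [] .w (.n 541 [] .w (.n 232 [] .w (.n 413 [] .w (.n 184 [] .w (.n 64 [] .w (.f [(585, 144), (541, 37), (441, 191), (421, 44), (532, 114), (232, 130), (217, 28), (413, 60), (273, 212), (329, 83), (229, 125), (184, 12), (64, 52)] [])))))))))))))) (.f [(346, 1), (542, 1), (358, 1), (443, 1), (189, 1)] [(318, 1)])))) (.f [(606, 1), (546, 1), (437, 1), (343, 1), (189, 1)] [(561, 1)])))) (.f [(606, 21), (591, 10), (491, 4), (467, 1), (172, 34), (463, 10), (363, 6), (443, 19), (604, 4), (334, 13), (414, 1), (314, 16), (214, 1)] [])) (.f [(606, 1), (196, 2), (562, 1), (467, 1), (363, 1), (543, 1), (334, 1), (414, 1)] [(561, 1)])))) (.f [(591, 9), (246, 15), (562, 11), (367, 8), (347, 5), (408, 24), (314, 11), (214, 9), (524, 4)] [])))))) (.f [(591, 1), (246, 2), (562, 2), (463, 1), (443, 1), (284, 2)] [(561, 1)]))) (.f [(606, 1), (246, 3), (562, 6), (447, 2),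 (328, 8), (443, 1), (234, 4), (414, 4)] [(318, 1)])) (.f [(246, 1), (332, 1), (543, 1), (443, 1), (314, 1)] [(318, 1)]))) (.f [(456, 1), (246, 1), (562, 1), (543, 1), (314, 1)] [(561, 1)])))) (.f [(606, 6), (562, 1), (47, 9), (363, 3), (443, 7), (334, 3), (214, 6), (319, 1)] [])) (.f [(451, 44), (562, 28), (363, 21), (323, 15), (534, 2), (234, 23), (319, 1), (174, 10)] [])) (.f [(546, 6), (107, 10), (443, 7), (323, 3), (214, 10)] [])) (.f [(606, 1), (246, 54), (562, 69), (492, 6), (403, 64), (363, 11), (334, 53), (214, 19), (319, 3)] [])) (.f [(246, 7), (562, 5), (492, 1), (83, 8), (414, 4), (319, 3)] [])) (.f [(546, 2), (246, 1), (562, 4), (363, 1), (443, 3), (134, 4)] [(561, 3)])) (.f [(606, 5), (546, 5), (246, 3), (387, 22), (323, 4), (334, 8), (319, 4), (174, 1)] [])) (.f [(236, 1), (546, 1), (562, 1), (443, 1), (334, 1)] [(561, 1)]))) (.f [(246, 1), (527, 4), (463, 1), (443, 2), (323, 1), (234, 2), (214,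 2)] [(561, 1)])) (.f [(606, 2), (546, 1), (212, 2), (443, 1), (323, 1), (414, 1), (319, 1)] [(561, 1)])) (.f [(336, 1), (546, 1), (562, 1), (443, 1), (234, 1)] [(561, 1)])) (.f [(356, 1), (546, 1), (562, 1), (443, 1), (214, 1)] [(561, 1)])) (.f [(606, 1), (416, 1), (562, 1), (323, 1), (214, 1)] [(561, 1)])) (.f [(606, 1), (296, 1), (562, 1), (443, 1), (214, 1)] [(561, 1)]))

def A31 : Tr := .n 314 [] (.n 421 [] (.n 409 [] (.n 481 [] (.n 437 [] (.n 362 [] .w (.n 221 [] (.n 172 [] .w (.n 329 [] .w (.n 73 [] .w (.n 532 [] .w (.n 393 [] .w (.n 117 [] .w (.n 236 [] .w (.n 89 [] .w (.n 69 [] .w (.n 446 [] .w (.f [(236, 11), (446, 4), (532, 12), (117, 2), (172, 1), (393, 8), (73, 7), (329, 12), (89, 1), (69, 2)] []))))))))))) (.f [(221, 1), (362, 1), (318, 1), (534, 1), (439, 1)] [(314, 1)]))) (.f [(246, 1), (437, 1), (318, 1), (534, 1), (339, 1)] [(314, 1)])) (.f [(481, 1), (562, 1), (318, 1), (339, 1), (174, 1)]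 [(314, 1)])) (.f [(246, 1), (562, 1), (318, 1), (409, 1), (339, 1)] [(314, 1)])) (.f [(421, 1), (562, 1), (318, 1), (234, 1), (339, 1)] [(314, 1)])) (.n 419 [] (.n 467 [] .w (.n 486 [] (.n 538 [] .w (.n 309 [] .w (.n 114 [] .w (.n 233 [] .w (.n 542 [] .w (.n 118 [] .w (.n 466 [] .w (.n 422 [] .w (.n 438 [] .w (.n 366 [] .w (.n 333 [] .w (.n 221 [] .w (.f [(466, 8), (366, 1), (221, 13), (542, 13), (422, 9), (333, 1), (233, 5), (538, 5), (438, 6), (118, 5), (309, 16), (114, 11)] [(419, 5)]))))))))))))) (.f [(486, 1), (467, 1), (318, 1), (534, 1), (174, 1)] [(419, 1)]))) (.n 459 [] (.n 471 [] .w (.n 467 [] .w (.n 313 [] (.n 483 [] .w (.n 222 [] .w (.n 466 [] (.n 237 [] .w (.n 361 [] .w (.n 73 [] .w (.n 169 [] .w (.n 94 [] .w (.n 537 [] .w (.n 533 [] .w (.n 462 [] .w (.n 357 [] .w (.n 481 [] .w (.n 221 [] .w (.f [(481, 17), (361, 3), (221, 10), (357, 8), (537, 16), (462, 4), (237, 2), (533, 5), (318, 5), (73,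 20), (314, 5), (169, 9), (94, 16)] [])))))))))))) (.f [(466, 1), (222, 1), (483, 1), (534, 1), (314, 1)] [(459, 1)])))) (.f [(471, 1), (467, 1), (313, 1), (534, 1), (234, 1)] [(459, 1)])))) (.n 236 [] (.n 472 [] .w (.n 219 [] (.n 466 [] (.n 222 [] .w (.n 414 [] .w (.n 591 [] (.n 502 [] .w (.n 254 [] .w (.n 378 [] .w (.f [(502, 1), (378, 1), (254, 1)] [])))) (.f [(591, 1), (222, 1), (318, 1), (234, 1), (414, 1)] [(219, 1)])))) (.f [(466, 1), (562, 1), (318, 1), (234, 1), (174, 1)] [(219, 1)])) (.n 356 [] (.n 296 [] (.n 492 [] .w (.n 332 [] (.n 263 [] (.n 303 [] (.n 134 [] (.n 147 [] (.n 43 [] (.n 83 [] (.n 107 [] (.n 507 [] (.n 91 [] (.n 391 [] (.n 154 [] (.n 47 [] (.n 467 [] (.n 334 [] .w (.n 294 [] .w (.n 414 [] .w (.n 221 [] (.n 358 [] .w (.n 218 [] .w (.n 458 [] .w (.n 367 [] .w (.n 479 [] .w (.n 421 [] (.n 409 [] .w (.n 491 [] .w (.n 347 [] .w (.n 289 [] .w (.n 119 [] .w (.f [(606, 6), (491, 5), (546,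 4), (246, 19), (562, 23), (347, 11), (458, 9), (318, 11), (218, 14), (409, 19), (289, 11), (119, 4)] [])))))) (.f [(606, 1), (421, 15), (562, 15), (367, 4), (358, 3), (318, 1), (218, 12), (479, 4), (334, 7), (234, 4), (294, 1)] [(467, 3)]))))))) (.f [(606, 1), (221, 1), (562, 1), (318, 1), (414, 1)] [(561, 1)]))))) (.n 284 [] (.n 188 [] (.n 408 [] (.n 232 [] (.n 223 [] .w (.n 447 [] .w (.n 416 [] (.n 412 [] (.n 347 [] .w (.n 164 [] (.n 483 [] .w (.n 543 [] .w (.n 423 [] .w (.n 216 [] (.n 124 [] .w (.n 604 [] .w (.n 168 [] (.n 367 [] .w (.n 471 [] .w (.n 487 [] .w (.n 208 [] (.n 491 [] .w (.n 532 [] (.n 591 [] .w (.n 84 [] (.n 96 [] (.n 434 [] .w (.n 172 [] (.n 438 [] .w (.n 217 [] (.n 414 [] .w (.n 338 [] .w (.n 197 [] (.n 582 [] .w (.n 214 [] .w (.n 238 [] .w (.n 418 [] .w (.n 542 [] .w (.n 462 [] .w (.n 518 [] .w (.n 309 [] (.n 432 [] .w (.n 576 [] .w (.n 288 [] .w (.n 24 [] .w (.n 240 [] .w (.f [(240,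 1), (576, 1), (432, 1), (288, 1), (24, 1)] [])))))) (.f [(546, 3), (246, 8), (582, 1), (462, 7), (542, 3), (338, 1), (238, 2), (518, 4), (418, 4), (309, 10), (214, 1)] []))))))))) (.f [(606, 2), (591, 1), (197, 2), (338, 1), (318, 1), (414, 2)] [(561, 1)])))) (.f [(606, 1), (546, 1), (217, 1), (438, 1), (314, 1)] [(561, 1)]))) (.f [(606, 16), (591, 5), (491, 4), (467, 1), (172, 24), (463, 12), (318, 13), (604, 4), (434, 7), (234, 1), (314, 12), (419, 1)] []))) (.f [(96, 36), (562, 15), (487, 17), (467, 4), (463, 4), (543, 3), (318, 29), (534, 9), (234, 27)] [])) (.f [(491, 2), (546, 7), (246, 27), (562, 17), (487, 15), (467, 4), (463, 4), (543, 3), (318, 27), (423, 2), (84, 36)] []))) (.f [(491, 4), (471, 4), (246, 18), (532, 25), (467, 1), (463, 13), (318, 13), (459, 1), (314, 13), (419, 1), (219, 7), (124, 4)] []))) (.f [(606, 9), (546, 29), (246, 8), (562, 7), (487, 14), (467, 9), (367, 11), (447, 5),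 (208, 37), (318, 9), (314, 25), (419, 17), (124, 4)] []))))) (.f [(606, 2), (467, 1), (447, 1), (347, 1), (168, 2), (314, 2)] [(317, 1)])))) (.f [(216, 1), (546, 1), (562, 1), (483, 1), (314, 1)] [(561, 1)]))))) (.f [(606, 2), (467, 1), (447, 1), (347, 1), (318, 2), (164, 2)] [(317, 1)]))) (.f [(606, 2), (546, 1), (412, 2), (318, 1), (223, 1), (314, 1), (219, 1)] [(561, 1)])) (.f [(606, 1), (416, 1), (562, 1), (223, 1), (314, 1)] [(561, 1)])))) (.f [(546, 1), (232, 1), (467, 1), (318, 1), (314, 1)] [(317, 1)])) (.f [(246, 2), (562, 2), (408, 2), (318, 1), (314, 1), (219, 1)] [(188, 1)])) (.f [(606, 1), (546, 1), (467, 1), (188, 2)] [(561, 1)])) (.f [(246, 1), (562, 1), (467, 1), (318, 1), (284, 1)] [(317, 1)]))) (.f [(606, 34), (562, 5), (492, 1), (47, 52), (463, 29), (318, 29), (459, 1), (234, 17), (314, 18), (219, 22)] [])) (.f [(606, 21), (562, 9), (492, 2), (472, 22), (463, 6), (363, 7), (318, 20), (154,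 33)] [])) (.f [(391, 20), (562, 14), (363, 7), (318, 10), (234, 5), (174, 12)] [])) (.f [(91, 144), (562, 42), (463, 37), (318, 56), (534, 15), (234, 57), (314, 21)] [])) (.f [(246, 5), (507, 8), (463, 4), (318, 4), (314, 3), (419, 3), (174, 2)] [(561, 1)])) (.f [(546, 34), (107, 52), (562, 5), (472, 1), (463, 29), (318, 29), (314, 18), (419, 1), (219, 22), (174, 17)] [])) (.f [(546, 13), (246, 40), (562, 27), (492, 27), (472, 3), (83, 64), (314, 40), (419, 10)] [])) (.f [(606, 13), (246, 40), (562, 27), (492, 3), (472, 27), (43, 64), (459, 10), (314, 40)] [])) (.f [(606, 43), (562, 3), (147, 56), (463, 29), (318, 30), (534, 9), (314, 24), (419, 26)] [])) (.f [(546, 14), (246, 11), (562, 14), (492, 12), (472, 3), (463, 13), (318, 16), (134, 29)] [])) (.f [(546, 1), (246, 1), (562, 4), (303, 4), (234, 2), (419, 2)] [(561, 2)])) (.f [(246, 2), (562, 4), (263, 4), (534, 1), (459, 2), (174, 1)] [(561, 2)])) (.f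 [(246, 1), (332, 1), (562, 1), (318, 1), (419, 1)] [(317, 1)]))) (.f [(606, 1), (296, 2), (562, 2), (463, 1), (318, 1), (234, 1), (219, 1)] [(561, 1)])) (.f [(356, 2), (546, 1), (562, 2), (463, 1), (318, 1), (219, 1), (174, 1)] [(561, 1)])))) (.f [(236, 1), (546, 1), (562, 1), (318, 1), (459, 1)] [(561, 1)]))))

def A32 : Tr := .n 443 [] (.n 483 [] .w (.n 367 [] .w (.n 347 [] .w (.n 487 [] .w (.n 219 [] .w (.n 243 [] .w (.n 456 [] (.n 83 [] (.n 134 [] (.n 491 [] .w (.n 47 [] (.n 439 [] (.n 216 [] .w (.n 228 [] .w (.n 109 [] .w (.n 169 [] .w (.n 532 [] .w (.n 329 [] .w (.n 208 [] .w (.n 465 [] .w (.n 360 [] .w (.n 445 [] .w (.n 553 [] .w (.n 296 [] .w (.n 89 [] .w (.f [(360, 41), (465, 14), (445, 41), (216, 25), (296, 11), (532, 36), (553, 19), (228, 10), (208, 7), (329, 3), (109, 9), (89, 11), (169, 13)] [])))))))))))))) (.n 207 [] (.n 194 [] (.n 419 [] .w (.n 218 [] .w (.n 358 [] .w (.n 446 [] .w (.f [(446,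 1), (562, 1), (358, 1), (218, 1), (419, 1)] [(443, 1)]))))) (.n 296 [] (.n 620 [] .w (.n 343 [] .w (.n 467 [] .w (.n 421 [] (.n 362 [] .w (.n 419 [] .w (.n 184 [] (.n 358 [] .w (.n 447 [] .w (.n 482 [] .w (.n 486 [] .w (.n 123 [] .w (.n 479 [] .w (.n 366 [] .w (.n 242 [] .w (.n 333 [] (.n 122 [] .w (.n 218 [] .w (.n 198 [] .w (.n 294 [] .w (.n 466 [] .w (.n 414 [] .w (.f [(466, 19), (366, 3), (482, 4), (562, 14), (122, 4), (358, 11), (218, 3), (198, 18), (534, 7), (414, 8), (294, 7)] [(443, 10)]))))))) (.f [(486, 57), (366, 3), (546, 60), (562, 59), (467, 4), (242, 40), (447, 17), (333, 116), (123, 4), (479, 16), (419, 25), (194, 44), (174, 35)] [])))))))))) (.f [(620, 4), (491, 8), (546, 76), (562, 5), (362, 53), (467, 26), (483, 10), (463, 27), (343, 32), (243, 10), (448, 5), (184, 75), (419, 9)] [])))) (.f [(421, 1), (562, 1), (483, 1), (343, 1), (194, 1)] [(443, 1)]))))) (.f [(606, 1), (296, 1), (562,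 1), (463, 1), (194, 1)] [(561, 1)]))) (.f [(491, 1), (546, 1), (207, 2), (439, 1)] [(456, 1)]))) (.f [(606, 5), (562, 3), (47, 12), (463, 9), (243, 3), (234, 3), (319, 8), (219, 2)] [(443, 1)]))) (.f [(546, 12), (562, 9), (367, 16), (347, 2), (463, 14), (448, 7), (134, 24)] [])) (.f [(546, 5), (246, 9), (562, 7), (487, 7), (367, 4), (83, 20), (319, 13), (174, 3)] [])) (.f [(456, 2), (546, 1), (562, 2), (363, 1), (243, 1), (319, 1), (174, 1)] [(561, 1)])))))))) (.n 207 [] (.n 439 [] (.n 421 [] (.n 486 [] .w (.n 198 [] .w (.n 462 [] (.n 144 [] .w (.n 172 [] .w (.n 216 [] .w (.n 532 [] .w (.n 480 [] .w (.n 168 [] .w (.n 340 [] .w (.n 320 [] .w (.n 96 [] .w (.n 552 [] .w (.n 236 [] .w (.n 88 [] .w (.n 44 [] .w (.f [(480, 37), (340, 3), (320, 34), (236, 19), (216, 4), (96, 16), (552, 22), (532, 15), (172, 2), (88, 33), (168, 6), (144, 6), (44, 33)] [])))))))))))))) (.f [(486, 1), (462, 1), (198, 1), (534, 1),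 (319, 1)] [(439, 1)])))) (.f [(421, 1), (562, 1), (463, 1), (234, 1), (319, 1)] [(439, 1)])) (.n 339 [] (.n 347 [] .w (.n 341 [] (.n 586 [] (.n 346 [] .w (.n 434 [] .w (.n 238 [] .w (.n 219 [] .w (.n 438 [] .w (.n 533 [] .w (.n 462 [] .w (.n 366 [] .w (.n 518 [] .w (.n 242 [] .w (.f [(366, 10), (346, 12), (562, 7), (462, 8), (242, 7), (533, 11), (438, 3), (238, 4), (518, 4), (434, 11), (219, 1), (174, 10)] []))))))))))) (.n 413 [] (.n 462 [] .w (.n 238 [] .w (.n 346 [] .w (.f [(346, 1), (462, 1), (238, 1), (534, 1), (319, 1)] [(339, 1)])))) (.f [(586, 1), (347, 1), (413, 1), (234, 1), (319, 1)] [(339, 1)]))) (.f [(341, 3), (562, 2), (463, 1), (363, 1), (534, 1), (234, 1), (439, 1), (174, 1)] [(561, 1), (339, 2)]))) (.n 323 [] (.n 583 [] .w (.n 467 [] .w (.n 333 [] (.n 243 [] .w (.n 219 [] .w (.n 604 [] .w (.n 591 [] .w (.n 314 [] (.n 218 [] .w (.n 346 [] .w (.n 362 [] .w (.n 442 [] .w (.n 434 [] .w (.n 490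 [] .w (.n 533 [] .w (.n 438 [] .w (.n 366 [] .w (.f [(490, 16), (366, 12), (346, 33), (246, 7), (562, 26), (362, 21), (442, 5), (533, 30), (438, 9), (218, 23), (434, 26), (174, 26)] [(323, 10)])))))))))) (.n 392 [] (.n 284 [] (.n 347 [] .w (.n 533 [] (.n 358 [] .w (.n 218 [] .w (.n 582 [] .w (.n 194 [] .w (.n 442 [] .w (.n 490 [] .w (.n 438 [] .w (.n 346 [] .w (.f [(490, 4), (546, 8), (346, 10), (582, 4), (562, 7), (442, 7), (358, 15), (438, 8), (218, 5), (314, 4), (194, 3), (174, 11)] [(323, 10)]))))))))) (.f [(246, 1), (347, 1), (533, 1), (443, 1), (314, 1)] [(323, 1)]))) (.f [(591, 9), (546, 8), (246, 66), (562, 55), (467, 28), (583, 7), (463, 27), (443, 28), (243, 13), (348, 8), (604, 4), (284, 75), (219, 4)] [])) (.f [(546, 4), (246, 3), (392, 8), (583, 4), (363, 2), (348, 1), (314, 6), (174, 1)] [(323, 1)]))))))) (.f [(246, 1), (562, 1), (333, 1), (443, 1), (174, 1)] [(323, 1)])))) (.n 318 [] (.n 492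 [] .w (.n 414 [] (.n 491 [] .w (.n 367 [] .w (.n 467 [] .w (.n 296 [] (.n 243 [] .w (.n 416 [] (.n 356 [] (.n 343 [] .w (.n 604 [] .w (.n 456 [] (.n 338 [] (.n 298 [] .w (.n 538 [] .w (.n 434 [] .w (.n 482 [] .w (.n 342 [] .w (.n 602 [] .w (.n 241 [] .w (.n 314 [] .w (.n 462 [] .w (.n 221 [] .w (.f [(241, 5), (221, 5), (602, 4), (482, 1), (462, 1), (342, 4), (538, 6), (298, 4), (434, 8), (314, 2)] []))))))))))) (.n 437 [] (.n 362 [] .w (.n 461 [] (.n 334 [] .w (.n 242 [] .w (.n 119 [] .w (.n 309 [] (.n 218 [] .w (.n 458 [] .w (.n 558 [] .w (.n 542 [] .w (.n 366 [] .w (.n 446 [] .w (.n 237 [] (.n 216 [] .w (.n 532 [] .w (.n 565 [] .w (.n 72 [] .w (.n 169 [] .w (.n 196 [] .w (.n 109 [] .w (.n 365 [] .w (.n 441 [] .w (.n 328 [] .w (.n 485 [] .w (.n 529 [] .w (.n 69 [] .w (.f [(485, 35), (565, 2), (365, 3), (441, 6), (216, 10), (196, 22), (532, 25), (72, 13), (328, 38), (529, 14), (109, 10), (169, 9), (69, 5)]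 [])))))))))))))) (.f [(366, 7), (446, 19), (237, 15), (542, 11), (558, 6), (458, 5), (338, 11), (443, 1), (218, 3), (534, 8), (334, 7), (119, 4), (174, 7)] [])))))))) (.f [(546, 1), (242, 1), (338, 1), (443, 1), (309, 1)] [(318, 1)]))))) (.f [(461, 1), (362, 1), (443, 1), (534, 1), (174, 1)] [(414, 1)]))) (.f [(491, 1), (437, 1), (338, 1), (534, 1), (174, 1)] [(414, 1)]))) (.f [(456, 53), (546, 9), (562, 41), (367, 21), (363, 20), (443, 9), (343, 9), (243, 17), (323, 7), (604, 4), (534, 8), (319, 5), (174, 45)] [])))) (.f [(356, 2), (562, 1), (467, 1), (463, 1), (443, 1), (534, 1), (174, 2)] [(414, 1)])) (.f [(416, 2), (562, 2), (323, 1), (234, 1), (339, 1)] [(561, 1), (318, 1), (414, 1)]))) (.f [(296, 2), (562, 1), (467, 1), (463, 1), (443, 1), (534, 1), (234, 2)] [(414, 1)]))))) (.n 216 [] A30 (.f [(606, 1), (216, 1), (562, 1), (323, 1), (414, 1)] [(561, 1)])))) (.n 461 [] (.n 407 [] (.n 212 [] (.n 452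 [] A31 (.f [(546, 8), (452, 15), (562, 4), (363, 4), (318, 11), (534, 3), (234, 11), (174, 3)] [])) (.f [(606, 1), (546, 1), (212, 1), (318, 1), (439, 1)] [(561, 1)])) (.f [(246, 1), (407, 2), (318, 1), (339, 1)] [(317, 1)])) (.f [(461, 1), (246, 1), (562, 1), (318, 1), (534, 1)] [(561, 1)])))))) (.f [(546, 1), (207, 2), (443, 1), (319, 1)] [(317, 1)]))

def A33 : Tr := .n 319 [] (.n 448 [] .w (.n 467 [] .w (.n 367 [] .w (.n 347 [] .w (.n 363 [] .w (.n 463 [] .w (.n 487 [] .w (.n 211 [] (.n 447 [] .w (.n 383 [] (.n 491 [] (.n 270 [] .w (.n 540 [] .w (.n 516 [] .w (.n 387 [] .w (.n 202 [] .w (.f [(540, 1), (270, 2), (516, 1), (202, 1), (387, 2)] [])))))) (.n 444 [] (.n 461 [] .w (.n 212 [] .w (.n 196 [] .w (.n 365 [] .w (.n 445 [] .w (.n 533 [] .w (.f [(365, 7), (445, 5), (461, 2), (196, 2), (212, 5), (533, 7)] []))))))) (.n 328 [] (.n 83 [] (.n 403 [] (.n 106 [] (.n 223 [] .w (.n 46 [] (.n 243 [] .w (.n 439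 [] (.n 237 [] .w (.n 338 [] .w (.n 198 [] .w (.n 542 [] .w (.n 119 [] .w (.n 466 [] .w (.n 366 [] .w (.n 357 [] .w (.n 446 [] .w (.f [(466, 10), (366, 2), (446, 10), (357, 7), (562, 1), (237, 9), (542, 5), (338, 12), (198, 10), (534, 15), (444, 1), (119, 4), (174, 2)] [])))))))))) (.n 340 [] (.n 271 [] (.n 558 [] (.n 466 [] .w (.n 358 [] .w (.n 198 [] .w (.f [(466, 1), (562, 1), (358, 1), (198, 1), (534, 1)] [(558, 1)])))) (.n 341 [] (.n 543 [] .w (.n 296 [] (.n 443 [] .w (.n 238 [] .w (.n 524 [] .w (.n 604 [] .w (.n 591 [] .w (.n 356 [] (.n 419 [] .w (.n 538 [] .w (.n 582 [] .w (.n 458 [] .w (.n 343 [] .w (.n 462 [] .w (.n 219 [] .w (.n 242 [] .w (.n 321 [] (.n 338 [] .w (.n 214 [] .w (.n 442 [] .w (.n 434 [] .w (.n 99 [] .w (.n 466 [] .w (.n 519 [] .w (.n 366 [] (.n 229 [] .w (.n 353 [] .w (.n 416 [] .w (.n 49 [] .w (.n 112 [] .w (.n 273 [] .w (.n 552 [] .w (.n 208 [] .w (.n 332 [] .w (.n 89 [] .w (.n 429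 [] .w (.f [(416, 21), (552, 27), (332, 4), (112, 9), (353, 14), (208, 17), (273, 9), (429, 6), (229, 10), (89, 12), (49, 12)] [])))))))))))) (.f [(466, 4), (366, 106), (582, 22), (562, 34), (442, 54), (558, 37), (338, 73), (434, 51), (214, 3), (519, 16), (174, 106), (99, 4)] [(319, 70)]))))))))) (.f [(591, 1), (321, 30), (462, 13), (242, 18), (558, 1), (458, 12), (538, 17), (343, 1), (604, 4), (534, 8), (234, 9), (419, 6), (219, 4)] [])))))))))) (.f [(356, 51), (591, 5), (562, 34), (467, 22), (558, 5), (463, 18), (238, 4), (543, 8), (443, 16), (223, 5), (344, 5), (524, 4), (174, 47)] []))))))) (.f [(296, 2), (562, 1), (467, 1), (558, 1), (243, 1), (234, 1), (439, 1), (344, 1)] [(319, 1)]))) (.f [(341, 2), (562, 1), (558, 1), (439, 1), (174, 1)] [(561, 1), (319, 1)]))) (.f [(271, 55), (562, 23), (467, 22), (463, 16), (243, 34), (534, 31), (234, 4), (439, 16)] [(319, 1)])) (.f [(340, 4), (534, 1), (439, 1),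 (174, 1)] [(319, 3)])))) (.f [(46, 24), (562, 16), (367, 2), (463, 14), (363, 7), (234, 12), (444, 2), (344, 7)] []))) (.f [(106, 4), (562, 3), (347, 1), (463, 2), (344, 1), (174, 2)] [(561, 1)])) (.f [(606, 2), (246, 10), (562, 28), (367, 1), (347, 15), (403, 44), (234, 23), (344, 21)] [])) (.f [(491, 20), (562, 47), (487, 5), (367, 29), (447, 3), (83, 84), (444, 19), (174, 65)] [])) (.f [(491, 4), (562, 6), (447, 2), (328, 8), (534, 1), (234, 4), (444, 1), (174, 3)] [(319, 1)])))) (.f [(546, 2), (246, 10), (562, 28), (367, 15), (347, 1), (383, 44), (344, 21), (174, 23)] []))) (.f [(211, 2), (562, 1), (448, 1), (534, 1)] [(561, 1)]))))))))) (.n 348 [] (.n 521 [] .w (.n 228 [] .w (.n 452 [] .w (.n 231 [] .w (.n 304 [] .w (.n 416 [] .w (.n 204 [] .w (.n 552 [] .w (.n 528 [] .w (.n 352 [] .w (.f [(231, 6), (416, 3), (521, 3), (552, 1), (452, 10), (352, 2), (528, 9), (228, 4), (304, 11), (204, 2)] [])))))))))))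 (.n 363 [] (.n 443 [] .w (.n 223 [] .w (.n 543 [] .w (.n 314 [] (.n 438 [] .w (.n 538 [] .w (.n 367 [] .w (.n 346 [] .w (.f [(346, 1), (367, 1), (538, 1), (438, 1), (234, 1)] [(363, 1)]))))) (.n 171 [] (.n 368 [] .w (.n 408 [] (.n 456 [] (.n 366 [] (.n 123 [] .w (.n 309 [] .w (.n 582 [] .w (.n 442 [] .w (.n 189 [] .w (.n 418 [] .w (.n 289 [] .w (.n 487 [] .w (.n 346 [] .w (.n 243 [] .w (.f [(606, 4), (346, 7), (246, 6), (582, 10), (562, 2), (487, 1), (442, 4), (418, 11), (243, 2), (123, 4), (309, 3), (289, 6), (189, 8)] []))))))))))) (.n 284 [] (.n 298 [] .w (.n 463 [] .w (.f [(366, 1), (562, 1), (463, 1), (298, 1), (234, 1)] [(363, 1)]))) (.f [(366, 1), (562, 1), (488, 1), (223, 1), (284, 1)] [(363, 1)]))) (.f [(456, 1), (246, 1), (562, 1), (543, 1), (314, 1)] [(561, 1)])) (.f [(246, 1), (562, 1), (408, 1), (368, 1), (314, 1)] [(363, 1)]))) (.f [(606, 1), (171, 1), (562, 1), (443, 1), (314, 1)] [(561, 1)]))))))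 (.n 448 [] (.n 461 [] .w (.n 477 [] .w (.n 212 [] .w (.n 309 [] .w (.n 169 [] .w (.n 341 [] .w (.n 353 [] .w (.n 189 [] .w (.n 558 [] .w (.n 98 [] .w (.f [(461, 31), (341, 48), (546, 72), (477, 110), (562, 4), (212, 37), (353, 46), (558, 65), (98, 40), (309, 47), (189, 40), (169, 64)] []))))))))))) (.n 463 [] (.n 419 [] .w (.n 447 [] .w (.n 423 [] .w (.n 367 [] .w (.n 347 [] .w (.n 471 [] .w (.n 219 [] .w (.n 223 [] .w (.n 323 [] .w (.n 159 [] (.n 46 [] (.n 106 [] (.n 524 [] .w (.n 543 [] .w (.n 43 [] (.n 314 [] (.n 298 [] .w (.n 238 [] .w (.n 459 [] .w (.n 466 [] .w (.f [(466, 1), (562, 1), (238, 1), (298, 1), (459, 1)] [(463, 1)]))))) (.n 171 [] (.n 216 [] (.n 483 [] .w (.n 231 [] (.n 443 [] .w (.n 416 [] (.n 298 [] .w (.n 466 [] (.n 358 [] .w (.n 538 [] .w (.n 582 [] .w (.n 214 [] .w (.n 486 [] .w (.n 422 [] .w (.n 346 [] .w (.f [(486, 1), (346, 1), (582, 1), (422, 1), (358, 1), (538, 1), (443, 2), (214,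 2)] [(463, 2)])))))))) (.n 214 [] (.n 237 [] .w (.n 309 [] .w (.n 557 [] .w (.n 169 [] .w (.n 365 [] .w (.n 345 [] .w (.n 577 [] .w (.n 537 [] .w (.n 321 [] .w (.n 429 [] .w (.n 193 [] .w (.n 481 [] .w (.n 513 [] .w (.f [(365, 3), (345, 49), (481, 40), (321, 2), (577, 1), (557, 10), (537, 24), (237, 7), (513, 20), (193, 22), (429, 15), (309, 1), (169, 26)] [])))))))))))))) (.f [(466, 1), (562, 1), (483, 1), (298, 1), (214, 1)] [(463, 1)])))) (.f [(606, 1), (416, 1), (562, 1), (223, 1), (314, 1)] [(561, 1)]))) (.f [(231, 27), (471, 1), (562, 14), (347, 14), (543, 9), (468, 11), (423, 8), (534, 1), (314, 14), (419, 8), (524, 4), (174, 1)] []))) (.f [(606, 1), (216, 1), (562, 1), (423, 1), (314, 1)] [(561, 1)])) (.f [(606, 1), (171, 1), (562, 1), (468, 1), (314, 1)] [(561, 1)]))) (.f [(471, 23), (562, 50), (447, 8), (347, 29), (363, 3), (43, 84), (234, 68), (464, 19)] [])))) (.f [(106, 20), (562, 11), (347,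 3), (468, 10), (323, 7), (534, 1), (464, 2), (319, 2), (219, 5), (174, 7)] [])) (.f [(46, 28), (562, 17), (367, 3), (363, 9), (468, 15), (234, 12), (464, 2), (319, 5), (219, 5)] [])) (.f [(471, 1), (562, 1), (363, 1), (468, 1), (159, 1)] [(463, 1)]))))))))))) (.n 231 [] (.n 171 [] (.n 211 [] (.n 178 [] (.n 34 [] A32 (.f [(246, 2), (562, 4), (463, 2), (363, 1), (348, 1), (34, 4)] [(561, 2)])) (.f [(606, 1), (562, 1), (178, 3)] [(561, 1), (63, 1)])) (.f [(211, 2), (562, 1), (448, 1), (534, 1)] [(561, 1)])) (.f [(606, 1), (171, 1), (562, 1), (463, 1), (319, 1)] [(561, 1)])) (.f [(231, 1), (546, 1), (562, 1), (463, 1), (319, 1)] [(561, 1)]))))))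

def A34 : Tr := .n 347 [] (.n 447 [] (.n 298 [] .w (.n 334 [] .w (.n 454 [] .w (.n 482 [] .w (.n 458 [] .w (.n 198 [] .w (.n 542 [] .w (.n 289 [] .w (.n 366 [] .w (.n 242 [] .w (.f [(561, 6), (366, 2), (246, 3), (482, 3), (542, 5), (242, 3), (458, 4), (298, 2), (198, 5), (454, 4), (334, 3), (289, 4)] []))))))))))) (.n 328 [] (.n 343 [] (.n 461 [] .w (.n 578 [] .w (.n 309 [] .w (.n 274 [] .w (.n 417 [] .w (.n 541 [] .w (.n 237 [] .w (.n 223 [] .w (.n 398 [] .w (.f [(461, 2), (541, 4), (246, 2), (237, 5), (417, 3), (578, 4), (398, 3), (223, 1), (309, 7), (274, 1)] [])))))))))) (.n 357 [] (.n 467 [] .w (.n 334 [] (.n 298 [] .w (.n 582 [] .w (.n 362 [] .w (.n 169 [] .w (.n 458 [] .w (.n 189 [] .w (.n 74 [] .w (.n 533 [] .w (.n 366 [] .w (.n 398 [] .w (.n 446 [] .w (.f [(561, 10), (366, 11), (446, 7), (246, 3), (582, 17), (362, 14), (533, 3), (458, 11), (398, 12), (298, 5), (189, 7), (169, 20), (74, 4)] []))))))))))))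 (.n 298 [] (.n 123 [] .w (.n 194 [] .w (.n 442 [] .w (.n 238 [] .w (.n 558 [] .w (.n 418 [] .w (.n 542 [] .w (.n 294 [] .w (.n 422 [] .w (.n 223 [] .w (.f [(561, 16), (246, 12), (542, 9), (442, 9), (422, 10), (558, 2), (238, 12), (418, 8), (223, 2), (123, 4), (334, 26), (294, 1), (194, 1)] []))))))))))) (.f [(561, 1), (246, 1), (467, 1), (298, 1), (334, 1)] [(347, 1)])))) (.f [(561, 1), (357, 1), (447, 1), (343, 1), (174, 1)] [(347, 1)]))) (.f [(546, 1), (246, 1), (447, 1), (328, 4)] [(347, 3)]))) (.n 408 [] (.n 319 [] (.n 342 [] .w (.n 358 [] .w (.n 218 [] .w (.n 338 [] .w (.n 442 [] .w (.n 479 [] .w (.n 466 [] .w (.n 579 [] .w (.f [(561, 19), (466, 6), (442, 15), (342, 10), (358, 20), (338, 4), (218, 1), (579, 4), (479, 4), (534, 2), (234, 1), (174, 23)] [(319, 9)]))))))))) (.n 343 [] (.n 334 [] .w (.n 523 [] .w (.n 442 [] .w (.n 542 [] .w (.n 358 [] .w (.n 462 [] .w (.n 466 [] .w (.n 223 [] .w (.n 242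 [] .w (.f [(561, 15), (466, 8), (462, 8), (542, 4), (442, 7), (242, 4), (358, 18), (523, 4), (223, 1), (334, 5), (174, 18)] [])))))))))) (.n 443 [] (.n 358 [] .w (.n 482 [] .w (.n 342 [] (.n 452 [] .w (.n 540 [] .w (.n 304 [] .w (.n 120 [] .w (.n 328 [] .w (.n 404 [] .w (.n 173 [] .w (.n 536 [] .w (.n 476 [] .w (.n 552 [] .w (.n 236 [] .w (.n 284 [] .w (.n 184 [] .w (.f [(540, 8), (120, 4), (476, 7), (536, 1), (236, 7), (552, 8), (452, 7), (328, 11), (173, 4), (404, 3), (304, 4), (284, 2), (184, 6)] [])))))))))))))) (.f [(561, 2), (482, 1), (342, 2), (358, 1), (448, 1), (174, 2)] [(322, 1)])))) (.n 357 [] (.n 339 [] .w (.n 284 [] (.n 367 [] (.n 334 [] .w (.n 218 [] .w (.n 123 [] .w (.n 318 [] .w (.n 442 [] .w (.n 238 [] .w (.n 418 [] .w (.n 542 [] .w (.n 422 [] .w (.f [(561, 14), (246, 7), (542, 6), (442, 5), (422, 10), (238, 7), (418, 5), (318, 2), (218, 3), (123, 4), (334, 18), (234, 3)] [])))))))))) (.n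 433 [] (.n 393 [] (.n 467 [] .w (.n 363 [] .w (.n 487 [] .w (.n 439 [] .w (.n 243 [] .w (.n 423 [] (.n 447 [] .w (.n 362 [] .w (.n 458 [] .w (.n 314 [] .w (.n 542 [] .w (.n 118 [] .w (.n 366 [] .w (.n 323 [] .w (.f [(561, 11), (366, 8), (362, 7), (542, 7), (447, 5), (458, 19), (118, 4), (323, 2), (314, 1), (174, 18)] [(423, 6)]))))))))) (.n 184 [] (.n 223 [] .w (.n 92 [] (.n 108 [] (.n 48 [] (.n 340 [] (.n 39 [] (.n 583 [] .w (.n 507 [] (.n 111 [] (.n 511 [] (.n 420 [] (.n 480 [] (.n 139 [] (.n 342 [] (.n 462 [] .w (.n 294 [] .w (.n 318 [] .w (.n 582 [] .w (.f [(246, 1), (582, 1), (462, 1), (318, 1), (294, 1)] [(342, 1)]))))) (.n 309 [] (.n 447 [] .w (.n 323 [] .w (.n 298 [] (.n 123 [] .w (.n 362 [] .w (.n 442 [] .w (.n 458 [] .w (.n 366 [] .w (.n 242 [] .w (.f [(561, 16), (366, 7), (362, 7), (442, 5), (342, 6), (242, 5), (458, 17), (323, 2), (123, 4), (534, 6), (174, 17)] []))))))) (.f [(561, 1), (342, 1),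 (447, 1), (298, 1), (234, 1)] [(322, 1)])))) (.f [(561, 1), (246, 1), (342, 1), (423, 1), (309, 1)] [(322, 1)]))) (.f [(606, 10), (561, 18), (467, 4), (367, 11), (347, 13), (443, 3), (343, 4), (423, 21), (139, 28)] [])) (.f [(480, 12), (561, 13), (467, 1), (367, 1), (347, 3), (343, 9), (174, 9)] [])) (.f [(420, 12), (561, 13), (467, 1), (367, 3), (347, 1), (343, 9), (234, 9)] [])) (.f [(511, 4), (367, 1), (347, 2), (443, 3), (234, 1), (174, 2)] [(556, 1)])) (.f [(561, 11), (111, 28), (467, 4), (347, 13), (583, 3), (443, 17), (343, 8), (534, 7), (174, 21)] [])) (.f [(246, 1), (507, 4), (363, 1), (443, 3), (339, 2), (174, 2)] [(556, 1)]))) (.f [(606, 10), (561, 11), (246, 10), (467, 4), (347, 21), (443, 17), (243, 8), (223, 3), (39, 28)] [])) (.f [(340, 28), (561, 25), (246, 7), (487, 4), (443, 1), (423, 17), (234, 13), (174, 5)] [])) (.f [(561, 19), (467, 17), (367, 9), (347, 1), (48, 27), (234, 16), (439,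 2), (339, 7), (319, 2)] [])) (.f [(561, 19), (467, 17), (367, 1), (347, 9), (108, 27), (439, 2), (339, 2), (319, 7), (174, 16)] [])) (.f [(561, 17), (246, 5), (92, 23), (363, 8), (423, 15), (234, 10), (439, 2), (319, 4), (174, 7)] []))) (.f [(561, 1), (367, 1), (347, 1), (423, 1), (184, 1)] [(322, 1)])))))))) (.n 362 [] (.n 467 [] .w (.n 289 [] (.n 218 [] .w (.n 447 [] .w (.n 542 [] .w (.n 363 [] .w (.n 487 [] .w (.n 466 [] .w (.n 417 [] (.n 334 [] .w (.n 582 [] .w (.n 358 [] (.n 48 [] .w (.n 304 [] .w (.n 456 [] .w (.n 512 [] .w (.n 240 [] .w (.f [(240, 1), (456, 1), (512, 1), (48, 1), (304, 1)] [])))))) (.f [(561, 39), (466, 9), (246, 6), (582, 4), (487, 15), (542, 17), (447, 8), (347, 10), (358, 26), (393, 28), (334, 24), (174, 30)] [])))) (.f [(561, 26), (246, 5), (417, 11), (347, 20), (363, 7), (393, 20), (218, 4), (534, 5), (234, 14), (339, 2), (174, 10)] [])))))))) (.f [(561, 33), (246, 20), (467,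 4), (367, 2), (347, 29), (393, 44), (534, 15), (234, 11), (289, 17), (174, 1)] []))) (.f [(561, 3), (362, 1), (347, 2), (393, 4), (234, 1), (174, 2)] [(433, 1)]))) (.f [(561, 1), (367, 1), (347, 1), (433, 1), (174, 1)] [(322, 1)]))) (.f [(561, 1), (246, 1), (347, 1), (443, 1), (284, 1)] [(322, 1)]))) (.f [(561, 1), (357, 1), (347, 1), (443, 1), (174, 1)] [(322, 1)]))))) (.f [(561, 2), (347, 1), (408, 1), (234, 1)] [(556, 1)]))

def A35 : Tr := .n 443 [] (.n 363 [] .w (.n 367 [] .w (.n 344 [] .w (.n 453 [] (.n 243 [] .w (.n 409 [] (.n 465 [] (.n 483 [] .w (.n 444 [] .w (.n 218 [] (.n 419 [] .w (.n 358 [] .w (.n 198 [] .w (.n 467 [] .w (.f [(561, 1), (467, 1), (358, 1), (198, 1), (419, 1)] [(443, 1)]))))) (.n 419 [] (.n 298 [] .w (.n 358 [] .w (.n 214 [] .w (.n 342 [] .w (.n 486 [] .w (.n 119 [] .w (.n 422 [] .w (.n 237 [] .w (.n 446 [] .w (.f [(561, 9), (486, 1), (446, 12), (237, 7), (342, 8), (422, 7), (358,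 10), (218, 9), (298, 3), (534, 12), (214, 5), (444, 1), (119, 4)] [])))))))))) (.f [(561, 1), (322, 1), (483, 1), (218, 1), (419, 1)] [(443, 1)]))))) (.f [(465, 12), (561, 9), (322, 8), (363, 2), (243, 4), (423, 3), (534, 1), (234, 6)] [(443, 5)])) (.f [(561, 1), (322, 1), (468, 1), (243, 1), (409, 1)] [(443, 1)]))) (.f [(561, 46), (367, 26), (322, 20), (453, 56), (534, 1), (234, 31), (344, 1), (174, 12)] [(443, 9)]))))) (.n 92 [] (.n 231 [] (.n 408 [] (.n 344 [] .w (.n 340 [] (.n 467 [] (.n 339 [] .w (.n 439 [] .w (.n 223 [] .w (.n 363 [] .w (.n 47 [] (.n 219 [] .w (.n 43 [] (.n 107 [] (.n 58 [] (.n 507 [] (.n 492 [] .w (.n 183 [] (.n 295 [] (.n 459 [] .w (.n 419 [] .w (.n 168 [] (.n 208 [] (.n 422 [] (.n 334 [] .w (.n 542 [] .w (.n 471 [] .w (.n 438 [] .w (.n 242 [] .w (.f [(471, 1), (542, 1), (242, 1), (438, 1), (334, 1)] [(467, 1)])))))) (.n 357 [] (.n 343 [] .w (.n 242 [] (.n 358 [] .w (.n 582 [] .w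 (.n 189 [] .w (.n 238 [] .w (.n 418 [] .w (.n 197 [] .w (.n 297 [] .w (.n 394 [] .w (.n 221 [] .w (.f [(606, 2), (561, 8), (221, 7), (582, 7), (297, 9), (197, 1), (358, 8), (238, 4), (418, 5), (189, 5), (394, 12)] [])))))))))) (.f [(561, 1), (242, 1), (422, 1), (343, 1), (459, 1)] [(467, 1)]))) (.f [(561, 1), (357, 1), (422, 1), (443, 1), (219, 1)] [(467, 1)]))) (.f [(561, 1), (492, 1), (322, 1), (208, 2), (419, 1)] [(467, 1), (183, 1)])) (.f [(561, 1), (492, 1), (322, 1), (168, 1), (459, 1)] [(467, 1)])))) (.f [(295, 68), (561, 67), (492, 21), (443, 44), (234, 40), (339, 1), (219, 3)] [])) (.f [(561, 1), (546, 1), (492, 1), (183, 2)] [(556, 1)]))) (.f [(246, 1), (507, 4), (443, 3), (339, 2), (174, 1)] [(556, 2), (467, 1)])) (.f [(606, 1), (561, 2), (546, 1), (58, 4)] [(556, 4)])) (.f [(561, 19), (546, 12), (107, 48), (443, 31), (223, 15), (339, 31), (174, 16)] [])) (.f [(606, 6), (561, 20), (322, 36), (363,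 3), (43, 36), (234, 26), (439, 13)] []))) (.f [(561, 34), (47, 51), (363, 15), (443, 34), (234, 31), (339, 19)] [])))))) (.n 293 [] (.n 308 [] (.n 108 [] (.n 295 [] (.n 368 [] .w (.n 511 [] (.n 211 [] (.n 328 [] (.n 343 [] (.n 419 [] .w (.n 147 [] (.n 459 [] .w (.n 543 [] .w (.n 456 [] (.n 228 [] (.n 346 [] (.n 334 [] .w (.n 538 [] .w (.n 362 [] .w (.n 523 [] .w (.n 418 [] .w (.n 462 [] .w (.n 223 [] .w (.n 242 [] .w (.f [(561, 11), (246, 5), (462, 2), (362, 2), (242, 8), (322, 4), (538, 1), (418, 14), (523, 4), (223, 3), (334, 16)] [(343, 6)]))))))))) (.n 233 [] (.n 583 [] .w (.n 417 [] (.n 483 [] .w (.n 363 [] .w (.n 169 [] (.n 298 [] .w (.n 334 [] .w (.n 462 [] .w (.n 242 [] .w (.f [(561, 1), (462, 1), (242, 1), (298, 1), (334, 1)] [(343, 1)]))))) (.f [(561, 1), (346, 1), (467, 1), (322, 1), (583, 1), (483, 1), (363, 1), (169, 2)] [(343, 1)])))) (.f [(561, 2), (346, 1), (417, 2), (322, 1), (583, 1), (234,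 2)] [(556, 1)]))) (.f [(561, 2), (346, 1), (467, 1), (322, 1), (233, 2), (534, 1), (419, 1)] [(556, 1)]))) (.f [(561, 29), (467, 16), (322, 29), (228, 48), (534, 12), (459, 17), (419, 8), (344, 5)] [])) (.f [(456, 1), (561, 1), (322, 1), (543, 1), (234, 1)] [(556, 1)])))) (.f [(561, 4), (467, 1), (147, 4), (368, 1), (234, 1), (419, 2)] [(556, 1)]))) (.n 297 [] (.n 417 [] (.n 487 [] .w (.n 357 [] (.n 439 [] .w (.n 164 [] (.n 459 [] .w (.n 491 [] .w (.n 284 [] (.n 583 [] .w (.n 363 [] .w (.n 243 [] .w (.n 460 [] (.n 367 [] .w (.n 236 [] (.n 483 [] .w (.n 124 [] .w (.n 543 [] .w (.n 604 [] .w (.n 204 [] (.n 432 [] (.n 342 [] (.n 334 [] .w (.n 218 [] .w (.n 542 [] .w (.n 486 [] .w (.f [(486, 1), (542, 1), (322, 1), (218, 1), (334, 1)] [(342, 1)]))))) (.n 418 [] (.n 233 [] (.n 218 [] .w (.n 538 [] .w (.n 194 [] .w (.n 495 [] .w (.n 486 [] .w (.n 314 [] .w (.n 542 [] .w (.n 462 [] .w (.n 446 [] .w (.n 533 [] (.n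 461 [] .w (.n 318 [] .w (.n 482 [] .w (.n 189 [] .w (.n 294 [] .w (.n 98 [] .w (.n 118 [] .w (.n 470 [] .w (.n 370 [] .w (.n 221 [] .w (.f [(470, 1), (370, 11), (461, 11), (221, 16), (482, 17), (542, 10), (538, 6), (318, 17), (118, 2), (98, 2), (534, 13), (189, 13), (294, 1)] []))))))))))) (.f [(495, 8), (561, 9), (486, 11), (446, 6), (462, 3), (342, 18), (322, 5), (533, 19), (218, 7), (234, 9), (314, 5), (194, 3), (174, 9)] []))))))))))) (.f [(561, 40), (491, 10), (487, 5), (342, 40), (322, 5), (233, 31), (423, 19), (534, 9), (459, 10), (439, 5), (174, 22), (124, 4)] [])) (.f [(561, 1), (342, 1), (322, 1), (418, 1), (234, 1)] [(317, 1)]))) (.f [(606, 4), (561, 21), (491, 5), (546, 3), (432, 28), (367, 5), (363, 11), (543, 1), (343, 17), (243, 4), (604, 4), (174, 29)] [])) (.f [(606, 7), (561, 27), (491, 2), (467, 4), (367, 15), (322, 17), (483, 20), (543, 2), (343, 4), (423, 10), (204, 36)] [])))))) (.f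 [(236, 7), (467, 2), (322, 5), (583, 1), (443, 2), (343, 2), (423, 1), (534, 6), (459, 1)] [(556, 1), (357, 1), (164, 1)]))) (.f [(460, 44), (606, 8), (561, 16), (246, 9), (322, 36), (343, 8), (243, 22), (534, 20), (234, 13)] []))))) (.f [(561, 2), (246, 2), (467, 1), (443, 1), (343, 1), (284, 2)] [(317, 1)])))) (.f [(606, 2), (467, 1), (322, 2), (443, 1), (343, 1), (164, 2)] [(317, 1)]))) (.f [(561, 2), (357, 2), (467, 1), (343, 1), (423, 1), (174, 2)] [(297, 1)]))) (.f [(561, 1), (417, 1), (322, 1), (343, 1), (234, 1)] [(317, 1)])) (.f [(561, 2), (467, 1), (297, 2), (443, 1), (343, 1), (234, 2)] [(317, 1)]))) (.f [(561, 17), (246, 3), (467, 13), (322, 7), (328, 20), (534, 3), (234, 12), (174, 5)] [])) (.f [(606, 1), (211, 1), (322, 1), (443, 1), (534, 1)] [(556, 1)])) (.f [(511, 4), (322, 2), (443, 2), (234, 1), (174, 1)] [(556, 2)]))) (.f [(295, 36), (606, 6), (561, 33), (467, 35), (488, 3), (443, 1),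 (234, 26)] [])) (.f [(561, 38), (467, 33), (322, 21), (108, 57), (464, 5), (344, 17), (174, 29)] [])) (.f [(561, 1), (546, 1), (467, 1), (308, 1), (234, 1)] [(556, 1)])) (.f [(561, 1), (467, 1), (322, 1), (293, 1), (234, 1)] [(317, 1)]))) (.f [(340, 52), (606, 1), (561, 45), (246, 13), (322, 7), (488, 5), (423, 28), (234, 33)] []))) (.f [(561, 2), (322, 1), (408, 1), (234, 1)] [(556, 1)])) (.f [(231, 1), (561, 1), (322, 1), (443, 1), (534, 1)] [(556, 1)])) (.f [(561, 3), (92, 3), (322, 1), (423, 2), (234, 3)] [(556, 1)]))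

def A36 : Tr := .n 488 [] .w (.n 464 [] .w (.n 332 [] (.n 283 [] (.n 472 [] (.n 298 [] .w (.n 213 [] .w (.n 362 [] .w (.n 482 [] .w (.n 189 [] .w (.n 94 [] .w (.n 542 [] .w (.n 209 [] .w (.n 193 [] .w (.f [(561, 14), (246, 3), (482, 19), (362, 1), (542, 5), (213, 3), (193, 4), (298, 18), (209, 4), (189, 5), (94, 16)] [])))))))))) (.n 348 [] (.n 334 [] .w (.n 194 [] .w (.n 523 [] .w (.n 417 [] .w (.n 358 [] .w (.n 366 [] .w (.n 413 [] .w (.n 437 [] .w (.n 242 [] .w (.f [(561, 7), (366, 1), (246, 6), (437, 3), (417, 8), (242, 3), (358, 2), (413, 4), (523, 8), (334, 12), (194, 2)] [])))))))))) (.n 407 [] (.n 355 [] (.n 415 [] (.n 322 [] (.n 344 [] .w (.n 492 [] .w (.n 368 [] .w (.n 444 [] .w (.n 183 [] (.n 263 [] (.n 387 [] (.n 34 [] (.n 106 [] (.n 455 [] (.n 38 [] (.n 303 [] (.n 427 [] (.n 90 [] (.n 18 [] (.n 308 [] (.n 432 [] (.n 134 [] (.n 154 [] (.n 159 [] (.n 448 [] .w (.n 335 [] (.n 86 [] (.n 226 [] (.n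 231 [] A34 (.n 294 [] (.n 467 [] .w (.n 343 [] (.n 298 [] .w (.n 309 [] .w (.n 353 [] .w (.n 189 [] .w (.n 416 [] .w (.n 436 [] .w (.n 577 [] .w (.n 245 [] .w (.n 453 [] .w (.n 545 [] .w (.f [(545, 2), (245, 2), (231, 2), (436, 1), (416, 5), (577, 6), (453, 2), (353, 4), (298, 1), (309, 3), (189, 4)] []))))))))))) (.f [(231, 2), (561, 2), (467, 1), (343, 1), (448, 1), (534, 1), (174, 1)] [(556, 1)]))) (.f [(231, 2), (561, 2), (472, 1), (448, 1), (348, 1), (294, 2)] [(322, 1)]))) (.n 343 [] (.n 538 [] .w (.n 447 [] .w (.n 467 [] .w (.n 434 [] .w (.n 443 [] .w (.n 339 [] .w (.n 542 [] .w (.f [(226, 16), (561, 3), (542, 8), (467, 2), (447, 1), (538, 4), (443, 1), (348, 10), (434, 11), (339, 4)] [])))))))) (.f [(226, 26), (561, 14), (472, 6), (343, 15), (448, 8), (534, 9), (464, 5), (444, 4), (174, 5)] []))) (.f [(561, 2), (86, 16), (448, 3), (534, 1), (174, 6)] [])) (.f [(335, 16), (561, 8), (546, 1), (246,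 4), (448, 5), (174, 5)] [(322, 3)]))) (.n 358 [] (.n 448 [] .w (.n 467 [] (.n 383 [] .w (.n 179 [] .w (.n 279 [] .w (.n 268 [] .w (.n 527 [] .w (.n 507 [] .w (.n 111 [] .w (.n 396 [] .w (.n 88 [] .w (.f [(111, 3), (396, 4), (527, 2), (507, 3), (383, 1), (88, 1), (268, 4), (279, 1), (179, 5)] [])))))))))) (.f [(606, 1), (561, 3), (246, 1), (467, 2), (368, 1), (448, 1), (348, 1), (159, 3)] [(556, 1)]))) (.f [(561, 2), (472, 1), (358, 1), (159, 1)] [(556, 1)]))) (.n 358 [] (.n 448 [] .w (.n 463 [] .w (.n 467 [] (.n 97 [] .w (.n 116 [] .w (.n 532 [] .w (.n 68 [] .w (.n 428 [] .w (.n 552 [] .w (.n 360 [] .w (.n 581 [] .w (.f [(360, 4), (581, 3), (116, 3), (552, 1), (532, 1), (97, 4), (428, 5), (68, 1), (154, 6)] []))))))))) (.f [(606, 3), (561, 9), (246, 5), (467, 7), (463, 2), (368, 4), (448, 3), (348, 3), (154, 12)] [])))) (.f [(561, 51), (492, 7), (472, 34), (358, 42), (468, 10), (154, 60)] [(34, 8)]))) (.n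 423 [] (.n 343 [] .w (.n 367 [] .w (.n 483 [] .w (.n 467 [] .w (.f [(561, 3), (467, 1), (367, 1), (483, 1), (343, 1), (134, 2)] [(556, 1)]))))) (.f [(561, 3), (546, 1), (246, 1), (468, 2), (368, 1), (423, 1), (134, 4)] [(556, 1)]))) (.n 343 [] (.n 367 [] .w (.f [(561, 1), (432, 1), (367, 1), (348, 1), (174, 1)] [(322, 1)])) (.f [(561, 1), (246, 1), (432, 2), (343, 1), (174, 1)] [(556, 1), (322, 1)]))) (.n 467 [] (.n 294 [] .w (.f [(561, 1), (246, 1), (472, 1), (308, 1), (294, 1)] [(322, 1)])) (.f [(561, 1), (546, 1), (246, 1), (467, 1), (308, 2)] [(556, 1), (322, 1)]))) (.f [(561, 1), (18, 2)] [(556, 1)])) (.f [(90, 2), (561, 1)] [(556, 1)])) (.f [(246, 1), (427, 4), (348, 1), (174, 1)] [(322, 3)])) (.f [(546, 1), (246, 1), (472, 1), (303, 4)] [(322, 3)])) (.f [(606, 1), (561, 2), (246, 6), (472, 3), (38, 16)] [])) (.f [(455, 10), (561, 10), (246, 3), (368, 7), (174, 6)] [])) (.f [(106, 4), (561, 3), (468,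 2), (348, 1), (344, 1), (174, 2)] [(556, 1)])) (.f [(561, 3), (246, 2), (468, 2), (368, 1), (348, 1), (34, 4)] [(556, 1)])) (.f [(561, 12), (246, 1), (387, 16), (368, 4), (348, 9), (234, 4), (174, 9)] [(322, 3)])) (.f [(561, 3), (246, 1), (492, 1), (472, 2), (263, 4), (174, 2)] [(322, 1)])) (.f [(561, 1), (546, 1), (492, 1), (183, 2)] [(556, 1)])))))) (.n 159 [] (.n 423 [] (.n 463 [] .w (.n 243 [] .w (.n 409 [] (.n 483 [] .w (.n 433 [] (.n 169 [] (.n 366 [] .w (.n 242 [] .w (.n 458 [] (.n 358 [] .w (.n 538 [] .w (.n 443 [] .w (.n 314 [] .w (.n 462 [] .w (.n 118 [] .w (.n 466 [] .w (.n 237 [] .w (.n 446 [] .w (.n 221 [] .w (.f [(466, 16), (446, 3), (221, 13), (462, 3), (237, 15), (322, 14), (358, 9), (538, 7), (443, 8), (118, 8), (534, 23), (314, 7), (174, 2)] []))))))))))) (.f [(561, 2), (366, 1), (242, 1), (322, 1), (458, 2), (534, 1), (174, 1)] [(556, 1)])))) (.f [(546, 1), (322, 1), (483, 1), (463, 1),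 (169, 1)] [(423, 1)])) (.f [(546, 1), (433, 1)] [(556, 1), (423, 1)]))) (.f [(546, 1), (322, 1), (463, 1), (243, 1), (409, 1)] [(423, 1)])))) A35) (.f [(606, 1), (561, 1), (322, 1), (468, 1), (159, 1)] [(556, 1)]))) (.f [(415, 10), (561, 10), (246, 3), (348, 7), (234, 6)] [])) (.f [(355, 20), (561, 20), (472, 6), (468, 13), (464, 1), (174, 12)] [])) (.f [(561, 2), (407, 1), (348, 1), (234, 1)] [(556, 1)])))) (.f [(561, 2), (246, 1), (283, 2)] [(556, 1)])) (.f [(561, 2), (332, 2), (174, 1)] [(556, 1)])))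

def A37 : Tr := .n 438 [] (.n 587 [] (.n 422 [] .w (.n 214 [] (.n 434 [] .w (.n 238 [] .w (.n 482 [] .w (.n 417 [] .w (.n 314 [] .w (.n 98 [] .w (.n 541 [] .w (.n 221 [] .w (.f [(541, 4), (221, 3), (482, 4), (417, 1), (317, 2), (238, 3), (98, 4), (534, 2), (434, 1), (314, 4)] []))))))))) (.f [(606, 1), (317, 1), (422, 1), (588, 1), (214, 1)] [(587, 1)]))) (.n 563 [] (.n 487 [] .w (.n 423 [] .w (.n 315 [] (.n 189 [] (.n 198 [] (.n 237 [] .w (.n 570 [] .w (.n 338 [] .w (.n 454 [] .w (.n 541 [] .w (.n 321 [] .w (.n 118 [] .w (.n 398 [] .w (.n 457 [] .w (.f [(570, 9), (541, 30), (321, 40), (457, 35), (237, 58), (317, 22), (338, 7), (118, 13), (398, 5), (454, 29), (534, 30), (174, 11)] [])))))))))) (.n 463 [] (.n 237 [] .w (.n 521 [] .w (.n 97 [] .w (.n 582 [] .w (.n 73 [] .w (.n 214 [] .w (.n 610 [] .w (.n 416 [] .w (.n 586 [] .w (.n 233 [] .w (.n 590 [] .w (.n 289 [] .w (.n 309 [] .w (.f [(610, 81), (590, 59),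 (586, 16), (416, 185), (521, 8), (582, 21), (237, 66), (97, 122), (233, 95), (73, 114), (309, 128), (289, 57), (214, 24)] [])))))))))))))) (.f [(606, 1), (317, 1), (463, 1), (198, 1), (534, 1)] [(563, 1)]))) (.f [(606, 1), (587, 1), (317, 1), (423, 1), (189, 1)] [(563, 1)])) (.f [(315, 8), (606, 2), (587, 4), (487, 1), (423, 3), (534, 1), (234, 1)] [(192, 3), (563, 1)])))) (.n 456 [] (.n 452 [] (.n 39 [] (.n 43 [] (.n 507 [] (.n 391 [] (.n 91 [] (.n 111 [] (.n 511 [] (.n 139 [] (.n 463 [] (.n 223 [] .w (.n 423 [] .w (.n 416 [] (.n 524 [] .w (.n 236 [] (.n 339 [] .w (.n 536 [] (.n 363 [] .w (.n 218 [] (.n 297 [] .w (.n 214 [] .w (.n 583 [] .w (.n 486 [] .w (.f [(486, 1), (317, 1), (297, 1), (583, 1), (214, 1)] [(463, 1)]))))) (.n 481 [] (.n 298 [] .w (.n 123 [] .w (.n 346 [] .w (.n 222 [] .w (.n 198 [] .w (.n 583 [] .w (.n 414 [] (.n 109 [] .w (.n 320 [] .w (.n 537 [] .w (.n 232 [] .w (.n 541 [] .w (.n 465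 [] .w (.n 545 [] .w (.n 581 [] .w (.n 296 [] .w (.n 89 [] .w (.n 184 [] .w (.n 113 [] .w (.f [(465, 13), (545, 3), (320, 8), (581, 2), (541, 3), (296, 5), (232, 5), (537, 5), (113, 10), (184, 8), (109, 1), (89, 1)] []))))))))))))) (.f [(606, 23), (346, 6), (317, 20), (222, 9), (583, 5), (363, 1), (218, 9), (298, 1), (198, 9), (123, 4), (234, 1), (414, 28)] [])))))))) (.f [(481, 51), (546, 8), (587, 20), (317, 39), (563, 19), (363, 7), (218, 25), (423, 8), (534, 8), (339, 13), (524, 4), (174, 34)] [])))) (.f [(536, 1), (317, 2), (223, 1), (234, 1)] [(192, 1)]))) (.f [(236, 1), (317, 2), (223, 1), (534, 1)] [(192, 1)]))) (.f [(416, 2), (587, 1), (317, 2), (563, 1), (223, 1), (234, 2)] [(192, 1)])))) (.n 421 [] (.n 409 [] (.n 481 [] (.n 423 [] .w (.n 189 [] (.n 198 [] .w (.n 486 [] (.n 538 [] .w (.n 458 [] .w (.n 482 [] .w (.n 562 [] .w (.n 354 [] .w (.n 586 [] .w (.n 297 [] .w (.n 173 [] .w (.n 394 [] .w (.n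 321 [] .w (.f [(586, 19), (321, 8), (482, 10), (562, 2), (317, 14), (297, 1), (458, 5), (538, 5), (173, 17), (354, 4), (534, 1), (234, 10), (394, 12)] []))))))))))) (.f [(486, 1), (317, 1), (463, 1), (198, 1), (534, 1)] [(438, 1)]))) (.f [(606, 1), (317, 1), (463, 1), (423, 1), (189, 1)] [(438, 1)]))) (.f [(481, 1), (317, 1), (463, 1), (534, 1), (174, 1)] [(409, 1)])) (.f [(246, 1), (317, 1), (563, 1), (463, 1), (409, 1)] [(438, 1)])) (.f [(421, 1), (317, 1), (563, 1), (463, 1), (234, 1)] [(438, 1)]))) (.f [(606, 1), (546, 3), (246, 1), (317, 7), (488, 1), (139, 4)] [(192, 1)])) (.f [(511, 4), (317, 5), (234, 1), (174, 1)] [(556, 2), (438, 1)])) (.f [(111, 4), (317, 7), (563, 2), (534, 1), (174, 3)] [(438, 1)])) (.f [(91, 48), (317, 32), (563, 17), (488, 23), (534, 11), (234, 26), (464, 1), (174, 2)] [])) (.n 363 [] (.n 339 [] .w (.n 298 [] .w (.n 198 [] .w (.f [(391, 12), (587, 8), (317, 4), (563, 4), (298,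 7), (198, 1), (234, 9), (339, 1), (174, 2)] [])))) (.f [(391, 20), (587, 11), (317, 13), (363, 7), (534, 9), (234, 5), (174, 3)] []))) (.f [(246, 1), (507, 4), (317, 3), (488, 1), (464, 2), (174, 2)] [(556, 1)])) (.f [(606, 11), (246, 2), (587, 17), (317, 32), (488, 1), (43, 48), (234, 26), (464, 23)] [])) (.f [(606, 1), (246, 3), (587, 2), (317, 7), (39, 4)] [(438, 1)])) (.f [(546, 3), (246, 1), (452, 8), (317, 7), (563, 4), (234, 7), (174, 1)] [(192, 2), (438, 1)])) (.f [(456, 2), (317, 1), (563, 2), (174, 1)] [(556, 1), (438, 1)])))) (.n 221 [] (.n 581 [] (.n 209 [] (.n 452 [] (.n 217 [] (.n 271 [] (.n 403 [] (.n 147 [] (.n 139 [] (.n 259 [] (.n 507 [] (.n 227 [] (.n 511 [] (.n 235 [] (.n 267 [] (.n 527 [] (.n 290 [] (.n 535 [] (.n 395 [] (.n 350 [] (.n 487 [] (.n 144 [] .w (.n 513 [] .w (.n 292 [] .w (.n 109 [] .w (.n 288 [] .w (.n 408 [] .w (.n 241 [] .w (.n 97 [] .w (.n 308 [] .w (.n 440 [] .w (.n 561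 [] .w (.n 121 [] .w (.n 316 [] .w (.f [(440, 8), (561, 20), (316, 4), (241, 8), (121, 5), (292, 3), (97, 34), (408, 16), (308, 2), (513, 4), (288, 15), (109, 21), (144, 16)] [])))))))))))))) (.n 148 [] (.n 328 [] (.n 340 [] (.n 419 [] .w (.n 508 [] (.n 418 [] (.n 486 [] .w (.n 243 [] .w (.n 458 [] (.n 590 [] .w (.n 409 [] .w (.n 337 [] .w (.n 341 [] .w (.n 169 [] .w (.n 297 [] .w (.n 233 [] .w (.n 98 [] .w (.n 541 [] .w (.n 570 [] .w (.n 361 [] .w (.n 470 [] .w (.n 437 [] .w (.f [(590, 8), (570, 16), (470, 4), (361, 11), (541, 3), (341, 7), (437, 12), (337, 5), (297, 4), (233, 17), (98, 4), (409, 11), (169, 10)] [])))))))))))))) (.f [(486, 1), (546, 1), (317, 2), (458, 2), (243, 1), (534, 1), (174, 1)] [(418, 1)])))) (.n 591 [] (.n 538 [] .w (.n 338 [] .w (.n 194 [] .w (.n 458 [] .w (.n 119 [] .w (.n 462 [] .w (.n 414 [] .w (.f [(606, 4), (546, 13), (246, 4), (462, 7), (317, 10), (458, 8), (538, 3), (338,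 6), (234, 5), (414, 1), (194, 7), (119, 4)] [(591, 4)])))))))) (.n 332 [] (.n 532 [] (.n 363 [] .w (.n 172 [] (.n 232 [] (.n 339 [] .w (.n 587 [] .w (.n 480 [] (.n 471 [] .w (.n 408 [] (.n 168 [] (.n 420 [] (.n 396 [] (.n 458 [] (.n 298 [] .w (.n 538 [] .w (.n 314 [] .w (.n 462 [] .w (.n 466 [] .w (.n 524 [] .w (.n 223 [] .w (.f [(606, 9), (466, 17), (546, 19), (462, 17), (317, 28), (538, 12), (438, 11), (298, 12), (223, 10), (534, 1), (234, 35), (314, 5), (524, 4)] [])))))))) (.n 586 [] (.n 538 [] .w (.n 338 [] .w (.n 194 [] .w (.n 486 [] .w (.n 462 [] .w (.n 579 [] .w (.n 414 [] .w (.n 446 [] .w (.f [(486, 1), (546, 6), (446, 1), (246, 8), (462, 2), (317, 14), (458, 8), (538, 6), (338, 2), (579, 4), (234, 7), (414, 4), (194, 1)] []))))))))) (.f [(586, 1), (246, 1), (317, 1), (458, 1), (534, 1)] [(581, 1)]))) (.f [(396, 20), (587, 12), (317, 17), (438, 1), (363, 7), (418, 3), (534, 12), (234, 8)] [])) (.f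 [(420, 20), (606, 12), (591, 3), (317, 17), (438, 13), (234, 8), (339, 7)] [])) (.f [(471, 1), (587, 1), (317, 1), (168, 1), (234, 1)] [(217, 1)])) (.f [(591, 1), (246, 1), (587, 2), (317, 2), (408, 2), (234, 1), (174, 1)] [(532, 1), (217, 1)]))) (.f [(480, 20), (591, 3), (546, 12), (317, 17), (438, 13), (339, 7), (174, 8)] [])))) (.f [(591, 1), (232, 1), (317, 1), (438, 1), (174, 1)] [(217, 1)])) (.f [(606, 1), (317, 1), (172, 1), (438, 1), (534, 1)] [(532, 1)]))) (.f [(591, 1), (246, 1), (532, 1), (317, 2), (438, 2), (234, 1), (174, 1)] [(217, 1)])) (.f [(591, 1), (246, 1), (332, 1), (438, 1), (534, 1)] [(581, 1)])))) (.f [(246, 11), (487, 10), (317, 29), (508, 32), (438, 19), (234, 3), (419, 3), (174, 21)] []))) (.f [(340, 28), (606, 4), (546, 7), (246, 16), (487, 8), (317, 7), (438, 21), (534, 21)] [])) (.f [(606, 4), (546, 5), (246, 16), (487, 8), (317, 21), (328, 28), (438, 7), (534, 23)] [])) (.f [(606,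 1), (487, 1), (317, 3), (438, 2), (148, 4), (534, 2)] [(221, 1)]))) (.f [(350, 14), (546, 9), (317, 11), (438, 11), (534, 9), (174, 2)] [])) (.f [(395, 3), (606, 2), (317, 4), (438, 2), (534, 2)] [(452, 1), (217, 1)])) (.f [(535, 5), (246, 2), (317, 6), (234, 2)] [(235, 1), (527, 2)])) (.f [(290, 6), (606, 3), (438, 2), (534, 1)] [])) (.f [(246, 1), (527, 1), (317, 1), (438, 1), (234, 1)] [(227, 1)])) (.f [(546, 6), (267, 7), (438, 7), (534, 1), (234, 5), (174, 1)] [])) (.f [(235, 4), (546, 1), (317, 4), (534, 1)] [(227, 2)])) (.f [(511, 5), (317, 6), (234, 2), (174, 2)] [(581, 2), (139, 1)])) (.f [(546, 1), (227, 4), (317, 4), (438, 4), (534, 3), (174, 2)] [(217, 2)])) (.f [(246, 1), (507, 1), (317, 1), (438, 1), (174, 1)] [(147, 1)])) (.f [(546, 1), (246, 1), (317, 1), (438, 1), (259, 1)] [(271, 1)])) (.f [(606, 1), (546, 1), (317, 4), (139, 4)] [(209, 2)])) (.f [(606, 1), (317, 2), (147, 4), (438, 2),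 (534, 1)] [(221, 2)])) (.f [(606, 3), (317, 7), (403, 11), (234, 3)] [])) (.f [(271, 4), (317, 2), (438, 2), (534, 1), (234, 1)] [(221, 2)])) (.f [(546, 1), (317, 1), (217, 1), (438, 1), (234, 1)] [(192, 1)])) (.f [(606, 4), (452, 4), (317, 5), (438, 1), (534, 1), (174, 3)] [(192, 2)])) (.f [(606, 1), (546, 1), (317, 1), (438, 1), (209, 1)] [(581, 1)])) (.f [(581, 2), (246, 1), (317, 1), (438, 1), (174, 1)] [(556, 1), (221, 1)])) (.f [(606, 1), (221, 1), (317, 1), (438, 1), (534, 1)] [(556, 1)]))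

def A38 : Tr := .n 606 [216, 120, 210, 114, 78] (.n 611 [225] (.n 612 [] (.n 517 [180, 225, 177] (.n 363 [] .w (.n 322 [] .w (.n 467 [] .w (.n 294 [] .w (.n 418 [] .w (.n 547 [] .w (.n 608 [] .w (.n 242 [] (.n 213 [] .w (.n 333 [] .w (.n 409 [] .w (.n 491 [] .w (.n 222 [] .w (.n 546 [] .w (.n 289 [] .w (.n 321 [] .w (.n 567 [] .w (.n 209 [] .w (.f [(491, 3), (546, 1), (321, 1), (567, 4), (222, 3), (333, 2), (213, 3), (409, 2), (209, 1), (289, 2)] [(242, 2)]))))))))))) (.n 139 [] (.n 334 [] .w (.n 434 [] .w (.n 222 [] .w (.n 346 [] .w (.n 88 [] (.n 483 [] .w (.n 583 [] .w (.n 422 [] .w (.n 414 [] .w (.n 591 [] .w (.n 72 [] (.n 342 [] .w (.n 293 [] .w (.n 338 [] .w (.n 442 [] .w (.n 458 [] .w (.n 246 [] .w (.n 438 [] .w (.n 509 [] (.n 358 [] .w (.n 538 [] .w (.n 197 [] .w (.n 566 [] .w (.n 209 [] .w (.n 421 [] .w (.n 114 [] (.n 213 [] .w (.n 329 [] .w (.n 288 [] .w (.n 541 [] .w (.n 308 [] .w (.n 316 [] .w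 (.n 122 [] (.n 290 [] .w (.n 388 [] .w (.n 146 [] .w (.f [(290, 1), (146, 1), (388, 1)] [])))) (.f [(541, 3), (316, 1), (122, 4), (308, 3), (288, 1), (213, 3), (329, 1)] [])))))))) (.f [(566, 3), (421, 4), (442, 1), (342, 3), (197, 3), (458, 1), (358, 3), (538, 3), (209, 3), (114, 4)] [])))))))) (.f [(346, 2), (246, 2), (242, 10), (422, 6), (322, 2), (222, 1), (438, 7), (338, 6), (293, 3), (509, 16)] [(612, 3)]))))))))) (.f [(591, 1), (242, 3), (72, 4), (583, 2), (483, 1), (363, 2), (334, 1), (414, 4)] [(612, 2)]))))))) (.f [(242, 8), (547, 8), (322, 1), (88, 14), (434, 8), (334, 1), (294, 1)] [(612, 5)])))))) (.f [(467, 2), (547, 1), (322, 2), (608, 3), (418, 1), (139, 4)] [(612, 1)])))))))))) (.f [(517, 1), (117, 3), (513, 2)] [(612, 3)])) (.n 512 [180] (.n 472 [] .w (.n 244 [] .w (.n 224 [] .w (.n 564 [] .w (.n 572 [] .w (.n 248 [] .w A8)))))) (.n 609 [] .w (.f [(512, 4), (112, 4), (609, 1)] [(611, 5)]))))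 (.n 296 [180, 225, 177] A25 (.n 468 [] .w (.f [(611, 1), (196, 1), (607, 1), (468, 1), (284, 1)] [(606, 1)])))) (.n 556 [180, 216, 120, 156, 108, 210, 114, 78, 147, 99, 75] (.n 192 [225] (.n 317 [] (.n 468 [] (.n 565 [] .w (.n 231 [] .w (.n 171 [] .w (.n 304 [] .w (.n 585 [] .w (.n 320 [] .w (.n 577 [] .w (.n 533 [] .w (.n 561 [] .w (.f [(585, 1), (565, 6), (320, 5), (231, 15), (561, 5), (171, 1), (577, 6), (533, 6), (304, 6)] [(100, 8), (556, 15)])))))))))) (.n 561 [] (.n 562 [] (.n 212 [198] (.n 314 [] (.n 335 [] (.n 326 [] (.n 362 [] (.n 296 [180, 135] (.n 358 [] .w (.n 590 [] .w (.n 558 [] .w (.n 486 [] .w (.n 197 [] .w (.n 586 [] .w (.n 173 [] .w (.n 294 [] .w (.n 466 [] .w (.n 414 [] .w (.f [(590, 4), (606, 2), (586, 3), (486, 1), (466, 3), (197, 9), (558, 1), (358, 7), (173, 1), (414, 6), (294, 3)] []))))))))))) (.n 615 [] .w (.n 458 [] .w (.n 367 [] .w (.n 418 [] .w (.n 339 [] .w (.n 363 [] .w (.n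 567 [] .w (.n 439 [] .w (.f [(615, 4), (606, 12), (296, 4), (196, 10), (567, 11), (367, 2), (172, 13), (458, 11), (363, 5), (418, 10), (234, 4), (439, 6), (339, 16)] [])))))))))) (.n 568 [] .w (.n 347 [] .w (.n 471 [] .w A26)))) (.n 568 [] .w (.n 448 [] .w (.f [(326, 16), (568, 3), (448, 2), (534, 6), (174, 1)] [])))) (.n 444 [] .w (.f [(335, 4), (534, 1), (444, 1), (174, 1)] [(314, 3)]))) A29) (.f [(606, 1), (546, 1), (212, 1), (188, 2)] [(562, 1)])) (.n 488 [] .w (.n 464 [] .w (.n 331 [] (.n 344 [] (.n 231 [] .w (.n 416 [] .w (.n 585 [] .w (.n 320 [] .w (.n 407 [] .w (.n 240 [] .w (.f [(585, 7), (240, 6), (320, 7), (231, 1), (416, 1), (407, 6)] []))))))) (.n 63 [] (.n 258 [] A33 (.f [(246, 1), (562, 2), (258, 4), (174, 1)] [])) (.f [(606, 1), (546, 1), (562, 2), (63, 4)] [(561, 4)]))) (.f [(331, 2), (562, 2), (174, 1)] [(561, 1)]))))) A36)) (.n 213 [] (.n 388 [] (.n 460 [] (.n 588 [] (.n 334 [] .w (.n 421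 [] .w (.n 214 [] .w (.n 523 [] .w (.n 434 [] .w (.n 482 [] .w (.n 238 [] .w (.n 466 [] .w (.n 414 [] .w (.f [(606, 11), (466, 10), (421, 26), (482, 7), (317, 40), (238, 23), (523, 24), (534, 12), (434, 1), (334, 7), (414, 3), (214, 24)] [])))))))))) (.n 159 [] (.n 171 [] (.n 488 [] .w (.n 231 [] (.n 464 [] .w A37) (.f [(231, 1), (317, 2), (588, 1), (174, 1)] [(192, 1)]))) (.f [(171, 1), (317, 2), (588, 1), (234, 1)] [(192, 1)])) (.f [(246, 1), (317, 2), (588, 1), (159, 1)] [(192, 1)]))) (.f [(460, 7), (606, 6), (546, 1), (246, 1), (317, 7), (174, 5)] [])) (.f [(606, 5), (546, 1), (317, 7), (388, 7), (534, 1), (174, 6)] [])) (.f [(546, 1), (317, 2), (213, 1), (234, 1)] [(192, 1)]))) (.n 49 [] (.n 471 [225] (.n 459 [] (.n 462 [] .w (.n 399 [] .w (.n 293 [] .w (.f [(606, 16), (462, 7), (192, 13), (188, 12), (293, 13), (534, 3), (399, 12)] [])))) (.f [(546, 1), (246, 1), (192, 1), (188, 1), (459, 1)] [(471, 1)]))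 (.f [(606, 1), (546, 1), (192, 1), (188, 1), (459, 1)] [(556, 1)])) (.f [(606, 6), (246, 1), (192, 8), (188, 8), (234, 1), (49, 7)] []))) (.n 468 [] (.n 590 [180, 156, 225, 177, 201, 57, 141, 45, 147, 135, 39] (.n 512 [] .w (.n 552 [] .w (.n 84 [] .w (.n 531 [] .w (.f [(531, 1), (552, 1), (512, 1), (84, 1)] [(590, 3)]))))) (.f [(490, 16), (536, 6), (296, 16), (232, 12), (578, 15), (478, 2), (454, 3), (284, 4), (164, 10)] [(100, 12)])) (.f [(236, 1), (196, 1), (532, 1), (468, 1), (284, 1)] [(156, 1)])))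

def Aroot : Tr := A38


end Pool.Agent.Helper96.K4
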