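import Pool.Agent.Helper96.K4.Chk

/-!
# Certificate trees for `k = 4` (written by helper26's program)
-/

set_option autoImplicit false

namespace Pool.Agent.Helper96.K4

def B0 : Tr := .n 583 [216] (.n 348 [] .w (.n 468 [] .w (.n 568 [] .w (.n 248 [] .w (.n 368 [] .w (.n 463 [] (.n 423 [] .w (.n 567 [] .w (.n 223 [] .w (.n 323 [] .w (.n 612 [] .w (.n 243 [] .w (.f [(612, 8), (567, 3), (468, 9), (243, 6), (423, 2), (323, 11), (223, 5), (4, 33)] []))))))) (.f [(463, 5), (568, 4), (368, 1), (348, 2), (248, 3), (4, 12)] [(583, 3)]))))))) (.n 363 [216] (.n 348 [] .w (.n 492 [] .w (.n 468 [] .w (.n 298 [] (.n 488 [] .w (.n 443 [] .w (.n 372 [] .w (.n 563 [] .w (.f [(372, 1), (563, 2), (488, 3), (543, 3), (443, 2), (348, 4), (4, 14)] []))))) (.f [(492, 9), (583, 8), (543, 4), (468, 1), (298, 14), (4, 27)] []))))) (.f [(583, 1), (363, 1), (543, 1), (323, 1), (4, 4)] [(500, 1)]))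

def Broot : Tr := B0


end Pool.Agent.Helper96.K4
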