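import Mathlib

/-!
# A kernel checker for the finite inequality of the case `k = 4`

A row is a vector of four nonnegative numbers of sum one, in increasing order; it is given by its
increments `δ i k ≥ 0` (`k = 0, ..., 3`), with `∑ k, (4 - k) δ i k = 1`. A tuple is a code
`t = c₀ + 5 c₁ + 25 c₂ + 125 c₃`; the digit `0` stands for the dose zero and the digit `j ≥ 1` for the
`j`-th entry of the row. The mass of a tuple is the product of the masses `z` (digit `0`) and `e`
(digits `1, ..., 4`). The checker proves that the mass of the tuples with value `< 1` is at least `T0`.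
-/

set_option autoImplicit false

namespace Pool.Agent.Helper96.K4

/-- digit of a tuple -/
def dig (t i : ℕ) : ℕ := Nat.mod (Nat.div t (Nat.pow 5 i)) 5

/-- digit of a permutation -/
def pd (g i : ℕ) : ℕ := Nat.mod (Nat.div g (Nat.pow 4 i)) 4

/-- the action of a permutation on a tuple -/
def act (g t : ℕ) : ℕ :=
  Nat.add (Nat.add (dig t (pd g 0)) (Nat.mul 5 (dig t (pd g 1))))
    (Nat.add (Nat.mul 25 (dig t (pd g 2))) (Nat.mul 125 (dig t (pd g 3))))

/-- `b + 1` copies of the block `x` of `s` bits -/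
def rep (s x : ℕ) : ℕ → ℕ
  | 0 => x
  | b + 1 => Nat.add (Nat.mul (Nat.pow 2 s) (rep s x b)) x

/-- mask of the tuples below `t` -/
def dn (t : ℕ) : ℕ :=
  rep 125 (rep 25 (rep 5 (rep 1 1 (dig t 0)) (dig t 1)) (dig t 2)) (dig t 3)

/-- copies of the block `x` at the places `b, ..., 4` -/
def rup (s x b : ℕ) : ℕ := Nat.mul (Nat.pow 2 (Nat.mul s b)) (rep s x (Nat.sub 4 b))

/-- mask of the tuples above `t` -/
def up (t : ℕ) : ℕ :=
  rup 125 (rup 25 (rup 5 (rup 1 1 (dig t 0)) (dig t 1)) (dig t 2)) (dig t 3)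

/-- mass of a block of five bits -/
def s1 (z e x : ℕ) : ℕ :=
  Nat.add (Nat.mul z (Nat.mod x 2)) (Nat.mul e (Nat.add (Nat.add (Nat.mod (Nat.div x 2) 2)
    (Nat.mod (Nat.div x 4) 2)) (Nat.add (Nat.mod (Nat.div x 8) 2) (Nat.mod (Nat.div x 16) 2))))

/-- mass of five blocks -/
def sk (z e s : ℕ) (f : ℕ → ℕ) (x : ℕ) : ℕ :=
  bif Nat.beq (Nat.mod x (Nat.pow 2 (Nat.mul 5 s))) 0 then 0 else
  Nat.add (Nat.mul z (f x)) (Nat.mul e (Nat.add (Nat.add (f (Nat.shiftRight x s))
    (f (Nat.shiftRight x (Nat.mul 2 s)))) (Nat.add (f (Nat.shiftRight x (Nat.mul 3 s)))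
    (f (Nat.shiftRight x (Nat.mul 4 s))))))

/-- mass of a mask -/
def s4 (z e x : ℕ) : ℕ := sk z e 125 (sk z e 25 (sk z e 5 (s1 z e))) x

/-- certificate trees -/
inductive Tr
  | w : Tr
  | f : List (ℕ × ℕ) → List (ℕ × ℕ) → Tr
  | n : ℕ → List ℕ → Tr → Tr → Tr

/-- the sum of the weights of the tuples with digit `i` larger than `k` -/
def cf (l : List (ℕ × ℕ)) (i k : ℕ) : ℕ :=
  match l with
  | [] => 0
  | x :: l => bif Nat.ble (dig x.1 i) k then cf l i k else Nat.add x.2 (cf l i k)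

/-- the total weight -/
def tot (l : List (ℕ × ℕ)) : ℕ :=
  match l with
  | [] => 0
  | x :: l => Nat.add x.2 (tot l)

/-- the bound of the row `i`: `max_k 12 A (i, k) / (4 - k)` -/
def bd (ys zs : List (ℕ × ℕ)) (i : ℕ) : ℤ :=
  max (max (3 * ((cf ys i 0 : ℤ) - cf zs i 0)) (4 * ((cf ys i 1 : ℤ) - cf zs i 1)))
    (max (6 * ((cf ys i 2 : ℤ) - cf zs i 2)) (12 * ((cf ys i 3 : ℤ) - cf zs i 3)))

/-- all codes of the list are in the mask -/
def mem (l : List (ℕ × ℕ)) (m : ℕ) : Bool :=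
  match l with
  | [] => true
  | x :: l => Nat.blt x.1 625 && (Nat.testBit m x.1 && mem l m)

/-- the Farkas test -/
def fk (ys zs : List (ℕ × ℕ)) : Bool :=
  let s := bd ys zs 0 + bd ys zs 1 + (bd ys zs 2 + bd ys zs 3)
  let r := 12 * ((tot ys : ℤ) - tot zs)
  decide (s < r) || (decide (s = r) && Nat.blt 0 (tot zs))

/-- `g` is a permutation of `0, 1, 2, 3` -/
def isPerm (g : ℕ) : Bool :=
  Nat.beq (Nat.add (Nat.add (Nat.pow 2 (pd g 0)) (Nat.pow 2 (pd g 1)))
    (Nat.add (Nat.pow 2 (pd g 2)) (Nat.pow 2 (pd g 3)))) 15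

/-- the images of the list under `g` are in the mask -/
def stab (g : ℕ) (l : List ℕ) (m : ℕ) : Bool :=
  match l with
  | [] => true
  | x :: l => Nat.testBit m (act g x) && stab g l m

/-- all the permutations stabilise the state -/
def stabAll (gs : List ℕ) (Dl : List ℕ) (Dm : ℕ) (Ul : List ℕ) (Um : ℕ) : Bool :=
  match gs with
  | [] => true
  | g :: gs => isPerm g && (stab g Dl Dm && stab g Ul Um) && stabAll gs Dl Dm Ul Um

/-- the orbit of `t` -/
def orb (t : ℕ) (gs : List ℕ) : List ℕ :=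
  match gs with
  | [] => []
  | g :: gs => act g t :: orb t gs

/-- mask above a list of tuples -/
def upl (l : List ℕ) (m : ℕ) : ℕ :=
  match l with
  | [] => m
  | x :: l => upl l (Nat.lor m (up x))

/-- the checker -/
def chk (z e T0 : ℕ) : Tr → List ℕ → ℕ → List ℕ → ℕ → Bool
  | Tr.w, _, Dm, _, _ => Nat.ble T0 (s4 z e Dm)
  | Tr.f ys zs, _, Dm, _, Um => mem ys Um && mem zs Dm && fk ys zs
  | Tr.n t gs l r, Dl, Dm, Ul, Um => Nat.blt t 625 && (stabAll gs Dl Dm Ul Um &&
      (chk z e T0 l (t :: Dl) (Nat.lor Dm (dn t)) Ul Um &&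
        chk z e T0 r Dl Dm (t :: (orb t gs ++ Ul)) (upl (t :: orb t gs) Um)))

/-! ## Masks -/

lemma rep_lt {s x : ℕ} (hx : x < 2 ^ s) (b : ℕ) : rep s x b < 2 ^ (s * (b + 1)) := by
  induction b with
  | zero => simpa [rep] using hx
  | succ b ih =>
    show 2 ^ s * rep s x b + x < 2 ^ (s * (b + 1 + 1))
    have h1 : 2 ^ (s * (b + 1 + 1)) = 2 ^ s * 2 ^ (s * (b + 1)) := by
      rw [← pow_add]
      congr 1
      ring
    rw [h1]
    calc 2 ^ s * rep s x b + x < 2 ^ s * rep s x b + 2 ^ s := by omega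
      _ = 2 ^ s * (rep s x b + 1) := by ring
      _ ≤ 2 ^ s * 2 ^ (s * (b + 1)) := Nat.mul_le_mul_left _ ih

lemma rep_testBit {s x : ℕ} (hx : x < 2 ^ s) {i : ℕ} (hi : i < s) (b j : ℕ) :
    (rep s x b).testBit (i + s * j) = (decide (j ≤ b) && x.testBit i) := by
  induction b generalizing j with
  | zero =>
    show x.testBit (i + s * j) = _
    rcases Nat.eq_zero_or_pos j with rfl | hj
    · simp
    · have h1 : x.testBit (i + s * j) = false := by
        apply Nat.testBit_lt_two_pow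
        refine lt_of_lt_of_le hx (Nat.pow_le_pow_right (by norm_num) ?_)
        calc s = s * 1 := (mul_one s).symm
          _ ≤ s * j := Nat.mul_le_mul_left _ hj
          _ ≤ i + s * j := Nat.le_add_left _ _
      have h2 : ¬ j ≤ 0 := by omega
      simp [h1, h2]
  | succ b ih =>
    show (2 ^ s * rep s x b + x).testBit (i + s * j) = _
    rw [Nat.testBit_two_pow_mul_add _ hx]
    cases j with
    | zero => simp [hi]
    | succ j =>
      have h1 : ¬ (i + s * (j + 1) < s) := by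
        rw [Nat.mul_succ]
        omega
      rw [if_neg h1]
      have h2 : i + s * (j + 1) - s = i + s * j := by
        rw [Nat.mul_succ]
        omega
      rw [h2, ih]
      congr 1
      simp

lemma rup_testBit {s x : ℕ} (hx : x < 2 ^ s) {i : ℕ} (hi : i < s) {b : ℕ} (hb : b ≤ 4) {j : ℕ}
    (hj : j ≤ 4) : (rup s x b).testBit (i + s * j) = (decide (b ≤ j) && x.testBit i) := by
  show (2 ^ (s * b) * rep s x (4 - b)).testBit (i + s * j) = _
  rw [Nat.testBit_two_pow_mul]
  by_cases h : b ≤ j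
  · have h1 : s * b ≤ i + s * j := le_trans (Nat.mul_le_mul_left _ h) (Nat.le_add_left _ _)
    have h2 : i + s * j - s * b = i + s * (j - b) := by
      rw [Nat.mul_sub]
      have := Nat.mul_le_mul_left s h
      omega
    have h3 : j - b ≤ 4 - b := by omega
    rw [h2, rep_testBit hx hi]
    simp [h, h1, h3]
  · have h1 : ¬ s * b ≤ i + s * j := by
      have : s * (j + 1) ≤ s * b := Nat.mul_le_mul_left _ (by omega)
      rw [Nat.mul_succ] at this
      omega
    simp [h, h1]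

lemma rup_lt {s x : ℕ} (hx : x < 2 ^ s) {b : ℕ} (hb : b ≤ 4) : rup s x b < 2 ^ (5 * s) := by
  show 2 ^ (s * b) * rep s x (4 - b) < 2 ^ (5 * s)
  have h1 := rep_lt hx (4 - b)
  have h2 : 2 ^ (5 * s) = 2 ^ (s * b) * 2 ^ (s * (4 - b + 1)) := by
    rw [← pow_add, ← Nat.mul_add]
    congr 1
    have : b + (4 - b + 1) = 5 := by omega
    rw [this, mul_comm]
  rw [h2]
  exact Nat.mul_lt_mul_of_pos_left h1 (by positivity)

lemma dig_le (t i : ℕ) : dig t i ≤ 4 := Nat.le_of_lt_succ (Nat.mod_lt _ (by norm_num))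

lemma eq_digits {t : ℕ} (ht : t < 625) :
    t = ((dig t 0 + 5 * dig t 1) + 25 * dig t 2) + 125 * dig t 3 := by
  show t = ((t / 5 ^ 0 % 5 + 5 * (t / 5 ^ 1 % 5)) + 25 * (t / 5 ^ 2 % 5)) + 125 * (t / 5 ^ 3 % 5)
  norm_num
  omega

lemma dn_testBit (t c : ℕ) (hc : c < 625) : (dn t).testBit c =
    (decide (dig c 3 ≤ dig t 3) && (decide (dig c 2 ≤ dig t 2) && (decide (dig c 1 ≤ dig t 1) &&
      decide (dig c 0 ≤ dig t 0)))) := by
  have e := eq_digits hc
  have l0 := dig_le c 0
  have l1 := dig_le c 1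
  have l2 := dig_le c 2
  have m0 := dig_le t 0
  have m1 := dig_le t 1
  have m2 := dig_le t 2
  have b0 : rep 1 1 (dig t 0) < 2 ^ 5 :=
    lt_of_lt_of_le (rep_lt (by norm_num) _) (Nat.pow_le_pow_right (by norm_num) (by omega))
  have b1 : rep 5 (rep 1 1 (dig t 0)) (dig t 1) < 2 ^ 25 :=
    lt_of_lt_of_le (rep_lt b0 _) (Nat.pow_le_pow_right (by norm_num) (by omega))
  have b2 : rep 25 (rep 5 (rep 1 1 (dig t 0)) (dig t 1)) (dig t 2) < 2 ^ 125 :=
    lt_of_lt_of_le (rep_lt b1 _) (Nat.pow_le_pow_right (by norm_num) (by omega))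
  conv_lhs => rw [e]
  unfold dn
  rw [rep_testBit b2 (by omega), rep_testBit b1 (by omega), rep_testBit b0 (by omega)]
  congr 3
  have h := rep_testBit (s := 1) (x := 1) (by norm_num) (i := 0) (by norm_num) (dig t 0) (dig c 0)
  rw [zero_add, one_mul] at h
  rw [h]
  simp

lemma up_testBit (t c : ℕ) (hc : c < 625) : (up t).testBit c =
    (decide (dig t 3 ≤ dig c 3) && (decide (dig t 2 ≤ dig c 2) && (decide (dig t 1 ≤ dig c 1) &&
      decide (dig t 0 ≤ dig c 0)))) := by
  have e := eq_digits hc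
  have l0 := dig_le c 0
  have l1 := dig_le c 1
  have l2 := dig_le c 2
  have l3 := dig_le c 3
  have m0 := dig_le t 0
  have m1 := dig_le t 1
  have m2 := dig_le t 2
  have m3 := dig_le t 3
  have b0 : rup 1 1 (dig t 0) < 2 ^ 5 := by
    have := rup_lt (s := 1) (x := 1) (by norm_num) m0
    simpa using this
  have b1 : rup 5 (rup 1 1 (dig t 0)) (dig t 1) < 2 ^ 25 := by
    have := rup_lt b0 m1
    simpa using this
  have b2 : rup 25 (rup 5 (rup 1 1 (dig t 0)) (dig t 1)) (dig t 2) < 2 ^ 125 := by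
    have := rup_lt b1 m2
    simpa using this
  conv_lhs => rw [e]
  unfold up
  rw [rup_testBit b2 (by omega) m3 l3, rup_testBit b1 (by omega) m2 l2,
    rup_testBit b0 (by omega) m1 l1]
  congr 3
  have h := rup_testBit (s := 1) (x := 1) (by norm_num) (i := 0) (by norm_num) m0 l0
  rw [zero_add, one_mul] at h
  rw [h]
  simp

lemma dn_le {t c : ℕ} (hc : c < 625) (h : (dn t).testBit c = true) :
    ∀ i < 4, dig c i ≤ dig t i := by
  rw [dn_testBit t c hc] at h
  simp only [Bool.and_eq_true, decide_eq_true_eq] at h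
  obtain ⟨h3, h2, h1, h0⟩ := h
  intro i hi
  interval_cases i <;> assumption

lemma up_le {t c : ℕ} (hc : c < 625) (h : (up t).testBit c = true) :
    ∀ i < 4, dig t i ≤ dig c i := by
  rw [up_testBit t c hc] at h
  simp only [Bool.and_eq_true, decide_eq_true_eq] at h
  obtain ⟨h3, h2, h1, h0⟩ := h
  intro i hi
  interval_cases i <;> assumption

end Pool.Agent.Helper96.K4
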