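import Pool.Agent.Helper96.K4.Sound
import Pool.Agent.Helper55.K4.Mix

/-!
# From the trees to the finite inequality for `k = 4`
-/

set_option autoImplicit false

open Finset

open scoped Classical

namespace Pool.Agent.Helper96.K4

noncomputable section

/-! ## Start of the trees -/

/-- mask below a list of tuples -/
def dnl (l : List ℕ) : ℕ :=
  match l with
  | [] => 0
  | x :: l => Nat.lor (dn x) (dnl l)

lemma dnl_testBit (l : List ℕ) (t : ℕ) (h : (dnl l).testBit t = true) :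
    ∃ x ∈ l, (dn x).testBit t = true := by
  induction l with
  | nil =>
    have h1 : (0 : ℕ).testBit t = true := h
    rw [Nat.zero_testBit] at h1
    exact absurd h1 (by simp)
  | cons x l ih =>
    have h2 : (dn x ||| dnl l).testBit t = true := h
    rw [Nat.testBit_or, Bool.or_eq_true] at h2
    rcases h2 with h2 | h2
    · exact ⟨x, List.mem_cons_self, h2⟩
    · obtain ⟨y, hy, h3⟩ := ih h2
      exact ⟨y, List.mem_cons_of_mem _ hy, h3⟩

lemma masks_start (Dl Ul : List ℕ) : Masks Dl (dnl Dl) Ul (upl Ul 0) := by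
  refine ⟨fun t ht h => ?_, fun t ht h => ?_⟩
  · obtain ⟨x, hx, h1⟩ := dnl_testBit Dl t h
    exact ⟨x, hx, dn_le ht h1⟩
  · rcases testBit_upl _ _ _ h with h1 | ⟨x, hx, h1⟩
    · rw [Nat.zero_testBit] at h1
      exact absurd h1 (by simp)
    · exact ⟨x, hx, up_le ht h1⟩

/-- soundness from the start lists -/
theorem sound0 {z e T0 : ℕ} (T : Tr) {δ : Fin 4 → Fin 4 → ℝ} {Dl Ul : List ℕ} (hδ : Good δ)
    (hv : Holds δ Dl Ul) (h : chk z e T0 T Dl (dnl Dl) Ul (upl Ul 0) = true) :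
    T0 ≤ mass z e δ :=
  sound T hδ (masks_start Dl Ul) hv h

/-! ## Sorting the rows -/

/-- the sorted row -/
def srt (v : Fin 4 → Fin 4 → ℝ) (i k : Fin 4) : ℝ := v i (Tuple.sort (v i) k)

/-- the increments of the sorted rows -/
def inc (v : Fin 4 → Fin 4 → ℝ) (i : Fin 4) : Fin 4 → ℝ :=
  ![srt v i 0, srt v i 1 - srt v i 0, srt v i 2 - srt v i 1, srt v i 3 - srt v i 2]

lemma srt_mono (v : Fin 4 → Fin 4 → ℝ) (i : Fin 4) {a b : Fin 4} (h : a ≤ b) :
    srt v i a ≤ srt v i b := Tuple.monotone_sort (v i) h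

lemma sum_srt (v : Fin 4 → Fin 4 → ℝ) (i : Fin 4) (F : ℝ → ℝ) :
    F (srt v i 0) + F (srt v i 1) + F (srt v i 2) + F (srt v i 3) = ∑ j, F (v i j) := by
  rw [← Equiv.sum_comp (Tuple.sort (v i)), Fin.sum_univ_four]
  rfl

lemma good_inc {v : Fin 4 → Fin 4 → ℝ} (h0 : ∀ i j, 0 ≤ v i j) (h1 : ∀ i, ∑ j, v i j = 1) :
    Good (inc v) := by
  constructor
  · intro i k
    fin_cases k
    · exact h0 _ _
    · exact sub_nonneg.2 (srt_mono v i (by decide))
    · exact sub_nonneg.2 (srt_mono v i (by decide))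
    · exact sub_nonneg.2 (srt_mono v i (by decide))
  · intro i
    have h2 := sum_srt v i (fun x => x)
    rw [h1 i] at h2
    show 4 * srt v i 0 + 3 * (srt v i 1 - srt v i 0) + 2 * (srt v i 2 - srt v i 1) +
      (srt v i 3 - srt v i 2) = 1
    linarith

lemma lv_zero (δ : Fin 4 → Fin 4 → ℝ) (i : Fin 4) : lv δ i 0 = 0 := by
  unfold lv
  simp

lemma lv_inc (v : Fin 4 → Fin 4 → ℝ) (i k : Fin 4) : lv (inc v) i (k + 1 : ℕ) = srt v i k := by
  unfold lv
  rw [Fin.sum_univ_four]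
  have h3 : ((3 : Fin 4) : ℕ) = 3 := rfl
  fin_cases k <;> simp [inc]

lemma E1_eq (z e : ℕ) (hN : 0 < z + 4 * e) (v : Fin 4 → Fin 4 → ℝ) (i : Fin 4) (F : ℝ → ℝ) :
    _root_.K4.E1 ((e : ℝ) / (z + 4 * e)) (v i) F =
      (∑ a : Fin 5, (wt z e a : ℝ) * F (lv (inc v) i a)) / (z + 4 * e) := by
  have hN' : (0 : ℝ) < z + 4 * e := by exact_mod_cast hN
  unfold _root_.K4.E1
  rw [← sum_srt, Fin.sum_univ_five]
  have e0 : lv (inc v) i ((0 : Fin 5) : ℕ) = 0 := lv_zero _ i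
  have e1 : lv (inc v) i ((1 : Fin 5) : ℕ) = srt v i 0 := lv_inc v i 0
  have e2 : lv (inc v) i ((2 : Fin 5) : ℕ) = srt v i 1 := lv_inc v i 1
  have e3 : lv (inc v) i ((3 : Fin 5) : ℕ) = srt v i 2 := lv_inc v i 2
  have e4 : lv (inc v) i ((4 : Fin 5) : ℕ) = srt v i 3 := lv_inc v i 3
  rw [e0, e1, e2, e3, e4]
  have w0 : wt z e ((0 : Fin 5) : ℕ) = z := rfl
  have w1 : wt z e ((1 : Fin 5) : ℕ) = e := rfl
  have w2 : wt z e ((2 : Fin 5) : ℕ) = e := rfl
  have w3 : wt z e ((3 : Fin 5) : ℕ) = e := rfl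
  have w4 : wt z e ((4 : Fin 5) : ℕ) = e := rfl
  rw [w0, w1, w2, w3, w4]
  field_simp
  ring

/-- the mass as an iterated sum -/
lemma mass_eq (z e : ℕ) (δ : Fin 4 → Fin 4 → ℝ) (F : ℝ → ℝ) :
    ∑ c : Fin 4 → Fin 5, (∏ i, (wt z e (c i) : ℝ)) * F (val δ (fun i => (c i : ℕ))) =
      ∑ a : Fin 5, (wt z e a : ℝ) * ∑ b : Fin 5, (wt z e b : ℝ) * ∑ c : Fin 5, (wt z e c : ℝ) *
        ∑ d : Fin 5, (wt z e d : ℝ) * F (lv δ 0 a + lv δ 1 b + lv δ 2 c + lv δ 3 d) := by
  let E : (Fin 4 → Fin 5) ≃ Fin 5 × Fin 5 × Fin 5 × Fin 5 :=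
    { toFun := fun c => (c 0, c 1, c 2, c 3)
      invFun := fun x => ![x.1, x.2.1, x.2.2.1, x.2.2.2]
      left_inv := by
        intro c
        funext i
        fin_cases i <;> rfl
      right_inv := fun x => rfl }
  rw [← Equiv.sum_comp E.symm, Fintype.sum_prod_type]
  apply Finset.sum_congr rfl
  intro a _
  rw [Fintype.sum_prod_type, Finset.mul_sum]
  apply Finset.sum_congr rfl
  intro b _
  rw [Fintype.sum_prod_type, Finset.mul_sum, Finset.mul_sum]
  apply Finset.sum_congr rfl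
  intro c _
  rw [Finset.mul_sum, Finset.mul_sum, Finset.mul_sum]
  apply Finset.sum_congr rfl
  intro d _
  have h1 : E.symm (a, b, c, d) = ![a, b, c, d] := rfl
  rw [h1, Fin.prod_univ_four]
  unfold val
  rw [Fin.sum_univ_four]
  show ((wt z e a : ℝ) * wt z e b * wt z e c * wt z e d) *
    F (lv δ 0 a + lv δ 1 b + lv δ 2 c + lv δ 3 d) = _
  ring

lemma Phi_eq (z e : ℕ) (hN : 0 < z + 4 * e) (v : Fin 4 → Fin 4 → ℝ) :
    _root_.K4.Phi v ((e : ℝ) / (z + 4 * e)) * ((z : ℝ) + 4 * e) ^ 4 =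
      ∑ c : Fin 4 → Fin 5, (∏ i, (wt z e (c i) : ℝ)) *
        (if 1 ≤ val (inc v) (fun i => (c i : ℕ)) then 1 else 0) := by
  have hN' : (0 : ℝ) < z + 4 * e := by exact_mod_cast hN
  rw [mass_eq z e (inc v) (fun x => if 1 ≤ x then 1 else 0)]
  unfold _root_.K4.Phi
  simp only [E1_eq z e hN]
  simp only [← Finset.sum_div, mul_div_assoc']
  field_simp

lemma total_eq (z e : ℕ) (δ : Fin 4 → Fin 4 → ℝ) :
    ∑ c : Fin 4 → Fin 5, (∏ i, (wt z e (c i) : ℝ)) *
        (if 1 ≤ val δ (fun i => (c i : ℕ)) then 1 else 0) + (mass z e δ : ℝ) =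
      ((z : ℝ) + 4 * e) ^ 4 := by
  unfold mass
  push_cast
  rw [← Finset.sum_add_distrib]
  have h1 : ∀ c : Fin 4 → Fin 5, (∏ i, (wt z e (c i) : ℝ)) *
        (if 1 ≤ val δ (fun i => (c i : ℕ)) then 1 else 0) + (∏ i, (wt z e (c i) : ℝ)) *
        (if val δ (fun i => (c i : ℕ)) < 1 then 1 else 0) = (∏ i, (wt z e (c i) : ℝ)) * 1 := by
    intro c
    by_cases h : 1 ≤ val δ (fun i => (c i : ℕ))
    · rw [if_pos h, if_neg (not_lt.2 h)]
      ring
    · rw [if_neg h, if_pos (not_le.1 h)]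
      ring
  rw [Finset.sum_congr rfl fun c _ => h1 c, mass_eq z e δ (fun _ => 1)]
  have h2 : ∑ a : Fin 5, (wt z e a : ℝ) = z + 4 * e := by
    rw [Fin.sum_univ_five]
    have w0 : wt z e ((0 : Fin 5) : ℕ) = z := rfl
    have w1 : wt z e ((1 : Fin 5) : ℕ) = e := rfl
    have w2 : wt z e ((2 : Fin 5) : ℕ) = e := rfl
    have w3 : wt z e ((3 : Fin 5) : ℕ) = e := rfl
    have w4 : wt z e ((4 : Fin 5) : ℕ) = e := rfl
    rw [w0, w1, w2, w3, w4]
    ring
  simp only [mul_one, h2, ← Finset.sum_mul]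
  ring

/-- the bound for the probability from a bound for the mass -/
lemma Phi_le {z e T0 : ℕ} (hN : 0 < z + 4 * e) (v : Fin 4 → Fin 4 → ℝ)
    (h : T0 ≤ mass z e (inc v)) :
    _root_.K4.Phi v ((e : ℝ) / (z + 4 * e)) ≤ 1 - (T0 : ℝ) / ((z : ℝ) + 4 * e) ^ 4 := by
  have hN' : (0 : ℝ) < z + 4 * e := by exact_mod_cast hN
  have h1 := Phi_eq z e hN v
  have h2 := total_eq z e (inc v)
  have h3 : (T0 : ℝ) ≤ mass z e (inc v) := by exact_mod_cast h
  have h4 : (0 : ℝ) < ((z : ℝ) + 4 * e) ^ 4 := pow_pos hN' 4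
  rw [← h1] at h2
  have h5 : _root_.K4.Phi v ((e : ℝ) / (z + 4 * e)) * ((z : ℝ) + 4 * e) ^ 4 ≤
      ((z : ℝ) + 4 * e) ^ 4 - T0 := by linarith
  have h6 : 1 - (T0 : ℝ) / ((z : ℝ) + 4 * e) ^ 4 =
      (((z : ℝ) + 4 * e) ^ 4 - T0) / ((z : ℝ) + 4 * e) ^ 4 := by
    field_simp
  rw [h6, le_div_iff₀ h4]
  exact h5

/-! ## The start conditions -/

lemma val_156 {v : Fin 4 → Fin 4 → ℝ} (h1 : ∀ i, ∑ j, v i j = 1)
    (h : ¬ ∀ i j, v i j = 1 / 4) : val (inc v) (digs 156) < 1 := by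
  have hd : ∀ i : Fin 4, digs 156 i = 1 := by
    intro i
    fin_cases i <;> rfl
  have e1 : val (inc v) (digs 156) = ∑ i, srt v i 0 := by
    unfold val
    apply Finset.sum_congr rfl
    intro i _
    rw [hd i]
    exact lv_inc v i 0
  have hle : ∀ i, srt v i 0 ≤ 1 / 4 := by
    intro i
    have h2 := sum_srt v i (fun x => x)
    rw [h1 i] at h2
    have a1 := srt_mono v i (show (0 : Fin 4) ≤ 1 by decide)
    have a2 := srt_mono v i (show (0 : Fin 4) ≤ 2 by decide)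
    have a3 := srt_mono v i (show (0 : Fin 4) ≤ 3 by decide)
    linarith
  rw [e1]
  by_contra hcon
  push Not at hcon
  apply h
  rw [Fin.sum_univ_four] at hcon
  have heq : ∀ i, srt v i 0 = 1 / 4 := by
    intro i
    have b0 := hle 0
    have b1 := hle 1
    have b2 := hle 2
    have b3 := hle 3
    apply le_antisymm (hle i)
    fin_cases i
    · show 1 / 4 ≤ srt v 0 0
      linarith
    · show 1 / 4 ≤ srt v 1 0
      linarith
    · show 1 / 4 ≤ srt v 2 0
      linarith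
    · show 1 / 4 ≤ srt v 3 0
      linarith
  intro i j
  have h2 := sum_srt v i (fun x => x)
  rw [h1 i] at h2
  have a1 := srt_mono v i (show (0 : Fin 4) ≤ 1 by decide)
  have a2 := srt_mono v i (show (0 : Fin 4) ≤ 2 by decide)
  have a3 := srt_mono v i (show (0 : Fin 4) ≤ 3 by decide)
  have a0 := heq i
  have h3 : ∀ k, srt v i k = 1 / 4 := by
    intro k
    fin_cases k
    · exact a0
    · show srt v i 1 = 1 / 4
      linarith
    · show srt v i 2 = 1 / 4
      linarith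
    · show srt v i 3 = 1 / 4
      linarith
  have h4 := h3 ((Tuple.sort (v i)).symm j)
  unfold srt at h4
  rwa [Equiv.apply_symm_apply] at h4

lemma srt_three_le {v : Fin 4 → Fin 4 → ℝ} (h0 : ∀ i j, 0 ≤ v i j) (h1 : ∀ i, ∑ j, v i j = 1)
    (i : Fin 4) : srt v i 3 ≤ 1 := by
  have h2 := sum_srt v i (fun x => x)
  rw [h1 i] at h2
  have a0 : 0 ≤ srt v i 0 := h0 _ _
  have a1 : 0 ≤ srt v i 1 := h0 _ _
  have a2 : 0 ≤ srt v i 2 := h0 _ _
  linarith

lemma srt_three_lt {v : Fin 4 → Fin 4 → ℝ} (h0 : ∀ i j, 0 ≤ v i j) (h1 : ∀ i, ∑ j, v i j = 1)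
    {i : Fin 4} (h : ∀ j, v i j ≠ 1) : srt v i 3 < 1 :=
  lt_of_le_of_ne (srt_three_le h0 h1 i) (h _)

lemma srt_three_eq {v : Fin 4 → Fin 4 → ℝ} (h0 : ∀ i j, 0 ≤ v i j) (h1 : ∀ i, ∑ j, v i j = 1)
    {i : Fin 4} (h : ∃ j, v i j = 1) : srt v i 3 = 1 := by
  obtain ⟨j, hj⟩ := h
  apply le_antisymm (srt_three_le h0 h1 i)
  have h2 : v i j = srt v i ((Tuple.sort (v i)).symm j) := by
    unfold srt
    rw [Equiv.apply_symm_apply]
  rw [← hj, h2]
  apply srt_mono
  exact Fin.le_last _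

/-- the value of a tuple with one digit `4` and three digits `0` -/
lemma val_single (δ : Fin 4 → Fin 4 → ℝ) (i : Fin 4) {t : ℕ} (h4 : digs t i = 4)
    (h0 : ∀ j, j ≠ i → digs t j = 0) : val δ (digs t) = lv δ i 4 := by
  unfold val
  rw [Finset.sum_eq_single i]
  · rw [h4]
  · intro j _ hj
    rw [h0 j hj]
    exact lv_zero δ j
  · intro h
    exact absurd (Finset.mem_univ i) h

lemma lv_four (v : Fin 4 → Fin 4 → ℝ) (i : Fin 4) : lv (inc v) i 4 = srt v i 3 := lv_inc v i 3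

/-- the finite inequality from the two trees -/
theorem star_of {z e T0 : ℕ} (hN : 0 < z + 4 * e) (TA TB : Tr)
    (hA : chk z e T0 TA [156, 4, 20, 100, 500] (dnl [156, 4, 20, 100, 500]) [] 0 = true)
    (hB : chk z e T0 TB [156, 500] (dnl [156, 500]) [4] (upl [4] 0) = true)
    (v : Fin 4 → Fin 4 → ℝ) (h0 : ∀ i j, 0 ≤ v i j) (h1 : ∀ i, ∑ j, v i j = 1) :
    (∀ i j, v i j = 1 / 4) ∨ (∀ i, ∃ j, v i j = 1) ∨
      _root_.K4.Phi v ((e : ℝ) / (z + 4 * e)) ≤ 1 - (T0 : ℝ) / ((z : ℝ) + 4 * e) ^ 4 := by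
  by_cases hu : ∀ i j, v i j = 1 / 4
  · exact Or.inl hu
  by_cases hs : ∀ i, ∃ j, v i j = 1
  · exact Or.inr (Or.inl hs)
  refine Or.inr (Or.inr (Phi_le hN v ?_))
  have hg := good_inc h0 h1
  have h156 := val_156 h1 hu
  push Not at hs
  obtain ⟨q, hq⟩ := hs
  by_cases hn : ∀ i j, v i j ≠ 1
  · -- no unit row
    refine sound0 TA hg ⟨fun d hd => ?_, fun u hu => absurd hu List.not_mem_nil⟩ hA
    have hlt : ∀ i, lv (inc v) i 4 < 1 := by
      intro i
      rw [lv_four]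
      exact srt_three_lt h0 h1 (hn i)
    simp only [List.mem_cons, List.not_mem_nil, or_false] at hd
    rcases hd with rfl | rfl | rfl | rfl | rfl
    · exact h156
    · rw [val_single (inc v) 0 rfl (by decide)]
      exact hlt 0
    · rw [val_single (inc v) 1 rfl (by decide)]
      exact hlt 1
    · rw [val_single (inc v) 2 rfl (by decide)]
      exact hlt 2
    · rw [val_single (inc v) 3 rfl (by decide)]
      exact hlt 3
  · push Not at hn
    obtain ⟨i, j, hij⟩ := hn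
    have hne : i ≠ q := by
      rintro rfl
      exact hq j hij
    have key : ∀ i q : Fin 4, i ≠ q → ∃ τ : Equiv.Perm (Fin 4), τ 0 = i ∧ τ 3 = q := by decide
    obtain ⟨τ, ht0, ht3⟩ := key i q hne
    have hm : mass z e (inc v) = mass z e (fun i => inc v (τ i)) := by
      have := mass_perm z e (inc v) τ.symm
      rw [Equiv.symm_symm] at this
      exact this.symm
    rw [hm]
    have hg' : Good (fun i => inc v (τ i)) := ⟨fun i k => hg.1 _ k, fun i => hg.2 _⟩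
    have hlv : ∀ i k, lv (fun i => inc v (τ i)) i k = lv (inc v) (τ i) k := fun i k => rfl
    refine sound0 TB hg' ⟨fun d hd => ?_, fun u hu => ?_⟩ hB
    · simp only [List.mem_cons, List.not_mem_nil, or_false] at hd
      rcases hd with rfl | rfl
      · have hd : ∀ i : Fin 4, digs 156 i = 1 := by
          intro i
          fin_cases i <;> rfl
        have e2 : val (fun i => inc v (τ i)) (digs 156) = val (inc v) (digs 156) := by
          unfold val
          rw [← Equiv.sum_comp τ (fun i => lv (inc v) i (digs 156 i))]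
          apply Finset.sum_congr rfl
          intro i _
          rw [hlv, hd, hd]
        rw [e2]
        exact h156
      · rw [val_single _ 3 rfl (by decide), hlv, ht3, lv_four]
        exact srt_three_lt h0 h1 hq
    · simp only [List.mem_cons, List.not_mem_nil, or_false] at hu
      rw [hu, val_single _ 0 rfl (by decide), hlv, ht0, lv_four, srt_three_eq h0 h1 ⟨j, hij⟩]

end

end Pool.Agent.Helper96.K4
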