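import Pool.Agent.Helper96.K4.Chk

/-!
# Soundness of the checker
-/

set_option autoImplicit false

open Finset

open scoped Classical

namespace Pool.Agent.Helper96.K4

noncomputable section

/-- the value of a row at level `j` -/
def lv (δ : Fin 4 → Fin 4 → ℝ) (i : Fin 4) (j : ℕ) : ℝ :=
  ∑ k : Fin 4, if (k : ℕ) < j then δ i k else 0

/-- the value of a tuple -/
def val (δ : Fin 4 → Fin 4 → ℝ) (c : Fin 4 → ℕ) : ℝ := ∑ i, lv δ i (c i)

/-- the digits of a code -/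
def digs (t : ℕ) : Fin 4 → ℕ := fun i => dig t i

/-- the increments of four rows of sum one -/
def Good (δ : Fin 4 → Fin 4 → ℝ) : Prop :=
  (∀ i k, 0 ≤ δ i k) ∧ ∀ i, 4 * δ i 0 + 3 * δ i 1 + 2 * δ i 2 + δ i 3 = 1

lemma lv_mono {δ : Fin 4 → Fin 4 → ℝ} (h : Good δ) (i : Fin 4) {a b : ℕ} (hab : a ≤ b) :
    lv δ i a ≤ lv δ i b := by
  apply Finset.sum_le_sum
  intro k _
  by_cases h1 : (k : ℕ) < a
  · rw [if_pos h1, if_pos (lt_of_lt_of_le h1 hab)]
  · rw [if_neg h1]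
    split_ifs
    · exact h.1 i k
    · exact le_refl 0

lemma val_mono {δ : Fin 4 → Fin 4 → ℝ} (h : Good δ) {c d : Fin 4 → ℕ} (hcd : ∀ i, c i ≤ d i) :
    val δ c ≤ val δ d :=
  Finset.sum_le_sum fun i _ => lv_mono h i (hcd i)

/-- the mass of a digit -/
def wt (z e j : ℕ) : ℕ := if j = 0 then z else e

/-- the mass of the tuples of value less than one -/
def mass (z e : ℕ) (δ : Fin 4 → Fin 4 → ℝ) : ℕ :=
  ∑ c : Fin 4 → Fin 5, (∏ i, wt z e (c i)) * (if val δ (fun i => (c i : ℕ)) < 1 then 1 else 0)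

/-! ## The mass of a mask -/

lemma s1_eq (z e x : ℕ) : s1 z e x = ∑ a : Fin 5, wt z e a * (x.testBit a).toNat := by
  rw [Fin.sum_univ_five]
  simp only [Nat.toNat_testBit]
  show z * (x % 2) + e * ((x / 2 % 2 + x / 4 % 2) + (x / 8 % 2 + x / 16 % 2)) = _
  simp only [wt, Fin.val_zero, Fin.val_one, Fin.val_two, if_true]
  have h3 : ((3 : Fin 5) : ℕ) = 3 := rfl
  have h4 : ((4 : Fin 5) : ℕ) = 4 := rfl
  rw [h3, h4]
  norm_num
  ring

lemma sk_eq {ι : Type} [Fintype ι] (z e s : ℕ) (W p : ι → ℕ) (hp : ∀ c, p c < s) (f : ℕ → ℕ)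
    (hf : ∀ y, f y = ∑ c, W c * (y.testBit (p c)).toNat) (x : ℕ) :
    sk z e s f x = ∑ bc : Fin 5 × ι, (wt z e bc.1 * W bc.2) *
      (x.testBit (s * bc.1 + p bc.2)).toNat := by
  have key : z * f x + e * ((f (x >>> s) + f (x >>> (2 * s))) + (f (x >>> (3 * s)) +
      f (x >>> (4 * s)))) = ∑ bc : Fin 5 × ι, (wt z e bc.1 * W bc.2) *
      (x.testBit (s * bc.1 + p bc.2)).toNat := by
    rw [Fintype.sum_prod_type, Fin.sum_univ_five]
    have h3 : ((3 : Fin 5) : ℕ) = 3 := rfl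
    have h4 : ((4 : Fin 5) : ℕ) = 4 := rfl
    simp only [hf, Nat.testBit_shiftRight, wt, Fin.val_zero, Fin.val_one, Fin.val_two, h3, h4,
      if_true, mul_zero, zero_add, mul_one]
    norm_num
    simp only [mul_add, Finset.mul_sum, mul_assoc, mul_comm s]
    ring
  by_cases h0 : x % 2 ^ (5 * s) = 0
  · have h1 : sk z e s f x = 0 := by
      show (bif Nat.beq (x % 2 ^ (5 * s)) 0 then 0 else _) = 0
      rw [h0]
      rfl
    rw [h1]
    symm
    apply Finset.sum_eq_zero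
    intro bc _
    have h2 : x.testBit (s * bc.1 + p bc.2) = false := by
      have h3 : s * bc.1 + p bc.2 < 5 * s := by
        have h4 : (bc.1 : ℕ) ≤ 4 := Nat.le_of_lt_succ bc.1.2
        have h5 := hp bc.2
        have h6 : s * (bc.1 : ℕ) ≤ s * 4 := Nat.mul_le_mul_left _ h4
        omega
      have h7 : (x % 2 ^ (5 * s)).testBit (s * bc.1 + p bc.2) = false := by
        rw [h0]
        exact Nat.zero_testBit _
      rw [Nat.testBit_mod_two_pow] at h7
      simpa [h3] using h7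
    rw [h2]
    simp
  · have h1 : sk z e s f x = z * f x + e * ((f (x >>> s) + f (x >>> (2 * s))) +
        (f (x >>> (3 * s)) + f (x >>> (4 * s)))) := by
      show (bif Nat.beq (x % 2 ^ (5 * s)) 0 then 0 else _) = _
      have h2 : Nat.beq (x % 2 ^ (5 * s)) 0 = false := by
        rw [← Bool.not_eq_true]
        intro h
        exact h0 (Nat.eq_of_beq_eq_true h)
      rw [h2]
      rfl
    rw [h1, key]

/-- tuples as functions -/
def eqv : (Fin 4 → Fin 5) ≃ Fin 5 × Fin 5 × Fin 5 × Fin 5 where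
  toFun c := (c 3, c 2, c 1, c 0)
  invFun x := ![x.2.2.2, x.2.2.1, x.2.1, x.1]
  left_inv c := by
    funext i
    fin_cases i <;> rfl
  right_inv x := rfl

/-- the code of a tuple -/
def code (c : Fin 4 → Fin 5) : ℕ := 125 * (c 3 : ℕ) + (25 * (c 2 : ℕ) + (5 * (c 1 : ℕ) + (c 0 : ℕ)))

lemma s4_eq (z e x : ℕ) : s4 z e x = ∑ c : Fin 4 → Fin 5, (∏ i, wt z e (c i)) *
    (x.testBit (code c)).toNat := by
  have l1 := sk_eq z e 5 (fun a : Fin 5 => wt z e a) (fun a => (a : ℕ)) (fun a => a.2) (s1 z e)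
    (s1_eq z e)
  have l2 := sk_eq z e 25 (fun bc : Fin 5 × Fin 5 => wt z e bc.1 * wt z e bc.2)
    (fun bc => 5 * bc.1 + bc.2) (fun bc => by
      have := bc.1.2
      have := bc.2.2
      show 5 * (bc.1 : ℕ) + bc.2 < 25
      omega) (sk z e 5 (s1 z e)) l1
  have l3 := sk_eq z e 125 (fun bc : Fin 5 × Fin 5 × Fin 5 => wt z e bc.1 *
    (wt z e bc.2.1 * wt z e bc.2.2))
    (fun bc => 25 * bc.1 + (5 * bc.2.1 + bc.2.2)) (fun bc => by
      have := bc.1.2
      have := bc.2.1.2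
      have := bc.2.2.2
      show 25 * (bc.1 : ℕ) + (5 * bc.2.1 + bc.2.2) < 125
      omega) (sk z e 25 (sk z e 5 (s1 z e))) l2 x
  rw [s4, l3, ← eqv.sum_comp]
  apply Finset.sum_congr rfl
  intro c _
  rw [Fin.prod_univ_four]
  show (wt z e (c 3) * (wt z e (c 2) * (wt z e (c 1) * wt z e (c 0)))) *
    (x.testBit (125 * (c 3 : ℕ) + (25 * (c 2 : ℕ) + (5 * (c 1 : ℕ) + (c 0 : ℕ))))).toNat = _
  rw [show wt z e (c 3) * (wt z e (c 2) * (wt z e (c 1) * wt z e (c 0))) =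
    wt z e (c 0) * wt z e (c 1) * wt z e (c 2) * wt z e (c 3) by ring]
  rfl

lemma code_lt (c : Fin 4 → Fin 5) : code c < 625 := by
  have h0 := (c 0).2
  have h1 := (c 1).2
  have h2 := (c 2).2
  have h3 := (c 3).2
  unfold code
  omega

lemma digs_code (c : Fin 4 → Fin 5) : digs (code c) = fun i => (c i : ℕ) := by
  have h0 := (c 0).2
  have h1 := (c 1).2
  have h2 := (c 2).2
  have h3 := (c 3).2
  funext i
  fin_cases i
  · show (125 * (c 3 : ℕ) + (25 * (c 2 : ℕ) + (5 * (c 1 : ℕ) + (c 0 : ℕ)))) / 5 ^ 0 % 5 = (c 0 : ℕ)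
    norm_num
    omega
  · show (125 * (c 3 : ℕ) + (25 * (c 2 : ℕ) + (5 * (c 1 : ℕ) + (c 0 : ℕ)))) / 5 ^ 1 % 5 = (c 1 : ℕ)
    norm_num
    omega
  · show (125 * (c 3 : ℕ) + (25 * (c 2 : ℕ) + (5 * (c 1 : ℕ) + (c 0 : ℕ)))) / 5 ^ 2 % 5 = (c 2 : ℕ)
    norm_num
    omega
  · show (125 * (c 3 : ℕ) + (25 * (c 2 : ℕ) + (5 * (c 1 : ℕ) + (c 0 : ℕ)))) / 5 ^ 3 % 5 = (c 3 : ℕ)
    norm_num
    omega

lemma s4_le_mass (z e : ℕ) {δ : Fin 4 → Fin 4 → ℝ} {X : ℕ}
    (h : ∀ t < 625, X.testBit t = true → val δ (digs t) < 1) : s4 z e X ≤ mass z e δ := by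
  rw [s4_eq, mass]
  apply Finset.sum_le_sum
  intro c _
  apply Nat.mul_le_mul_left
  by_cases hb : X.testBit (code c) = true
  · have h1 := h _ (code_lt c) hb
    rw [digs_code] at h1
    rw [if_pos h1, hb]
    rfl
  · rw [Bool.not_eq_true] at hb
    rw [hb]
    exact Nat.zero_le _

/-! ## Permutations of the rows -/

lemma val_perm (δ : Fin 4 → Fin 4 → ℝ) (g : Equiv.Perm (Fin 4)) (c : Fin 4 → ℕ) :
    val (fun i => δ (g.symm i)) c = val δ (fun i => c (g i)) := by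
  unfold val
  rw [← Equiv.sum_comp g]
  apply Finset.sum_congr rfl
  intro i _
  show lv (fun i => δ (g.symm i)) (g i) (c (g i)) = lv δ i (c (g i))
  unfold lv
  simp only [Equiv.symm_apply_apply]

lemma mass_perm (z e : ℕ) (δ : Fin 4 → Fin 4 → ℝ) (g : Equiv.Perm (Fin 4)) :
    mass z e (fun i => δ (g.symm i)) = mass z e δ := by
  unfold mass
  rw [← (Equiv.arrowCongr g (Equiv.refl (Fin 5))).sum_comp]
  apply Finset.sum_congr rfl
  intro c _
  have h1 : (Equiv.arrowCongr g (Equiv.refl (Fin 5))) c = fun i => c (g.symm i) := rfl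
  rw [h1]
  congr 1
  · exact g.symm.prod_comp (fun i => wt z e (c i))
  · rw [val_perm]
    have h2 : (fun i => ((c (g.symm (g i)) : Fin 5) : ℕ)) = fun i => (c i : ℕ) := by
      funext i
      rw [g.symm_apply_apply]
    rw [h2]

lemma good_perm {δ : Fin 4 → Fin 4 → ℝ} (h : Good δ) (g : Equiv.Perm (Fin 4)) :
    Good (fun i => δ (g.symm i)) :=
  ⟨fun i k => h.1 _ k, fun i => h.2 _⟩

/-! ## Farkas leaves -/

/-- the weighted sum of the values -/
def wsum (δ : Fin 4 → Fin 4 → ℝ) : List (ℕ × ℕ) → ℝ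
  | [] => 0
  | x :: l => x.2 * val δ (digs x.1) + wsum δ l

lemma cf_cons (x : ℕ × ℕ) (l : List (ℕ × ℕ)) (i k : ℕ) :
    cf (x :: l) i k = (if k < dig x.1 i then x.2 else 0) + cf l i k := by
  show (bif Nat.ble (dig x.1 i) k then cf l i k else x.2 + cf l i k) = _
  by_cases h : dig x.1 i ≤ k
  · rw [Nat.ble_eq_true_of_le h, if_neg (by omega), zero_add]
    rfl
  · have h1 : Nat.ble (dig x.1 i) k = false := by
      rw [← Bool.not_eq_true]
      intro h2
      exact h (Nat.le_of_ble_eq_true h2)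
    rw [h1, if_pos (by omega)]
    rfl

lemma wsum_eq (δ : Fin 4 → Fin 4 → ℝ) (l : List (ℕ × ℕ)) :
    wsum δ l = ∑ i : Fin 4, ∑ k : Fin 4, (cf l i k : ℝ) * δ i k := by
  induction l with
  | nil => simp [wsum, cf]
  | cons x l ih =>
    have h1 : wsum δ (x :: l) = x.2 * val δ (digs x.1) + wsum δ l := rfl
    rw [h1, ih]
    simp only [cf_cons]
    push_cast
    simp only [add_mul, Finset.sum_add_distrib]
    congr 1
    unfold val lv
    rw [Finset.mul_sum]
    apply Finset.sum_congr rfl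
    intro i _
    rw [Finset.mul_sum]
    apply Finset.sum_congr rfl
    intro k _
    show (x.2 : ℝ) * (if (k : ℕ) < dig x.1 i then δ i k else 0) = _
    split_ifs <;> simp

lemma tot_le_wsum {δ : Fin 4 → Fin 4 → ℝ} {l : List (ℕ × ℕ)}
    (h : ∀ x ∈ l, 1 ≤ val δ (digs x.1)) : (tot l : ℝ) ≤ wsum δ l := by
  induction l with
  | nil => simp [tot, wsum]
  | cons x l ih =>
    have h1 := ih fun y hy => h y (List.mem_cons_of_mem _ hy)
    have h2 := h x List.mem_cons_self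
    have h3 : tot (x :: l) = x.2 + tot l := rfl
    have h4 : wsum δ (x :: l) = x.2 * val δ (digs x.1) + wsum δ l := rfl
    rw [h3, h4]
    push_cast
    have h5 : (0 : ℝ) ≤ x.2 := Nat.cast_nonneg _
    nlinarith

lemma wsum_le_tot {δ : Fin 4 → Fin 4 → ℝ} {l : List (ℕ × ℕ)}
    (h : ∀ x ∈ l, val δ (digs x.1) < 1) : wsum δ l ≤ tot l ∧ (0 < tot l → wsum δ l < tot l) := by
  induction l with
  | nil => simp [tot, wsum]
  | cons x l ih =>
    obtain ⟨h1, h1'⟩ := ih fun y hy => h y (List.mem_cons_of_mem _ hy)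
    have h2 := h x List.mem_cons_self
    have h3 : tot (x :: l) = x.2 + tot l := rfl
    have h4 : wsum δ (x :: l) = x.2 * val δ (digs x.1) + wsum δ l := rfl
    rw [h3, h4]
    push_cast
    have h5 : (0 : ℝ) ≤ x.2 := Nat.cast_nonneg _
    refine ⟨by nlinarith, fun h6 => ?_⟩
    rcases Nat.eq_zero_or_pos x.2 with h7 | h7
    · rw [h7] at h6 ⊢
      have := h1' (by omega)
      push_cast
      linarith
    · have h8 : (0 : ℝ) < x.2 := by exact_mod_cast h7
      nlinarith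

lemma fk_sound {δ : Fin 4 → Fin 4 → ℝ} (hδ : Good δ) {ys zs : List (ℕ × ℕ)}
    (h : fk ys zs = true) (hy : ∀ x ∈ ys, 1 ≤ val δ (digs x.1))
    (hz : ∀ x ∈ zs, val δ (digs x.1) < 1) : False := by
  have h1 := tot_le_wsum hy
  obtain ⟨h2, h2'⟩ := wsum_le_tot hz
  -- the bound for one row
  have row : ∀ i : Fin 4, 12 * (∑ k : Fin 4, (cf ys i k : ℝ) * δ i k -
      ∑ k : Fin 4, (cf zs i k : ℝ) * δ i k) ≤ (bd ys zs i : ℝ) := by
    intro i
    obtain ⟨g0, gs⟩ := hδ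
    have e := gs i
    have b0 : 3 * ((cf ys i 0 : ℝ) - cf zs i 0) ≤ (bd ys zs i : ℝ) := by
      have : 3 * ((cf ys i 0 : ℤ) - cf zs i 0) ≤ bd ys zs i :=
        le_trans (le_max_left _ _) (le_max_left _ _)
      exact_mod_cast this
    have b1 : 4 * ((cf ys i 1 : ℝ) - cf zs i 1) ≤ (bd ys zs i : ℝ) := by
      have : 4 * ((cf ys i 1 : ℤ) - cf zs i 1) ≤ bd ys zs i :=
        le_trans (le_max_right _ _) (le_max_left _ _)
      exact_mod_cast this
    have b2 : 6 * ((cf ys i 2 : ℝ) - cf zs i 2) ≤ (bd ys zs i : ℝ) := by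
      have : 6 * ((cf ys i 2 : ℤ) - cf zs i 2) ≤ bd ys zs i :=
        le_trans (le_max_left _ _) (le_max_right _ _)
      exact_mod_cast this
    have b3 : 12 * ((cf ys i 3 : ℝ) - cf zs i 3) ≤ (bd ys zs i : ℝ) := by
      have : 12 * ((cf ys i 3 : ℤ) - cf zs i 3) ≤ bd ys zs i :=
        le_trans (le_max_right _ _) (le_max_right _ _)
      exact_mod_cast this
    rw [Fin.sum_univ_four, Fin.sum_univ_four]
    have h3 : ((3 : Fin 4) : ℕ) = 3 := rfl
    simp only [Fin.val_zero, Fin.val_one, Fin.val_two, h3]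
    have m0 := mul_le_mul_of_nonneg_right b0 (g0 i 0)
    have m1 := mul_le_mul_of_nonneg_right b1 (g0 i 1)
    have m2 := mul_le_mul_of_nonneg_right b2 (g0 i 2)
    have m3 := mul_le_mul_of_nonneg_right b3 (g0 i 3)
    have e' : (bd ys zs i : ℝ) * (4 * δ i 0 + 3 * δ i 1 + 2 * δ i 2 + δ i 3) = bd ys zs i := by
      rw [e, mul_one]
    nlinarith
  have hs : 12 * (wsum δ ys - wsum δ zs) ≤ ((bd ys zs 0 + bd ys zs 1 + (bd ys zs 2 + bd ys zs 3) : ℤ)
      : ℝ) := by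
    have r := Finset.sum_le_sum fun (i : Fin 4) (_ : i ∈ Finset.univ) => row i
    rw [← Finset.mul_sum, Finset.sum_sub_distrib, ← wsum_eq, ← wsum_eq,
      Fin.sum_univ_four (fun i : Fin 4 => (bd ys zs i : ℝ))] at r
    have h3 : ((3 : Fin 4) : ℕ) = 3 := rfl
    simp only [Fin.val_zero, Fin.val_one, Fin.val_two, h3] at r
    push_cast
    linarith
  have hfk : (bd ys zs 0 + bd ys zs 1 + (bd ys zs 2 + bd ys zs 3) <
      12 * ((tot ys : ℤ) - tot zs)) ∨ (bd ys zs 0 + bd ys zs 1 + (bd ys zs 2 + bd ys zs 3) =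
      12 * ((tot ys : ℤ) - tot zs) ∧ 0 < tot zs) := by
    unfold fk at h
    simp only [Bool.or_eq_true, Bool.and_eq_true, decide_eq_true_eq] at h
    rcases h with h | ⟨h, h'⟩
    · exact Or.inl h
    · refine Or.inr ⟨h, ?_⟩
      exact Nat.le_of_ble_eq_true h'
  rcases hfk with h3 | ⟨h3, h4⟩
  · have h5 : ((bd ys zs 0 + bd ys zs 1 + (bd ys zs 2 + bd ys zs 3) : ℤ) : ℝ) <
        12 * ((tot ys : ℝ) - tot zs) := by exact_mod_cast h3
    linarith
  · have h5 : ((bd ys zs 0 + bd ys zs 1 + (bd ys zs 2 + bd ys zs 3) : ℤ) : ℝ) =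
        12 * ((tot ys : ℝ) - tot zs) := by exact_mod_cast h3
    have h6 := h2' h4
    linarith

/-! ## The state -/

/-- the masks are below the lists -/
def Masks (Dl : List ℕ) (Dm : ℕ) (Ul : List ℕ) (Um : ℕ) : Prop :=
  (∀ t < 625, Dm.testBit t = true → ∃ d ∈ Dl, ∀ i < 4, dig t i ≤ dig d i) ∧
    ∀ t < 625, Um.testBit t = true → ∃ u ∈ Ul, ∀ i < 4, dig u i ≤ dig t i

/-- the rows satisfy the conditions of the lists -/
def Holds (δ : Fin 4 → Fin 4 → ℝ) (Dl Ul : List ℕ) : Prop :=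
  (∀ d ∈ Dl, val δ (digs d) < 1) ∧ ∀ u ∈ Ul, 1 ≤ val δ (digs u)

lemma act_lt (g t : ℕ) : act g t < 625 := by
  have h0 := dig_le t (pd g 0)
  have h1 := dig_le t (pd g 1)
  have h2 := dig_le t (pd g 2)
  have h3 := dig_le t (pd g 3)
  show dig t (pd g 0) + 5 * dig t (pd g 1) + (25 * dig t (pd g 2) + 125 * dig t (pd g 3)) < 625
  omega

lemma dig_act (g t i : ℕ) (hi : i < 4) : dig (act g t) i = dig t (pd g i) := by
  have h0 := dig_le t (pd g 0)
  have h1 := dig_le t (pd g 1)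
  have h2 := dig_le t (pd g 2)
  have h3 := dig_le t (pd g 3)
  have e : act g t = dig t (pd g 0) + 5 * dig t (pd g 1) +
    (25 * dig t (pd g 2) + 125 * dig t (pd g 3)) := rfl
  have e2 : dig (act g t) i = act g t / 5 ^ i % 5 := rfl
  rw [e2, e]
  interval_cases i
  · norm_num
    omega
  · norm_num
    omega
  · norm_num
    omega
  · norm_num
    omega

lemma pd_lt (g i : ℕ) : pd g i < 4 := Nat.mod_lt _ (by norm_num)

/-- the permutation of a code -/
lemma exists_perm {g : ℕ} (h : isPerm g = true) :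
    ∃ σ : Equiv.Perm (Fin 4), ∀ i : Fin 4, (σ i : ℕ) = pd g i := by
  have h1 : 2 ^ pd g 0 + 2 ^ pd g 1 + (2 ^ pd g 2 + 2 ^ pd g 3) = 15 := Nat.eq_of_beq_eq_true h
  have key : ∀ a b c d : Fin 4, 2 ^ (a : ℕ) + 2 ^ (b : ℕ) + (2 ^ (c : ℕ) + 2 ^ (d : ℕ)) = 15 →
      Function.Injective ![a, b, c, d] := by decide
  have h2 := key ⟨pd g 0, pd_lt g 0⟩ ⟨pd g 1, pd_lt g 1⟩ ⟨pd g 2, pd_lt g 2⟩ ⟨pd g 3, pd_lt g 3⟩ h1
  refine ⟨Equiv.ofBijective _ (Finite.injective_iff_bijective.1 h2), fun i => ?_⟩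
  fin_cases i <;> rfl

lemma val_act {δ : Fin 4 → Fin 4 → ℝ} {g : ℕ} {σ : Equiv.Perm (Fin 4)}
    (hσ : ∀ i : Fin 4, (σ i : ℕ) = pd g i) (t : ℕ) :
    val (fun i => δ (σ.symm i)) (digs t) = val δ (digs (act g t)) := by
  rw [val_perm]
  congr 1
  funext i
  show dig t (σ i) = dig (act g t) i
  rw [dig_act g t i i.2, hσ]

lemma stab_D {δ : Fin 4 → Fin 4 → ℝ} (hδ : Good δ) {g : ℕ} {Dl l : List ℕ} {Dm : ℕ}
    (hm : ∀ t < 625, Dm.testBit t = true → ∃ d ∈ Dl, ∀ i < 4, dig t i ≤ dig d i)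
    (hv : ∀ d ∈ Dl, val δ (digs d) < 1) (h : stab g l Dm = true) :
    ∀ d ∈ l, val δ (digs (act g d)) < 1 := by
  induction l with
  | nil => intro d hd; exact absurd hd List.not_mem_nil
  | cons x l ih =>
    have h1 : (Nat.testBit Dm (act g x) && stab g l Dm) = true := h
    rw [Bool.and_eq_true] at h1
    intro d hd
    rcases List.mem_cons.1 hd with rfl | hd
    · obtain ⟨d', hd', hle⟩ := hm _ (act_lt g d) h1.1
      exact lt_of_le_of_lt (val_mono hδ fun i => hle i i.2) (hv d' hd')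
    · exact ih h1.2 d hd

lemma stab_U {δ : Fin 4 → Fin 4 → ℝ} (hδ : Good δ) {g : ℕ} {Ul l : List ℕ} {Um : ℕ}
    (hm : ∀ t < 625, Um.testBit t = true → ∃ u ∈ Ul, ∀ i < 4, dig u i ≤ dig t i)
    (hv : ∀ u ∈ Ul, 1 ≤ val δ (digs u)) (h : stab g l Um = true) :
    ∀ u ∈ l, 1 ≤ val δ (digs (act g u)) := by
  induction l with
  | nil => intro d hd; exact absurd hd List.not_mem_nil
  | cons x l ih =>
    have h1 : (Nat.testBit Um (act g x) && stab g l Um) = true := h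
    rw [Bool.and_eq_true] at h1
    intro d hd
    rcases List.mem_cons.1 hd with rfl | hd
    · obtain ⟨d', hd', hle⟩ := hm _ (act_lt g d) h1.1
      exact le_trans (hv d' hd') (val_mono hδ fun i => hle i i.2)
    · exact ih h1.2 d hd

lemma mem_D {δ : Fin 4 → Fin 4 → ℝ} (hδ : Good δ) {Dl : List ℕ} {Dm : ℕ}
    (hm : ∀ t < 625, Dm.testBit t = true → ∃ d ∈ Dl, ∀ i < 4, dig t i ≤ dig d i)
    (hv : ∀ d ∈ Dl, val δ (digs d) < 1) {t : ℕ} (ht : t < 625) (h : Dm.testBit t = true) :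
    val δ (digs t) < 1 := by
  obtain ⟨d', hd', hle⟩ := hm _ ht h
  exact lt_of_le_of_lt (val_mono hδ fun i => hle i i.2) (hv d' hd')

lemma mem_U {δ : Fin 4 → Fin 4 → ℝ} (hδ : Good δ) {Ul : List ℕ} {Um : ℕ}
    (hm : ∀ t < 625, Um.testBit t = true → ∃ u ∈ Ul, ∀ i < 4, dig u i ≤ dig t i)
    (hv : ∀ u ∈ Ul, 1 ≤ val δ (digs u)) {t : ℕ} (ht : t < 625) (h : Um.testBit t = true) :
    1 ≤ val δ (digs t) := by
  obtain ⟨d', hd', hle⟩ := hm _ ht h
  exact le_trans (hv d' hd') (val_mono hδ fun i => hle i i.2)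

lemma testBit_upl (l : List ℕ) (m t : ℕ) (h : (upl l m).testBit t = true) :
    m.testBit t = true ∨ ∃ x ∈ l, (up x).testBit t = true := by
  induction l generalizing m with
  | nil => exact Or.inl h
  | cons x l ih =>
    have h1 : (upl l (Nat.lor m (up x))).testBit t = true := h
    rcases ih _ h1 with h2 | ⟨y, hy, h2⟩
    · have h3 : (m ||| up x).testBit t = true := h2
      rw [Nat.testBit_or, Bool.or_eq_true] at h3
      rcases h3 with h3 | h3
      · exact Or.inl h3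
      · exact Or.inr ⟨x, List.mem_cons_self, h3⟩
    · exact Or.inr ⟨y, List.mem_cons_of_mem _ hy, h2⟩

lemma masks_l {Dl : List ℕ} {Dm : ℕ} {Ul : List ℕ} {Um : ℕ} (h : Masks Dl Dm Ul Um) (t : ℕ) :
    Masks (t :: Dl) (Nat.lor Dm (dn t)) Ul Um := by
  refine ⟨fun s hs hb => ?_, h.2⟩
  have h3 : (Dm ||| dn t).testBit s = true := hb
  rw [Nat.testBit_or, Bool.or_eq_true] at h3
  rcases h3 with h3 | h3
  · obtain ⟨d, hd, hle⟩ := h.1 s hs h3
    exact ⟨d, List.mem_cons_of_mem _ hd, hle⟩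
  · exact ⟨t, List.mem_cons_self, dn_le hs h3⟩

lemma masks_r {Dl : List ℕ} {Dm : ℕ} {Ul : List ℕ} {Um : ℕ} (h : Masks Dl Dm Ul Um) (t : ℕ)
    (gs : List ℕ) :
    Masks Dl Dm (t :: (orb t gs ++ Ul)) (upl (t :: orb t gs) Um) := by
  refine ⟨h.1, fun s hs hb => ?_⟩
  rcases testBit_upl _ _ _ hb with h3 | ⟨x, hx, h3⟩
  · obtain ⟨d, hd, hle⟩ := h.2 s hs h3
    exact ⟨d, List.mem_cons_of_mem _ (List.mem_append_right _ hd), hle⟩
  · refine ⟨x, ?_, up_le hs h3⟩
    rcases List.mem_cons.1 hx with rfl | hx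
    · exact List.mem_cons_self
    · exact List.mem_cons_of_mem _ (List.mem_append_left _ hx)

lemma mem_test {l : List (ℕ × ℕ)} {m : ℕ} (h : mem l m = true) :
    ∀ x ∈ l, x.1 < 625 ∧ m.testBit x.1 = true := by
  induction l with
  | nil => intro x hx; exact absurd hx List.not_mem_nil
  | cons y l ih =>
    have h1 : (Nat.blt y.1 625 && (Nat.testBit m y.1 && mem l m)) = true := h
    rw [Bool.and_eq_true, Bool.and_eq_true] at h1
    intro x hx
    rcases List.mem_cons.1 hx with rfl | hx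
    · exact ⟨Nat.le_of_ble_eq_true h1.1, h1.2.1⟩
    · exact ih h1.2.2 x hx

lemma stabAll_mem {gs Dl Ul : List ℕ} {Dm Um : ℕ} (h : stabAll gs Dl Dm Ul Um = true) :
    ∀ g ∈ gs, isPerm g = true ∧ stab g Dl Dm = true ∧ stab g Ul Um = true := by
  induction gs with
  | nil => intro x hx; exact absurd hx List.not_mem_nil
  | cons y l ih =>
    have h1 : (isPerm y && (stab y Dl Dm && stab y Ul Um) && stabAll l Dl Dm Ul Um) = true := h
    rw [Bool.and_eq_true, Bool.and_eq_true, Bool.and_eq_true] at h1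
    intro x hx
    rcases List.mem_cons.1 hx with rfl | hx
    · exact h1.1
    · exact ih h1.2 x hx

lemma mem_orb {t : ℕ} {gs : List ℕ} {x : ℕ} (h : x ∈ orb t gs) : ∃ g ∈ gs, x = act g t := by
  induction gs with
  | nil => exact absurd h List.not_mem_nil
  | cons y l ih =>
    rcases List.mem_cons.1 h with rfl | hx
    · exact ⟨y, List.mem_cons_self, rfl⟩
    · obtain ⟨g, hg, hx⟩ := ih hx
      exact ⟨g, List.mem_cons_of_mem _ hg, hx⟩

/-- soundness of the checker -/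
theorem sound {z e T0 : ℕ} (T : Tr) : ∀ {δ : Fin 4 → Fin 4 → ℝ} {Dl Ul : List ℕ} {Dm Um : ℕ},
    Good δ → Masks Dl Dm Ul Um → Holds δ Dl Ul →
    chk z e T0 T Dl Dm Ul Um = true → T0 ≤ mass z e δ := by
  induction T with
  | w =>
    intro δ Dl Ul Dm Um hδ hm hv h
    have h1 : T0 ≤ s4 z e Dm := Nat.le_of_ble_eq_true h
    exact le_trans h1 (s4_le_mass z e fun t ht hb => mem_D hδ hm.1 hv.1 ht hb)
  | f ys zs =>
    intro δ Dl Ul Dm Um hδ hm hv h
    have h1 : (mem ys Um && mem zs Dm && fk ys zs) = true := h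
    rw [Bool.and_eq_true, Bool.and_eq_true] at h1
    exact (fk_sound hδ h1.2
      (fun x hx => mem_U hδ hm.2 hv.2 (mem_test h1.1.1 x hx).1 (mem_test h1.1.1 x hx).2)
      (fun x hx => mem_D hδ hm.1 hv.1 (mem_test h1.1.2 x hx).1 (mem_test h1.1.2 x hx).2)).elim
  | n t gs l r ihl ihr =>
    intro δ Dl Ul Dm Um hδ hm hv h
    have h1 : (Nat.blt t 625 && (stabAll gs Dl Dm Ul Um &&
      (chk z e T0 l (t :: Dl) (Nat.lor Dm (dn t)) Ul Um &&
        chk z e T0 r Dl Dm (t :: (orb t gs ++ Ul)) (upl (t :: orb t gs) Um)))) = true := h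
    rw [Bool.and_eq_true, Bool.and_eq_true, Bool.and_eq_true] at h1
    obtain ⟨-, hst, hl, hr⟩ := h1
    by_cases hall : 1 ≤ val δ (digs t) ∧ ∀ g ∈ gs, 1 ≤ val δ (digs (act g t))
    · refine ihr hδ (masks_r hm t gs) ⟨hv.1, fun u hu => ?_⟩ hr
      rcases List.mem_cons.1 hu with rfl | hu
      · exact hall.1
      · rcases List.mem_append.1 hu with hu | hu
        · obtain ⟨g, hg, rfl⟩ := mem_orb hu
          exact hall.2 g hg
        · exact hv.2 u hu
    · by_cases h0 : val δ (digs t) < 1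
      · refine ihl hδ (masks_l hm t) ⟨fun d hd => ?_, hv.2⟩ hl
        rcases List.mem_cons.1 hd with rfl | hd
        · exact h0
        · exact hv.1 d hd
      · have h2 : ∃ g ∈ gs, val δ (digs (act g t)) < 1 := by
          by_contra hcon
          push Not at hcon
          exact hall ⟨not_lt.1 h0, hcon⟩
        obtain ⟨g, hg, h3⟩ := h2
        obtain ⟨hp, hD, hU⟩ := stabAll_mem hst g hg
        obtain ⟨σ, hσ⟩ := exists_perm hp
        rw [← mass_perm z e δ σ]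
        refine ihl (good_perm hδ σ) (masks_l hm t) ⟨fun d hd => ?_, fun u hu => ?_⟩ hl
        · rw [val_act hσ]
          rcases List.mem_cons.1 hd with rfl | hd
          · exact h3
          · exact stab_D hδ hm.1 hv.1 hD d hd
        · rw [val_act hσ]
          exact stab_U hδ hm.2 hv.2 hU u hu

end

end Pool.Agent.Helper96.K4
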