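import Pool.Agent.Helper96.K4.Rows
import Pool.Agent.Helper96.K4.CertA
import Pool.Agent.Helper96.K4.CertB

/-!
# The finite inequality for `k = 4` at `m = 9 / 40`

Four independent doses, each with the law of a composition of one into four parts (mass `9 / 40` at
each part, mass `1 / 10` at zero), have sum at least one with probability at most `0.62`, unless all
the compositions are uniform or all are trivial. The two trees are checked by the kernel.
-/

set_option autoImplicit false

namespace Pool.Agent.Helper96.K4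

set_option maxRecDepth 100000 in
theorem okA : chk 4 9 972800 Aroot [156, 4, 20, 100, 500] (dnl [156, 4, 20, 100, 500]) [] 0 =
    true := by
  decide +kernel

set_option maxRecDepth 100000 in
theorem okB : chk 4 9 972800 Broot [156, 500] (dnl [156, 500]) [4] (upl [4] 0) = true := by
  decide +kernel

end Pool.Agent.Helper96.K4

namespace K4

/-- the finite inequality for `k = 4` -/
theorem star (v : Fin 4 → Fin 4 → ℝ) (h0 : ∀ i j, 0 ≤ v i j) (h1 : ∀ i, ∑ j, v i j = 1) :
    (∀ i j, v i j = 1 / 4) ∨ (∀ i, ∃ j, v i j = 1) ∨ Phi v (9 / 40) ≤ 31 / 50 := by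
  have h := Pool.Agent.Helper96.K4.star_of (z := 4) (e := 9) (T0 := 972800) (by norm_num)
    Pool.Agent.Helper96.K4.Aroot Pool.Agent.Helper96.K4.Broot Pool.Agent.Helper96.K4.okA
    Pool.Agent.Helper96.K4.okB v h0 h1
  rcases h with h | h | h
  · exact Or.inl h
  · exact Or.inr (Or.inl h)
  · refine Or.inr (Or.inr ?_)
    have e1 : ((9 : ℕ) : ℝ) / (((4 : ℕ) : ℝ) + 4 * ((9 : ℕ) : ℝ)) = 9 / 40 := by norm_num
    have e2 : 1 - ((972800 : ℕ) : ℝ) / ((((4 : ℕ) : ℝ) + 4 * ((9 : ℕ) : ℝ)) ^ 4) = 31 / 50 := by
      norm_num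
    rw [e1, e2] at h
    exact h

end K4
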